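import Pool.Agent.H53.CF.Defs2

/-!
# helper53 CF module BASIC: elementary API for `Sm`, `Lm`, `ChS`, `ChL`, `Dop`, `bdL`

All statements are routine (support of a shifted function, monotonicity, the boundary squares to
zero: the two insertions of `v ≠ w` come with opposite signs, the boundary commutes with operators
applied to coefficients).
-/

namespace Pool.Agent.H53.CF

open Finset

variable {V : Type*} [Fintype V] [LinearOrder V]
variable {K : Type*} [Field K] {W : Type*} [AddCommGroup W] [Module K W]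
variable {Δ : Finset V → Prop} {d : ℕ} {u : V → Fin d → K}

theorem supp_add_e1 (β : V → ℕ) (v : V) : supp (β + e1 v) = insert v (supp β) := by
  ext w
  by_cases h : w = v
  · subst h
    simp [supp, e1]
  · simp [supp, e1, Pi.single_apply, h]

theorem sum_add_e1 (β : V → ℕ) (v : V) : ∑ w, (β + e1 v) w = ∑ w, β w + 1 := by
  simp [e1, Finset.sum_add_distrib, Pi.single_apply]

theorem Lm_le_Sm {τ : Finset V} {i : ℕ} : Lm K W Δ u τ i ≤ Sm K W Δ τ i :=
  fun _ hf => hf.1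

theorem Sm_mono (hc : IsCpx Δ) {τ τ' : Finset V} (h : τ ⊆ τ') {i : ℕ} :
    Sm K W Δ τ' i ≤ Sm K W Δ τ i := by
  intro f hf α hα
  obtain ⟨h1, h2⟩ := hf α hα
  exact ⟨h1, hc.down _ _ h2 (union_subset_union_right h)⟩

theorem Lm_mono (hc : IsCpx Δ) {τ τ' : Finset V} (h : τ ⊆ τ') {i : ℕ} :
    Lm K W Δ u τ' i ≤ Lm K W Δ u τ i := by
  rintro f ⟨h1, h2⟩
  exact ⟨Sm_mono hc h h1, h2⟩

theorem face_of_ne (hc : IsCpx Δ) {τ : Finset V} {i : ℕ} {f : (V → ℕ) → W}
    (hf : f ∈ Sm K W Δ τ i) (h : f ≠ 0) : Δ τ := by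
  obtain ⟨α, hα⟩ := Function.ne_iff.1 h
  exact hc.down _ _ (hf α hα).2 subset_union_right

theorem shift_mem_Sm (hc : IsCpx Δ) {τ : Finset V} {i : ℕ} {f : (V → ℕ) → W}
    (hf : f ∈ Sm K W Δ τ (i + 1)) (v : V) :
    (fun β => f (β + e1 v)) ∈ Sm K W Δ (insert v τ) i := by
  intro β hβ
  obtain ⟨h1, h2⟩ := hf _ hβ
  rw [sum_add_e1] at h1
  rw [supp_add_e1, insert_union, ← union_insert] at h2
  exact ⟨Nat.succ_injective h1, h2⟩

theorem shift_mem_Lm (hc : IsCpx Δ) {τ : Finset V} {i : ℕ} {f : (V → ℕ) → W}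
    (hf : f ∈ Lm K W Δ u τ (i + 1)) (v : V) :
    (fun β => f (β + e1 v)) ∈ Lm K W Δ u (insert v τ) i := by
  refine ⟨shift_mem_Sm hc hf.1 v, fun j β => ?_⟩
  have h := hf.2 j (β + e1 v)
  rw [← h]
  exact Finset.sum_congr rfl (fun w _ => by rw [add_right_comm])

theorem Dop_ne {B : V → W →ₗ[K] W} {f : (V → ℕ) → W} {β : V → ℕ}
    (h : Dop K W B f β ≠ 0) : ∃ v, f (β + e1 v) ≠ 0 := by
  by_contra hn
  push Not at hn
  apply h
  change ∑ v, B v (f (β + e1 v)) = 0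
  exact Finset.sum_eq_zero (fun v _ => by rw [hn v, map_zero])

theorem Dop_mem_Sm (hc : IsCpx Δ) (B : V → W →ₗ[K] W) {τ : Finset V} {i : ℕ} {f : (V → ℕ) → W}
    (hf : f ∈ Sm K W Δ τ (i + 1)) : Dop K W B f ∈ Sm K W Δ τ i := by
  intro β hβ
  obtain ⟨v, hv⟩ := Dop_ne hβ
  exact Sm_mono hc (subset_insert v τ) (shift_mem_Sm hc hf v) β hv

theorem Dop_mem_Lm (hc : IsCpx Δ) (B : V → W →ₗ[K] W) {τ : Finset V} {i : ℕ} {f : (V → ℕ) → W}
    (hf : f ∈ Lm K W Δ u τ (i + 1)) : Dop K W B f ∈ Lm K W Δ u τ i := by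
  refine ⟨Dop_mem_Sm hc B hf.1, fun j β => ?_⟩
  change ∑ w, u w j • ∑ v, B v (f (β + e1 w + e1 v)) = 0
  simp only [Finset.smul_sum]
  rw [Finset.sum_comm]
  refine Finset.sum_eq_zero (fun v _ => ?_)
  have h := hf.2 j (β + e1 v)
  have h2 : ∑ w, u w j • (B v) (f (β + e1 w + e1 v)) =
      B v (∑ w, u w j • f (β + e1 v + e1 w)) := by
    rw [map_sum]
    exact Finset.sum_congr rfl (fun w _ => by rw [map_smul, add_right_comm])
  rw [h2, h, map_zero]

theorem Dop_Sm_zero (B : V → W →ₗ[K] W) {τ : Finset V} {f : (V → ℕ) → W}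
    (hf : f ∈ Sm K W Δ τ 0) : Dop K W B f = 0 := by
  funext β
  by_contra hβ
  obtain ⟨v, hv⟩ := Dop_ne hβ
  have h1 := (hf _ hv).1
  rw [sum_add_e1] at h1
  exact absurd h1 (Nat.succ_ne_zero _)

omit [Fintype V] in
private theorem sg_insert_of_lt {v w : V} (h : v < w) {ρ : Finset V} (hv : v ∉ ρ) :
    sg w (insert v ρ) = - sg w ρ := by
  unfold sg
  rw [filter_insert, if_pos h, card_insert_of_notMem (by simp [hv]), pow_succ]
  ring

omit [Fintype V] in
private theorem sg_insert_of_gt {v w : V} (h : w < v) {ρ : Finset V} :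
    sg w (insert v ρ) = sg w ρ := by
  unfold sg
  rw [filter_insert, if_neg (not_lt.2 h.le)]

private theorem sg_swap {v w : V} (h : v ≠ w) {ρ : Finset V} (hv : v ∉ ρ) (hw : w ∉ ρ) :
    sg v ρ * sg w (insert v ρ) = - (sg w ρ * sg v (insert w ρ)) := by
  rcases lt_or_gt_of_ne h with h | h
  · rw [sg_insert_of_lt h hv, sg_insert_of_gt h]
    ring
  · rw [sg_insert_of_gt h, sg_insert_of_lt h hw]
    ring

private theorem bd_bd {M : Type*} [AddCommGroup M] (c : Finset V → M) (ρ : Finset V) :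
    bd (bd c) ρ = 0 := by
  have h1 : bd (bd c) ρ = ∑ p ∈ ((univ : Finset (V × V)).filter
      (fun p => p.1 ≠ p.2 ∧ p.1 ∉ ρ ∧ p.2 ∉ ρ)),
      (sg p.1 ρ * sg p.2 (insert p.1 ρ)) • c (insert p.2 (insert p.1 ρ)) := by
    unfold bd
    simp only [Finset.smul_sum, smul_smul]
    rw [Finset.sum_sigma']
    refine Finset.sum_bij' (fun x _ => (x.1, x.2)) (fun p _ => ⟨p.1, p.2⟩) ?_ ?_ ?_ ?_ ?_
    · rintro ⟨v, w⟩ h
      simp only [mem_sigma, mem_compl, mem_insert, not_or] at h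
      simp only [mem_filter, mem_univ, true_and]
      exact ⟨fun he => h.2.1 he.symm, h.1, h.2.2⟩
    · rintro ⟨v, w⟩ h
      simp only [mem_filter, mem_univ, true_and] at h
      simp only [mem_sigma, mem_compl, mem_insert, not_or]
      exact ⟨h.2.1, fun he => h.1 he.symm, h.2.2⟩
    · rintro ⟨v, w⟩ _
      rfl
    · rintro ⟨v, w⟩ _
      rfl
    · rintro ⟨v, w⟩ _
      rfl
  rw [h1]
  refine Finset.sum_involution (fun p _ => (p.2, p.1)) ?_ ?_ ?_ ?_
  · rintro ⟨v, w⟩ h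
    simp only [mem_filter, mem_univ, true_and] at h
    dsimp only
    rw [sg_swap h.1 h.2.1 h.2.2, insert_comm w v ρ, neg_smul, neg_add_cancel]
  · rintro ⟨v, w⟩ h _
    simp only [mem_filter, mem_univ, true_and] at h
    intro he
    exact h.1 (congrArg Prod.snd he)
  · rintro ⟨v, w⟩ h
    simp only [mem_filter, mem_univ, true_and] at h ⊢
    exact ⟨fun he => h.1 he.symm, h.2.2, h.2.1⟩
  · rintro ⟨v, w⟩ _
    rfl

theorem bdL_bdL (c : Finset V → (V → ℕ) → W) : bdL K W (bdL K W c) = 0 := by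
  funext ρ
  exact bd_bd c ρ

theorem bdL_DopC (B : V → W →ₗ[K] W) (c : Finset V → (V → ℕ) → W) :
    bdL K W (DopC K W B c) = DopC K W B (bdL K W c) := by
  funext ρ
  change ∑ v ∈ ρᶜ, sg v ρ • Dop K W B (c (insert v ρ)) =
    Dop K W B (∑ v ∈ ρᶜ, sg v ρ • c (insert v ρ))
  rw [map_sum]
  exact Finset.sum_congr rfl (fun v _ => by rw [map_zsmul])

private theorem bd_ne {M : Type*} [AddCommGroup M] {c : Finset V → M} {ρ : Finset V}
    (h : bd c ρ ≠ 0) : ∃ v, v ∉ ρ ∧ c (insert v ρ) ≠ 0 := by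
  by_contra hn
  push Not at hn
  apply h
  exact Finset.sum_eq_zero (fun v hv => by rw [hn v (mem_compl.1 hv), smul_zero])

theorem bdL_mem_ChS (hc : IsCpx Δ) {τ : Finset V} {p i : ℕ} {c : Finset V → (V → ℕ) → W}
    (h : c ∈ ChS K W Δ τ (p + 1) i) : bdL K W c ∈ ChS K W Δ τ p i := by
  intro ρ
  constructor
  · change ∑ v ∈ ρᶜ, sg v ρ • c (insert v ρ) ∈ _
    refine Submodule.sum_mem _ (fun v _ => ?_)
    refine zsmul_mem ?_ _
    exact Sm_mono hc (union_subset_union_right (subset_insert v ρ)) (h (insert v ρ)).1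
  · intro hne
    obtain ⟨v, hv, h1⟩ := bd_ne hne
    obtain ⟨h2, h3⟩ := (h _).2 h1
    rw [card_insert_of_notMem hv] at h2
    exact ⟨Nat.succ_injective h2, disjoint_of_subset_left (subset_insert v ρ) h3⟩

theorem bdL_mem_ChL (hc : IsCpx Δ) {τ : Finset V} {p i : ℕ} {c : Finset V → (V → ℕ) → W}
    (h : c ∈ ChL K W Δ u τ (p + 1) i) : bdL K W c ∈ ChL K W Δ u τ p i := by
  intro ρ
  constructor
  · change ∑ v ∈ ρᶜ, sg v ρ • c (insert v ρ) ∈ _
    refine Submodule.sum_mem _ (fun v _ => ?_)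
    refine zsmul_mem ?_ _
    exact Lm_mono hc (union_subset_union_right (subset_insert v ρ)) (h (insert v ρ)).1
  · intro hne
    obtain ⟨v, hv, h1⟩ := bd_ne hne
    obtain ⟨h2, h3⟩ := (h _).2 h1
    rw [card_insert_of_notMem hv] at h2
    exact ⟨Nat.succ_injective h2, disjoint_of_subset_left (subset_insert v ρ) h3⟩

/-- For `p = 0` the boundary vanishes. -/
theorem bdL_ChS_zero {τ : Finset V} {i : ℕ} {c : Finset V → (V → ℕ) → W}
    (h : c ∈ ChS K W Δ τ 0 i) : bdL K W c = 0 := by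
  funext ρ
  by_contra hne
  obtain ⟨v, hv, h1⟩ := bd_ne hne
  obtain ⟨h2, _⟩ := (h _).2 h1
  rw [card_insert_of_notMem hv] at h2
  exact absurd h2 (Nat.succ_ne_zero _)

theorem DopC_mem_ChS (hc : IsCpx Δ) (B : V → W →ₗ[K] W) {τ : Finset V} {p i : ℕ}
    {c : Finset V → (V → ℕ) → W} (h : c ∈ ChS K W Δ τ p (i + 1)) :
    DopC K W B c ∈ ChS K W Δ τ p i := by
  intro ρ
  refine ⟨Dop_mem_Sm hc B (h ρ).1, fun hne => (h ρ).2 (fun h0 => hne ?_)⟩
  change Dop K W B (c ρ) = 0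
  rw [h0, map_zero]

theorem DopC_mem_ChL (hc : IsCpx Δ) (B : V → W →ₗ[K] W) {τ : Finset V} {p i : ℕ}
    {c : Finset V → (V → ℕ) → W} (h : c ∈ ChL K W Δ u τ p (i + 1)) :
    DopC K W B c ∈ ChL K W Δ u τ p i := by
  intro ρ
  refine ⟨Dop_mem_Lm hc B (h ρ).1, fun hne => (h ρ).2 (fun h0 => hne ?_)⟩
  change Dop K W B (c ρ) = 0
  rw [h0, map_zero]

theorem DopC_ChS_zero (B : V → W →ₗ[K] W) {τ : Finset V} {p : ℕ}
    {c : Finset V → (V → ℕ) → W} (h : c ∈ ChS K W Δ τ p 0) : DopC K W B c = 0 := by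
  funext ρ
  exact Dop_Sm_zero B (h ρ).1

theorem ChL_le_ChS {τ : Finset V} {p i : ℕ} : ChL K W Δ u τ p i ≤ ChS K W Δ τ p i :=
  fun _ hc ρ => ⟨Lm_le_Sm (hc ρ).1, (hc ρ).2⟩

/-- The chain concentrated at the empty set. -/
def ch0 (f : (V → ℕ) → W) : Finset V → (V → ℕ) → W := fun ρ => if ρ = ∅ then f else 0

theorem ch0_mem_ChS {τ : Finset V} {i : ℕ} {f : (V → ℕ) → W} (hf : f ∈ Sm K W Δ τ i) :
    ch0 f ∈ ChS K W Δ τ 0 i := by
  intro ρ
  by_cases h : ρ = ∅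
  · subst h
    simp only [ch0, if_true, union_empty]
    exact ⟨hf, fun _ => ⟨card_empty, disjoint_empty_left _⟩⟩
  · simp only [ch0, if_neg h]
    exact ⟨Submodule.zero_mem _, fun h0 => absurd rfl h0⟩

theorem ch0_mem_ChL {τ : Finset V} {i : ℕ} {f : (V → ℕ) → W} (hf : f ∈ Lm K W Δ u τ i) :
    ch0 f ∈ ChL K W Δ u τ 0 i := by
  intro ρ
  by_cases h : ρ = ∅
  · subst h
    simp only [ch0, if_true, union_empty]
    exact ⟨hf, fun _ => ⟨card_empty, disjoint_empty_left _⟩⟩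
  · simp only [ch0, if_neg h]
    exact ⟨Submodule.zero_mem _, fun h0 => absurd rfl h0⟩

theorem eq_ch0_of_mem {τ : Finset V} {i : ℕ} {c : Finset V → (V → ℕ) → W}
    (h : c ∈ ChS K W Δ τ 0 i) : c = ch0 (c ∅) := by
  funext ρ
  by_cases hρ : ρ = ∅
  · subst hρ
    simp [ch0]
  · simp only [ch0, if_neg hρ]
    by_contra hne
    exact hρ (card_eq_zero.1 ((h ρ).2 hne).1)

theorem DopC_ch0 (B : V → W →ₗ[K] W) (f : (V → ℕ) → W) :
    DopC K W B (ch0 f) = ch0 (Dop K W B f) := by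
  funext ρ
  change Dop K W B (ch0 f ρ) = ch0 (Dop K W B f) ρ
  by_cases hρ : ρ = ∅
  · simp only [ch0, if_pos hρ]
  · simp only [ch0, if_neg hρ, map_zero]

theorem bdL_apply_empty (c : Finset V → (V → ℕ) → W) : bdL K W c ∅ = ∑ v, c {v} := by
  change ∑ v ∈ ∅ᶜ, sg v ∅ • c (insert v ∅) = _
  rw [compl_empty]
  refine Finset.sum_congr rfl (fun v _ => ?_)
  simp [sg]

theorem finite_Sm [Module.Finite K W] (τ : Finset V) (i : ℕ) :
    Module.Finite K (Sm K W Δ τ i) := by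
  let R : (Sm K W Δ τ i) →ₗ[K] ((Finset.piAntidiag (univ : Finset V) i) → W) :=
    { toFun := fun f a => f.1 a.1
      map_add' := fun f g => rfl
      map_smul' := fun c f => rfl }
  refine Module.Finite.of_injective R ?_
  intro f g hfg
  apply Subtype.ext
  funext α
  by_cases h : ∑ v, α v = i
  · exact congrFun hfg ⟨α, by simp [mem_piAntidiag, h]⟩
  · have hf : f.1 α = 0 := by
      by_contra hne
      exact h (f.2 α hne).1
    have hg : g.1 α = 0 := by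
      by_contra hne
      exact h (g.2 α hne).1
    rw [hf, hg]

theorem finite_Lm [Module.Finite K W] (τ : Finset V) (i : ℕ) :
    Module.Finite K (Lm K W Δ u τ i) := by
  haveI := finite_Sm (K := K) (W := W) (Δ := Δ) τ i
  exact Submodule.finiteDimensional_of_le (Lm_le_Sm (K := K) (W := W) (Δ := Δ) (u := u))

end Pool.Agent.H53.CF
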