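import Pool.Agent.H53.CF.CMChase

/-!
# helper53 CF module CM: Koszul acyclicity of all stars

Downward induction on `|η|` (faces have at most `d` vertices by `Lsop`): claim for all faces
`ρ ⊇ η`. For `ρ ≠ η` pick `v ∈ ρ \ η` and use `cone_step` and the induction hypothesis for
`insert v η`. For `ρ = η`: if `|η| = d`, then `q > d` and `Kz` is `0` (`gr_top`);
if `|η| < d` use `cm_chase`.
-/

namespace Pool.Agent.H53.CF

open Finset

variable {V : Type*} [Fintype V] [LinearOrder V]
variable {K : Type*} [Field K] {Δ : Finset V → Prop} {d : ℕ} {u : V → Fin d → K}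

theorem card_le (hu : Lsop K Δ u) {τ : Finset V} (hτ : Δ τ) : τ.card ≤ d := by
  have h := (hu τ hτ).fintype_card_le_finrank
  simpa using h

theorem kozEx (hS : HomSphere K Δ d) (hu : Lsop K Δ u) {ρ η : Finset V} (hρ : Δ ρ)
    (hη : η ⊆ ρ) : KozEx K Δ u ρ η := by
  have main : ∀ n : ℕ, ∀ η : Finset V, d - η.card = n → ∀ ρ : Finset V, Δ ρ → η ⊆ ρ →
      KozEx K Δ u ρ η := by
    intro n
    induction n using Nat.strong_induction_on with
    | _ n ih =>
      intro η hn
      have hne : ∀ ρ : Finset V, η ⊂ ρ → Δ ρ → KozEx K Δ u ρ η := by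
        intro ρ hss hρ
        obtain ⟨v, hvρ, hvη⟩ := Finset.exists_of_ssubset hss
        have hins : insert v η ⊆ ρ := Finset.insert_subset hvρ hss.1
        have h1 : (insert v η).card ≤ d := (Finset.card_le_card hins).trans (card_le hu hρ)
        have h2 : (insert v η).card = η.card + 1 := Finset.card_insert_of_notMem hvη
        exact cone_step hS.cpx hu hρ hvρ hvη hss.1
          (ih (d - (insert v η).card) (by omega) _ rfl ρ hρ hins)
      intro ρ hρ hηρ
      rcases eq_or_ssubset_of_subset hηρ with h | h
      · subst h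
        rcases Nat.lt_or_ge η.card d with h1 | h1
        · exact cm_chase hS hρ h1 hne
        · intro q i f hq hf _
          have hf0 : f = 0 := by
            funext α
            exact gr_top (hf.2.1 α) (by rw [Fintype.card_fin]; omega)
          exact ⟨0, Submodule.zero_mem _, by rw [map_zero, hf0]⟩
      · exact hne ρ h hρ
  exact main _ η rfl ρ hρ hη

end Pool.Agent.H53.CF
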