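import Pool.Agent.H53.CF.Defs

/-!
# helper53 CF module FOCK: the fermionic relations for `eps`, `iot`

Functions on the finite subsets of a finite linearly ordered set `I`. Pointwise computation of
signs: `sg j (insert k S) = ± sg j S` with `-` iff `k < j` (for `k ∉ S`, `k ≠ j`), so that for
`j ≠ k` the two orders of insertion / removal have opposite signs.
-/

namespace Pool.Agent.H53.CF

open Finset

variable {I : Type*} [Fintype I] [LinearOrder I] {K : Type*} [Field K]

/-! ### signs -/

theorem sg_insert_fock {j k : I} {S : Finset I} (hk : k ∉ S) :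
    sg j (insert k S) = if k < j then - sg j S else sg j S := by
  unfold sg
  rw [filter_insert]
  split_ifs with h
  · rw [card_insert_of_notMem (by simp [hk]), pow_succ]; ring
  · rfl

theorem sg_erase_fock {j k : I} {S : Finset I} (hk : k ∈ S) :
    sg j (S.erase k) = if k < j then - sg j S else sg j S := by
  have h := sg_insert_fock (j := j) (k := k) (S := S.erase k) (by simp)
  rw [insert_erase hk] at h
  rw [h]
  split_ifs <;> ring

theorem sg_insert_self_fock (j : I) (S : Finset I) : sg j (insert j S) = sg j S := by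
  unfold sg
  rw [filter_insert, if_neg (lt_irrefl j)]

theorem sg_erase_self_fock (j : I) (S : Finset I) : sg j (S.erase j) = sg j S := by
  unfold sg
  congr 2
  ext w
  simp only [mem_filter, mem_erase]
  constructor
  · rintro ⟨⟨_, h1⟩, h2⟩; exact ⟨h1, h2⟩
  · rintro ⟨h1, h2⟩; exact ⟨⟨h2.ne, h1⟩, h2⟩

theorem sg_mul_self_fock (j : I) (S : Finset I) : sg j S * sg j S = 1 := by
  unfold sg
  rw [← mul_pow]; norm_num

theorem sg_mul_self_cast_fock (K : Type*) [Field K] (j : I) (S : Finset I) :
    (sg j S : K) * (sg j S : K) = 1 := by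
  have := congrArg (Int.cast : ℤ → K) (sg_mul_self_fock j S)
  push_cast at this
  exact this

theorem sg_ee_fock {j k : I} {S : Finset I} (hj : j ∈ S) (hk : k ∈ S) (hne : j ≠ k) :
    sg j S * sg k (S.erase j) = - (sg k S * sg j (S.erase k)) := by
  rw [sg_erase_fock hj, sg_erase_fock hk]
  rcases lt_or_gt_of_ne hne with h | h
  · rw [if_pos h, if_neg (not_lt.2 h.le)]; ring
  · rw [if_neg (not_lt.2 h.le), if_pos h]; ring

theorem sg_ii_fock {j k : I} {S : Finset I} (hj : j ∉ S) (hk : k ∉ S) (hne : j ≠ k) :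
    sg j S * sg k (insert j S) = - (sg k S * sg j (insert k S)) := by
  rw [sg_insert_fock hj, sg_insert_fock hk]
  rcases lt_or_gt_of_ne hne with h | h
  · rw [if_pos h, if_neg (not_lt.2 h.le)]; ring
  · rw [if_neg (not_lt.2 h.le), if_pos h]; ring

theorem sg_ie_fock {j k : I} {S : Finset I} (hj : j ∉ S) (hk : k ∈ S) (hne : j ≠ k) :
    sg j S * sg k (insert j S) = - (sg k S * sg j (S.erase k)) := by
  rw [sg_insert_fock hj, sg_erase_fock hk]
  rcases lt_or_gt_of_ne hne with h | h
  · rw [if_pos h, if_neg (not_lt.2 h.le)]; ring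
  · rw [if_neg (not_lt.2 h.le), if_pos h]; ring

theorem cast_neg_fock (K : Type*) [Field K] {a b c e : ℤ} (h : a * b = -(c * e)) :
    (a : K) * (b : K) = -((c : K) * (e : K)) := by
  have := congrArg (Int.cast : ℤ → K) h
  push_cast at this
  exact this

theorem eps_apply_fock (a : I → K) (ω : Finset I → K) (S : Finset I) :
    eps K a ω S = ∑ j ∈ S, (sg j S : K) * a j * ω (S.erase j) := rfl

theorem iot_apply_fock (a : I → K) (ω : Finset I → K) (S : Finset I) :
    iot K a ω S = ∑ j ∈ Sᶜ, (sg j S : K) * a j * ω (insert j S) := rfl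

/-- an antisymmetric sum over a symmetric relation without loops vanishes -/
theorem pair_zero_fock (A : Finset I) (T : I → Finset I)
    (hT : ∀ j k, j ∈ A → k ∈ T j → k ∈ A ∧ j ∈ T k) (hne : ∀ j, j ∉ T j) (t : I → I → K)
    (ht : ∀ j k, j ∈ A → k ∈ T j → t j k + t k j = 0) : ∑ j ∈ A, ∑ k ∈ T j, t j k = 0 := by
  rw [Finset.sum_sigma']
  refine Finset.sum_involution (fun x _ => ⟨x.2, x.1⟩) ?_ ?_ ?_ ?_
  · rintro ⟨j, k⟩ h
    rw [mem_sigma] at h
    exact ht j k h.1 h.2
  · rintro ⟨j, k⟩ h _ heq
    rw [mem_sigma] at h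
    rw [Sigma.mk.injEq] at heq
    have : k = j := heq.1
    subst this
    exact hne _ h.2
  · rintro ⟨j, k⟩ h
    rw [mem_sigma] at h ⊢
    exact hT j k h.1 h.2
  · rintro ⟨j, k⟩ _
    rfl

theorem eps_eps (a b : I → K) (ω : Finset I → K) :
    eps K a (eps K b ω) = - eps K b (eps K a ω) := by
  funext S
  rw [Pi.neg_apply, eps_apply_fock, eps_apply_fock]
  simp only [eps_apply_fock, Finset.mul_sum]
  rw [Finset.sum_comm' (t' := S) (s' := fun k => S.erase k) (by
    intro j k
    simp only [mem_erase]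
    constructor
    · rintro ⟨h1, h2, h3⟩; exact ⟨⟨fun h => h2 h.symm, h1⟩, h3⟩
    · rintro ⟨⟨h2, h1⟩, h3⟩; exact ⟨h1, fun h => h2 h.symm, h3⟩), ← Finset.sum_neg_distrib]
  refine Finset.sum_congr rfl (fun k hk => ?_)
  rw [← Finset.sum_neg_distrib]
  refine Finset.sum_congr rfl (fun j hj => ?_)
  rw [mem_erase] at hj
  have h := cast_neg_fock K (sg_ee_fock hj.2 hk hj.1)
  rw [Finset.erase_right_comm]
  linear_combination (a j * b k * ω ((S.erase k).erase j)) * h

theorem eps_sq (a : I → K) (ω : Finset I → K) : eps K a (eps K a ω) = 0 := by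
  funext S
  rw [Pi.zero_apply, eps_apply_fock]
  simp only [eps_apply_fock, Finset.mul_sum]
  refine pair_zero_fock S (fun j => S.erase j) ?_ ?_ _ ?_
  · intro j k hj hk
    rw [mem_erase] at hk ⊢
    exact ⟨hk.2, fun h => hk.1 h.symm, hj⟩
  · intro j; simp
  · intro j k hj hk
    rw [mem_erase] at hk
    have h := cast_neg_fock K (sg_ee_fock hj hk.2 hk.1.symm)
    rw [Finset.erase_right_comm (a := k)]
    linear_combination (a j * a k * ω ((S.erase j).erase k)) * h

theorem iot_iot (a b : I → K) (ω : Finset I → K) :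
    iot K a (iot K b ω) = - iot K b (iot K a ω) := by
  funext S
  rw [Pi.neg_apply, iot_apply_fock, iot_apply_fock]
  simp only [iot_apply_fock, Finset.mul_sum]
  rw [Finset.sum_comm' (t' := Sᶜ) (s' := fun k => (insert k S)ᶜ) (by
    intro j k
    simp only [mem_compl, mem_insert, not_or]
    constructor
    · rintro ⟨h1, h2, h3⟩; exact ⟨⟨fun h => h2 h.symm, h1⟩, h3⟩
    · rintro ⟨⟨h2, h1⟩, h3⟩; exact ⟨h1, fun h => h2 h.symm, h3⟩), ← Finset.sum_neg_distrib]
  refine Finset.sum_congr rfl (fun k hk => ?_)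
  rw [← Finset.sum_neg_distrib]
  refine Finset.sum_congr rfl (fun j hj => ?_)
  rw [mem_compl, mem_insert, not_or] at hj
  rw [mem_compl] at hk
  have h := cast_neg_fock K (sg_ii_fock hj.2 hk hj.1)
  rw [Finset.insert_comm]
  linear_combination (a j * b k * ω (insert j (insert k S))) * h

theorem iot_sq (a : I → K) (ω : Finset I → K) : iot K a (iot K a ω) = 0 := by
  funext S
  rw [Pi.zero_apply, iot_apply_fock]
  simp only [iot_apply_fock, Finset.mul_sum]
  refine pair_zero_fock Sᶜ (fun j => (insert j S)ᶜ) ?_ ?_ _ ?_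
  · intro j k hj hk
    simp only [mem_compl, mem_insert, not_or] at hj hk ⊢
    exact ⟨hk.2, fun h => hk.1 h.symm, hj⟩
  · intro j; simp
  · intro j k hj hk
    simp only [mem_compl, mem_insert, not_or] at hj hk
    have h := cast_neg_fock K (sg_ii_fock hj hk.2 (fun h => hk.1 h.symm))
    rw [Finset.insert_comm j k]
    linear_combination (a j * a k * ω (insert k (insert j S))) * h

theorem iot_eps (m a : I → K) (ω : Finset I → K) :
    iot K m (eps K a ω) + eps K a (iot K m ω) = (∑ j, m j * a j) • ω := by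
  funext S
  rw [Pi.add_apply, Pi.smul_apply, smul_eq_mul, iot_apply_fock, eps_apply_fock]
  have h1 : ∀ j ∈ Sᶜ, (sg j S : K) * m j * eps K a ω (insert j S) =
      m j * a j * ω S + ∑ k ∈ S, (sg j S : K) * m j *
        ((sg k (insert j S) : K) * a k * ω ((insert j S).erase k)) := by
    intro j hj
    rw [mem_compl] at hj
    rw [eps_apply_fock, Finset.sum_insert hj, mul_add, Finset.mul_sum, sg_insert_self_fock,
      erase_insert hj]
    have h := sg_mul_self_cast_fock K j S
    linear_combination (m j * a j * ω S) * h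
  have h2 : ∀ k ∈ S, (sg k S : K) * a k * iot K m ω (S.erase k) =
      m k * a k * ω S + ∑ j ∈ Sᶜ, (sg k S : K) * a k *
        ((sg j (S.erase k) : K) * m j * ω (insert j (S.erase k))) := by
    intro k hk
    have hc : (S.erase k)ᶜ = insert k Sᶜ := by
      ext x
      simp only [mem_compl, mem_erase, mem_insert]
      tauto
    rw [iot_apply_fock, hc, Finset.sum_insert (by simp [hk]), mul_add, Finset.mul_sum,
      sg_erase_self_fock, insert_erase hk]
    have h := sg_mul_self_cast_fock K k S
    linear_combination (m k * a k * ω S) * h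
  rw [Finset.sum_congr rfl h1, Finset.sum_congr rfl h2, Finset.sum_add_distrib,
    Finset.sum_add_distrib]
  have h3 : ∑ j ∈ Sᶜ, ∑ k ∈ S, (sg j S : K) * m j *
        ((sg k (insert j S) : K) * a k * ω ((insert j S).erase k)) =
      - ∑ k ∈ S, ∑ j ∈ Sᶜ, (sg k S : K) * a k *
        ((sg j (S.erase k) : K) * m j * ω (insert j (S.erase k))) := by
    rw [Finset.sum_comm, ← Finset.sum_neg_distrib]
    refine Finset.sum_congr rfl (fun k hk => ?_)
    rw [← Finset.sum_neg_distrib]
    refine Finset.sum_congr rfl (fun j hj => ?_)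
    rw [mem_compl] at hj
    have hne : j ≠ k := fun h => hj (h ▸ hk)
    have h := cast_neg_fock K (sg_ie_fock hj hk hne)
    rw [Finset.erase_insert_of_ne hne]
    linear_combination (m j * a k * ω (insert j (S.erase k))) * h
  rw [h3]
  have h4 : ∑ j ∈ Sᶜ, m j * a j * ω S + ∑ j ∈ S, m j * a j * ω S = (∑ j, m j * a j) * ω S := by
    rw [← Finset.sum_mul, ← Finset.sum_mul, ← add_mul, Finset.sum_compl_add_sum]
  rw [← h4]
  ring

theorem eps_add (a b : I → K) (ω : Finset I → K) :
    eps K (a + b) ω = eps K a ω + eps K b ω := by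
  funext S
  rw [Pi.add_apply]
  simp only [eps_apply_fock]
  rw [← Finset.sum_add_distrib]
  refine Finset.sum_congr rfl (fun j _ => ?_)
  rw [Pi.add_apply]; ring

theorem eps_smul (c : K) (a : I → K) (ω : Finset I → K) : eps K (c • a) ω = c • eps K a ω := by
  funext S
  rw [Pi.smul_apply, smul_eq_mul]
  simp only [eps_apply_fock]
  rw [Finset.mul_sum]
  refine Finset.sum_congr rfl (fun j _ => ?_)
  rw [Pi.smul_apply, smul_eq_mul]; ring

theorem iot_add (a b : I → K) (ω : Finset I → K) :
    iot K (a + b) ω = iot K a ω + iot K b ω := by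
  funext S
  rw [Pi.add_apply]
  simp only [iot_apply_fock]
  rw [← Finset.sum_add_distrib]
  refine Finset.sum_congr rfl (fun j _ => ?_)
  rw [Pi.add_apply]; ring

theorem iot_smul (c : K) (a : I → K) (ω : Finset I → K) : iot K (c • a) ω = c • iot K a ω := by
  funext S
  rw [Pi.smul_apply, smul_eq_mul]
  simp only [iot_apply_fock]
  rw [Finset.mul_sum]
  refine Finset.sum_congr rfl (fun j _ => ?_)
  rw [Pi.smul_apply, smul_eq_mul]; ring

theorem eps_gr {q : ℕ} {ω : Finset I → K} (a : I → K) (h : IsGr K q ω) :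
    IsGr K (q + 1) (eps K a ω) := by
  intro S hS
  rw [eps_apply_fock] at hS
  obtain ⟨j, hj, hne⟩ := Finset.exists_ne_zero_of_sum_ne_zero hS
  have h1 := h _ (right_ne_zero_of_mul hne)
  rw [card_erase_of_mem hj] at h1
  have h2 : 0 < S.card := card_pos.2 ⟨j, hj⟩
  omega

theorem iot_gr {q : ℕ} {ω : Finset I → K} (a : I → K) (h : IsGr K (q + 1) ω) :
    IsGr K q (iot K a ω) := by
  intro S hS
  rw [iot_apply_fock] at hS
  obtain ⟨j, hj, hne⟩ := Finset.exists_ne_zero_of_sum_ne_zero hS
  have h1 := h _ (right_ne_zero_of_mul hne)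
  rw [card_insert_of_notMem (mem_compl.1 hj)] at h1
  omega

theorem iot_gr_zero {ω : Finset I → K} (a : I → K) (h : IsGr K 0 ω) : iot K a ω = 0 := by
  funext S
  rw [Pi.zero_apply, iot_apply_fock]
  refine Finset.sum_eq_zero (fun j hj => ?_)
  by_contra hne
  have h1 := h _ (right_ne_zero_of_mul hne)
  rw [card_insert_of_notMem (mem_compl.1 hj)] at h1
  omega

theorem gr_top {q : ℕ} {ω : Finset I → K} (h : IsGr K q ω) (hq : Fintype.card I < q) :
    ω = 0 := by
  funext S
  by_contra hne
  have h1 := h S hne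
  have h2 := Finset.card_le_univ S
  omega

/-- `eps` and `iot` are adjoint for the standard bilinear form. -/
theorem eps_adj (a : I → K) (x y : Finset I → K) :
    ∑ S, eps K a x S * y S = ∑ S, x S * iot K a y S := by
  simp only [eps_apply_fock, iot_apply_fock, Finset.sum_mul, Finset.mul_sum]
  rw [Finset.sum_comm' (t' := (univ : Finset I))
    (s' := fun j => (univ : Finset (Finset I)).filter (fun S => j ∈ S)) (by
      intro S j; simp)]
  rw [Finset.sum_comm' (s := (univ : Finset (Finset I))) (t := fun S => Sᶜ)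
    (t' := (univ : Finset I))
    (s' := fun j => (univ : Finset (Finset I)).filter (fun S => j ∉ S)) (by
      intro S j; simp)]
  refine Finset.sum_congr rfl (fun j _ => ?_)
  refine Finset.sum_nbij' (fun S => S.erase j) (fun S => insert j S) ?_ ?_ ?_ ?_ ?_
  · intro S hS; simp
  · intro S hS; simp
  · intro S hS
    rw [mem_filter] at hS
    exact insert_erase hS.2
  · intro S hS
    rw [mem_filter] at hS
    exact erase_insert hS.2
  · intro S hS
    rw [mem_filter] at hS
    rw [insert_erase hS.2, sg_erase_self_fock]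
    ring

end Pool.Agent.H53.CF
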