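import Pool.Agent.H53.CF.TOp
import Pool.Agent.H53.CF.Fock

/-!
# helper53 CF module CONESTEP: `KozEx ρ (insert v η) → KozEx ρ η` for `v ∈ ρ \ η`

Let `f ∈ Kz ρ η q i`, `κ f = 0`, `|η| < q`. Choose `m₀ : Fin d → K` with `⟨m₀, u v⟩ = 1` and
`⟨m₀, u w⟩ = 0` for `w ∈ η` (linear independence of the `u w`, `w ∈ insert v η ⊆ ρ`).
Write `ε_w = eps (u w)`, `ι = iot m₀`: `ι ε_w + ε_w ι = ⟨m₀, u w⟩`.
(1) `f₁ = ε_v f ∈ Kz ρ (insert v η) (q + 1) i`, `κ f₁ = - ε_v κ f = 0`, so `f₁ = κ g₁` with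
`g₁ ∈ Kz ρ (insert v η) q (i + 1)`. As `ε_v g₁ = 0`, `g₁ = ε_v g₂` with `g₂ = ι g₁`
(and `ε_w g₂ = 0` for `w ∈ η`, degree `q - 1`). So `f₁ = κ ε_v g₂ = - ε_v κ g₂` and
`f' = f + κ g₂` satisfies `ε_v f' = 0`, `κ f' = 0` (`κ κ = 0`: anticommuting `ε`, commuting shifts),
`f' ∈ Kz ρ η q i`.
(2) With `T` of `exists_T` for `m w = ⟨m₀, u w⟩`: `κ T f' = 0` since
`κ T f' = ∑_{w ≠ v} ε_w T X_w f' + ε_v X_v T f' = T (κ f' - ε_v X_v f') + X_v T ε_v f' = 0`,
and `κ ι T f' = ∑_w (⟨m₀, u w⟩ - ι ε_w) X_w T f' = θ T f' - ι κ T f' = f'`.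
So `f = κ (ι T f' - g₂)`.
-/

namespace Pool.Agent.H53.CF

open Finset

variable {V : Type*} [Fintype V] [LinearOrder V]
variable {K : Type*} [Field K] {Δ : Finset V → Prop} {d : ℕ} {u : V → Fin d → K}

theorem kap_apply_cone (f : (V → ℕ) → Finset (Fin d) → K) (β : V → ℕ) :
    kap K u f β = ∑ v, eps K (u v) (f (β + e1 v)) := rfl

theorem double_zero_cone {M : Type*} [AddCommGroup M] (t : V → V → M) (h0 : ∀ v, t v v = 0)
    (h : ∀ v w, t v w + t w v = 0) : ∑ v, ∑ w, t v w = 0 := by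
  classical
  rw [← Finset.sum_product']
  refine Finset.sum_involution (fun x _ => (x.2, x.1)) ?_ ?_ ?_ ?_
  · rintro ⟨a, b⟩ _
    exact h a b
  · rintro ⟨a, b⟩ _ hne heq
    rw [Prod.mk.injEq] at heq
    apply hne
    have : b = a := heq.1
    subst this
    exact h0 _
  · rintro ⟨a, b⟩ _
    simp
  · rintro ⟨a, b⟩ _
    rfl

/-- `κ κ = 0`. -/
theorem kap_kap (f : (V → ℕ) → Finset (Fin d) → K) : kap K u (kap K u f) = 0 := by
  funext β
  rw [kap_apply_cone]
  simp only [kap_apply_cone, map_sum, Pi.zero_apply]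
  apply double_zero_cone
  · intro v
    exact eps_sq _ _
  · intro v w
    rw [eps_eps (u v) (u w), add_right_comm β (e1 w) (e1 v)]
    exact neg_add_cancel _

theorem isGr_add_cone {q : ℕ} {x y : Finset (Fin d) → K} (hx : IsGr K q x) (hy : IsGr K q y) :
    IsGr K q (x + y) := by
  intro S h
  by_cases h0 : x S = 0
  · exact hy S (fun h1 => h (by rw [Pi.add_apply, h0, h1, add_zero]))
  · exact hx S h0

theorem isGr_sum_cone {ι : Type*} {q : ℕ} (s : Finset ι) (x : ι → Finset (Fin d) → K)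
    (hx : ∀ i ∈ s, IsGr K q (x i)) : IsGr K q (∑ i ∈ s, x i) := by
  classical
  induction s using Finset.induction_on with
  | empty => intro S h; simp at h
  | insert a s ha ih =>
    rw [Finset.sum_insert ha]
    exact isGr_add_cone (hx a (mem_insert_self _ _))
      (ih (fun i hi => hx i (mem_insert_of_mem hi)))

theorem kap_mem_Kz (hc : IsCpx Δ) {ρ η : Finset V} {q i : ℕ}
    {f : (V → ℕ) → Finset (Fin d) → K} (hf : f ∈ Kz K Δ u ρ η q (i + 1)) :
    kap K u f ∈ Kz K Δ u ρ η (q + 1) i := by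
  obtain ⟨h1, h2, h3⟩ := hf
  refine ⟨Dop_mem_Sm hc _ h1, fun α => ?_, fun w hw α => ?_⟩
  · rw [kap_apply_cone]
    exact isGr_sum_cone _ _ (fun v _ => eps_gr _ (h2 _))
  · rw [kap_apply_cone, map_sum]
    refine Finset.sum_eq_zero (fun v _ => ?_)
    rw [eps_eps, h3 w hw, map_zero, neg_zero]

theorem cone_step (hc : IsCpx Δ) (hu : Lsop K Δ u) {ρ η : Finset V} (hρ : Δ ρ) {v : V}
    (hv : v ∈ ρ) (hvη : v ∉ η) (hη : η ⊆ ρ) (h : KozEx K Δ u ρ (insert v η)) :
    KozEx K Δ u ρ η := by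
  intro q i f hq hf hκ
  -- the functional `m₀`
  obtain ⟨m₀, hm1, hm0⟩ : ∃ m₀ : Fin d → K, (∑ j, m₀ j * u v j = 1) ∧
      ∀ w ∈ η, ∑ j, m₀ j * u w j = 0 := by
    have hli := hu ρ hρ
    obtain ⟨φ, hφ⟩ := LinearMap.exists_extend ((Module.Basis.span hli).coord ⟨v, hv⟩)
    have key : ∀ w (hw : w ∈ ρ), φ (u w) = if w = v then 1 else 0 := by
      intro w hw
      have h1 : φ (u w) = (Module.Basis.span hli).coord ⟨v, hv⟩
          ((Module.Basis.span hli) ⟨w, hw⟩) := by
        rw [← hφ, LinearMap.comp_apply, Submodule.subtype_apply, Module.Basis.span_apply]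
      rw [h1, Module.Basis.coord_apply, Module.Basis.repr_self, Finsupp.single_apply]
      by_cases hwv : w = v
      · subst hwv; simp
      · rw [if_neg hwv, if_neg (fun h => hwv (congrArg Subtype.val h))]
    have hsum : ∀ x : Fin d → K, ∑ j, φ (Pi.single j 1) * x j = φ x := by
      intro x
      rw [LinearMap.pi_apply_eq_sum_univ φ x]
      refine Finset.sum_congr rfl (fun j _ => ?_)
      rw [smul_eq_mul, mul_comm]
      congr 2
      funext k
      rw [Pi.single_apply]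
      simp only [eq_comm]
    refine ⟨fun j => φ (Pi.single j 1), ?_, fun w hw => ?_⟩
    · rw [hsum, key v hv, if_pos rfl]
    · rw [hsum, key w (hη hw), if_neg (fun (e : w = v) => hvη (e ▸ hw))]
  obtain ⟨q', rfl⟩ : ∃ q', q = q' + 1 := ⟨q - 1, by omega⟩
  obtain ⟨hf1, hf2, hf3⟩ := hf
  rw [Nat.add_sub_cancel]
  -- step (1)
  set f₁ : (V → ℕ) → Finset (Fin d) → K := fun α => eps K (u v) (f α) with hf₁
  have hf₁m : f₁ ∈ Kz K Δ u ρ (insert v η) (q' + 1 + 1) i := by
    refine ⟨fun α hα => hf1 α (fun h0 => hα ?_), fun α => eps_gr _ (hf2 α), fun w hw α => ?_⟩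
    · rw [hf₁]; simp only [h0, map_zero]
    · rw [hf₁]
      simp only
      rcases mem_insert.1 hw with rfl | hw
      · exact eps_sq _ _
      · rw [eps_eps, hf3 w hw, map_zero, neg_zero]
  have hf₁κ : kap K u f₁ = 0 := by
    funext β
    rw [kap_apply_cone]
    have h1 : ∀ w, eps K (u w) (f₁ (β + e1 w)) = - eps K (u v) (eps K (u w) (f (β + e1 w))) :=
      fun w => eps_eps _ _ _
    simp only [h1, Finset.sum_neg_distrib, ← map_sum]
    rw [← kap_apply_cone, hκ]
    simp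
  obtain ⟨g₁, ⟨hg1, hg2, hg3⟩, hg₁κ⟩ := h (q' + 1 + 1) i f₁
    (by rw [card_insert_of_notMem hvη]; omega) hf₁m hf₁κ
  rw [Nat.add_sub_cancel] at hg2
  set g₂ : (V → ℕ) → Finset (Fin d) → K := fun α => iot K m₀ (g₁ α) with hg₂
  have hεv : ∀ α, eps K (u v) (g₂ α) = g₁ α := by
    intro α
    have h1 := iot_eps m₀ (u v) (g₁ α)
    rw [hg3 v (mem_insert_self _ _), map_zero, zero_add, hm1, one_smul] at h1
    exact h1
  have hεw : ∀ w ∈ η, ∀ α, eps K (u w) (g₂ α) = 0 := by
    intro w hw α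
    have h1 := iot_eps m₀ (u w) (g₁ α)
    rw [hg3 w (mem_insert_of_mem hw), map_zero, zero_add, hm0 w hw, zero_smul] at h1
    exact h1
  have hg₂m : g₂ ∈ Kz K Δ u ρ η q' (i + 1) := by
    refine ⟨fun α hα => hg1 α (fun h0 => hα ?_), fun α => iot_gr _ (hg2 α), hεw⟩
    rw [hg₂]; simp only [h0, map_zero]
  have hκg₂m := kap_mem_Kz hc hg₂m
  set f' := f + kap K u g₂ with hf'
  have hf'm : f' ∈ Kz K Δ u ρ η (q' + 1) i := Submodule.add_mem _ ⟨hf1, hf2, hf3⟩ hκg₂m
  have hf'κ : kap K u f' = 0 := by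
    rw [hf', map_add, hκ, kap_kap, add_zero]
  have hf'v : ∀ α, eps K (u v) (f' α) = 0 := by
    intro α
    have h1 : eps K (u v) (kap K u g₂ α) = - f₁ α := by
      rw [← hg₁κ, kap_apply_cone, kap_apply_cone, map_sum, ← Finset.sum_neg_distrib]
      refine Finset.sum_congr rfl (fun w _ => ?_)
      rw [eps_eps, hεv]
    rw [hf', Pi.add_apply, map_add, h1]
    exact add_neg_cancel _
  obtain ⟨hf'1, hf'2, hf'3⟩ := hf'm
  -- step (2)
  obtain ⟨T, hT1, hT2, hT3, hT4⟩ := exists_T (K := K) (W := Finset (Fin d) → K) v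
    (fun w => ∑ j, m₀ j * u w j) hm1
  have hT3' : ∀ (B : (Finset (Fin d) → K) →ₗ[K] (Finset (Fin d) → K)),
      (∀ α, B (f' α) = 0) → ∀ α, B (T f' α) = 0 := by
    intro B hB α
    have h1 := congrFun (hT3 B f') α
    have h2 : (fun β => B (f' β)) = 0 := by funext β; exact hB β
    rw [h2, map_zero] at h1
    exact h1
  have hTm := hT4 Δ hc ρ hv i f' hf'1
  have hTgr : ∀ α, IsGr K (q' + 1) (T f' α) := by
    intro α
    let B : (Finset (Fin d) → K) →ₗ[K] (Finset (Fin d) → K) :=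
      { toFun := fun ω S => if S.card = q' + 1 then 0 else ω S
        map_add' := fun x y => by
          funext S
          simp only [Pi.add_apply]
          split_ifs <;> simp
        map_smul' := fun c x => by
          funext S
          simp only [Pi.smul_apply, RingHom.id_apply]
          split_ifs <;> simp }
    have hB : ∀ α, B (f' α) = 0 := by
      intro α
      funext S
      change (if S.card = q' + 1 then 0 else f' α S) = 0
      split_ifs with h1
      · rfl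
      · by_contra h2
        exact h1 (hf'2 α S h2)
    intro S hS
    by_contra h1
    have h2 := congrFun (hT3' B hB α) S
    change (if S.card = q' + 1 then 0 else T f' α S) = 0 at h2
    rw [if_neg h1] at h2
    exact hS h2
  have hTw : ∀ w ∈ η, ∀ α, eps K (u w) (T f' α) = 0 := fun w hw =>
    hT3' (eps K (u w)) (hf'3 w hw)
  have hκT : kap K u (T f') = 0 := by
    have h1 : kap K u (T f') = T (kap K u f') := by
      funext β
      have h2 : kap K u f' = ∑ w, fun β => eps K (u w) (f' (β + e1 w)) := by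
        funext β
        rw [kap_apply_cone, Finset.sum_apply]
      rw [h2, map_sum, Finset.sum_apply, kap_apply_cone]
      refine Finset.sum_congr rfl (fun w _ => ?_)
      by_cases hwv : w = v
      · subst hwv
        have h3 : (fun β => eps K (u w) (f' (β + e1 w))) = 0 := by
          funext β; exact hf'v _
        rw [h3, map_zero, hT3' (eps K (u w)) hf'v]
        rfl
      · have h3 := congrFun (hT2 w hwv f') β
        have h4 := congrFun (hT3 (eps K (u w)) (fun β => f' (β + e1 w))) β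
        rw [h3]
        exact h4
    rw [h1, hf'κ, map_zero]
  set g₃ : (V → ℕ) → Finset (Fin d) → K := fun α => iot K m₀ (T f' α) with hg₃
  have hg₃m : g₃ ∈ Kz K Δ u ρ η q' (i + 1) := by
    refine ⟨fun α hα => hTm α (fun h0 => hα ?_), fun α => iot_gr _ (hTgr α), fun w hw α => ?_⟩
    · rw [hg₃]; simp only [h0, map_zero]
    · have h1 := iot_eps m₀ (u w) (T f' α)
      rw [hTw w hw, map_zero, zero_add, hm0 w hw, zero_smul] at h1
      exact h1
  have hg₃κ : kap K u g₃ = f' := by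
    funext β
    rw [kap_apply_cone]
    have h1 : ∀ w, eps K (u w) (g₃ (β + e1 w)) = (∑ j, m₀ j * u w j) • T f' (β + e1 w) -
        iot K m₀ (eps K (u w) (T f' (β + e1 w))) := by
      intro w
      rw [← iot_eps m₀ (u w) (T f' (β + e1 w)), hg₃]
      simp only
      abel
    simp only [h1, Finset.sum_sub_distrib, ← map_sum]
    rw [← kap_apply_cone, hκT, hT1]
    simp
  refine ⟨g₃ - g₂, Submodule.sub_mem _ hg₃m hg₂m, ?_⟩
  rw [map_sub, hg₃κ, hf']
  abel

end Pool.Agent.H53.CF
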