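import Pool.Agent.H53.CF.Coef

/-!
# helper53 CF module TOP: exactness of the chains with coefficients `Sm`

Pointwise in the monomial `α`: the chain `ρ ↦ c ρ α` lives on the `ρ` of the link of `τ` with
`Δ (supp α ∪ τ ∪ ρ)`. If `supp α ⊆ τ` this is the link of `τ`: use `acycW`. Otherwise fix
`v ∈ supp α \ τ`: then `b_α (ρ) = ± c (ρ \ {v}) α` for `v ∈ ρ` (sign `sg v (ρ \ {v})`), `0` for
`v ∉ ρ`, satisfies `bd b_α = c · α` (cone; note `Δ (supp α ∪ τ ∪ ρ ∪ {v}) ↔ Δ (supp α ∪ τ ∪ ρ)`).
Here `α` with `∑ α ≠ i` or not `Δ (supp α ∪ τ)` give `0`.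
-/

namespace Pool.Agent.H53.CF

open Finset

variable {V : Type*} [Fintype V] [LinearOrder V]
variable {K : Type*} [Field K] {W : Type*} [AddCommGroup W] [Module K W]
variable {Δ : Finset V → Prop} {d : ℕ}

omit [Fintype V] in
theorem top_sg_sq (v : V) (ρ : Finset V) : sg v ρ * sg v ρ = 1 := by
  unfold sg
  rw [← pow_add, ← two_mul, pow_mul]
  norm_num

omit [Fintype V] in
theorem top_sg_insert_lt {v w : V} {σ : Finset V} (hv : v ∉ σ) (h : v < w) :
    sg w (insert v σ) = -sg w σ := by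
  unfold sg
  rw [filter_insert, if_pos h, card_insert_of_notMem (fun h1 => hv (mem_filter.1 h1).1), pow_succ]
  ring

omit [Fintype V] in
theorem top_sg_insert_gt {v w : V} {σ : Finset V} (h : w < v) :
    sg w (insert v σ) = sg w σ := by
  unfold sg
  rw [filter_insert, if_neg (not_lt.2 h.le)]

omit [Fintype V] in
/-- the two insertions come with opposite signs -/
theorem top_sg_swap {v w : V} {σ : Finset V} (hv : v ∉ σ) (hw : w ∉ σ) (hvw : w ≠ v) :
    sg w (insert v σ) * sg v (insert w σ) = -(sg v σ * sg w σ) := by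
  rcases lt_or_gt_of_ne hvw with h | h
  · rw [top_sg_insert_gt h, top_sg_insert_lt hw h]
    ring
  · rw [top_sg_insert_lt hv h, top_sg_insert_gt h]
    ring

/-- the cone with apex `v` -/
theorem top_cone (v : V) (g : Finset V → W) (hg : ∀ ρ, bd g ρ = 0) (ρ : Finset V) :
    bd (fun σ => if v ∈ σ then sg v (σ.erase v) • g (σ.erase v) else 0) ρ = g ρ := by
  unfold bd
  by_cases hv : v ∈ ρ
  · have hs : insert v (ρ.erase v) = ρ := insert_erase hv
    have h1 : (ρ.erase v)ᶜ = insert v ρᶜ := by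
      ext x
      simp only [mem_compl, mem_erase, mem_insert]
      tauto
    have h2 := hg (ρ.erase v)
    unfold bd at h2
    rw [h1, sum_insert (by simpa using hv), hs] at h2
    have h3 : ∀ w ∈ ρᶜ, (sg w ρ • (if v ∈ insert w ρ then
        sg v ((insert w ρ).erase v) • g ((insert w ρ).erase v) else 0)) =
        -(sg v (ρ.erase v) • (sg w (ρ.erase v) • g (insert w (ρ.erase v)))) := by
      intro w hw
      have hwρ : w ∉ ρ := mem_compl.1 hw
      have hwv : w ≠ v := fun h => hwρ (h ▸ hv)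
      have h4 : (insert w ρ).erase v = insert w (ρ.erase v) := by
        rw [erase_insert_of_ne hwv]
      rw [if_pos (mem_insert_of_mem hv), h4, smul_smul, smul_smul]
      have h5 := top_sg_swap (notMem_erase v ρ) (fun h => hwρ (mem_of_mem_erase h)) hwv
      rw [hs] at h5
      rw [h5, neg_smul]
    rw [sum_congr rfl h3, sum_neg_distrib, ← smul_sum]
    have h6 : ∑ w ∈ ρᶜ, sg w (ρ.erase v) • g (insert w (ρ.erase v)) =
        -(sg v (ρ.erase v) • g ρ) := by
      rw [eq_neg_iff_add_eq_zero, add_comm]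
      exact h2
    rw [h6, smul_neg, neg_neg, smul_smul, top_sg_sq, one_smul]
  · rw [sum_eq_single v]
    · beta_reduce
      rw [if_pos (mem_insert_self v ρ), erase_insert hv, smul_smul, top_sg_sq, one_smul]
    · intro w _ hwv
      have h1 : v ∉ insert w ρ := by
        intro h
        rcases mem_insert.1 h with h | h
        · exact hwv h.symm
        · exact hv h
      beta_reduce
      rw [if_neg h1, smul_zero]
    · intro h
      exact absurd (mem_compl.2 hv) h

theorem chS_exact (hS : HomSphere K Δ d) {τ : Finset V} (hτ : Δ τ) {p i : ℕ}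
    (hp : p + τ.card < d) (W' : Submodule K W) {c : Finset V → (V → ℕ) → W}
    (hc : c ∈ ChS K W Δ τ p i) (hcW : ∀ ρ α, c ρ α ∈ W') (hb : bdL K W c = 0) :
    ∃ b ∈ ChS K W Δ τ (p + 1) i, (∀ ρ α, b ρ α ∈ W') ∧ bdL K W b = c := by
  classical
  have hbd : ∀ α ρ, bd (fun σ => c σ α) ρ = 0 := by
    intro α ρ
    have h1 : bdL K W c ρ α = 0 := by rw [hb]; rfl
    rw [← h1]
    change _ = (bd c ρ) α
    unfold bd
    rw [Finset.sum_apply]
    rfl
  have hc1 : ∀ ρ α, c ρ α ≠ 0 → (∑ v, α v = i ∧ Δ (supp α ∪ (τ ∪ ρ))) ∧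
      (ρ.card = p ∧ Disjoint ρ τ) := by
    intro ρ α h
    refine ⟨(hc ρ).1 α h, (hc ρ).2 (fun h0 => h ?_)⟩
    rw [h0]
    rfl
  have key : ∀ α : V → ℕ, ∃ b : Finset V → W,
      (∀ ρ, b ρ ≠ 0 → (∑ v, α v = i ∧ Δ (supp α ∪ (τ ∪ ρ))) ∧ (ρ.card = p + 1 ∧ Disjoint ρ τ)) ∧
      (∀ ρ, b ρ ∈ W') ∧ ∀ ρ, bd b ρ = c ρ α := by
    intro α
    by_cases hα : supp α ⊆ τ
    · by_cases hi : ∑ v, α v = i
      · have hU : ∀ ρ : Finset V, supp α ∪ (τ ∪ ρ) = ρ ∪ τ := by
          intro ρ
          rw [union_comm ρ τ]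
          exact union_eq_right.2 (hα.trans subset_union_left)
        obtain ⟨b, hb1, hb2, hb3⟩ := acycW hS hτ hp W' (fun ρ => c ρ α)
          (fun ρ h => by
            have h1 := hc1 ρ α h
            refine ⟨h1.2.1, h1.2.2, ?_⟩
            rw [← hU ρ]
            exact h1.1.2) (fun ρ => hcW ρ α) (hbd α)
        refine ⟨b, fun ρ h => ?_, hb2, hb3⟩
        have h1 := hb1 ρ h
        refine ⟨⟨hi, ?_⟩, h1.1, h1.2.1⟩
        rw [hU ρ]
        exact h1.2.2
      · refine ⟨fun _ => 0, fun ρ h => absurd rfl h, fun ρ => W'.zero_mem, fun ρ => ?_⟩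
        have h1 : c ρ α = 0 := by
          by_contra h
          exact hi (hc1 ρ α h).1.1
        rw [h1]
        unfold bd
        exact sum_eq_zero (fun v _ => smul_zero _)
    · obtain ⟨v, hv, hvτ⟩ := not_subset.1 hα
      refine ⟨fun σ => if v ∈ σ then sg v (σ.erase v) • c (σ.erase v) α else 0,
        fun ρ h => ?_, fun ρ => ?_, fun ρ => top_cone v (fun σ => c σ α) (hbd α) ρ⟩
      · by_cases hvρ : v ∈ ρ
        · have h0 : c (ρ.erase v) α ≠ 0 := by
            intro h1
            apply h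
            simp only [if_pos hvρ, h1, smul_zero]
          have h1 := hc1 _ α h0
          refine ⟨⟨h1.1.1, ?_⟩, ?_, ?_⟩
          · have h2 : supp α ∪ (τ ∪ ρ) = supp α ∪ (τ ∪ ρ.erase v) := by
              ext x
              simp only [mem_union, mem_erase]
              by_cases hx : x = v
              · subst hx
                simp [hv]
              · simp [hx]
            rw [h2]
            exact h1.1.2
          · have h2 := h1.2.1
            rw [card_erase_of_mem hvρ] at h2
            have h3 : 0 < ρ.card := card_pos.2 ⟨v, hvρ⟩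
            omega
          · rw [← insert_erase hvρ, disjoint_insert_left]
            exact ⟨hvτ, h1.2.2⟩
        · exact absurd (if_neg hvρ) h
      · by_cases hvρ : v ∈ ρ
        · simp only [if_pos hvρ]
          exact W'.toAddSubgroup.zsmul_mem (hcW _ _) _
        · simp only [if_neg hvρ]
          exact W'.zero_mem
  choose b hb1 hb2 hb3 using key
  refine ⟨fun ρ α => b α ρ, fun ρ => ⟨fun α h => (hb1 α ρ h).1, fun h => ?_⟩,
    fun ρ α => hb2 α ρ, ?_⟩
  · obtain ⟨α, hα⟩ := Function.ne_iff.1 h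
    exact (hb1 α ρ hα).2
  · funext ρ α
    rw [← hb3 α ρ]
    change (bd (fun ρ α => b α ρ) ρ) α = _
    unfold bd
    rw [Finset.sum_apply]
    rfl

end Pool.Agent.H53.CF
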