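import Pool.Agent.H53.CF.Chase
import Pool.Agent.H53.CF.Top
import Pool.Agent.H53.CF.ConeStep

/-!
# helper53 CF module CMCHASE: Koszul acyclicity of the star of `η` relative to `η`

`f ∈ Kz η η q i`, `κ f = 0`, `|η| < q`, `|η| < d`. Use `chase` on `M = Finset V → (V → ℕ) → Fock`
with `∂ = bdL`, `κ = DopC (eps ∘ u)`, and (for `p ≥ 1`)
`A p` = chains in position `p` over the link of `η`, with values in `Kz (η ∪ ρ) η (q + p - 1) (i + 1 - p)`,
`B p` = same with `Kz (η ∪ ρ) η (q + p) (i - p)`, `G p` = same with `Kz (η ∪ ρ) η (q + p - 2) (i + 2 - p)`;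
`P = i + 1` (`κ` vanishes on degree `0`); everything is `0` once the exterior degree exceeds `d`, so
exactness in position `p` is only needed for `q + p ≤ d`, hence `p + |η| < d` (`chS_exact` with
`W' =` forms of degree `q + p` killed by `eps (u v)`, `v ∈ η`). `κ`-exactness for `p ≥ 1` is the
hypothesis for the faces `η ∪ ρ`, `ρ ≠ ∅`.
First step: `ch0 f = ∂ z₁`, `z₁ ∈ A 1` (position `0`: `0 + |η| < d`), `∂ κ z₁ = κ ∂ z₁ = 0`, so
`z₁ = κ g + ∂ h` and `ch0 f = ∂ κ g = κ ∂ g`; `∂ g ∈` chains in position `0`, evaluate at `∅`.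
-/

namespace Pool.Agent.H53.CF

open Finset

variable {V : Type*} [Fintype V] [LinearOrder V]
variable {K : Type*} [Field K] {Δ : Finset V → Prop} {d : ℕ} {u : V → Fin d → K}

/-- Chains in position `p` over the link of `η` with coefficients in the Koszul spaces. -/
private def ChK (Δ : Finset V → Prop) (u : V → Fin d → K) (η : Finset V) (p q i : ℕ) :
    Submodule K (Finset V → (V → ℕ) → Finset (Fin d) → K) where
  carrier := {c | ∀ ρ, c ρ ∈ Kz K Δ u (η ∪ ρ) η q i ∧ (c ρ ≠ 0 → ρ.card = p ∧ Disjoint ρ η)}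
  add_mem' := by
    intro a b ha hb ρ
    refine ⟨Submodule.add_mem _ (ha ρ).1 (hb ρ).1, fun h => ?_⟩
    by_cases h0 : a ρ = 0
    · exact (hb ρ).2 (fun h1 => h (by rw [Pi.add_apply, h0, h1, add_zero]))
    · exact (ha ρ).2 h0
  zero_mem' := fun ρ => ⟨Submodule.zero_mem _, fun h => absurd rfl h⟩
  smul_mem' := by
    intro c a ha ρ
    exact ⟨Submodule.smul_mem _ _ (ha ρ).1,
      fun h => (ha ρ).2 (fun h1 => h (by rw [Pi.smul_apply, h1, smul_zero]))⟩

/-- Forms of degree `q` killed by `eps (u v)`, `v ∈ η`. -/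
private def Wq (u : V → Fin d → K) (η : Finset V) (q : ℕ) :
    Submodule K (Finset (Fin d) → K) where
  carrier := {ω | IsGr K q ω ∧ ∀ v ∈ η, eps K (u v) ω = 0}
  add_mem' := by
    rintro a b ⟨ha, ha'⟩ ⟨hb, hb'⟩
    refine ⟨fun S h => ?_, fun v hv => by rw [map_add, ha' v hv, hb' v hv, add_zero]⟩
    by_cases h0 : a S = 0
    · exact hb S (fun h1 => h (by rw [Pi.add_apply, h0, h1, add_zero]))
    · exact ha S h0
  zero_mem' := ⟨fun S h => absurd rfl h, fun v _ => map_zero _⟩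
  smul_mem' := by
    rintro c a ⟨ha, ha'⟩
    exact ⟨fun S h => ha S (fun h1 => h (by rw [Pi.smul_apply, h1, smul_zero])),
      fun v hv => by rw [map_smul, ha' v hv, smul_zero]⟩

private theorem chK_le_chS {η : Finset V} {p q i : ℕ}
    {c : Finset V → (V → ℕ) → Finset (Fin d) → K} (hc : c ∈ ChK Δ u η p q i) :
    c ∈ ChS K (Finset (Fin d) → K) Δ η p i ∧ ∀ ρ α, c ρ α ∈ Wq u η q :=
  ⟨fun ρ => ⟨(hc ρ).1.1, (hc ρ).2⟩,
    fun ρ α => ⟨(hc ρ).1.2.1 α, fun v hv => (hc ρ).1.2.2 v hv α⟩⟩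

private theorem chK_of_chS {η : Finset V} {p q i : ℕ}
    {c : Finset V → (V → ℕ) → Finset (Fin d) → K}
    (hc : c ∈ ChS K (Finset (Fin d) → K) Δ η p i) (hW : ∀ ρ α, c ρ α ∈ Wq u η q) :
    c ∈ ChK Δ u η p q i :=
  fun ρ => ⟨⟨(hc ρ).1, fun α => (hW ρ α).1, fun v hv α => (hW ρ α).2 v hv⟩, (hc ρ).2⟩

private theorem bdL_chK (hcx : IsCpx Δ) {η : Finset V} {p q i : ℕ}
    {c : Finset V → (V → ℕ) → Finset (Fin d) → K} (hc : c ∈ ChK Δ u η (p + 1) q i) :
    bdL K (Finset (Fin d) → K) c ∈ ChK Δ u η p q i := by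
  obtain ⟨h1, h2⟩ := chK_le_chS hc
  refine chK_of_chS (bdL_mem_ChS hcx h1) (fun ρ α => ?_)
  have h3 : bdL K (Finset (Fin d) → K) c ρ α = ∑ v ∈ ρᶜ, sg v ρ • c (insert v ρ) α := by
    change (∑ v ∈ ρᶜ, sg v ρ • c (insert v ρ)) α = _
    rw [Finset.sum_apply]
    rfl
  rw [h3]
  exact Submodule.sum_mem _ (fun v _ => zsmul_mem (h2 _ _) _)

theorem cm_chase (hS : HomSphere K Δ d) {η : Finset V} (hη : Δ η) (hd : η.card < d)
    (h : ∀ ρ, η ⊂ ρ → Δ ρ → KozEx K Δ u ρ η) : KozEx K Δ u η η := by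
  intro q i f hq hf hκ
  set κ := DopC K (Finset (Fin d) → K) (fun v : V => eps K (u v)) with hκdef
  set D := bdL (V := V) K (Finset (Fin d) → K) with hDdef
  have hcx := hS.cpx
  have hκap : ∀ c ρ, κ c ρ = kap K u (c ρ) := fun c ρ => rfl
  have hcomm : ∀ x, D (κ x) = κ (D x) := fun x => bdL_DopC _ x
  -- the kappa maps
  have hAB : ∀ p, 1 ≤ p → p ≤ i + 1 → ∀ z ∈ ChK Δ u η p (q + p - 1) (i + 1 - p),
      κ z ∈ ChK Δ u η p (q + p) (i - p) := by
    intro p hp1 hp2 z hz ρ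
    refine ⟨?_, fun hne => (hz ρ).2 (fun h0 => hne ?_)⟩
    · rw [hκap]
      rcases Nat.lt_or_ge i p with hip | hip
      · have h0 : kap K u (z ρ) = 0 := by
          have h1 := (hz ρ).1.1
          have h2 : i + 1 - p = 0 := by omega
          rw [h2] at h1
          exact Dop_Sm_zero _ h1
        rw [h0]
        exact Submodule.zero_mem _
      · have h1 := (hz ρ).1
        have h2 : i + 1 - p = (i - p) + 1 := by omega
        rw [h2] at h1
        have h3 := kap_mem_Kz hcx h1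
        have h4 : q + p - 1 + 1 = q + p := by omega
        rwa [h4] at h3
    · rw [hκap, h0]
      exact map_zero _
  -- exactness of kappa
  have hk : ∀ p, 1 ≤ p → p ≤ i + 1 → ∀ z ∈ ChK Δ u η p (q + p - 1) (i + 1 - p), κ z = 0 →
      ∃ g ∈ ChK Δ u η p (q + p - 2) (i + 2 - p), κ g = z := by
    intro p hp1 hp2 z hz hz0
    have hex : ∀ ρ, ∃ g, g ∈ Kz K Δ u (η ∪ ρ) η (q + p - 2) (i + 2 - p) ∧ kap K u g = z ρ ∧
        (z ρ = 0 → g = 0) := by
      intro ρ
      by_cases h0 : z ρ = 0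
      · exact ⟨0, Submodule.zero_mem _, by rw [h0]; exact map_zero _, fun _ => rfl⟩
      · obtain ⟨h1, h2⟩ := (hz ρ).2 h0
        have hΔ : Δ (η ∪ ρ) := face_of_ne hcx (hz ρ).1.1 h0
        have hss : η ⊂ η ∪ ρ := by
          refine ⟨subset_union_left, fun hsub => ?_⟩
          have hne : ρ.Nonempty := by
            rw [← card_pos]
            omega
          obtain ⟨v, hv⟩ := hne
          exact (disjoint_left.1 h2 hv) (hsub (mem_union_right _ hv))
        have hκ0 : kap K u (z ρ) = 0 := by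
          rw [← hκap, hz0]
          rfl
        obtain ⟨g, hg, hg'⟩ := h (η ∪ ρ) hss hΔ (q + p - 1) (i + 1 - p) (z ρ) (by omega)
          (hz ρ).1 hκ0
        have e1 : q + p - 1 - 1 = q + p - 2 := by omega
        have e2 : i + 1 - p + 1 = i + 2 - p := by omega
        rw [e1, e2] at hg
        exact ⟨g, hg, hg', fun hz' => absurd hz' h0⟩
    choose g hg1 hg2 hg3 using hex
    refine ⟨g, fun ρ => ⟨hg1 ρ, fun hne => (hz ρ).2 (fun h0 => hne (hg3 ρ h0))⟩, ?_⟩
    funext ρ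
    rw [hκap, hg2]
  -- exactness of the boundary
  have hDex : ∀ p, p ≤ i → ∀ y ∈ ChK Δ u η p (q + p) (i - p), D y = 0 →
      ∃ z ∈ ChK Δ u η (p + 1) (q + p) (i - p), D z = y := by
    intro p hp y hy hy0
    rcases Nat.lt_or_ge d (q + p) with hdq | hdq
    · have hy' : y = 0 := by
        funext ρ α
        exact gr_top ((hy ρ).1.2.1 α) (by rw [Fintype.card_fin]; exact hdq)
      refine ⟨0, Submodule.zero_mem _, ?_⟩
      rw [hy', map_zero]
    · obtain ⟨h1, h2⟩ := chK_le_chS hy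
      obtain ⟨b, hb1, hb2, hb3⟩ := chS_exact hS hη (by omega) (Wq u η (q + p)) h1 h2 hy0
      exact ⟨b, chK_of_chS hb1 hb2, hb3⟩
  -- the first step
  have hf0 : ch0 f ∈ ChK Δ u η 0 q i := by
    refine chK_of_chS (ch0_mem_ChS hf.1) (fun ρ α => ?_)
    by_cases hρ : ρ = ∅
    · simp only [ch0, if_pos hρ]
      exact ⟨hf.2.1 α, fun v hv => hf.2.2 v hv α⟩
    · simp only [ch0, if_neg hρ]
      exact Submodule.zero_mem _
  have hDf : D (ch0 f) = 0 := bdL_ChS_zero (chK_le_chS hf0).1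
  obtain ⟨z₁, hz₁, hDz₁⟩ := hDex 0 (Nat.zero_le _) (ch0 f) (by simpa using hf0) hDf
  have hκf : κ (ch0 f) = 0 := by
    rw [hκdef, DopC_ch0]
    change ch0 (kap K u f) = 0
    rw [hκ]
    funext ρ
    simp [ch0]
  have hDκ : D (κ z₁) = 0 := by rw [hcomm, hDz₁, hκf]
  have main := chase D κ (fun p => ChK Δ u η p (q + p - 1) (i + 1 - p))
    (fun p => ChK Δ u η p (q + p) (i - p))
    (fun p => ChK Δ u η p (q + p - 2) (i + 2 - p)) 1 (i + 1)
    (fun x => bdL_bdL x) hcomm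
    (fun p _ _ z _ => by
      funext ρ
      rw [hκap, hκap, kap_kap]
      rfl)
    hAB
    (fun p hp1 hp2 g hg => by
      have hg' : g ∈ ChK Δ u η (p + 1) (q + p - 1) (i + 1 - p) := by
        have e1 : q + (p + 1) - 2 = q + p - 1 := by omega
        have e2 : i + 2 - (p + 1) = i + 1 - p := by omega
        have hg0 : g ∈ ChK Δ u η (p + 1) (q + (p + 1) - 2) (i + 2 - (p + 1)) := hg
        rwa [e1, e2] at hg0
      exact bdL_chK hcx hg')
    hk
    (fun p hp1 hp2 y hy hy0 => by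
      obtain ⟨z, hz, hz'⟩ := hDex p (by omega) y hy hy0
      refine ⟨z, ?_, hz'⟩
      have e1 : q + (p + 1) - 1 = q + p := by omega
      have e2 : i + 1 - (p + 1) = i - p := by omega
      change z ∈ ChK Δ u η (p + 1) (q + (p + 1) - 1) (i + 1 - (p + 1))
      rw [e1, e2]
      exact hz)
    (fun z hz => by
      funext ρ
      have h1 := (hz ρ).1.1
      have h2 : i + 1 - (i + 1) = 0 := by omega
      rw [h2] at h1
      exact Dop_Sm_zero _ h1)
    1 le_rfl (by omega) z₁ (by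
      have e1 : q + 1 - 1 = q + 0 := by omega
      have e2 : i + 1 - 1 = i - 0 := by omega
      change z₁ ∈ ChK Δ u η 1 (q + 1 - 1) (i + 1 - 1)
      rw [e1, e2]
      exact hz₁) hDκ
  obtain ⟨g, hg, h', _, hzz⟩ := main
  have hfin : ch0 f = κ (D g) := by
    rw [← hDz₁, hzz, map_add, hcomm]
    have : D (D h') = 0 := bdL_bdL h'
    rw [this, add_zero]
  have hDg : D g ∈ ChK Δ u η 0 (q - 1) (i + 1) := by
    have e1 : q + 1 - 2 = q - 1 := by omega
    have e2 : i + 2 - 1 = i + 1 := by omega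
    have hg0 : g ∈ ChK Δ u η (0 + 1) (q + 1 - 2) (i + 2 - 1) := hg
    rw [e1, e2] at hg0
    exact bdL_chK hcx hg0
  refine ⟨D g ∅, ?_, ?_⟩
  · have := (hDg ∅).1
    rwa [union_empty] at this
  · have h1 := congrFun hfin ∅
    rw [hκap] at h1
    rw [← h1]
    simp [ch0]

end Pool.Agent.H53.CF
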