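import Mathlib

/-!
# helper53 CF module CHASE: the abstract zigzag lemma

`∂`, `κ` are commuting endomorphisms of a module. `A p` are the places of the zigzag,
`κ : A p → B p`, `∂ : A (p + 1) → B p`, `κ : G p → A p`.
Proof: downward induction on `p`. At `p = P`: `κ z = 0`, so `z = κ g` (take `h = 0`).
For `p < P`: `y = κ z` is in `B p` and `∂ y = 0`, so `y = ∂ z'` with `z' ∈ A (p + 1)`;
`∂ κ z' = κ ∂ z' = κ κ z = 0`, so by induction `z' = κ g' + ∂ h'` with `g' ∈ G (p + 1)`; then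
`κ z = ∂ z' = ∂ κ g' = κ ∂ g'` (as `∂ ∂ = 0`), so `κ (z - ∂ g') = 0` and `z - ∂ g' ∈ A p` gives
`z - ∂ g' = κ g`. So `h = g'`.
-/

namespace Pool.Agent.H53.CF

theorem chase {K M : Type*} [Field K] [AddCommGroup M] [Module K M]
    (D k : M →ₗ[K] M) (A B G : ℕ → Submodule K M) (p₀ P : ℕ)
    (hDD : ∀ x, D (D x) = 0) (hDk : ∀ x, D (k x) = k (D x))
    (hkk : ∀ p, p₀ ≤ p → p ≤ P → ∀ z ∈ A p, k (k z) = 0)
    (hAB : ∀ p, p₀ ≤ p → p ≤ P → ∀ z ∈ A p, k z ∈ B p)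
    (hGA : ∀ p, p₀ ≤ p → p < P → ∀ g ∈ G (p + 1), D g ∈ A p)
    (hk : ∀ p, p₀ ≤ p → p ≤ P → ∀ z ∈ A p, k z = 0 → ∃ g ∈ G p, k g = z)
    (hD : ∀ p, p₀ ≤ p → p < P → ∀ y ∈ B p, D y = 0 → ∃ z ∈ A (p + 1), D z = y)
    (hP : ∀ z ∈ A P, k z = 0) :
    ∀ p, p₀ ≤ p → p ≤ P → ∀ z ∈ A p, D (k z) = 0 →
      ∃ g ∈ G p, ∃ h ∈ G (p + 1), z = k g + D h := by
  have key : ∀ n p, p₀ ≤ p → p + n = P → ∀ z ∈ A p, D (k z) = 0 →
      ∃ g ∈ G p, ∃ h ∈ G (p + 1), z = k g + D h := by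
    intro n
    induction n with
    | zero =>
      intro p hp hpP z hz _
      rw [Nat.add_zero] at hpP
      subst hpP
      obtain ⟨g, hg, hg'⟩ := hk p hp le_rfl z hz (hP z hz)
      exact ⟨g, hg, 0, Submodule.zero_mem _, by rw [hg', map_zero, add_zero]⟩
    | succ n ih =>
      intro p hp hpP z hz hDz
      have hlt : p < P := by omega
      obtain ⟨z', hz', hDz'⟩ := hD p hp hlt (k z) (hAB p hp hlt.le z hz) hDz
      have h1 : D (k z') = 0 := by rw [hDk, hDz', hkk p hp hlt.le z hz]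
      obtain ⟨g', hg', h', -, hzz⟩ := ih (p + 1) (by omega) (by omega) z' hz' h1
      have h2 : k z = k (D g') := by
        rw [← hDz', hzz, map_add, hDD, add_zero, hDk]
      have h3 : k (z - D g') = 0 := by rw [map_sub, h2, sub_self]
      obtain ⟨g, hg, hg2⟩ := hk p hp hlt.le (z - D g')
        (Submodule.sub_mem _ hz (hGA p hp hlt g' hg')) h3
      exact ⟨g, hg, g', hg', by rw [hg2, sub_add_cancel]⟩
  intro p hp hpP
  exact key (P - p) p hp (by omega)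

end Pool.Agent.H53.CF
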