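import Pool.Agent.H53.CF.Fock
import Pool.Agent.H53.CF.Basic

/-!
# helper53 CF module CLIFF: the Clifford module

`U = Finset (Fin N) → ℝ`, `B x y = ∑ S, x S * y S`, `gam c = eps c + iot c` (symmetric by `eps_adj`,
`gam c gam c' + gam c' gam c = 2 ⟨c, c'⟩`), `A v = gam (fun i => y i v)`.
`D D f = ∑_{v,w} A_v A_w X_v X_w f = (1/2) ∑_{v,w} (A_v A_w + A_w A_v) X_v X_w f
= ∑_{v,w} ⟨y_v, y_w⟩ X_v X_w f`; `X_v X_w f = 0` unless `v = w` or `Δ {v, w}`, so this is
`∑_{v,w} ∑_j (u_v j p_w j + p_v j u_w j) X_v X_w f = 0` by the stress equations.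
-/

namespace Pool.Agent.H53.CF

open Finset

/-- Clifford multiplication. -/
noncomputable def gam {N : ℕ} (c : Fin N → ℝ) : (Finset (Fin N) → ℝ) →ₗ[ℝ] (Finset (Fin N) → ℝ) :=
  eps ℝ c + iot ℝ c

/-- The standard bilinear form. -/
noncomputable def stdB (N : ℕ) : LinearMap.BilinForm ℝ (Finset (Fin N) → ℝ) :=
  LinearMap.mk₂ ℝ (fun x y => ∑ S, x S * y S)
    (fun a b c => by simp [add_mul, Finset.sum_add_distrib])
    (fun r a b => by simp [Finset.mul_sum, mul_assoc])
    (fun a b c => by simp [mul_add, Finset.sum_add_distrib])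
    (fun r a b => by simp [Finset.mul_sum, mul_left_comm])

theorem gam_apply {N : ℕ} (c : Fin N → ℝ) (x : Finset (Fin N) → ℝ) :
    gam c x = eps ℝ c x + iot ℝ c x := rfl

theorem gam_gam {N : ℕ} (c c' : Fin N → ℝ) (x : Finset (Fin N) → ℝ) :
    gam c (gam c' x) + gam c' (gam c x) = (2 * ∑ i, c i * c' i) • x := by
  have h1 := eps_eps c c' x
  have h2 := iot_iot c c' x
  have h3 := iot_eps c c' x
  have h4 := iot_eps c' c x
  have h5 : ∑ i, c' i * c i = ∑ i, c i * c' i :=
    Finset.sum_congr rfl (fun i _ => mul_comm _ _)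
  rw [h5] at h4
  simp only [gam_apply, map_add]
  have h6 : eps ℝ c (eps ℝ c' x) + iot ℝ c (eps ℝ c' x) + (eps ℝ c (iot ℝ c' x) +
      iot ℝ c (iot ℝ c' x)) + (eps ℝ c' (eps ℝ c x) + iot ℝ c' (eps ℝ c x) +
      (eps ℝ c' (iot ℝ c x) + iot ℝ c' (iot ℝ c x))) =
      (eps ℝ c (eps ℝ c' x) + eps ℝ c' (eps ℝ c x)) +
      (iot ℝ c (iot ℝ c' x) + iot ℝ c' (iot ℝ c x)) +
      ((iot ℝ c (eps ℝ c' x) + eps ℝ c' (iot ℝ c x)) +
      (iot ℝ c' (eps ℝ c x) + eps ℝ c (iot ℝ c' x))) := by abel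
  have h7 : eps ℝ c (eps ℝ c' x) + iot ℝ c (eps ℝ c' x) + (eps ℝ c (iot ℝ c' x) +
      iot ℝ c (iot ℝ c' x)) + (eps ℝ c' (eps ℝ c x) + iot ℝ c' (eps ℝ c x) +
      (eps ℝ c' (iot ℝ c x) + iot ℝ c' (iot ℝ c x))) = (2 * ∑ i, c i * c' i) • x := by
    rw [h6, h3, h4, h1, h2, neg_add_cancel, neg_add_cancel, zero_add, zero_add, ← add_smul,
      ← two_mul]
  exact h7

theorem stdB_apply {N : ℕ} (x y : Finset (Fin N) → ℝ) : stdB N x y = ∑ S, x S * y S := rfl

theorem stdB_pos {N : ℕ} (x : Finset (Fin N) → ℝ) (hx : x ≠ 0) : 0 < stdB N x x := by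
  rw [stdB_apply]
  obtain ⟨S, hS⟩ := Function.ne_iff.1 hx
  refine Finset.sum_pos' (fun S _ => mul_self_nonneg _) ⟨S, Finset.mem_univ _, ?_⟩
  exact mul_self_pos.2 hS

theorem gam_adj {N : ℕ} (c : Fin N → ℝ) (x y : Finset (Fin N) → ℝ) :
    stdB N (gam c x) y = stdB N x (gam c y) := by
  rw [stdB_apply, stdB_apply, gam_apply, gam_apply]
  simp only [Pi.add_apply, add_mul, mul_add, Finset.sum_add_distrib]
  rw [eps_adj c x y, add_comm]
  congr 1
  have := eps_adj c y x
  rw [Finset.sum_congr rfl (fun S _ => mul_comm (eps ℝ c y S) (x S)),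
    Finset.sum_congr rfl (fun S _ => mul_comm (y S) (iot ℝ c x S))] at this
  exact this.symm

variable {V : Type*} [Fintype V] [LinearOrder V]

theorem isDirac_cliff {Δ : Finset V → Prop} (hc : IsCpx Δ) {d N : ℕ} {u : V → Fin d → ℝ}
    {y : Fin N → V → ℝ} {p : V → Fin d → ℝ}
    (hy : ∀ v w, (v = w ∨ Δ {v, w}) →
      ∑ i, y i v * y i w = ∑ j, (u v j * p w j + p v j * u w j)) :
    IsDirac Δ u (stdB N) (fun v => gam (fun i => y i v)) := by
  refine ⟨?_, ?_, fun v x y => gam_adj _ x y, ?_⟩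
  · intro x y
    rw [stdB_apply, stdB_apply]
    exact Finset.sum_congr rfl (fun S _ => mul_comm _ _)
  · intro x hx
    by_contra h
    exact absurd (hx x) (stdB_pos x h).ne'
  · intro i f hf
    obtain ⟨hf1, hf2⟩ := hf
    funext β
    change ∑ v, gam (fun i => y i v) (∑ w, gam (fun i => y i w) (f (β + e1 v + e1 w))) = 0
    simp only [map_sum]
    set T := ∑ v, ∑ w, gam (fun i => y i v) (gam (fun i => y i w) (f (β + e1 v + e1 w))) with hT
    have hT2 : T = ∑ v, ∑ w, gam (fun i => y i w) (gam (fun i => y i v) (f (β + e1 v + e1 w))) := by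
      rw [hT, Finset.sum_comm]
      refine Finset.sum_congr rfl (fun v _ => Finset.sum_congr rfl (fun w _ => ?_))
      rw [add_right_comm]
    have h1 : T + T = ∑ v, ∑ w, (2 * ∑ j, (u v j * p w j + p v j * u w j)) •
        f (β + e1 v + e1 w) := by
      have h0 : T + T = ∑ v, ∑ w, gam (fun i => y i v) (gam (fun i => y i w)
          (f (β + e1 v + e1 w))) + ∑ v, ∑ w, gam (fun i => y i w) (gam (fun i => y i v)
          (f (β + e1 v + e1 w))) := by
        rw [← hT, ← hT2]
      rw [h0, ← Finset.sum_add_distrib]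
      refine Finset.sum_congr rfl (fun v _ => ?_)
      rw [← Finset.sum_add_distrib]
      refine Finset.sum_congr rfl (fun w _ => ?_)
      rw [gam_gam]
      by_cases h0 : f (β + e1 v + e1 w) = 0
      · rw [h0, smul_zero, smul_zero]
      · have h2 := (hf1 _ h0).2
        have h3 : Δ {v, w} := by
          refine hc.down _ _ h2 ?_
          intro z hz
          rw [supp_add_e1, supp_add_e1]
          simp only [Finset.mem_insert, Finset.mem_singleton] at hz
          rcases hz with rfl | rfl <;> simp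
        congr 2
        have h4 := hy v w (Or.inr h3)
        rw [← h4]
    have h2 : ∑ v, ∑ w, (2 * ∑ j, (u v j * p w j + p v j * u w j)) •
        f (β + e1 v + e1 w) = 0 := by
      have e1' : ∀ v w, (2 * ∑ j, (u v j * p w j + p v j * u w j)) • f (β + e1 v + e1 w) =
          ∑ j, (2 * p w j) • (u v j • f (β + e1 w + e1 v)) +
          ∑ j, (2 * p v j) • (u w j • f (β + e1 v + e1 w)) := by
        intro v w
        rw [Finset.mul_sum, Finset.sum_smul, ← Finset.sum_add_distrib]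
        refine Finset.sum_congr rfl (fun j _ => ?_)
        rw [add_right_comm β (e1 w) (e1 v), smul_smul, smul_smul, ← add_smul]
        congr 1
        ring
      rw [Finset.sum_congr rfl (fun v _ => Finset.sum_congr rfl (fun w _ => e1' v w))]
      simp only [Finset.sum_add_distrib]
      have z1 : ∑ v, ∑ w, ∑ j, (2 * p w j) • (u v j • f (β + e1 w + e1 v)) = 0 := by
        rw [Finset.sum_comm]
        refine Finset.sum_eq_zero (fun w _ => ?_)
        rw [Finset.sum_comm]
        refine Finset.sum_eq_zero (fun j _ => ?_)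
        rw [← Finset.smul_sum, hf2 j (β + e1 w), smul_zero]
      have z2 : ∑ v, ∑ w, ∑ j, (2 * p v j) • (u w j • f (β + e1 v + e1 w)) = 0 := by
        refine Finset.sum_eq_zero (fun v _ => ?_)
        rw [Finset.sum_comm]
        refine Finset.sum_eq_zero (fun j _ => ?_)
        rw [← Finset.smul_sum, hf2 j (β + e1 v), smul_zero]
      rw [z1, z2, add_zero]
    rw [h2] at h1
    have h3 : (2 : ℝ) • T = 0 := by rw [two_smul, h1]
    have h4 : T = 0 := by
      rcases smul_eq_zero.1 h3 with h5 | h5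
      · norm_num at h5
      · exact h5
    exact h4

end Pool.Agent.H53.CF
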