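import Pool.Agent.H53.CF.Basic

/-!
# helper53 CF module COEF: link acyclicity with arbitrary coefficients

From `HomSphere.acyc` (coefficients in the field `K`) to coefficients in a `K`-module `W` and values
in a submodule `W'`: take a basis of `W'`; the finitely many values `c ρ` involve only finitely many
basis vectors; solve coordinatewise and add up.
-/

namespace Pool.Agent.H53.CF

open Finset

variable {V : Type*} [Fintype V] [LinearOrder V]
variable {K : Type*} [Field K] {W : Type*} [AddCommGroup W] [Module K W]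
variable {Δ : Finset V → Prop} {d : ℕ}

theorem acycW (hS : HomSphere K Δ d) {τ : Finset V} (hτ : Δ τ) {p : ℕ} (hp : p + τ.card < d)
    (W' : Submodule K W) (c : Finset V → W) (hc : LkSupp Δ τ p c) (hcW : ∀ ρ, c ρ ∈ W')
    (hb : ∀ ρ, bd c ρ = 0) :
    ∃ b : Finset V → W, LkSupp Δ τ (p + 1) b ∧ (∀ ρ, b ρ ∈ W') ∧ ∀ ρ, bd b ρ = c ρ := by
  classical
  let S : Submodule K W := Submodule.span K (Set.range c)
  have : FiniteDimensional K S := FiniteDimensional.span_of_finite K (Set.finite_range c)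
  let bs := Module.finBasis K S
  have hcS : ∀ ρ, c ρ ∈ S := fun ρ => Submodule.subset_span ⟨ρ, rfl⟩
  have hSW : S ≤ W' := Submodule.span_le.2 (by rintro _ ⟨ρ, rfl⟩; exact hcW ρ)
  have key : ∀ k, ∃ b : Finset V → K, LkSupp Δ τ (p + 1) b ∧
      ∀ ρ, bd b ρ = bs.coord k ⟨c ρ, hcS ρ⟩ := by
    intro k
    apply hS.acyc τ hτ p hp (fun ρ => bs.coord k ⟨c ρ, hcS ρ⟩)
    · intro ρ h
      apply hc ρ
      intro h0
      apply h
      have h1 : (⟨c ρ, hcS ρ⟩ : S) = 0 := Subtype.ext h0
      show bs.coord k ⟨c ρ, hcS ρ⟩ = 0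
      rw [h1, map_zero]
    · intro ρ
      have h1 : ∑ v ∈ ρᶜ, sg v ρ • (⟨c (insert v ρ), hcS _⟩ : S) = 0 := by
        apply Subtype.ext
        rw [AddSubmonoidClass.coe_finsetSum]
        simpa [bd] using hb ρ
      have h2 := congrArg (bs.coord k) h1
      rw [map_sum, map_zero] at h2
      show ∑ v ∈ ρᶜ, sg v ρ • bs.coord k ⟨c (insert v ρ), hcS _⟩ = 0
      rw [← h2]
      exact Finset.sum_congr rfl (fun v _ => (map_zsmul _ _ _).symm)
  choose b hb1 hb2 using key
  refine ⟨fun ρ => ∑ k, b k ρ • (bs k : W), ?_, ?_, ?_⟩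
  · intro ρ h
    by_contra hcon
    apply h
    apply Finset.sum_eq_zero
    intro k _
    have : b k ρ = 0 := by
      by_contra h0
      exact hcon (hb1 k ρ h0)
    rw [this, zero_smul]
  · intro ρ
    exact Submodule.sum_mem _ (fun k _ => Submodule.smul_mem _ _ (hSW (bs k).2))
  · intro ρ
    have h1 : bd (fun ρ => ∑ k, b k ρ • (bs k : W)) ρ = ∑ k, (bd (b k) ρ) • (bs k : W) := by
      simp only [bd, Finset.smul_sum, Finset.sum_smul]
      rw [Finset.sum_comm]
      refine Finset.sum_congr rfl (fun k _ => Finset.sum_congr rfl (fun v _ => ?_))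
      rw [smul_assoc]
    rw [h1]
    have h2 : ∑ k, bs.coord k ⟨c ρ, hcS ρ⟩ • bs k = (⟨c ρ, hcS ρ⟩ : S) := by
      simpa using bs.sum_repr ⟨c ρ, hcS ρ⟩
    have h3 := congrArg (Subtype.val) h2
    rw [AddSubmonoidClass.coe_finsetSum] at h3
    simp only [hb2]
    simpa using h3

end Pool.Agent.H53.CF
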