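import Pool.Agent.H53.CF.CM

/-!
# helper53 CF module CONN: facets, ridges, strong connectivity

* every face lies in a face with `d` vertices (`acyc` at `p = 0`: the link of a face with fewer than
  `d` vertices has a vertex: the chain `δ_∅` is a boundary);
* a face with `d - 1` vertices lies in exactly two facets (`euler`, and faces have at most `d`
  vertices by `Lsop`, so the link consists of `∅` and single vertices: `1 - # = -1`);
* links of faces with at most `d - 2` vertices are connected: if the vertices of the link split in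
  two nonempty parts `P`, `Q` without edges of the link between them, the chain `c {v} = 1` at a
  vertex of `P`, `c {w} = -1` at a vertex of `Q` (position `1`; it is closed) is a boundary
  `bd b`, but the sum of the values of `bd b` over `{v}`, `v ∈ P`, is `0`. Contradiction;
* hence, by downward induction on `|τ|`, two facets containing `τ` are joined by ridge steps.
-/

namespace Pool.Agent.H53.CF

open Finset

variable {V : Type*} [Fintype V] [LinearOrder V]
variable {K : Type*} [Field K] {Δ : Finset V → Prop} {d : ℕ} {u : V → Fin d → K}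

private theorem sg_empty (v : V) : sg v (∅ : Finset V) = 1 := by
  simp [sg]

private theorem sg_single_add {v w : V} (h : v ≠ w) : sg w {v} + sg v {w} = 0 := by
  rcases lt_or_gt_of_ne h with h1 | h1
  · have e1 : ({v} : Finset V).filter (fun x => x < w) = {v} := by
      ext x
      simp only [mem_filter, mem_singleton]
      constructor
      · exact fun hx => hx.1
      · rintro rfl
        exact ⟨rfl, h1⟩
    have e2 : ({w} : Finset V).filter (fun x => x < v) = ∅ := by
      ext x
      simp only [mem_filter, mem_singleton, notMem_empty, iff_false, not_and]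
      rintro rfl
      exact not_lt.2 h1.le
    simp [sg, e1, e2]
  · have e1 : ({w} : Finset V).filter (fun x => x < v) = {w} := by
      ext x
      simp only [mem_filter, mem_singleton]
      constructor
      · exact fun hx => hx.1
      · rintro rfl
        exact ⟨rfl, h1⟩
    have e2 : ({v} : Finset V).filter (fun x => x < w) = ∅ := by
      ext x
      simp only [mem_filter, mem_singleton, notMem_empty, iff_false, not_and]
      rintro rfl
      exact not_lt.2 h1.le
    simp [sg, e1, e2]

theorem exists_link_vertex (hS : HomSphere K Δ d) {τ : Finset V} (hτ : Δ τ) (h : τ.card < d) :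
    ∃ v, v ∉ τ ∧ Δ (insert v τ) := by
  classical
  set c : Finset V → K := fun ρ => if ρ = ∅ then 1 else 0 with hc
  have hsupp : LkSupp Δ τ 0 c := by
    intro ρ hρ
    have : ρ = ∅ := by
      by_contra hne
      exact hρ (by simp [hc, hne])
    subst this
    exact ⟨rfl, disjoint_empty_left _, by simpa using hτ⟩
  have hbd : ∀ ρ, bd c ρ = 0 := by
    intro ρ
    unfold bd
    refine sum_eq_zero fun v _ => ?_
    have : insert v ρ ≠ ∅ := insert_ne_empty v ρ
    simp [hc, this]
  obtain ⟨b, hb, hbc⟩ := hS.acyc τ hτ 0 (by simpa using h) c hsupp hbd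
  have h0 : bd b ∅ = 1 := by rw [hbc ∅]; simp [hc]
  have hne : ∃ v, b {v} ≠ 0 := by
    by_contra hcon
    push Not at hcon
    have : bd b ∅ = 0 := by
      unfold bd
      refine sum_eq_zero fun v _ => ?_
      have e : insert v (∅ : Finset V) = {v} := rfl
      rw [e, hcon v, smul_zero]
    rw [this] at h0
    exact zero_ne_one h0
  obtain ⟨v, hv⟩ := hne
  obtain ⟨-, h2, h3⟩ := hb {v} hv
  refine ⟨v, disjoint_singleton_left.1 h2, ?_⟩
  rwa [insert_eq]

theorem exists_facet (hS : HomSphere K Δ d) (hu : Lsop K Δ u) {τ : Finset V} (hτ : Δ τ) :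
    ∃ σ, Δ σ ∧ τ ⊆ σ ∧ σ.card = d := by
  classical
  obtain ⟨n, hn⟩ : ∃ n, d - τ.card = n := ⟨_, rfl⟩
  induction n generalizing τ with
  | zero =>
    have := card_le hu hτ
    exact ⟨τ, hτ, Subset.rfl, by omega⟩
  | succ n ih =>
    obtain ⟨v, hv, hv'⟩ := exists_link_vertex hS hτ (by omega)
    obtain ⟨σ, h1, h2, h3⟩ := ih hv' (by rw [card_insert_of_notMem hv]; omega)
    exact ⟨σ, h1, (subset_insert v τ).trans h2, h3⟩

theorem ridge_two (hS : HomSphere K Δ d) (hu : Lsop K Δ u) {ρ : Finset V} (hρ : Δ ρ)
    (h : ρ.card + 1 = d) :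
    ∃ a b, a ≠ b ∧ a ∉ ρ ∧ b ∉ ρ ∧ ∀ v, (v ∉ ρ ∧ Δ (insert v ρ)) ↔ (v = a ∨ v = b) := by
  classical
  set S : Finset V := univ.filter (fun v => v ∉ ρ ∧ Δ (insert v ρ)) with hSdef
  have hlk : lkF Δ ρ = insert ∅ (S.image fun v => {v}) := by
    ext σ
    simp only [lkF, mem_filter, mem_univ, true_and, mem_insert, mem_image, hSdef]
    constructor
    · rintro ⟨h1, h2⟩
      have hcard := card_le hu h2
      rw [card_union_of_disjoint h1] at hcard
      have hc1 : σ.card ≤ 1 := by omega
      rcases Nat.le_one_iff_eq_zero_or_eq_one.1 hc1 with h0 | h0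
      · left
        exact card_eq_zero.1 h0
      · right
        obtain ⟨v, rfl⟩ := card_eq_one.1 h0
        exact ⟨v, ⟨disjoint_singleton_left.1 h1, by rwa [insert_eq]⟩, rfl⟩
    · rintro (rfl | ⟨v, ⟨h1, h2⟩, rfl⟩)
      · exact ⟨disjoint_empty_left _, by simpa using hρ⟩
      · exact ⟨disjoint_singleton_left.2 h1, by rwa [← insert_eq]⟩
  have hsum := hS.euler ρ hρ
  have hd : d - ρ.card = 1 := by omega
  rw [hlk, hd, sum_insert (by simp)] at hsum
  have hs2 : ∑ σ ∈ S.image (fun v => ({v} : Finset V)), (-1 : ℤ) ^ σ.card = -(S.card : ℤ) := by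
    rw [sum_image (fun x _ y _ hxy => singleton_injective hxy)]
    simp
  rw [hs2] at hsum
  simp only [card_empty, pow_zero, pow_one] at hsum
  have hcard : S.card = 2 := by omega
  obtain ⟨a, b, hab, hSab⟩ := card_eq_two.1 hcard
  have hmem : ∀ v, (v ∉ ρ ∧ Δ (insert v ρ)) ↔ (v = a ∨ v = b) := by
    intro v
    have : v ∈ S ↔ v ∈ ({a, b} : Finset V) := by rw [hSab]
    simpa [hSdef] using this
  exact ⟨a, b, hab, ((hmem a).2 (Or.inl rfl)).1, ((hmem b).2 (Or.inr rfl)).1, hmem⟩

/-- Links of faces with at most `d - 2` vertices are connected. -/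
private theorem link_connected (hS : HomSphere K Δ d) {τ : Finset V} (hτ : Δ τ)
    (h : τ.card + 2 ≤ d) (Q : V → Prop)
    (hQ : ∀ v w, v ≠ w → v ∉ τ → w ∉ τ → Δ (insert w (insert v τ)) → Q v → Q w)
    {v0 w0 : V} (hv0 : v0 ∉ τ) (hv0' : Δ (insert v0 τ)) (hw0 : w0 ∉ τ)
    (hw0' : Δ (insert w0 τ)) (hQv : Q v0) : Q w0 := by
  classical
  by_contra hQw
  have hne : v0 ≠ w0 := by
    rintro rfl
    exact hQw hQv
  set c : Finset V → K := fun ρ => if ρ = {v0} then 1 else if ρ = {w0} then -1 else 0 with hc
  have hsupp : LkSupp Δ τ 1 c := by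
    intro ρ hρ
    have : ρ = {v0} ∨ ρ = {w0} := by
      by_contra hcon
      push Not at hcon
      exact hρ (by simp [hc, hcon.1, hcon.2])
    rcases this with rfl | rfl
    · exact ⟨card_singleton _, disjoint_singleton_left.2 hv0, by rwa [← insert_eq]⟩
    · exact ⟨card_singleton _, disjoint_singleton_left.2 hw0, by rwa [← insert_eq]⟩
  have hbd : ∀ ρ, bd c ρ = 0 := by
    intro ρ
    unfold bd
    by_cases hρ : ρ = ∅
    · subst hρ
      have hsum : ∀ v ∈ (∅ : Finset V)ᶜ, sg v (∅ : Finset V) • c (insert v ∅) =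
          (if v = v0 then (1 : K) else 0) + (if v = w0 then (-1 : K) else 0) := by
        intro v _
        have e : insert v (∅ : Finset V) = {v} := rfl
        rw [sg_empty, one_smul, e, hc]
        simp only [singleton_inj]
        by_cases h1 : v = v0
        · subst h1
          simp [hne]
        · simp [h1]
      rw [sum_congr rfl hsum, sum_add_distrib]
      simp
    · refine sum_eq_zero fun v hv => ?_
      have hvρ : v ∉ ρ := by simpa using hv
      have hcard : (insert v ρ).card ≠ 1 := by
        rw [card_insert_of_notMem hvρ]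
        have : 0 < ρ.card := card_pos.2 (nonempty_iff_ne_empty.2 hρ)
        omega
      have h1 : insert v ρ ≠ {v0} := by
        intro h
        exact hcard (by rw [h, card_singleton])
      have h2 : insert v ρ ≠ {w0} := by
        intro h
        exact hcard (by rw [h, card_singleton])
      simp [hc, h1, h2]
  obtain ⟨b, hb, hbc⟩ := hS.acyc τ hτ 1 (by omega) c hsupp hbd
  set S : Finset V := univ.filter Q with hSdef
  set F : V × V → K := fun x => if x.1 = x.2 then 0 else sg x.2 {x.1} • b (insert x.2 {x.1}) with hF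
  have hbdv : ∀ v ∈ S, bd b {v} = ∑ w ∈ S, F (v, w) := by
    intro v hv
    have hQv' : Q v := by simpa [hSdef] using hv
    unfold bd
    have e1 : ∑ w ∈ ({v} : Finset V)ᶜ, sg w {v} • b (insert w {v}) = ∑ w, F (v, w) := by
      rw [← sum_compl_add_sum ({v} : Finset V) (fun w => F (v, w))]
      rw [sum_singleton]
      have : F (v, v) = 0 := by simp [hF]
      rw [this, add_zero]
      refine sum_congr rfl fun w hw => ?_
      have hwv : v ≠ w := by
        rintro rfl
        simp at hw
      simp [hF, hwv]
    rw [e1]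
    symm
    refine sum_subset (subset_univ S) fun w _ hwS => ?_
    have hQw' : ¬ Q w := by simpa [hSdef] using hwS
    by_cases hvw : v = w
    · simp [hF, hvw]
    · have hb0 : b (insert w {v}) = 0 := by
        by_contra hbne
        obtain ⟨-, h2, h3⟩ := hb _ hbne
        rw [disjoint_insert_left, disjoint_singleton_left] at h2
        refine hQw' (hQ v w hvw h2.2 h2.1 ?_ hQv')
        have : insert w ({v} : Finset V) ∪ τ = insert w (insert v τ) := by
          rw [insert_union, ← insert_eq]
        rwa [this] at h3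
      simp [hF, hvw, hb0]
  have hzero : ∑ v ∈ S, bd b {v} = 0 := by
    rw [sum_congr rfl hbdv, ← sum_product']
    refine sum_involution (fun x _ => Prod.swap x) ?_ ?_ ?_ ?_
    · rintro ⟨v, w⟩ _
      simp only [hF, Prod.swap_prod_mk]
      by_cases hvw : v = w
      · simp [hvw]
      · rw [if_neg hvw, if_neg (Ne.symm hvw)]
        have e : insert v ({w} : Finset V) = insert w {v} := pair_comm v w
        rw [e, ← add_smul, sg_single_add hvw, zero_smul]
    · rintro ⟨v, w⟩ _ hx heq
      apply hx
      have : v = w := by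
        have := congrArg Prod.snd heq
        simpa using this
      simp [hF, this]
    · rintro ⟨v, w⟩ hx
      rw [mem_product] at hx ⊢
      exact ⟨hx.2, hx.1⟩
    · rintro ⟨v, w⟩ _
      rfl
  have hone : ∑ v ∈ S, bd b {v} = 1 := by
    have e : ∀ v ∈ S, bd b {v} = if v = v0 then (1 : K) else 0 := by
      intro v hv
      rw [hbc]
      have hQv' : Q v := by simpa [hSdef] using hv
      have hvw0 : v ≠ w0 := by
        rintro rfl
        exact hQw hQv'
      simp [hc, hvw0]
    rw [sum_congr rfl e, sum_ite_eq']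
    have : v0 ∈ S := by simpa [hSdef] using hQv
    rw [if_pos this]
  rw [hzero] at hone
  exact zero_ne_one hone

theorem facet_induction (hS : HomSphere K Δ d) (hu : Lsop K Δ u) (P : Finset V → Prop)
    (hadj : ∀ ρ a b, ρ.card + 1 = d → a ∉ ρ → b ∉ ρ → Δ (insert a ρ) → Δ (insert b ρ) →
      P (insert a ρ) → P (insert b ρ)) :
    ∀ σ σ', Δ σ → σ.card = d → Δ σ' → σ'.card = d → P σ → P σ' := by
  classical
  have main : ∀ n : ℕ, ∀ τ : Finset V, Δ τ → d - τ.card = n → ∀ σ σ', τ ⊆ σ → τ ⊆ σ' →
      Δ σ → σ.card = d → Δ σ' → σ'.card = d → P σ → P σ' := by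
    intro n
    induction n with
    | zero =>
      intro τ hτ hn σ σ' h1 h2 _ hc _ hc' hP
      have hle := card_le hu hτ
      have e1 : τ = σ := eq_of_subset_of_card_le h1 (by omega)
      have e2 : τ = σ' := eq_of_subset_of_card_le h2 (by omega)
      rw [← e2, e1]
      exact hP
    | succ n ih =>
      intro τ hτ hn σ σ' h1 h2 hσ hc hσ' hc' hP
      obtain ⟨v, hvσ, hvτ⟩ : ∃ v ∈ σ, v ∉ τ :=
        exists_mem_notMem_of_card_lt_card (by omega)
      obtain ⟨w, hwσ, hwτ⟩ : ∃ w ∈ σ', w ∉ τ :=
        exists_mem_notMem_of_card_lt_card (by omega)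
      have hvsub : insert v τ ⊆ σ := insert_subset hvσ h1
      have hwsub : insert w τ ⊆ σ' := insert_subset hwσ h2
      have hvf : Δ (insert v τ) := hS.cpx.down _ _ hσ hvsub
      have hwf : Δ (insert w τ) := hS.cpx.down _ _ hσ' hwsub
      rcases Nat.eq_zero_or_pos n with hn0 | hnpos
      · -- a ridge
        have hcard : τ.card + 1 = d := by omega
        have e1 : insert v τ = σ := eq_of_subset_of_card_le hvsub (by
          rw [card_insert_of_notMem hvτ]; omega)
        have e2 : insert w τ = σ' := eq_of_subset_of_card_le hwsub (by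
          rw [card_insert_of_notMem hwτ]; omega)
        rw [← e2]
        exact hadj τ v w hcard hvτ hwτ hvf hwf (by rw [e1]; exact hP)
      · -- connectedness of the link
        set Q : V → Prop := fun x => x ∉ τ ∧ ∃ μ, Δ μ ∧ insert x τ ⊆ μ ∧ μ.card = d ∧ P μ with hQdef
        have hQw : Q w := by
          refine link_connected hS hτ (by omega) Q ?_ hvτ hvf hwτ hwf
            ⟨hvτ, σ, hσ, hvsub, hc, hP⟩
          rintro x y hxy hxτ hyτ hxyf ⟨-, μ, hμ, hμs, hμc, hμP⟩
          obtain ⟨ν, hν, hνs, hνc⟩ := exists_facet hS hu hxyf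
          have hxν : insert x τ ⊆ ν := (subset_insert y _).trans hνs
          refine ⟨hyτ, ν, hν, ?_, hνc, ?_⟩
          · exact (insert_subset_insert y (subset_insert x τ)).trans hνs
          · exact ih (insert x τ) (hS.cpx.down _ _ hμ hμs)
              (by rw [card_insert_of_notMem hxτ]; omega) μ ν hμs hxν hμ hμc hν hνc hμP
        obtain ⟨-, μ, hμ, hμs, hμc, hμP⟩ := hQw
        exact ih (insert w τ) hwf (by rw [card_insert_of_notMem hwτ]; omega) μ σ' hμs hwsub
          hμ hμc hσ' hc' hμP
  intro σ σ' hσ hc hσ' hc' hP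
  exact main (d - (∅ : Finset V).card) ∅ hS.cpx.empty rfl σ σ' (empty_subset _) (empty_subset _)
    hσ hc hσ' hc' hP

end Pool.Agent.H53.CF
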