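import Pool.Agent.H53.CF.PD

/-!
# helper53 CF module PAIR: the pairing

`pr B i f b = ∑_{α of degree i} B (f α) (b α)`.
* `pr_symm`: both sides are `∑_{α, γ} F (α + γ + ind τ) B (b' γ) (b α)`.
* `pr_eq_zero` (well defined): `f = Phi F τ j b'` by `pd`, use `pr_symm`.
* `Phi_eq_zero` (nondegenerate): for all `b'`, `0 = pr B i (Phi F τ j b') b = pr B j (Phi F τ i b) b'`;
  `Phi F τ i b` lives in degree `j`, take `b'` a delta function.
* `pr_Dop`: reindex `α = β + e_v`. `Phi_Dt`: same.
* `mem_map_of_pr`: duality in the finite-dimensional space `Lm τ i`: if `f` is not in the subspace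
  `D (Lm τ (i+1))`, there is a linear functional on `Lm τ i` (extend it to all functions on the
  monomials of degree `i`) vanishing on the subspace and not at `f`; by nondegeneracy of `B` (finite
  dimension) it is `pr B i · b` for some `b`. Then for all `g ∈ Lm τ (i+1)`:
  `0 = pr B i (D g) b = pr B (i+1) g (Dt b)`, so `Phi F τ (i+1) (Dt b) = 0` (by `Phi_eq_zero`), i.e.
  `D (Phi F τ i b) = 0`, so `pr B i f b = 0` by hypothesis. Contradiction.
-/

namespace Pool.Agent.H53.CF

open Finset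

variable {V : Type*} [Fintype V] [LinearOrder V]
variable {K : Type*} [Field K] {W : Type*} [AddCommGroup W] [Module K W]
variable {Δ : Finset V → Prop} {d : ℕ} {u : V → Fin d → K}

/-- Reindexing `β = α + e_v`. -/
theorem sum_piAntidiag_shift {M : Type*} [AddCommMonoid M] (v : V) (i : ℕ) (g : (V → ℕ) → M) :
    ∑ β ∈ Finset.piAntidiag (univ : Finset V) (i + 1), (if β v ≠ 0 then g β else 0)
      = ∑ α ∈ Finset.piAntidiag (univ : Finset V) i, g (α + e1 v) := by
  classical
  rw [← Finset.sum_filter]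
  symm
  refine Finset.sum_nbij' (fun α => α + e1 v) (fun β => β - e1 v) ?_ ?_ ?_ ?_ ?_
  · intro α hα
    simp only [Finset.mem_piAntidiag, mem_univ, implies_true, and_true, mem_filter] at hα ⊢
    refine ⟨?_, ?_⟩
    · simp only [e1, Pi.add_apply, Finset.sum_add_distrib, Finset.sum_pi_single', mem_univ,
        if_true, hα]
    · simp [e1]
  · intro β hβ
    simp only [Finset.mem_piAntidiag, mem_univ, implies_true, and_true, mem_filter] at hβ ⊢
    obtain ⟨h1, h2⟩ := hβ
    have h3 : β - e1 v + e1 v = β := by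
      funext w
      simp only [e1, Pi.add_apply, Pi.sub_apply]
      by_cases hw : w = v
      · subst hw
        simp only [Pi.single_eq_same]
        omega
      · simp [Pi.single_eq_of_ne hw]
    have h4 : ∑ w, (β - e1 v + e1 v) w = ∑ w, (β - e1 v) w + 1 := by
      simp only [Pi.add_apply, Finset.sum_add_distrib]
      congr 1
      simp [e1, Finset.sum_pi_single']
    rw [h3] at h4
    have h5 : ∑ w, (β - e1 v) w = i := by
      have h1' : ∑ w, β w = i + 1 := h1
      omega
    exact h5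
  · intro α _
    funext w
    simp [e1]
  · intro β hβ
    simp only [mem_filter] at hβ
    funext w
    simp only [e1, Pi.add_apply, Pi.sub_apply]
    by_cases hw : w = v
    · subst hw
      simp only [Pi.single_eq_same]
      omega
    · simp [Pi.single_eq_of_ne hw]
  · intro α _
    rfl

theorem pr_symm {F : (V → ℕ) → K} (B : LinearMap.BilinForm K W) (hB : ∀ x y, B x y = B y x)
    (τ : Finset V) (i j : ℕ) (b b' : (V → ℕ) → W) :
    pr K W B i (Phi K W F τ j b') b = pr K W B j (Phi K W F τ i b) b' := by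
  simp only [pr, Phi, LinearMap.coe_mk, AddHom.coe_mk, map_sum, map_smul, LinearMap.sum_apply,
    LinearMap.smul_apply, smul_eq_mul]
  rw [Finset.sum_comm]
  refine Finset.sum_congr rfl fun γ _ => Finset.sum_congr rfl fun α _ => ?_
  rw [hB (b' γ) (b α), add_comm α γ]

theorem pr_eq_zero [Module.Finite K W] (hS : HomSphere K Δ d) (hu : Lsop K Δ u)
    {F : (V → ℕ) → K} (hF : IsFund K Δ u F) (B : LinearMap.BilinForm K W)
    (hB : ∀ x y, B x y = B y x) {τ : Finset V} (hτ : Δ τ) {i j : ℕ} (h : i + j + τ.card = d)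
    {f b : (V → ℕ) → W} (hf : f ∈ Lm K W Δ u τ i) (hb : Phi K W F τ i b = 0) :
    pr K W B i f b = 0 := by
  obtain ⟨b', rfl⟩ := pd hS hu hF hτ h hf
  rw [pr_symm B hB, hb]
  simp [pr]

theorem Phi_eq_zero [Module.Finite K W] (hS : HomSphere K Δ d) (hu : Lsop K Δ u)
    {F : (V → ℕ) → K} (hF : IsFund K Δ u F) (B : LinearMap.BilinForm K W)
    (hB : ∀ x y, B x y = B y x) (hnd : ∀ x, (∀ y, B x y = 0) → x = 0) {τ : Finset V} (hτ : Δ τ)
    {i j : ℕ} (h : i + j + τ.card = d) {b : (V → ℕ) → W}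
    (hb : ∀ f ∈ Lm K W Δ u τ i, pr K W B i f b = 0) : Phi K W F τ i b = 0 := by
  classical
  have hmem : Phi K W F τ i b ∈ Lm K W Δ u τ j :=
    Phi_mem hS.cpx hF.mem (by omega) b
  funext γ
  by_cases hγ : ∑ v, γ v = j
  · refine hnd _ fun y => ?_
    have h1 := hb (Phi K W F τ j (Pi.single γ y))
      (Phi_mem hS.cpx hF.mem (by omega) _)
    rw [pr_symm B hB] at h1
    rw [pr, Finset.sum_eq_single γ] at h1
    · simpa using h1
    · intro α _ hα
      rw [Pi.single_eq_of_ne hα, map_zero]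
    · intro hn
      exact absurd (by simp [Finset.mem_piAntidiag, hγ]) hn
  · by_contra hne
    exact hγ (hmem.1 γ hne).1

theorem pr_Dop (B : LinearMap.BilinForm K W) {A : V → W →ₗ[K] W}
    (hA : ∀ v x y, B (A v x) y = B x (A v y)) (i : ℕ) (f b : (V → ℕ) → W) :
    pr K W B i (Dop K W A f) b = pr K W B (i + 1) f (Dt K W A b) := by
  simp only [pr, Dop, Dt, LinearMap.coe_mk, AddHom.coe_mk, map_sum, LinearMap.sum_apply]
  rw [Finset.sum_comm, Finset.sum_comm (s := Finset.piAntidiag univ (i + 1))]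
  refine Finset.sum_congr rfl fun v _ => ?_
  have h1 : ∀ β : V → ℕ, (B (f β)) (if β v ≠ 0 then A v (b (β - e1 v)) else 0)
      = if β v ≠ 0 then B (f β) (A v (b (β - e1 v))) else 0 := by
    intro β
    split_ifs <;> simp
  simp only [h1]
  rw [sum_piAntidiag_shift v i (fun β => B (f β) (A v (b (β - e1 v))))]
  refine Finset.sum_congr rfl fun α _ => ?_
  rw [hA]
  simp

theorem Phi_Dt (F : (V → ℕ) → K) (A : V → W →ₗ[K] W) (τ : Finset V) (i : ℕ)
    (b : (V → ℕ) → W) :
    Phi K W F τ (i + 1) (Dt K W A b) = Dop K W A (Phi K W F τ i b) := by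
  funext γ
  simp only [Phi, Dop, Dt, LinearMap.coe_mk, AddHom.coe_mk, map_sum, map_smul, Finset.smul_sum]
  rw [Finset.sum_comm]
  refine Finset.sum_congr rfl fun v _ => ?_
  have h1 : ∀ β : V → ℕ, F (γ + β + ind τ) • (if β v ≠ 0 then A v (b (β - e1 v)) else 0)
      = if β v ≠ 0 then F (γ + β + ind τ) • A v (b (β - e1 v)) else 0 := by
    intro β
    split_ifs <;> simp
  simp only [h1]
  rw [sum_piAntidiag_shift v i (fun β => F (γ + β + ind τ) • A v (b (β - e1 v)))]
  refine Finset.sum_congr rfl fun α _ => ?_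
  have h2 : γ + (α + e1 v) + ind τ = γ + e1 v + α + ind τ := by abel
  rw [h2]
  simp

/-- A nondegenerate symmetric form represents all functionals. -/
theorem exists_repr [Module.Finite K W] {B : LinearMap.BilinForm K W}
    (hB : ∀ x y, B x y = B y x) (hnd : ∀ x, (∀ y, B x y = 0) → x = 0) (ψ : W →ₗ[K] K) :
    ∃ w, ∀ x, B x w = ψ x := by
  have hinj : Function.Injective (B : W →ₗ[K] Module.Dual K W) := by
    rw [← LinearMap.ker_eq_bot, LinearMap.ker_eq_bot']
    intro x hx
    exact hnd x fun y => by rw [hx]; rfl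
  have hsurj : Function.Surjective (B : W →ₗ[K] Module.Dual K W) :=
    (LinearMap.injective_iff_surjective_of_finrank_eq_finrank
      (Subspace.dual_finrank_eq (K := K) (V := W)).symm).1 hinj
  obtain ⟨w, hw⟩ := hsurj ψ
  exact ⟨w, fun x => by rw [hB x w, hw]⟩

theorem mem_map_of_pr [Module.Finite K W] (hS : HomSphere K Δ d) (hu : Lsop K Δ u)
    {F : (V → ℕ) → K} (hF : IsFund K Δ u F) {B : LinearMap.BilinForm K W} {A : V → W →ₗ[K] W}
    (hD : IsDirac Δ u B A) {τ : Finset V} (hτ : Δ τ) {i j : ℕ} (h : i + 1 + j + τ.card = d)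
    {f : (V → ℕ) → W} (hf : f ∈ Lm K W Δ u τ i)
    (hp : ∀ b, Dop K W A (Phi K W F τ i b) = 0 → pr K W B i f b = 0) :
    ∃ g ∈ Lm K W Δ u τ (i + 1), Dop K W A g = f := by
  classical
  by_contra hcon
  push Not at hcon
  -- restriction to the monomials of degree `i`
  let P : Finset (V → ℕ) := Finset.piAntidiag univ i
  let R : ((V → ℕ) → W) →ₗ[K] (P → W) :=
    { toFun := fun g => fun α => g α.1
      map_add' := fun _ _ => rfl
      map_smul' := fun _ _ => rfl }
  have hR : ∀ g : (V → ℕ) → W, g ∈ Sm K W Δ τ i → R g = 0 → g = 0 := by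
    intro g hg h0
    funext α
    by_contra hne
    have h1 := (hg α hne).1
    have h2 : α ∈ P := by simp [P, Finset.mem_piAntidiag, h1]
    exact hne (congrFun h0 ⟨α, h2⟩)
  have hnot : R f ∉ (Submodule.map (Dop K W A) (Lm K W Δ u τ (i + 1))).map R := by
    rintro ⟨x, ⟨g, hg, rfl⟩, hx⟩
    refine hcon g hg ?_
    have h1 : Dop K W A g - f ∈ Sm K W Δ τ i :=
      Submodule.sub_mem _ (Dop_mem_Sm hS.cpx A (Lm_le_Sm hg)) (Lm_le_Sm hf)
    have h2 := hR _ h1 (by rw [map_sub, hx, sub_self])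
    exact sub_eq_zero.1 h2
  obtain ⟨φ, hφf, hφ⟩ := Submodule.exists_le_ker_of_notMem hnot
  -- represent the functional
  have hrep : ∀ α : P, ∃ w : W, ∀ x, B x w = φ (Pi.single α x) := by
    intro α
    exact exists_repr hD.symm hD.nondeg (φ.comp (LinearMap.single K (fun _ : P => W) α))
  choose w hw using hrep
  let b : (V → ℕ) → W := fun α => if hα : α ∈ P then w ⟨α, hα⟩ else 0
  have hprb : ∀ g : (V → ℕ) → W, pr K W B i g b = φ (R g) := by
    intro g
    have h1 : R g = ∑ α : P, Pi.single α (R g α) := by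
      rw [Finset.univ_sum_single]
    rw [h1, map_sum]
    simp only [← hw]
    rw [pr, ← Finset.sum_attach]
    refine Finset.sum_congr rfl fun α _ => ?_
    have h2 : b α.1 = w α := by
      simp only [b]
      rw [dif_pos α.2]
    rw [h2]
    rfl
  have h0 : Phi K W F τ (i + 1) (Dt K W A b) = 0 := by
    refine Phi_eq_zero hS hu hF B hD.symm hD.nondeg hτ h fun g hg => ?_
    rw [← pr_Dop B hD.adj, hprb]
    have : R (Dop K W A g) ∈ (Submodule.map (Dop K W A) (Lm K W Δ u τ (i + 1))).map R :=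
      ⟨_, ⟨g, hg, rfl⟩, rfl⟩
    exact hφ this
  rw [Phi_Dt] at h0
  have h1 := hp b h0
  rw [hprb] at h1
  exact hφf h1

end Pool.Agent.H53.CF
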