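import Pool.Agent.H53.CF.ELow
import Pool.Agent.H53.CF.Pair

/-!
# helper53 CF module CORE: exactness below the middle from the odd step

`EX τ` by downward induction on `|τ|`. For `2 i + 1 + |τ| < d`: `exact_low`. For
`2 i + 1 + |τ| = d`: `f` closed in `Lm τ i`. By `mem_map_of_pr` (with `j = i`, `i + 1 + i + |τ| = d`)
it is enough that `pr B i f b = 0` for all `b` with `D g = 0`, `g = Phi F τ i b ∈ Lm τ (i + 1)`.
By the odd step, for every `w` of the link `X_w g = Phi F (insert w τ) i b` (`Phi_insert`) is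
`D h_w`, `h_w ∈ Lm (insert w τ) (i + 1)`. By `closed_sum` `f = ∑ z w`. So
`pr B i f b = ∑_w pr B i (z w) b`. `z w = Phi F (insert w τ) i b'_w` (`pd`, `i + i + |τ| + 1 = d`),
so `pr B i (z w) b = pr B i (Phi F (insert w τ) i b) b'_w = pr B i (D h_w) b'_w
= pr B (i+1) h_w (Dt b'_w)` and `Phi F (insert w τ) (i + 1) (Dt b'_w) = D (z w) = 0`. If `i > 0`,
`pr_eq_zero` (`i + 1 + (i - 1) + |τ| + 1 = d`) gives `0`. If `i = 0`: `h_w` has degree `1` and
`insert w τ` is a facet, so `h_w = 0` (`Lm` in degree `> d - |τ|` is `0`; e.g. by `finrank_eq_coeff`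
and `hpoly_coeff_gt`, or directly).
-/

namespace Pool.Agent.H53.CF

open Finset

variable {V : Type*} [Fintype V] [LinearOrder V]
variable {K : Type*} [Field K] {U : Type*} [AddCommGroup U] [Module K U]
variable {Δ : Finset V → Prop} {d : ℕ} {u : V → Fin d → K}

/-- Stresses above the top degree vanish (scalar case). -/
private theorem Lm_top_zero_scalar (hS : HomSphere K Δ d) (hu : Lsop K Δ u) {τ : Finset V}
    (hτ : Δ τ) {i : ℕ} (hi : d < i + τ.card) {f : (V → ℕ) → K} (hf : f ∈ Lm K K Δ u τ i) :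
    f = 0 := by
  have h1 := finrank_eq_coeff hS hu hτ i
  rw [hpoly_coeff_gt hS hu hτ hi] at h1
  have h2 : Module.finrank K (Lm K K Δ u τ i) = 0 := by exact_mod_cast h1
  have : Module.Finite K (Lm K K Δ u τ i) := finite_Lm τ i
  have h3 := Module.finrank_zero_iff.1 h2
  have h4 : (⟨f, hf⟩ : Lm K K Δ u τ i) = 0 := Subsingleton.elim _ _
  exact congrArg Subtype.val h4

/-- Stresses above the top degree vanish. -/
theorem Lm_top_zero (hS : HomSphere K Δ d) (hu : Lsop K Δ u) {τ : Finset V} (hτ : Δ τ) {i : ℕ}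
    (hi : d < i + τ.card) {f : (V → ℕ) → U} (hf : f ∈ Lm K U Δ u τ i) : f = 0 := by
  funext α
  rw [Pi.zero_apply, ← Module.forall_dual_apply_eq_zero_iff K]
  intro φ
  have hmem : (fun β => φ (f β)) ∈ Lm K K Δ u τ i := by
    refine ⟨fun β hβ => hf.1 β (fun h0 => hβ ?_), fun j β => ?_⟩
    · simp only [h0, map_zero]
    · have h1 := congrArg φ (hf.2 j β)
      rw [map_zero, map_sum] at h1
      rw [← h1]
      refine Finset.sum_congr rfl fun v _ => ?_
      rw [map_smul]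
  exact congrFun (Lm_top_zero_scalar hS hu hτ hi hmem) α

private theorem pr_sum_left (B : LinearMap.BilinForm K U) (i : ℕ) (z : V → (V → ℕ) → U)
    (b : (V → ℕ) → U) : pr K U B i (∑ w, z w) b = ∑ w, pr K U B i (z w) b := by
  unfold pr
  rw [Finset.sum_comm]
  refine Finset.sum_congr rfl fun α _ => ?_
  rw [Finset.sum_apply, map_sum, LinearMap.sum_apply]

private theorem pr_zero_left (B : LinearMap.BilinForm K U) (i : ℕ) (b : (V → ℕ) → U) :
    pr K U B i 0 b = 0 := by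
  unfold pr
  simp

theorem ex_step [Module.Finite K U] (hS : HomSphere K Δ d) (hu : Lsop K Δ u)
    {B : LinearMap.BilinForm K U} {A : V → U →ₗ[K] U} (hD : IsDirac Δ u B A)
    {τ : Finset V} (hτ : Δ τ) (hEX : ∀ τ', Δ τ' → τ ⊂ τ' → EX Δ u A τ') (hOS : OS Δ u A τ) :
    EX Δ u A τ := by
  intro i hi f hf hDf
  rcases Nat.lt_or_ge (2 * i + 1 + τ.card) d with hlt | hge
  · exact exact_low hS hu hD.sq hτ hEX hlt hf hDf
  have heq : 2 * i + 1 + τ.card = d := by omega
  obtain ⟨F, hF⟩ := exists_fund hS hu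
  refine mem_map_of_pr hS hu hF hD hτ (j := i) (by omega) hf ?_
  intro b hb
  obtain ⟨z, hz, hzτ, hzΔ, hDz, hsum⟩ := closed_sum hS hu hD.sq hτ hEX heq hf hDf
  have hg : Phi K U F τ i b ∈ Lm K U Δ u τ (i + 1) :=
    Phi_mem hS.cpx hF.mem (by omega) b
  rw [← hsum, pr_sum_left]
  refine Finset.sum_eq_zero fun w _ => ?_
  by_cases hwτ : w ∈ τ
  · rw [hzτ w hwτ, pr_zero_left]
  by_cases hwΔ : Δ (insert w τ)
  swap
  · rw [hzΔ w hwΔ, pr_zero_left]
  have hcard : (insert w τ).card = τ.card + 1 := Finset.card_insert_of_notMem hwτ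
  obtain ⟨h, hh, hDh⟩ := hOS i heq _ hg hb w hwτ hwΔ
  obtain ⟨b', hb'⟩ := pd hS hu hF hwΔ (i := i) (j := i) (by omega) (hz w)
  rw [← hb', pr_symm B hD.symm, Phi_insert hwτ, ← hDh, pr_Dop B hD.adj]
  rcases Nat.eq_zero_or_pos i with hi0 | hi0
  · have h0 : h = 0 := Lm_top_zero hS hu hwΔ (by omega) hh
    rw [h0, pr_zero_left]
  · refine pr_eq_zero hS hu hF B hD.symm hwΔ (i := i + 1) (j := i - 1) (by omega) hh ?_
    rw [Phi_Dt, hb']
    exact hDz w

/-- Main theorem of the general part. -/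
theorem core [Module.Finite K U] (hS : HomSphere K Δ d) (hu : Lsop K Δ u)
    {B : LinearMap.BilinForm K U} {A : V → U →ₗ[K] U} (hD : IsDirac Δ u B A)
    (h : ∀ τ, Δ τ → (∀ τ', Δ τ' → τ ⊂ τ' → EX Δ u A τ') → OS Δ u A τ) :
    ∀ τ, Δ τ → EX Δ u A τ := by
  intro τ
  induction τ using WellFoundedGT.induction with
  | ind τ ih =>
    intro hτ
    have hEX : ∀ τ', Δ τ' → τ ⊂ τ' → EX Δ u A τ' := fun τ' h1 h2 => ih τ' h2 h1
    exact ex_step hS hu hD hτ hEX (h τ hτ hEX)

end Pool.Agent.H53.CF
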