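import Pool.Agent.H53.CF.FanLoc

/-!
# helper53 CF module FANCOUNT: the h-numbers count the facets by their negative coordinates

`hpoly Δ d τ = ∑_{σ ∈ facets τ} X ^ (negs x τ σ)`: by `exists_unique_facet` for the faces
`τ ∪ ρ`, `ρ` in the link of `τ`, sort the `ρ` by the facet: the `ρ` belonging to `σ` are those with
`N ⊆ ρ ⊆ σ \ τ`, `N` the set of negative coordinates in `σ \ τ`, and
`∑_{N ⊆ ρ ⊆ σ \ τ} X^|ρ| (1 - X)^(r - |ρ|) = X^|N|`, `r = d - |τ| = |σ \ τ|` (binomial theorem: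
`∑_{T ⊆ M} X^|T| (1-X)^(|M| - |T|) = 1`).
-/

namespace Pool.Agent.H53.CF

open Finset

variable {V : Type*} [Fintype V] [LinearOrder V]
variable {Δ : Finset V → Prop} {d : ℕ} {u : V → Fin d → ℝ}

open Polynomial in
private theorem sum_Icc_pow (N M : Finset V) (h : N ⊆ M) :
    ∑ ρ ∈ Finset.Icc N M, (X : Polynomial ℤ) ^ ρ.card * (1 - X) ^ (M.card - ρ.card) =
      X ^ N.card := by
  rw [Finset.Icc_eq_image_powerset h, Finset.sum_image]
  · have h1 : ∀ T ∈ (M \ N).powerset,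
        (X : Polynomial ℤ) ^ (N ∪ T).card * (1 - X) ^ (M.card - (N ∪ T).card) =
          X ^ N.card * ((X : Polynomial ℤ) ^ T.card * (1 - X) ^ ((M \ N).card - T.card)) := by
      intro T hT
      rw [Finset.mem_powerset] at hT
      have hd : Disjoint N T := Finset.disjoint_left.2 (fun a ha ha' =>
        (Finset.mem_sdiff.1 (hT ha')).2 ha)
      rw [Finset.card_union_of_disjoint hd, Finset.card_sdiff_of_subset h, pow_add, mul_assoc,
        Nat.sub_sub]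
    rw [Finset.sum_congr rfl h1, ← Finset.mul_sum, Finset.sum_pow_mul_eq_add_pow]
    have h2 : (X : Polynomial ℤ) + (1 - X) = 1 := by ring
    rw [h2, one_pow, mul_one]
  · intro a ha b hb hab
    have ha' := Finset.mem_powerset.1 (Finset.mem_coe.1 ha)
    have hb' := Finset.mem_powerset.1 (Finset.mem_coe.1 hb)
    have hab' : N ∪ a = N ∪ b := hab
    ext v
    constructor
    · intro hv
      have hn : v ∉ N := (Finset.mem_sdiff.1 (ha' hv)).2
      have : v ∈ N ∪ b := hab' ▸ Finset.mem_union_right N hv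
      exact (Finset.mem_union.1 this).resolve_left hn
    · intro hv
      have hn : v ∉ N := (Finset.mem_sdiff.1 (hb' hv)).2
      have : v ∈ N ∪ a := hab' ▸ Finset.mem_union_right N hv
      exact (Finset.mem_union.1 this).resolve_left hn

open Polynomial Classical in
private theorem hpoly_eq_sum (hS : HomSphere ℝ Δ d) (hF : CompleteFan Δ u) {t : Fin d → ℝ}
    {x : Finset V → V → ℝ} (hx : IsCoords Δ u t x) {τ : Finset V} :
    hpoly Δ d τ = ∑ σ ∈ facets Δ d τ, (X : Polynomial ℤ) ^ (negs x τ σ) := by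
  have hmemf : ∀ σ, σ ∈ facets Δ d τ ↔ Δ σ ∧ τ ⊆ σ ∧ σ.card = d := fun σ => by
    simp [facets]
  have hmeml : ∀ ρ, ρ ∈ lkF Δ τ ↔ Disjoint ρ τ ∧ Δ (ρ ∪ τ) := fun ρ => by
    simp [lkF]
  unfold hpoly
  have h1 : ∀ ρ ∈ lkF Δ τ, (X : Polynomial ℤ) ^ ρ.card * (1 - X) ^ (d - τ.card - ρ.card) =
      ∑ σ ∈ facets Δ d τ, if (ρ ∪ τ ⊆ σ ∧ ∀ v ∈ σ \ (ρ ∪ τ), 0 < x σ v) then
        (X : Polynomial ℤ) ^ ρ.card * (1 - X) ^ (d - τ.card - ρ.card) else 0 := by
    intro ρ hρ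
    obtain ⟨hρ1, hρ2⟩ := (hmeml ρ).1 hρ
    obtain ⟨σ0, ⟨hσ1, hσ2, hσ3, hσ4⟩, huniq⟩ := exists_unique_facet hS hF hx hρ2
    rw [Finset.sum_eq_single σ0]
    · rw [if_pos ⟨hσ2, hσ4⟩]
    · intro σ hσ hne
      obtain ⟨ha, _, hc⟩ := (hmemf σ).1 hσ
      rw [if_neg]
      rintro ⟨hd1, hd2⟩
      exact hne (huniq σ ⟨ha, hd1, hc, hd2⟩)
    · intro h
      exact absurd ((hmemf σ0).2 ⟨hσ1, Finset.union_subset_right hσ2, hσ3⟩) h
  rw [Finset.sum_congr rfl h1, Finset.sum_comm]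
  refine Finset.sum_congr rfl (fun σ hσ => ?_)
  obtain ⟨hσ1, hσ2, hσ3⟩ := (hmemf σ).1 hσ
  have hN : (σ \ τ).filter (fun v => x σ v < 0) ⊆ σ \ τ := Finset.filter_subset _ _
  have hcard : (σ \ τ).card = d - τ.card := by
    rw [Finset.card_sdiff_of_subset hσ2, hσ3]
  rw [← Finset.sum_filter]
  have h2 : (lkF Δ τ).filter (fun ρ => ρ ∪ τ ⊆ σ ∧ ∀ v ∈ σ \ (ρ ∪ τ), 0 < x σ v) =
      Finset.Icc ((σ \ τ).filter (fun v => x σ v < 0)) (σ \ τ) := by
    ext ρ
    rw [Finset.mem_filter, hmeml, Finset.mem_Icc, Finset.le_iff_subset, Finset.le_iff_subset]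
    constructor
    · rintro ⟨⟨ha, _⟩, hc, hd⟩
      refine ⟨?_, ?_⟩
      · intro v hv
        obtain ⟨hv1, hv2⟩ := Finset.mem_filter.1 hv
        obtain ⟨hv3, hv4⟩ := Finset.mem_sdiff.1 hv1
        by_contra hvρ
        have hv5 : v ∈ σ \ (ρ ∪ τ) :=
          Finset.mem_sdiff.2 ⟨hv3, fun h => (Finset.mem_union.1 h).elim hvρ hv4⟩
        exact absurd (hd v hv5) (not_lt.2 hv2.le)
      · intro v hv
        exact Finset.mem_sdiff.2 ⟨hc (Finset.mem_union_left τ hv),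
          Finset.disjoint_left.1 ha hv⟩
    · rintro ⟨ha, hb⟩
      have hsub : ρ ∪ τ ⊆ σ :=
        Finset.union_subset (hb.trans Finset.sdiff_subset) hσ2
      refine ⟨⟨Finset.disjoint_left.2 (fun v hv => (Finset.mem_sdiff.1 (hb hv)).2),
        hS.cpx.down σ _ hσ1 hsub⟩, hsub, ?_⟩
      intro v hv
      obtain ⟨hv1, hv2⟩ := Finset.mem_sdiff.1 hv
      have hv3 : v ∉ ρ := fun h => hv2 (Finset.mem_union_left τ h)
      have hv4 : v ∉ τ := fun h => hv2 (Finset.mem_union_right ρ h)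
      have hne : x σ v ≠ 0 := (hx σ hσ1 hσ3).2.2 v hv1
      by_contra hle
      have hlt : x σ v < 0 := lt_of_le_of_ne (not_lt.1 hle) hne
      exact hv3 (ha (Finset.mem_filter.2 ⟨Finset.mem_sdiff.2 ⟨hv1, hv4⟩, hlt⟩))
  rw [h2, ← hcard, sum_Icc_pow _ _ hN]
  rfl

open Classical in
theorem coeff_eq_count (hS : HomSphere ℝ Δ d) (hF : CompleteFan Δ u) {t : Fin d → ℝ}
    {x : Finset V → V → ℝ} (hx : IsCoords Δ u t x) {τ : Finset V} (hτ : Δ τ) (i : ℕ) :
    (hpoly Δ d τ).coeff i = ((facets Δ d τ).filter (fun σ => negs x τ σ = i)).card := by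
  rw [hpoly_eq_sum hS hF hx, Polynomial.finsetSum_coeff]
  simp only [Polynomial.coeff_X_pow]
  rw [Finset.card_filter, Nat.cast_sum]
  refine Finset.sum_congr rfl (fun σ _ => ?_)
  by_cases h : negs x τ σ = i
  · rw [if_pos h.symm, if_pos h, Nat.cast_one]
  · rw [if_neg (fun h' => h h'.symm), if_neg h, Nat.cast_zero]

end Pool.Agent.H53.CF
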