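import Mathlib

/-!
# helper53 CF module LA: isotropic subspaces of maximal dimension

`G(x, y) = ∑ s i * B (x i) (y i)`. `N₊`, `N₋`: functions supported on `{s > 0}`, `{s < 0}`.
`Q ∩ N₊ = 0` (`G` is positive definite on `N₊`, zero on `Q`), so the restriction map
`Q → ({i | s i < 0} → U)` is injective, hence bijective by the dimension hypothesis. Given
`x ∈ Q^⊥` choose `y ∈ Q` with the same restriction: `x - y ∈ N₊`, `G(x, x) = G(x - y, x - y) ≥ 0`
(`G(x,y) = 0 = G(y,y)`), with equality iff `x = y ∈ Q`.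
-/

namespace Pool.Agent.H53.CF

theorem la_pos {S : Type*} [Fintype S] {U : Type*} [AddCommGroup U] [Module ℝ U]
    (B : LinearMap.BilinForm ℝ U)
    (hpos : ∀ x, x ≠ 0 → 0 < B x x) (s : S → ℝ) (hs : ∀ i, s i ≠ 0) (z : S → U)
    (hz : ∀ i, s i < 0 → z i = 0) :
    0 ≤ ∑ i, s i * B (z i) (z i) ∧ (∑ i, s i * B (z i) (z i) = 0 → z = 0) := by
  have hterm : ∀ i, 0 ≤ s i * B (z i) (z i) ∧ (s i * B (z i) (z i) = 0 → z i = 0) := by
    intro i
    by_cases h0 : z i = 0
    · rw [h0]; simp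
    · have h1 : 0 < s i := by
        rcases lt_or_gt_of_ne (hs i) with h | h
        · exact absurd (hz i h) h0
        · exact h
      have h2 := mul_pos h1 (hpos _ h0)
      exact ⟨h2.le, fun h => absurd h h2.ne'⟩
  refine ⟨Finset.sum_nonneg (fun i _ => (hterm i).1), fun h => ?_⟩
  rw [Finset.sum_eq_zero_iff_of_nonneg (fun i _ => (hterm i).1)] at h
  funext i
  exact (hterm i).2 (h i (Finset.mem_univ i))

open Classical in
theorem la_isotropic {S : Type*} [Fintype S] {U : Type*} [AddCommGroup U] [Module ℝ U]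
    [Module.Finite ℝ U] (B : LinearMap.BilinForm ℝ U) (hsymm : ∀ x y, B x y = B y x)
    (hpos : ∀ x, x ≠ 0 → 0 < B x x) (s : S → ℝ) (hs : ∀ i, s i ≠ 0)
    (Q : Submodule ℝ (S → U))
    (hQ : ∀ x ∈ Q, ∀ y ∈ Q, ∑ i, s i * B (x i) (y i) = 0)
    (hdim : (Finset.univ.filter (fun i => s i < 0)).card * Module.finrank ℝ U ≤
      Module.finrank ℝ Q) :
    ∀ x : S → U, (∀ y ∈ Q, ∑ i, s i * B (x i) (y i) = 0) →
      0 ≤ ∑ i, s i * B (x i) (x i) ∧ (∑ i, s i * B (x i) (x i) = 0 → x ∈ Q) := by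
  intro x hx
  let N := {i : S // s i < 0}
  let R : Q →ₗ[ℝ] (N → U) := (LinearMap.funLeft ℝ U (Subtype.val : N → S)).comp Q.subtype
  have hR : ∀ (y : Q) (i : N), R y i = (y : S → U) i.1 := fun y i => rfl
  have hinj : Function.Injective R := by
    rw [← LinearMap.ker_eq_bot, LinearMap.ker_eq_bot']
    intro y hy
    have h1 : ∀ i, s i < 0 → (y : S → U) i = 0 := by
      intro i hi
      have := congrFun hy ⟨i, hi⟩
      rwa [hR] at this
    have h2 := (la_pos B hpos s hs (y : S → U) h1).2 (hQ _ y.2 _ y.2)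
    exact Subtype.ext h2
  have hcod : Module.finrank ℝ (N → U) =
      (Finset.univ.filter (fun i => s i < 0)).card * Module.finrank ℝ U := by
    rw [Module.finrank_pi_fintype, Finset.sum_const, smul_eq_mul, Finset.card_univ,
      Fintype.card_subtype]
  have hle := LinearMap.finrank_le_finrank_of_injective hinj
  have heq : Module.finrank ℝ Q = Module.finrank ℝ (N → U) := le_antisymm hle (by rw [hcod]; exact hdim)
  have hsurj : Function.Surjective R :=
    (LinearMap.injective_iff_surjective_of_finrank_eq_finrank heq).1 hinj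
  obtain ⟨y, hy⟩ := hsurj (fun i => x i.1)
  have hz : ∀ i, s i < 0 → (x - (y : S → U)) i = 0 := by
    intro i hi
    have := congrFun hy ⟨i, hi⟩
    rw [hR] at this
    rw [Pi.sub_apply, sub_eq_zero]
    exact this.symm
  have hexp : ∑ i, s i * B ((x - (y : S → U)) i) ((x - (y : S → U)) i) =
      ∑ i, s i * B (x i) (x i) := by
    have h1 : ∑ i, s i * B ((x - (y : S → U)) i) ((x - (y : S → U)) i) =
        ∑ i, s i * B (x i) (x i) - 2 * ∑ i, s i * B (x i) ((y : S → U) i) +
          ∑ i, s i * B ((y : S → U) i) ((y : S → U) i) := by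
      rw [Finset.mul_sum, ← Finset.sum_sub_distrib, ← Finset.sum_add_distrib]
      refine Finset.sum_congr rfl (fun i _ => ?_)
      have e1 : B ((x - (y : S → U)) i) ((x - (y : S → U)) i) = B (x i) (x i) -
          B (x i) ((y : S → U) i) - (B ((y : S → U) i) (x i) -
            B ((y : S → U) i) ((y : S → U) i)) := by
        simp only [Pi.sub_apply, map_sub, LinearMap.sub_apply]
        ring
      rw [e1, hsymm ((y : S → U) i) (x i)]
      ring
    rw [h1, hx _ y.2, hQ _ y.2 _ y.2]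
    ring
  obtain ⟨h3, h4⟩ := la_pos B hpos s hs _ hz
  rw [hexp] at h3 h4
  refine ⟨h3, fun h => ?_⟩
  have h5 := sub_eq_zero.1 (h4 h)
  rw [h5]
  exact y.2

end Pool.Agent.H53.CF
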