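import Pool.Agent.H53.CF.DimQ
import Pool.Agent.H53.CF.Core
import Pool.Agent.H53.CF.LA
import Pool.Agent.H53.CF.FanCount

/-!
# helper53 CF module DEFEVEN: definiteness in the middle degree of an even link

`2 k + |τ| = d`, `h_i = coeff` of `hpoly τ` `= finrank (Lm ℝ τ i)`, `m = finrank U`.
`N = D (Lm τ (k+1)) ≤ Lm τ k`, `Q = Qs k N`, `s σ = (-1)^k μ σ`.
* sign of `μ σ`: `μ σ * ∏ x = F (ind σ) > 0`, so `μ σ` has the sign `(-1)^(negs)`, and
  `s σ < 0` iff `negs ≢ k (mod 2)`; by `coeff_eq_count` the number of these `σ` is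
  `∑_{i ≢ k mod 2, i ≤ 2k} h_i`.
* `finrank Q ≥ m ∑_{l<k} h_l + finrank N` (`finrank_Qs`, `i = j = k`), and
  `finrank N = rank (D : L_k → L_(k-1)) = m ∑_{j<k} (-1)^j h_(k-1-j)` (`finrank_map_dual` with
  `i = j = k`, `finrank_map` with `EX τ`). Sum: `2 m (h_(k-1) + h_(k-3) + ...) =
  m ∑_{i ≢ k mod 2} h_i` by symmetry `h_i = h_(2k-i)` (`finrank_Lm_symm`).
* `Q` is isotropic: for `b, b' ∈ Pl k` the form is `pr B k (Phi b') b` (`res_form_eq`), with
  `Phi b' = D g'`, `Phi b = D g`: `pr B k (D g') b = pr B (k+1) g' (Dt b)` and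
  `Phi F τ (k+1) (Dt b) = D Phi b = D D g = 0`, so it is `0` by `pr_eq_zero`
  (`k ≥ 1`; for `k = 0` all of `Lm τ 1` is `0` by `Lm_top_zero`, `N = 0`, `Phi b = 0`).
* If `D (Phi F τ k b) = 0` then `evF (cut b) ∈ Q^⊥` by the same computation. Apply
  `la_isotropic`: `0 ≤ (-1)^k pr B k (Phi b) b`, with equality only if `evF b ∈ Q`,
  i.e. `evF b = evF b₁`, `b₁ ∈ Pl k`, `Phi b₁ ∈ N`; then `Phi b = Phi b₁` (well-definedness in
  DIMQ: `evF (b - b₁) = 0` gives `pr B k (Phi F τ k b') (b - b₁) = 0` for all `b'`, use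
  `Phi_eq_zero`, `pd`).
-/

namespace Pool.Agent.H53.CF

open Finset Module

variable {V : Type*} [Fintype V] [LinearOrder V]
variable {U : Type*} [AddCommGroup U] [Module ℝ U]
variable {Δ : Finset V → Prop} {d : ℕ} {u : V → Fin d → ℝ}

/-- Images `D g` of stresses pair to zero with closed classes (middle degree). -/
private theorem pr_map_closed [Module.Finite ℝ U] (hS : HomSphere ℝ Δ d) (hu : Lsop ℝ Δ u)
    {F : (V → ℕ) → ℝ} (hF : IsFund ℝ Δ u F)
    {B : LinearMap.BilinForm ℝ U} {A : V → U →ₗ[ℝ] U} (hD : IsDirac Δ u B A)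
    {τ : Finset V} (hτ : Δ τ) {k : ℕ} (hk : 2 * k + τ.card = d)
    {g : (V → ℕ) → U} (hg : g ∈ Lm ℝ U Δ u τ (k + 1)) (b : (V → ℕ) → U)
    (hb : Dop ℝ U A (Phi ℝ U F τ k b) = 0) :
    pr ℝ U B k (Dop ℝ U A g) b = 0 := by
  rcases Nat.eq_zero_or_pos k with h0 | h0
  · have hg0 : g = 0 := Lm_top_zero hS hu hτ (by omega) hg
    rw [hg0, map_zero]
    simp [pr]
  · rw [pr_Dop B hD.adj]
    refine pr_eq_zero hS hu hF B hD.symm hτ (i := k + 1) (j := k - 1) (by omega) hg ?_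
    rw [Phi_Dt, hb]

/-- The parity sum identity. -/
private theorem parity_sum (h : ℕ → ℤ) (k : ℕ) (hsymm : ∀ i, i ≤ 2 * k → h i = h (2 * k - i)) :
    ∑ i ∈ range (2 * k + 1), (if (i + k) % 2 = 1 then h i else 0) =
      ∑ l ∈ range k, h l + ∑ j ∈ range k, (-1 : ℤ) ^ j * h (k - 1 - j) := by
  have h1 : ∑ j ∈ range k, (-1 : ℤ) ^ j * h (k - 1 - j) =
      ∑ l ∈ range k, (-1 : ℤ) ^ (k - 1 - l) * h l := by
    rw [← Finset.sum_range_reflect (fun l => (-1 : ℤ) ^ (k - 1 - l) * h l)]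
    refine Finset.sum_congr rfl (fun j hj => ?_)
    have hj' := Finset.mem_range.1 hj
    have : k - 1 - (k - 1 - j) = j := by omega
    rw [this]
  rw [h1, ← Finset.sum_add_distrib]
  have h2 : 2 * k + 1 = k + (k + 1) := by omega
  rw [h2, Finset.sum_range_add, Finset.sum_range_succ']
  have h3 : ¬ ((k + 0 + k) % 2 = 1) := by omega
  rw [if_neg h3, add_zero]
  have h4 : ∑ i ∈ range k, (if (k + (i + 1) + k) % 2 = 1 then h (k + (i + 1)) else 0) =
      ∑ i ∈ range k, (if (i + k) % 2 = 1 then h i else 0) := by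
    rw [← Finset.sum_range_reflect (fun i => if (i + k) % 2 = 1 then h i else 0)]
    refine Finset.sum_congr rfl (fun i hi => ?_)
    have hi' := Finset.mem_range.1 hi
    have h5 : h (k + (i + 1)) = h (k - 1 - i) := by
      rw [hsymm (k + (i + 1)) (by omega)]
      congr 1
      omega
    rw [h5]
    have h6 : (k + (i + 1) + k) % 2 = 1 ↔ (k - 1 - i + k) % 2 = 1 := by omega
    simp only [h6]
  rw [h4, ← Finset.sum_add_distrib]
  refine Finset.sum_congr rfl (fun i hi => ?_)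
  have hi' := Finset.mem_range.1 hi
  by_cases hp : (i + k) % 2 = 1
  · rw [if_pos hp]
    have h7 : Even (k - 1 - i) := by
      rw [Nat.even_iff]
      omega
    rw [h7.neg_one_pow]
    ring
  · rw [if_neg hp]
    have h7 : Odd (k - 1 - i) := by
      rw [Nat.odd_iff]
      omega
    rw [h7.neg_one_pow]
    ring

open Classical in
/-- The sign of the residue weights. -/
private theorem mu_sign {F : (V → ℕ) → ℝ} (hFpos : ∀ σ, Δ σ → σ.card = d → 0 < F (ind σ))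
    {τ : Finset V} {x : Finset V → V → ℝ} {Ft : (V → ℕ) → ℝ} {μ : Finset V → ℝ}
    {t : Fin d → ℝ} (hx : IsCoords Δ u t x)
    (hμ : IsRes (d := d) Δ F τ x Ft μ) {σ : Finset V} (hσ : σ ∈ facets Δ d τ) :
    0 < (-1 : ℝ) ^ (negs x τ σ) * μ σ := by
  have hσ' : Δ σ ∧ τ ⊆ σ ∧ σ.card = d := by
    simpa [facets] using hσ
  have h1 := hμ.1 σ hσ
  have h2 := hFpos σ hσ'.1 hσ'.2.2
  have hne : ∀ v ∈ σ \ τ, x σ v ≠ 0 := fun v hv =>
    (hx σ hσ'.1 hσ'.2.2).2.2 v (Finset.mem_sdiff.1 hv).1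
  have h3 : ∏ v ∈ σ \ τ, x σ v = (-1 : ℝ) ^ (negs x τ σ) * ∏ v ∈ σ \ τ, |x σ v| := by
    unfold negs
    rw [← Finset.prod_filter_mul_prod_filter_not (σ \ τ) (fun v => x σ v < 0) (fun v => x σ v),
      ← Finset.prod_filter_mul_prod_filter_not (σ \ τ) (fun v => x σ v < 0) (fun v => |x σ v|),
      ← mul_assoc, ← Finset.prod_const, ← Finset.prod_mul_distrib]
    congr 1
    · refine Finset.prod_congr rfl (fun v hv => ?_)
      have := (Finset.mem_filter.1 hv).2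
      rw [abs_of_neg this]
      ring
    · refine Finset.prod_congr rfl (fun v hv => ?_)
      have := (Finset.mem_filter.1 hv).2
      rw [abs_of_nonneg (not_lt.1 this)]
  have h4 : 0 < ∏ v ∈ σ \ τ, |x σ v| := Finset.prod_pos (fun v hv => abs_pos.2 (hne v hv))
  rw [h3] at h1
  have h5 : 0 < ((-1 : ℝ) ^ (negs x τ σ) * μ σ) * ∏ v ∈ σ \ τ, |x σ v| := by
    calc (0 : ℝ) < F (ind σ) := h2
      _ = _ := by rw [← h1]; ring
  exact pos_of_mul_pos_left h5 h4.le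

open Classical in
/-- The number of negative weights. -/
private theorem card_neg [Module.Finite ℝ U] (hS : HomSphere ℝ Δ d) (hfan : CompleteFan Δ u)
    (hu : Lsop ℝ Δ u) {F : (V → ℕ) → ℝ}
    (hFpos : ∀ σ, Δ σ → σ.card = d → 0 < F (ind σ))
    {τ : Finset V} (hτ : Δ τ) {x : Finset V → V → ℝ} {Ft : (V → ℕ) → ℝ} {μ : Finset V → ℝ}
    {t : Fin d → ℝ} (hx : IsCoords Δ u t x)
    (hμ : IsRes (d := d) Δ F τ x Ft μ) {k : ℕ} (hk : 2 * k + τ.card = d) :
    ((Finset.univ.filter (fun σ : {σ // σ ∈ facets Δ d τ} => (-1 : ℝ) ^ k * μ σ.1 < 0)).card : ℤ)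
      = ∑ i ∈ range (2 * k + 1), (if (i + k) % 2 = 1 then
        (finrank ℝ (Lm ℝ ℝ Δ u τ i) : ℤ) else 0) := by
  have hle : ∀ σ ∈ facets Δ d τ, negs x τ σ < 2 * k + 1 := by
    intro σ hσ
    have hσ' : Δ σ ∧ τ ⊆ σ ∧ σ.card = d := by
      simpa [facets] using hσ
    have h1 : negs x τ σ ≤ (σ \ τ).card := by
      unfold negs
      exact Finset.card_filter_le _ _
    have h2 : (σ \ τ).card = σ.card - τ.card := Finset.card_sdiff_of_subset hσ'.2.1
    omega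
  have hiff : ∀ σ ∈ facets Δ d τ, ((-1 : ℝ) ^ k * μ σ < 0 ↔ (negs x τ σ + k) % 2 = 1) := by
    intro σ hσ
    have h1 := mu_sign hFpos hx hμ hσ
    have h2 : ((-1 : ℝ) ^ (negs x τ σ)) * ((-1 : ℝ) ^ (negs x τ σ)) = 1 := by
      rw [← mul_pow]
      norm_num
    have h3 : (-1 : ℝ) ^ k * μ σ =
        (-1 : ℝ) ^ (negs x τ σ + k) * ((-1 : ℝ) ^ (negs x τ σ) * μ σ) := by
      calc (-1 : ℝ) ^ k * μ σ
          = (((-1 : ℝ) ^ (negs x τ σ)) * ((-1 : ℝ) ^ (negs x τ σ))) * ((-1 : ℝ) ^ k * μ σ) := by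
            rw [h2, one_mul]
        _ = _ := by rw [pow_add]; ring
    rw [h3]
    rcases Nat.even_or_odd (negs x τ σ + k) with h4 | h4
    · rw [h4.neg_one_pow, one_mul]
      have h5 := Nat.even_iff.1 h4
      constructor
      · intro h
        linarith
      · intro h
        omega
    · rw [h4.neg_one_pow]
      have h5 := Nat.odd_iff.1 h4
      constructor
      · intro _
        exact h5
      · intro _
        linarith
  have h1 : (Finset.univ.filter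
      (fun σ : {σ // σ ∈ facets Δ d τ} => (-1 : ℝ) ^ k * μ σ.1 < 0)).card =
      ((facets Δ d τ).filter (fun σ => (negs x τ σ + k) % 2 = 1)).card := by
    refine Finset.card_bij (fun σ _ => σ.1) ?_ ?_ ?_
    · intro σ hσ
      rw [Finset.mem_filter] at hσ ⊢
      exact ⟨σ.2, (hiff σ.1 σ.2).1 hσ.2⟩
    · intro a _ b _ hab
      exact Subtype.ext hab
    · intro σ hσ
      rw [Finset.mem_filter] at hσ
      refine ⟨⟨σ, hσ.1⟩, ?_, rfl⟩
      rw [Finset.mem_filter]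
      exact ⟨Finset.mem_univ _, (hiff σ hσ.1).2 hσ.2⟩
  rw [h1, Finset.card_eq_sum_card_fiberwise (f := fun σ => negs x τ σ)
    (t := range (2 * k + 1))]
  · push_cast
    refine Finset.sum_congr rfl (fun i _ => ?_)
    have h2 := coeff_eq_count hS hfan hx hτ i
    rw [← finrank_eq_coeff hS hu hτ i] at h2
    split_ifs with hp
    · rw [h2]
      norm_cast
      congr 1
      ext σ
      simp only [Finset.mem_filter]
      constructor
      · rintro ⟨⟨h3, _⟩, h4⟩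
        exact ⟨h3, h4⟩
      · rintro ⟨h3, h4⟩
        exact ⟨⟨h3, by rw [h4]; exact hp⟩, h4⟩
    · norm_cast
      rw [Finset.card_eq_zero, Finset.filter_eq_empty_iff]
      intro σ hσ h4
      rw [Finset.mem_filter, h4] at hσ
      exact hp hσ.2
  · intro σ hσ
    have hσ' := (Finset.mem_filter.1 (Finset.mem_coe.1 hσ)).1
    exact Finset.mem_coe.2 (Finset.mem_range.2 (hle σ hσ'))

theorem def_even [Module.Finite ℝ U] (hS : HomSphere ℝ Δ d) (hfan : CompleteFan Δ u)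
    {F : (V → ℕ) → ℝ} (hF : IsFund ℝ Δ u F) (hFpos : ∀ σ, Δ σ → σ.card = d → 0 < F (ind σ))
    {B : LinearMap.BilinForm ℝ U} {A : V → U →ₗ[ℝ] U} (hD : IsDirac Δ u B A)
    (hpos : ∀ x, x ≠ 0 → 0 < B x x) {τ : Finset V} (hτ : Δ τ) (hEX : EX Δ u A τ) {k : ℕ}
    (hk : 2 * k + τ.card = d) (b : (V → ℕ) → U) (hb : Dop ℝ U A (Phi ℝ U F τ k b) = 0) :
    0 ≤ (-1) ^ k * pr ℝ U B k (Phi ℝ U F τ k b) b ∧
      (pr ℝ U B k (Phi ℝ U F τ k b) b = 0 →
        ∃ h ∈ Lm ℝ U Δ u τ (k + 1), Dop ℝ U A h = Phi ℝ U F τ k b) := by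
  classical
  have hu : Lsop ℝ Δ u := lsop_of_fan hS.cpx hfan
  obtain ⟨t, ht⟩ := exists_generic hu
  obtain ⟨x, hx⟩ := exists_coords hS.cpx hu ht
  obtain ⟨Ft, hFt⟩ := exists_def hS hu hF.mem hτ t
  obtain ⟨μ, hμ⟩ := exists_res hS hu hF.mem hτ ht hx hFt
  -- the subspace `N` and `Q`
  set N : Submodule ℝ ((V → ℕ) → U) :=
    Submodule.map (Dop ℝ U A) (Lm ℝ U Δ u τ (k + 1)) with hNdef
  have hN : N ≤ Lm ℝ U Δ u τ k := by
    rintro _ ⟨g, hg, rfl⟩
    exact Dop_mem_Lm hS.cpx A hg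
  set Q : Submodule ℝ ({σ // σ ∈ facets Δ d τ} → U) := Qs (U := U) Δ d F τ x k N with hQdef
  -- the form
  have hform : ∀ b₁ ∈ Pl U V k, ∀ b₂ ∈ Pl U V k,
      ∑ σ : {σ // σ ∈ facets Δ d τ}, ((-1 : ℝ) ^ k * μ σ.1) *
        B (evF U Δ d τ x b₁ σ) (evF U Δ d τ x b₂ σ) =
      (-1 : ℝ) ^ k * pr ℝ U B k (Phi ℝ U F τ k b₂) b₁ := by
    intro b₁ hb₁ b₂ hb₂
    rw [← res_form_eq B hD.symm hFt hμ (i := k) (j := k) (by omega) hb₁ hb₂, Finset.mul_sum]
    exact Finset.sum_congr rfl (fun σ _ => by ring)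
  -- closed classes are orthogonal to `Q`
  have horth : ∀ b₁ ∈ Pl U V k, Dop ℝ U A (Phi ℝ U F τ k b₁) = 0 → ∀ y ∈ Q,
      ∑ σ : {σ // σ ∈ facets Δ d τ}, ((-1 : ℝ) ^ k * μ σ.1) *
        B (evF U Δ d τ x b₁ σ) (y σ) = 0 := by
    intro b₁ hb₁ hcl y hy
    obtain ⟨b₂, hb₂, rfl⟩ := hy
    obtain ⟨hb₂', hb₂''⟩ := hb₂
    obtain ⟨g, hg, hg'⟩ := hb₂''
    rw [hform b₁ hb₁ b₂ hb₂', ← hg', pr_map_closed hS hu hF hD hτ hk hg b₁ hcl, mul_zero]
  have hiso : ∀ y ∈ Q, ∀ y' ∈ Q, ∑ σ : {σ // σ ∈ facets Δ d τ},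
      ((-1 : ℝ) ^ k * μ σ.1) * B (y σ) (y' σ) = 0 := by
    intro y hy y' hy'
    obtain ⟨b₁, hb₁, rfl⟩ := hy
    obtain ⟨hb₁', hb₁''⟩ := hb₁
    obtain ⟨g, hg, hg'⟩ := hb₁''
    refine horth b₁ hb₁' ?_ y' hy'
    rw [← hg']
    exact hD.sq (k + 1) g (Lm_mono hS.cpx (Finset.empty_subset τ) hg)
  have hs : ∀ σ : {σ // σ ∈ facets Δ d τ}, (-1 : ℝ) ^ k * μ σ.1 ≠ 0 := by
    intro σ h0
    have h1 := mu_sign hFpos hx hμ σ.2
    have h2 : μ σ.1 = 0 := by
      rcases mul_eq_zero.1 h0 with h | h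
      · exact absurd h (pow_ne_zero _ (by norm_num))
      · exact h
    rw [h2, mul_zero] at h1
    exact lt_irrefl _ h1
  -- the dimension count
  have hdim : (Finset.univ.filter
      (fun σ : {σ // σ ∈ facets Δ d τ} => (-1 : ℝ) ^ k * μ σ.1 < 0)).card * finrank ℝ U ≤
      finrank ℝ Q := by
    have h1 := finrank_Qs (U := U) hS hu hF hτ B hD.symm hpos hFt hμ (i := k) (j := k)
      (by omega) hN
    have h2 := finrank_map_dual (U := U) hS hu hF hD hτ (i := k) (j := k) (by omega)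
    have h3 := finrank_map (U := U) hS hu hD.sq hτ hEX (k := k) (by omega)
    have h4 := card_neg (U := U) hS hfan hu hFpos hτ hx hμ hk
    have h5 := parity_sum (fun i => (finrank ℝ (Lm ℝ ℝ Δ u τ i) : ℤ)) k (fun i hi => by
      have := finrank_Lm_symm hS hu hF hτ (i := i) (j := 2 * k - i) (by omega)
      exact_mod_cast this)
    rw [h5] at h4
    have h6 : (finrank ℝ N : ℤ) = ∑ j ∈ range k, (-1 : ℤ) ^ j *
        ((finrank ℝ U : ℤ) * (finrank ℝ (Lm ℝ ℝ Δ u τ (k - 1 - j)) : ℤ)) := by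
      rw [hNdef, h2, h3]
      refine Finset.sum_congr rfl (fun j _ => ?_)
      rw [finrank_LmU]
      push_cast
      rfl
    have h7 : (((Finset.univ.filter
        (fun σ : {σ // σ ∈ facets Δ d τ} => (-1 : ℝ) ^ k * μ σ.1 < 0)).card *
          finrank ℝ U : ℕ) : ℤ) =
        ((∑ l ∈ range k, finrank ℝ (Lm ℝ U Δ u τ l) + finrank ℝ N : ℕ) : ℤ) := by
      push_cast
      rw [h4, h6, add_mul, Finset.sum_mul, Finset.sum_mul]
      congr 1
      · refine Finset.sum_congr rfl (fun l _ => ?_)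
        rw [finrank_LmU (U := U)]
        push_cast
        ring
      · exact Finset.sum_congr rfl (fun l _ => by ring)
    have h8 : (Finset.univ.filter
        (fun σ : {σ // σ ∈ facets Δ d τ} => (-1 : ℝ) ^ k * μ σ.1 < 0)).card *
          finrank ℝ U = ∑ l ∈ range k, finrank ℝ (Lm ℝ U Δ u τ l) + finrank ℝ N := by
      exact_mod_cast h7
    rw [h8]
    exact h1
  have hla := la_isotropic B hD.symm hpos
    (fun σ : {σ // σ ∈ facets Δ d τ} => (-1 : ℝ) ^ k * μ σ.1) hs Q hiso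
    (by convert hdim using 3)
  obtain ⟨b', hb', _, hPhi, hpr⟩ := exists_cut b k
  have hcl : Dop ℝ U A (Phi ℝ U F τ k b') = 0 := by
    rw [hPhi F τ]
    exact hb
  obtain ⟨hge, heq⟩ := hla (evF U Δ d τ x b') (horth b' hb' hcl)
  rw [hform b' hb' b' hb', hPhi F τ, hpr B] at hge heq
  refine ⟨hge, fun h0 => ?_⟩
  obtain ⟨b₁, hb₁, hev⟩ := heq (by rw [h0, mul_zero])
  obtain ⟨hb₁', hb₁''⟩ := hb₁
  obtain ⟨g, hg, hg'⟩ := hb₁''
  refine ⟨g, hg, ?_⟩
  have hz : Phi ℝ U F τ k (b' - b₁) = 0 := by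
    refine Phi_eq_zero hS hu hF B hD.symm hD.nondeg hτ (i := k) (j := k) (by omega) ?_
    intro f hf
    obtain ⟨c, hc⟩ := pd hS hu hF hτ (i := k) (j := k) (by omega) hf
    obtain ⟨c', hc', _, hcPhi, _⟩ := exists_cut c k
    rw [← hc, ← hcPhi F τ,
      ← res_form_eq B hD.symm hFt hμ (i := k) (j := k) (by omega)
        (Submodule.sub_mem _ hb' hb₁') hc']
    refine Finset.sum_eq_zero (fun σ _ => ?_)
    have h1 : evF U Δ d τ x (b' - b₁) = 0 := by
      rw [map_sub, hev, sub_self]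
    rw [h1]
    simp
  rw [map_sub, sub_eq_zero, hPhi F τ] at hz
  rw [hz, hg']

end Pool.Agent.H53.CF
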