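import Mathlib

/-!
# helper53, MP_375bfa_co: Charney-Davis for flag fans by Clifford (Dirac) operators: definitions

Dual (stress) formulation: everything happens in the space of functions `f : (V → ℕ) → W` on the
monomials in the vertices.
-/

namespace Pool.Agent.H53.CF

open Finset

/-! ## Signs, boundary -/

section Signs

variable {V : Type*} [Fintype V] [LinearOrder V]

/-- The sign with which `v` is inserted in `ρ`: `(-1)` to the number of elements of `ρ` below `v`. -/
def sg (v : V) (ρ : Finset V) : ℤ := (-1) ^ (ρ.filter (fun w => w < v)).card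

/-- The simplicial boundary: `(bd c) ρ = ∑ ± c (ρ ∪ {v})` over the vertices `v` outside `ρ`. -/
def bd {W : Type*} [AddCommGroup W] (c : Finset V → W) (ρ : Finset V) : W :=
  ∑ v ∈ ρᶜ, sg v ρ • c (insert v ρ)

end Signs

/-! ## Complexes, homology spheres -/

section Complexes

variable {V : Type*} [Fintype V] [LinearOrder V]

/-- `Δ` (a predicate on the finite sets of vertices) is a simplicial complex. -/
structure IsCpx (Δ : Finset V → Prop) : Prop where
  empty : Δ ∅
  down : ∀ σ τ, Δ σ → τ ⊆ σ → Δ τ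

/-- `c` is a chain of the link of `τ`, living on the faces with `p` vertices. -/
def LkSupp {W : Type*} [Zero W] (Δ : Finset V → Prop) (τ : Finset V) (p : ℕ)
    (c : Finset V → W) : Prop :=
  ∀ ρ, c ρ ≠ 0 → ρ.card = p ∧ Disjoint ρ τ ∧ Δ (ρ ∪ τ)

open Classical in
/-- The faces of the link of `τ`. -/
noncomputable def lkF (Δ : Finset V → Prop) (τ : Finset V) : Finset (Finset V) :=
  univ.filter (fun ρ => Disjoint ρ τ ∧ Δ (ρ ∪ τ))

/-- `Δ` is a homology sphere over `K` of rank `d` (dimension `d - 1`), with all its links: the link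
of every face `τ` has no reduced homology below the top dimension `d - |τ| - 1`, and the
Euler characteristic of a sphere of that dimension. -/
structure HomSphere (K : Type*) [Field K] (Δ : Finset V → Prop) (d : ℕ) : Prop where
  cpx : IsCpx Δ
  acyc : ∀ τ, Δ τ → ∀ p, p + τ.card < d → ∀ c : Finset V → K, LkSupp Δ τ p c →
    (∀ ρ, bd c ρ = 0) → ∃ b : Finset V → K, LkSupp Δ τ (p + 1) b ∧ ∀ ρ, bd b ρ = c ρ
  euler : ∀ τ, Δ τ → ∑ ρ ∈ lkF Δ τ, (-1 : ℤ) ^ ρ.card = (-1) ^ (d - τ.card)

/-- The vectors `u v`, `v ∈ τ`, are linearly independent for every face `τ`. -/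
def Lsop (K : Type*) [Field K] {d : ℕ} (Δ : Finset V → Prop) (u : V → Fin d → K) : Prop :=
  ∀ τ, Δ τ → LinearIndependent K (fun v : τ => u v)

/-- The rays `u v` and the complex `Δ` form a complete simplicial fan: every vector `z` is in a
unique way a combination `∑ c v • u v` with all `c v ≥ 0` and with `{v | c v ≠ 0}` a face. -/
def CompleteFan {d : ℕ} (Δ : Finset V → Prop) (u : V → Fin d → ℝ) : Prop :=
  ∀ z : Fin d → ℝ, ∃! c : V → ℝ, (∀ v, 0 ≤ c v) ∧ Δ (univ.filter (fun v => c v ≠ 0)) ∧
    ∑ v, c v • u v = z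

end Complexes

/-! ## Functions on monomials -/

section Stress

variable {V : Type*} [Fintype V] [LinearOrder V]

/-- Support of a multi-index. -/
def supp (α : V → ℕ) : Finset V := univ.filter (fun v => α v ≠ 0)

/-- The multi-index of the squarefree monomial of `τ`. -/
def ind (τ : Finset V) : V → ℕ := fun v => if v ∈ τ then 1 else 0

/-- The multi-index of the vertex `v`. -/
def e1 (v : V) : V → ℕ := Pi.single v 1

variable (K : Type*) [Field K] (W : Type*) [AddCommGroup W] [Module K W]

/-- The operator `∑ v, B v ∘ X v` with `(X v f) β = f (β + e_v)`. -/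
def Dop (B : V → W →ₗ[K] W) : ((V → ℕ) → W) →ₗ[K] ((V → ℕ) → W) where
  toFun f := fun β => ∑ v, B v (f (β + e1 v))
  map_add' f g := by
    funext β
    simp only [Pi.add_apply, map_add, Finset.sum_add_distrib]
  map_smul' c f := by
    funext β
    simp only [Pi.smul_apply, map_smul, RingHom.id_apply, Finset.smul_sum]

/-- The `W`-valued functions on the monomials of degree `i` supported on the star of `τ`. -/
def Sm (Δ : Finset V → Prop) (τ : Finset V) (i : ℕ) : Submodule K ((V → ℕ) → W) where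
  carrier := {f | ∀ α, f α ≠ 0 → ∑ v, α v = i ∧ Δ (supp α ∪ τ)}
  add_mem' := by
    intro f g hf hg α h
    by_cases h0 : f α = 0
    · exact hg α (fun h1 => h (by rw [Pi.add_apply, h0, h1, add_zero]))
    · exact hf α h0
  zero_mem' := fun α h => absurd rfl h
  smul_mem' := by
    intro c f hf α h
    exact hf α (fun h1 => h (by rw [Pi.smul_apply, h1, smul_zero]))

/-- The linear stresses of degree `i` on the star of `τ`, with values in `W`:
`∑ v, u v j • f (β + e_v) = 0` for all `β` and `j`. -/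
def Lm {d : ℕ} (Δ : Finset V → Prop) (u : V → Fin d → K) (τ : Finset V) (i : ℕ) :
    Submodule K ((V → ℕ) → W) where
  carrier := {f | f ∈ Sm K W Δ τ i ∧ ∀ (j : Fin d) (β : V → ℕ), ∑ v, u v j • f (β + e1 v) = 0}
  add_mem' := by
    rintro f g ⟨hf, hf'⟩ ⟨hg, hg'⟩
    refine ⟨Submodule.add_mem _ hf hg, fun j β => ?_⟩
    simp only [Pi.add_apply, smul_add, Finset.sum_add_distrib, hf', hg', add_zero]
  zero_mem' := ⟨Submodule.zero_mem _, fun j β => by simp⟩
  smul_mem' := by
    rintro c f ⟨hf, hf'⟩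
    refine ⟨Submodule.smul_mem _ _ hf, fun j β => ?_⟩
    have : ∀ v, u v j • (c • f) (β + e1 v) = c • (u v j • f (β + e1 v)) := fun v => by
      rw [Pi.smul_apply, smul_comm]
    simp only [this, ← Finset.smul_sum, hf' j β, smul_zero]

/-- Chains in position `p` over the link of `τ` with coefficients `Sm (τ ∪ ρ) i`. -/
def ChS (Δ : Finset V → Prop) (τ : Finset V) (p i : ℕ) :
    Submodule K (Finset V → (V → ℕ) → W) where
  carrier := {c | ∀ ρ, c ρ ∈ Sm K W Δ (τ ∪ ρ) i ∧ (c ρ ≠ 0 → ρ.card = p ∧ Disjoint ρ τ)}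
  add_mem' := by
    intro a b ha hb ρ
    refine ⟨Submodule.add_mem _ (ha ρ).1 (hb ρ).1, fun h => ?_⟩
    by_cases h0 : a ρ = 0
    · exact (hb ρ).2 (fun h1 => h (by rw [Pi.add_apply, h0, h1, add_zero]))
    · exact (ha ρ).2 h0
  zero_mem' := fun ρ => ⟨Submodule.zero_mem _, fun h => absurd rfl h⟩
  smul_mem' := by
    intro c a ha ρ
    exact ⟨Submodule.smul_mem _ _ (ha ρ).1,
      fun h => (ha ρ).2 (fun h1 => h (by rw [Pi.smul_apply, h1, smul_zero]))⟩

/-- Chains in position `p` over the link of `τ` with coefficients `Lm (τ ∪ ρ) i`. -/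
def ChL {d : ℕ} (Δ : Finset V → Prop) (u : V → Fin d → K) (τ : Finset V) (p i : ℕ) :
    Submodule K (Finset V → (V → ℕ) → W) where
  carrier := {c | ∀ ρ, c ρ ∈ Lm K W Δ u (τ ∪ ρ) i ∧ (c ρ ≠ 0 → ρ.card = p ∧ Disjoint ρ τ)}
  add_mem' := by
    intro a b ha hb ρ
    refine ⟨Submodule.add_mem _ (ha ρ).1 (hb ρ).1, fun h => ?_⟩
    by_cases h0 : a ρ = 0
    · exact (hb ρ).2 (fun h1 => h (by rw [Pi.add_apply, h0, h1, add_zero]))
    · exact (ha ρ).2 h0
  zero_mem' := fun ρ => ⟨Submodule.zero_mem _, fun h => absurd rfl h⟩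
  smul_mem' := by
    intro c a ha ρ
    exact ⟨Submodule.smul_mem _ _ (ha ρ).1,
      fun h => (ha ρ).2 (fun h1 => h (by rw [Pi.smul_apply, h1, smul_zero]))⟩

/-- The boundary of chains, as a linear map. -/
def bdL : (Finset V → (V → ℕ) → W) →ₗ[K] (Finset V → (V → ℕ) → W) where
  toFun c := bd c
  map_add' a b := by
    funext ρ
    simp only [bd, Pi.add_apply, smul_add, Finset.sum_add_distrib]
  map_smul' k a := by
    funext ρ
    simp only [bd, Pi.smul_apply, RingHom.id_apply, Finset.smul_sum]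
    exact Finset.sum_congr rfl (fun v _ => smul_comm _ _ _)

/-- `Dop B` applied to all the coefficients of a chain. -/
def DopC (B : V → W →ₗ[K] W) :
    (Finset V → (V → ℕ) → W) →ₗ[K] (Finset V → (V → ℕ) → W) where
  toFun c := fun ρ => Dop K W B (c ρ)
  map_add' a b := by
    funext ρ
    exact (Dop K W B).map_add (a ρ) (b ρ)
  map_smul' k a := by
    funext ρ
    exact (Dop K W B).map_smul k (a ρ)

end Stress

/-! ## Fock space: functions on the finite subsets of `I` -/

section Fock

variable {I : Type*} [Fintype I] [LinearOrder I] (K : Type*) [Field K]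

/-- Creation operator (exterior multiplication by `∑ a j e_j`). -/
def eps (a : I → K) : (Finset I → K) →ₗ[K] (Finset I → K) where
  toFun ω := fun S => ∑ j ∈ S, (sg j S : K) * a j * ω (S.erase j)
  map_add' x y := by
    funext S
    simp only [Pi.add_apply, mul_add, Finset.sum_add_distrib]
  map_smul' c x := by
    funext S
    simp only [Pi.smul_apply, smul_eq_mul, RingHom.id_apply, Finset.mul_sum]
    exact Finset.sum_congr rfl (fun j _ => by ring)

/-- Annihilation operator (contraction with `∑ a j e_j^*`). -/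
def iot (a : I → K) : (Finset I → K) →ₗ[K] (Finset I → K) where
  toFun ω := fun S => ∑ j ∈ Sᶜ, (sg j S : K) * a j * ω (insert j S)
  map_add' x y := by
    funext S
    simp only [Pi.add_apply, mul_add, Finset.sum_add_distrib]
  map_smul' c x := by
    funext S
    simp only [Pi.smul_apply, smul_eq_mul, RingHom.id_apply, Finset.mul_sum]
    exact Finset.sum_congr rfl (fun j _ => by ring)

/-- `ω` is homogeneous of degree `q`. -/
def IsGr (q : ℕ) (ω : Finset I → K) : Prop := ∀ S, ω S ≠ 0 → S.card = q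

end Fock

/-! ## The Koszul spaces -/

section Koszul

variable {V : Type*} [Fintype V] [LinearOrder V] (K : Type*) [Field K]

/-- The Koszul operator `κ = ∑ v, eps (u v) ∘ X v`. -/
def kap {d : ℕ} (u : V → Fin d → K) :
    ((V → ℕ) → Finset (Fin d) → K) →ₗ[K] ((V → ℕ) → Finset (Fin d) → K) :=
  Dop K (Finset (Fin d) → K) (fun v => eps K (u v))

/-- Functions in degree `i` on the star of `ρ` with values in the forms of degree `q` killed by
`eps (u v)`, `v ∈ η`. -/
def Kz {d : ℕ} (Δ : Finset V → Prop) (u : V → Fin d → K) (ρ η : Finset V) (q i : ℕ) :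
    Submodule K ((V → ℕ) → Finset (Fin d) → K) where
  carrier := {f | f ∈ Sm K (Finset (Fin d) → K) Δ ρ i ∧ (∀ α, IsGr K q (f α)) ∧
    ∀ v ∈ η, ∀ α, eps K (u v) (f α) = 0}
  add_mem' := by
    rintro f g ⟨hf, hf1, hf2⟩ ⟨hg, hg1, hg2⟩
    refine ⟨Submodule.add_mem _ hf hg, fun α S h => ?_, fun v hv α => ?_⟩
    · by_cases h0 : f α S = 0
      · exact hg1 α S (fun h1 => h (by simp [h0, h1]))
      · exact hf1 α S h0
    · rw [Pi.add_apply, map_add, hf2 v hv, hg2 v hv, add_zero]
  zero_mem' := ⟨Submodule.zero_mem _, fun α S h => absurd rfl h, fun v _ α => by simp⟩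
  smul_mem' := by
    rintro c f ⟨hf, hf1, hf2⟩
    refine ⟨Submodule.smul_mem _ _ hf, fun α S h => hf1 α S (fun h1 => h (by simp [h1])),
      fun v hv α => by rw [Pi.smul_apply, map_smul, hf2 v hv, smul_zero]⟩

/-- Koszul acyclicity for the star of `ρ` relative to `η ⊆ ρ`. -/
def KozEx {d : ℕ} (Δ : Finset V → Prop) (u : V → Fin d → K) (ρ η : Finset V) : Prop :=
  ∀ q i f, η.card < q → f ∈ Kz K Δ u ρ η q i → kap K u f = 0 →
    ∃ g ∈ Kz K Δ u ρ η (q - 1) (i + 1), kap K u g = f

end Koszul

end Pool.Agent.H53.CF
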