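import Pool.Agent.H53.CF.Defs

/-!
# helper53, MP_375bfa_co: further definitions (Poincare duality, pairing, core hypotheses)
-/

namespace Pool.Agent.H53.CF

open Finset

variable {V : Type*} [Fintype V] [LinearOrder V]

section General

variable (K : Type*) [Field K] (W : Type*) [AddCommGroup W] [Module K W]

/-- `Phi F τ j b = b(X) X_τ F`: the stress obtained from the fundamental function `F` by applying
the polynomial `b`, homogeneous of degree `j`, with coefficients in `W`. -/
def Phi (F : (V → ℕ) → K) (τ : Finset V) (j : ℕ) :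
    ((V → ℕ) → W) →ₗ[K] ((V → ℕ) → W) where
  toFun b := fun γ => ∑ α ∈ Finset.piAntidiag univ j, F (γ + α + ind τ) • b α
  map_add' a b := by
    funext γ
    simp only [Pi.add_apply, smul_add, Finset.sum_add_distrib]
  map_smul' c b := by
    funext γ
    simp only [Pi.smul_apply, RingHom.id_apply, Finset.smul_sum]
    exact Finset.sum_congr rfl (fun α _ => smul_comm _ _ _)

/-- The transposed operator: multiplication by `∑ v, A v x_v`. -/
def Dt (A : V → W →ₗ[K] W) : ((V → ℕ) → W) →ₗ[K] ((V → ℕ) → W) where
  toFun b := fun α => ∑ v, if α v ≠ 0 then A v (b (α - e1 v)) else 0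
  map_add' a b := by
    funext α
    simp only [Pi.add_apply, map_add, ← Finset.sum_add_distrib]
    exact Finset.sum_congr rfl (fun v _ => by split_ifs <;> simp)
  map_smul' c b := by
    funext α
    simp only [Pi.smul_apply, map_smul, RingHom.id_apply, Finset.smul_sum]
    exact Finset.sum_congr rfl (fun v _ => by split_ifs <;> simp)

/-- The pairing of a function with a polynomial of degree `i`. -/
def pr (B : LinearMap.BilinForm K W) (i : ℕ) (f b : (V → ℕ) → W) : K :=
  ∑ α ∈ Finset.piAntidiag univ i, B (f α) (b α)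

/-- `F` is a fundamental function: a stress of degree `d`, nonzero on all facets. -/
structure IsFund {d : ℕ} (Δ : Finset V → Prop) (u : V → Fin d → K) (F : (V → ℕ) → K) : Prop where
  mem : F ∈ Lm K K Δ u ∅ d
  ne : ∀ σ, Δ σ → σ.card = d → F (ind σ) ≠ 0

end General

section Core

variable {K : Type*} [Field K] {U : Type*} [AddCommGroup U] [Module K U]

/-- Exactness of the Dirac complex of the star of `τ` below the middle. -/
def EX {d : ℕ} (Δ : Finset V → Prop) (u : V → Fin d → K) (A : V → U →ₗ[K] U)
    (τ : Finset V) : Prop :=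
  ∀ i, 2 * i + τ.card < d → ∀ f ∈ Lm K U Δ u τ i, Dop K U A f = 0 →
    ∃ g ∈ Lm K U Δ u τ (i + 1), Dop K U A g = f

/-- The odd step at `τ` (of odd rank `2 k + 1`): for a closed `g` just above the middle all
`X w g`, `w` in the link, are exact in the star of `τ ∪ {w}`. -/
def OS {d : ℕ} (Δ : Finset V → Prop) (u : V → Fin d → K) (A : V → U →ₗ[K] U)
    (τ : Finset V) : Prop :=
  ∀ k, 2 * k + 1 + τ.card = d → ∀ g ∈ Lm K U Δ u τ (k + 1), Dop K U A g = 0 →
    ∀ w, w ∉ τ → Δ (insert w τ) →
      ∃ h ∈ Lm K U Δ u (insert w τ) (k + 1), Dop K U A h = fun β => g (β + e1 w)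

/-- The algebraic data of the Dirac operator `D = ∑ A v ∘ X v`: symmetric for a nondegenerate
symmetric form and of square zero on the stresses. -/
structure IsDirac {d : ℕ} (Δ : Finset V → Prop) (u : V → Fin d → K)
    (B : LinearMap.BilinForm K U) (A : V → U →ₗ[K] U) : Prop where
  symm : ∀ x y, B x y = B y x
  nondeg : ∀ x, (∀ y, B x y = 0) → x = 0
  adj : ∀ v x y, B (A v x) y = B x (A v y)
  sq : ∀ i, ∀ f ∈ Lm K U Δ u ∅ i, Dop K U A (Dop K U A f) = 0

end Core

end Pool.Agent.H53.CF
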