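import Pool.Agent.H53.CF.Defs2

/-!
# helper53, MP_375bfa_co: definitions for the real (fan) part
-/

namespace Pool.Agent.H53.CF

open Finset

variable {V : Type*} [Fintype V] [LinearOrder V]

open Classical in
/-- The facets containing `τ`. -/
noncomputable def facets (Δ : Finset V → Prop) (d : ℕ) (τ : Finset V) : Finset (Finset V) :=
  univ.filter (fun σ => Δ σ ∧ τ ⊆ σ ∧ σ.card = d)

/-- `t` is in no proper linear subspace spanned by the rays of a face. -/
def GenericVec {d : ℕ} (Δ : Finset V → Prop) (u : V → Fin d → ℝ) (t : Fin d → ℝ) : Prop :=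
  ∀ ρ : Finset V, Δ ρ → ρ.card < d → t ∉ Submodule.span ℝ (u '' (ρ : Set V))

/-- `x σ` are the coordinates of `t` in the basis `u v`, `v ∈ σ`, for every facet `σ`; they are all
nonzero. -/
def IsCoords {d : ℕ} (Δ : Finset V → Prop) (u : V → Fin d → ℝ) (t : Fin d → ℝ)
    (x : Finset V → V → ℝ) : Prop :=
  ∀ σ, Δ σ → σ.card = d → (∀ v, v ∉ σ → x σ v = 0) ∧ ∑ v, x σ v • u v = t ∧ ∀ v ∈ σ, x σ v ≠ 0

open Classical in
/-- The number of negative coordinates outside `τ`. -/
noncomputable def negs (x : Finset V → V → ℝ) (τ σ : Finset V) : ℕ :=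
  ((σ \ τ).filter (fun v => x σ v < 0)).card

/-- A deformation `Ft` of the fundamental function of the star of `τ` for the parameter `t`. -/
structure IsDef (K : Type*) [Field K] {d : ℕ} (Δ : Finset V → Prop) (u : V → Fin d → K)
    (F : (V → ℕ) → K) (τ : Finset V) (t : Fin d → K) (Ft : (V → ℕ) → K) : Prop where
  support : ∀ α, Ft α ≠ 0 → Δ (supp α ∪ τ) ∧ d ≤ ∑ v, α v + τ.card
  lead : ∀ α, ∑ v, α v + τ.card = d → Ft α = F (α + ind τ)
  recur : ∀ (j : Fin d) (β : V → ℕ), ∑ v, u v j * Ft (β + e1 v) = t j * Ft β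

/-- The residue weights. -/
def IsRes {d : ℕ} (Δ : Finset V → Prop) (F : (V → ℕ) → ℝ) (τ : Finset V)
    (x : Finset V → V → ℝ) (Ft : (V → ℕ) → ℝ) (μ : Finset V → ℝ) : Prop :=
  (∀ σ ∈ facets Δ d τ, μ σ * ∏ v ∈ σ \ τ, x σ v = F (ind σ)) ∧
  ∀ α : V → ℕ, Ft α = ∑ σ ∈ facets Δ d τ, μ σ * ∏ v, x σ v ^ α v

section Eval

variable (U : Type*) [AddCommGroup U] [Module ℝ U]

/-- `U`-valued polynomials of degree at most `i` (coefficient functions). -/
def Pl (V : Type*) [Fintype V] (i : ℕ) : Submodule ℝ ((V → ℕ) → U) where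
  carrier := {b | ∀ α, b α ≠ 0 → ∑ v, α v ≤ i}
  add_mem' := by
    intro f g hf hg α h
    by_cases h0 : f α = 0
    · exact hg α (fun h1 => h (by rw [Pi.add_apply, h0, h1, add_zero]))
    · exact hf α h0
  zero_mem' := fun α h => absurd rfl h
  smul_mem' := by
    intro c f hf α h
    exact hf α (fun h1 => h (by rw [Pi.smul_apply, h1, smul_zero]))

/-- Evaluation of a polynomial (with exponents at most `d`) at the points `x σ`. -/
def ev (d : ℕ) (x : Finset V → V → ℝ) : ((V → ℕ) → U) →ₗ[ℝ] (Finset V → U) where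
  toFun b := fun σ => ∑ α ∈ Fintype.piFinset (fun _ : V => range (d + 1)),
    (∏ v, x σ v ^ α v) • b α
  map_add' a b := by
    funext σ
    simp only [Pi.add_apply, smul_add, Finset.sum_add_distrib]
  map_smul' c b := by
    funext σ
    simp only [Pi.smul_apply, RingHom.id_apply, Finset.smul_sum]
    exact Finset.sum_congr rfl (fun α _ => smul_comm _ _ _)

/-- Evaluation at the facets containing `τ`. -/
noncomputable def evF (Δ : Finset V → Prop) (d : ℕ) (τ : Finset V) (x : Finset V → V → ℝ) :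
    ((V → ℕ) → U) →ₗ[ℝ] ({σ // σ ∈ facets Δ d τ} → U) where
  toFun b := fun σ => ev U d x b σ.1
  map_add' a b := by
    funext σ
    simp
  map_smul' c b := by
    funext σ
    simp

end Eval

end Pool.Agent.H53.CF
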