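import Pool.Agent.H53.CF.CM

/-!
# helper53 CF module DIM: the dimension of the scalar stress spaces

For total degree `n` the Koszul spaces `Kz τ ∅ q (n - q)`, `0 ≤ q ≤ n`, with
`κ : Kz τ ∅ q (n - q) → Kz τ ∅ (q + 1) (n - q - 1)` form a complex, exact at all `q ≥ 1`
(`kozEx` with `η = ∅`; at `q = n` every element is closed), and the kernel at `q = 0` is `Lm τ n`
(embed `K` by `x ↦ x • δ_∅`). `finrank (Kz τ ∅ q j) = (d choose q) * cnt τ j`
(functions on the pairs `(α, S)`). Rank-nullity and induction on `q`.
-/

namespace Pool.Agent.H53.CF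

open Finset Module

variable {V : Type*} [Fintype V] [LinearOrder V]
variable {K : Type*} [Field K] {Δ : Finset V → Prop} {d : ℕ} {u : V → Fin d → K}

open Classical in
/-- The number of monomials of degree `j` on the star of `τ`. -/
noncomputable def cnt (Δ : Finset V → Prop) (τ : Finset V) (j : ℕ) : ℕ :=
  ((Finset.piAntidiag (univ : Finset V) j).filter (fun α => Δ (supp α ∪ τ))).card

private theorem sg_self (j : Fin d) : sg j ({j} : Finset (Fin d)) = 1 := by
  have : ({j} : Finset (Fin d)).filter (fun w => w < j) = ∅ := by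
    ext x
    simp only [mem_filter, mem_singleton, notMem_empty, iff_false, not_and]
    rintro rfl
    exact lt_irrefl x
  simp [sg, this]

/-- functions on the pairs of a monomial and a subset -/
theorem finrank_Kz (τ : Finset V) (q j : ℕ) :
    finrank K (Kz K Δ u τ ∅ q j) = d.choose q * cnt Δ τ j := by
  classical
  set A : Finset (V → ℕ) :=
    (Finset.piAntidiag (univ : Finset V) j).filter (fun α => Δ (supp α ∪ τ)) with hA
  set Q : Finset (Finset (Fin d)) := powersetCard q univ with hQ
  have hAmem : ∀ α, α ∈ A ↔ ∑ v, α v = j ∧ Δ (supp α ∪ τ) := by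
    intro α
    simp [hA]
  have hQmem : ∀ S, S ∈ Q ↔ S.card = q := by
    intro S
    simp [hQ]
  let R : (Kz K Δ u τ ∅ q j) →ₗ[K] (A × Q → K) :=
    { toFun := fun f p => (f : (V → ℕ) → Finset (Fin d) → K) p.1 p.2
      map_add' := fun f g => rfl
      map_smul' := fun c f => rfl }
  have hinj : Function.Injective R := by
    rw [← LinearMap.ker_eq_bot, LinearMap.ker_eq_bot']
    rintro ⟨f, hf⟩ hR
    apply Subtype.ext
    funext α S
    show f α S = 0
    by_contra hne
    have h1 : f α ≠ 0 := fun h => hne (by rw [h]; rfl)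
    have hα : α ∈ A := (hAmem α).2 (hf.1 α h1)
    have hS : S ∈ Q := (hQmem S).2 (hf.2.1 α S hne)
    have := congrFun hR (⟨α, hα⟩, ⟨S, hS⟩)
    exact hne this
  have hsurj : Function.Surjective R := by
    intro g
    set f : (V → ℕ) → Finset (Fin d) → K := fun α S =>
      if h : α ∈ A ∧ S ∈ Q then g (⟨α, h.1⟩, ⟨S, h.2⟩) else 0 with hf
    have hfm : f ∈ Kz K Δ u τ ∅ q j := by
      refine ⟨?_, ?_, ?_⟩
      · intro α hα
        have : α ∈ A := by
          by_contra hcon
          apply hα
          funext S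
          simp [hf, hcon]
        exact (hAmem α).1 this
      · intro α S hne
        have : S ∈ Q := by
          by_contra hcon
          exact hne (by simp [hf, hcon])
        exact (hQmem S).1 this
      · intro v hv
        exact absurd hv (notMem_empty v)
    refine ⟨⟨f, hfm⟩, ?_⟩
    funext p
    obtain ⟨⟨α, hα⟩, ⟨S, hS⟩⟩ := p
    show f α S = g (⟨α, hα⟩, ⟨S, hS⟩)
    simp [hf, hα, hS]
  have e := (LinearEquiv.ofBijective R ⟨hinj, hsurj⟩).finrank_eq
  rw [e, Module.finrank_fintype_fun_eq_card, Fintype.card_prod, Fintype.card_coe,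
    Fintype.card_coe, hQ, card_powersetCard, card_univ, Fintype.card_fin, mul_comm]
  rfl

/-- the closed elements of the Koszul spaces -/
private noncomputable def Zc (K : Type*) [Field K] (Δ : Finset V → Prop) (u : V → Fin d → K)
    (τ : Finset V) (q j : ℕ) : Submodule K ((V → ℕ) → Finset (Fin d) → K) :=
  Kz K Δ u τ ∅ q j ⊓ LinearMap.ker (kap K u)

private theorem finite_Kz (τ : Finset V) (q j : ℕ) :
    FiniteDimensional K (Kz K Δ u τ ∅ q j) := by
  have := finite_Sm (K := K) (W := Finset (Fin d) → K) (Δ := Δ) τ j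
  exact Submodule.finiteDimensional_of_le (fun f hf => hf.1)

private theorem rank_nullity (τ : Finset V) (q j : ℕ) :
    finrank K ((Kz K Δ u τ ∅ q j).map (kap K u)) + finrank K (Zc K Δ u τ q j) =
      finrank K (Kz K Δ u τ ∅ q j) := by
  have := finite_Kz (K := K) (Δ := Δ) (u := u) τ q j
  have h := LinearMap.finrank_range_add_finrank_ker ((kap K u).domRestrict (Kz K Δ u τ ∅ q j))
  rw [LinearMap.range_domRestrict] at h
  have h2 : finrank K (LinearMap.ker ((kap K u).domRestrict (Kz K Δ u τ ∅ q j))) =
      finrank K (Zc K Δ u τ q j) := by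
    rw [← Submodule.finrank_map_subtype_eq (Kz K Δ u τ ∅ q j)
      (LinearMap.ker ((kap K u).domRestrict (Kz K Δ u τ ∅ q j)))]
    have : (LinearMap.ker ((kap K u).domRestrict (Kz K Δ u τ ∅ q j))).map
        (Kz K Δ u τ ∅ q j).subtype = Zc K Δ u τ q j := by
      ext f
      simp only [Submodule.mem_map, LinearMap.mem_ker, Submodule.subtype_apply, Zc,
        Submodule.mem_inf]
      constructor
      · rintro ⟨⟨g, hg⟩, h1, rfl⟩
        exact ⟨hg, h1⟩
      · rintro ⟨h1, h2⟩
        exact ⟨⟨f, h1⟩, h2, rfl⟩
    rw [this]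
  rw [h2] at h
  exact h

private theorem step (hS : HomSphere K Δ d) (hu : Lsop K Δ u) {τ : Finset V} (hτ : Δ τ)
    (q j : ℕ) :
    finrank K (Zc K Δ u τ (q + 1) j) + finrank K (Zc K Δ u τ q (j + 1)) =
      finrank K (Kz K Δ u τ ∅ q (j + 1)) := by
  rw [← rank_nullity τ q (j + 1)]
  have : (Kz K Δ u τ ∅ q (j + 1)).map (kap K u) = Zc K Δ u τ (q + 1) j := by
    ext f
    simp only [Submodule.mem_map, Zc, Submodule.mem_inf, LinearMap.mem_ker]
    constructor
    · rintro ⟨g, hg, rfl⟩
      exact ⟨kap_mem_Kz hS.cpx hg, kap_kap g⟩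
    · rintro ⟨h1, h2⟩
      obtain ⟨g, hg, hgf⟩ := kozEx hS hu hτ (empty_subset τ) (q + 1) j f (by simp) h1 h2
      exact ⟨g, by simpa using hg, hgf⟩
  rw [this]

private theorem last (τ : Finset V) (q : ℕ) :
    finrank K (Zc K Δ u τ q 0) = finrank K (Kz K Δ u τ ∅ q 0) := by
  have : Zc K Δ u τ q 0 = Kz K Δ u τ ∅ q 0 := by
    ext f
    simp only [Zc, Submodule.mem_inf, LinearMap.mem_ker]
    exact ⟨fun h => h.1, fun h => ⟨h, Dop_Sm_zero _ h.1⟩⟩
  rw [this]

/-- the embedding of the scalar functions -/
private noncomputable def Emb (K : Type*) [Field K] (V : Type*) (d : ℕ) :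
    ((V → ℕ) → K) →ₗ[K] ((V → ℕ) → Finset (Fin d) → K) where
  toFun x := fun α S => if S = ∅ then x α else 0
  map_add' x y := by
    funext α S
    by_cases h : S = ∅ <;> simp [h]
  map_smul' c x := by
    funext α S
    by_cases h : S = ∅ <;> simp [h]

private theorem kap_Emb (x : (V → ℕ) → K) (β : V → ℕ) (S : Finset (Fin d)) :
    kap K u (Emb K V d x) β S =
      ∑ v, ∑ j ∈ S, (sg j S : K) * u v j * (if S.erase j = ∅ then x (β + e1 v) else 0) := by
  show (∑ v, eps K (u v) (Emb K V d x (β + e1 v))) S = _
  rw [Finset.sum_apply]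
  rfl

private theorem finrank_Zc_zero (τ : Finset V) (i : ℕ) :
    finrank K (Lm K K Δ u τ i) = finrank K (Zc K Δ u τ 0 i) := by
  classical
  have hinj : Function.Injective (Emb K V d) := by
    intro x y h
    funext α
    have := congrFun (congrFun h α) ∅
    simpa [Emb] using this
  have hmap : (Lm K K Δ u τ i).map (Emb K V d) = Zc K Δ u τ 0 i := by
    ext f
    simp only [Submodule.mem_map, Zc, Submodule.mem_inf, LinearMap.mem_ker]
    constructor
    · rintro ⟨x, hx, rfl⟩
      refine ⟨⟨?_, ?_, fun v hv => absurd hv (notMem_empty v)⟩, ?_⟩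
      · intro α hα
        refine hx.1 α fun h0 => hα ?_
        funext S
        simp [Emb, h0]
      · intro α S hne
        have : S = ∅ := by
          by_contra hcon
          exact hne (by simp [Emb, hcon])
        simp [this]
      · funext β S
        rw [kap_Emb]
        by_cases hc : ∃ j, S = {j}
        · obtain ⟨j, rfl⟩ := hc
          have h2 := hx.2 j β
          simp only [smul_eq_mul] at h2
          simp only [sum_singleton, erase_singleton, if_true, sg_self, Int.cast_one, one_mul]
          exact h2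
        · refine sum_eq_zero fun v _ => sum_eq_zero fun j hj => ?_
          have : S.erase j ≠ ∅ := by
            intro h
            rw [erase_eq_empty_iff] at h
            rcases h with h | h
            · rw [h] at hj
              exact absurd hj (notMem_empty j)
            · exact hc ⟨j, h⟩
          simp [this]
    · rintro ⟨⟨h1, h2, -⟩, h3⟩
      have hf : f = Emb K V d (fun α => f α ∅) := by
        funext α S
        by_cases hSe : S = ∅
        · subst hSe
          simp [Emb]
        · have : f α S = 0 := by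
            by_contra hne
            exact hSe (card_eq_zero.1 (h2 α S hne))
          simp [Emb, hSe, this]
      refine ⟨fun α => f α ∅, ⟨?_, ?_⟩, hf.symm⟩
      · intro α hα
        refine h1 α fun h0 => hα ?_
        show f α ∅ = 0
        rw [h0]
        rfl
      · intro j β
        have h4 := congrFun (congrFun h3 β) {j}
        rw [hf, kap_Emb] at h4
        simp only [sum_singleton, erase_singleton, if_true, sg_self, Int.cast_one, one_mul] at h4
        simpa using h4
  rw [← hmap]
  exact (Submodule.equivMapOfInjective (Emb K V d) hinj (Lm K K Δ u τ i)).finrank_eq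

theorem finrank_Lm (hS : HomSphere K Δ d) (hu : Lsop K Δ u) {τ : Finset V} (hτ : Δ τ) (i : ℕ) :
    (finrank K (Lm K K Δ u τ i) : ℤ) =
      ∑ q ∈ range (i + 1), (-1 : ℤ) ^ q * (d.choose q : ℤ) * (cnt Δ τ (i - q) : ℤ) := by
  have key : ∀ m ≤ i, (finrank K (Zc K Δ u τ 0 i) : ℤ) =
      ∑ q ∈ range m, (-1 : ℤ) ^ q * (finrank K (Kz K Δ u τ ∅ q (i - q)) : ℤ) +
        (-1) ^ m * (finrank K (Zc K Δ u τ m (i - m)) : ℤ) := by
    intro m
    induction m with
    | zero => intro _; simp
    | succ m ih =>
      intro hm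
      rw [ih (by omega), sum_range_succ]
      have hst := step (K := K) hS hu hτ m (i - (m + 1))
      have e : i - (m + 1) + 1 = i - m := by omega
      rw [e] at hst
      have hst' : (finrank K (Kz K Δ u τ ∅ m (i - m)) : ℤ) =
          finrank K (Zc K Δ u τ (m + 1) (i - (m + 1))) + finrank K (Zc K Δ u τ m (i - m)) := by
        exact_mod_cast hst.symm
      rw [hst', pow_succ]
      ring
  rw [finrank_Zc_zero, key i le_rfl, sum_range_succ, Nat.sub_self, last, finrank_Kz]
  push_cast
  congr 1
  · refine sum_congr rfl fun q _ => ?_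
    rw [finrank_Kz]
    push_cast
    ring
  · ring

end Pool.Agent.H53.CF
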