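import Pool.Agent.H53.CF.Eval

/-!
# helper53 CF module DIMQ: lower bound for the dimension of spaces of evaluations

`i + j + |τ| = d`. Let `B` be a positive definite form on `U`. If `b ∈ Pl i` and `evF b = 0` or,
more generally, `evF b ∈ evF (Pl (i - 1))` (`i ≥ 1`), then `Phi F τ i b = 0`: for all
`b' ∈ Pl j`, `pr B i (Phi F τ j b') b = ∑ μ B (evF b) (evF b') = 0` by `res_form_eq`, `res_form_lt`;
so `Phi F τ i b = 0` by `Phi_eq_zero` and `pd`, `exists_cut`.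
Hence `evF b ↦ Phi F τ i b` is well defined from `Q_N = {evF b : b ∈ Pl i, Phi F τ i b ∈ N}`
onto `N` (`N ≤ Lm τ j`; onto by `pd`), with kernel containing `evF (Pl (i - 1))`. By induction
`finrank (evF (Pl (i-1))) ≥ ∑_{l < i} finrank (Lm τ l)` (take `N = Lm τ j` and use
`finrank (Lm τ j) = finrank (Lm τ i)`, `finrank_Lm_symm`, `finrank_LmU`), and so
`finrank Q_N ≥ ∑_{l < i} finrank (Lm τ l) + finrank N`.
-/

namespace Pool.Agent.H53.CF

open Finset Module

variable {V : Type*} [Fintype V] [LinearOrder V]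
variable {U : Type*} [AddCommGroup U] [Module ℝ U]
variable {Δ : Finset V → Prop} {d : ℕ} {u : V → Fin d → ℝ}

/-- The evaluations of the polynomials of degree `≤ i` with `Phi F τ i b ∈ N`. -/
noncomputable def Qs (Δ : Finset V → Prop) (d : ℕ) (F : (V → ℕ) → ℝ) (τ : Finset V)
    (x : Finset V → V → ℝ) (i : ℕ) (N : Submodule ℝ ((V → ℕ) → U)) :
    Submodule ℝ ({σ // σ ∈ facets Δ d τ} → U) :=
  Submodule.map (evF U Δ d τ x) (Pl U V i ⊓ Submodule.comap (Phi ℝ U F τ i) N)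

omit [LinearOrder V] in
private theorem Pl_mono {i j : ℕ} (hij : i ≤ j) : Pl U V i ≤ Pl U V j := by
  intro b hb α hα
  exact (hb α hα).trans hij

/-- The key vanishing: an evaluation of degree `i` which is also an evaluation of smaller degree
comes from a polynomial with `Phi = 0`. -/
private theorem key_vanish [Module.Finite ℝ U] (hS : HomSphere ℝ Δ d) (hu : Lsop ℝ Δ u)
    {F : (V → ℕ) → ℝ} (hF : IsFund ℝ Δ u F) {τ : Finset V} (hτ : Δ τ)
    (B : LinearMap.BilinForm ℝ U) (hsymm : ∀ x y, B x y = B y x)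
    (hpos : ∀ x, x ≠ 0 → 0 < B x x)
    {t : Fin d → ℝ} {x : Finset V → V → ℝ} {Ft : (V → ℕ) → ℝ} (hFt : IsDef ℝ Δ u F τ t Ft)
    {μ : Finset V → ℝ} (hμ : IsRes (d := d) Δ F τ x Ft μ) {i j : ℕ} (h : i + j + τ.card = d)
    {b c : (V → ℕ) → U} (hb : b ∈ Pl U V i)
    (hc : c = 0 ∨ ∃ i', i' + 1 = i ∧ c ∈ Pl U V i')
    (hbc : evF U Δ d τ x b = evF U Δ d τ x c) : Phi ℝ U F τ i b = 0 := by
  have hnd : ∀ z, (∀ y, B z y = 0) → z = 0 := by
    intro z hz
    by_contra hne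
    have := hpos z hne
    rw [hz z] at this
    exact lt_irrefl _ this
  refine Phi_eq_zero hS hu hF B hsymm hnd hτ h fun f hf => ?_
  obtain ⟨b0, rfl⟩ := pd hS hu hF hτ h hf
  obtain ⟨b', hb', _, hPhi, _⟩ := exists_cut b0 j
  rw [← hPhi F τ, ← res_form_eq B hsymm hFt hμ h hb hb']
  rw [hbc]
  rcases hc with rfl | ⟨i', hi', hc⟩
  · simp
  · exact res_form_lt B hFt hμ (i := i') (j := j) (by omega) hc hb'

/-- Comparison of two linear maps by their kernels. -/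
private theorem finrank_range_le' {P M N : Type*} [AddCommGroup P] [Module ℝ P]
    [AddCommGroup M] [Module ℝ M] [AddCommGroup N] [Module ℝ N] [Module.Finite ℝ N]
    (f : P →ₗ[ℝ] M) (g : P →ₗ[ℝ] N) (h : ∀ x, g x = 0 → f x = 0) :
    finrank ℝ (LinearMap.range f) ≤ finrank ℝ (LinearMap.range g) := by
  have hle : LinearMap.ker g ≤ LinearMap.ker f := fun x hx => h x hx
  have hfin : Module.Finite ℝ (P ⧸ LinearMap.ker g) :=
    Module.Finite.equiv g.quotKerEquivRange.symm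
  have h1 : finrank ℝ (P ⧸ LinearMap.ker g) = finrank ℝ (LinearMap.range g) :=
    g.quotKerEquivRange.finrank_eq
  have h2 : finrank ℝ (P ⧸ LinearMap.ker f) ≤ finrank ℝ (P ⧸ LinearMap.ker g) := by
    have hsurj : Function.Surjective (Submodule.factor hle) := Submodule.factor_surjective hle
    exact LinearMap.finrank_le_finrank_of_surjective hsurj
  rw [← f.quotKerEquivRange.finrank_eq]
  exact h2.trans h1.le

/-- The step: `finrank E + finrank N ≤ finrank Q_N` when `E` consists of evaluations of smaller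
degree. -/
private theorem step_dim [Module.Finite ℝ U] (hS : HomSphere ℝ Δ d) (hu : Lsop ℝ Δ u)
    {F : (V → ℕ) → ℝ} (hF : IsFund ℝ Δ u F) {τ : Finset V} (hτ : Δ τ)
    (B : LinearMap.BilinForm ℝ U) (hsymm : ∀ x y, B x y = B y x)
    (hpos : ∀ x, x ≠ 0 → 0 < B x x)
    {t : Fin d → ℝ} {x : Finset V → V → ℝ} {Ft : (V → ℕ) → ℝ} (hFt : IsDef ℝ Δ u F τ t Ft)
    {μ : Finset V → ℝ} (hμ : IsRes (d := d) Δ F τ x Ft μ) {i j : ℕ} (h : i + j + τ.card = d)
    {N : Submodule ℝ ((V → ℕ) → U)} (hN : N ≤ Lm ℝ U Δ u τ j)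
    (E : Submodule ℝ ({σ // σ ∈ facets Δ d τ} → U))
    (hE : ∀ e ∈ E, ∃ c, (c = 0 ∨ ∃ i', i' + 1 = i ∧ c ∈ Pl U V i') ∧
      evF U Δ d τ x c = e) :
    finrank ℝ E + finrank ℝ N ≤ finrank ℝ (Qs (U := U) Δ d F τ x i N) := by
  set M : Submodule ℝ ((V → ℕ) → U) := Pl U V i ⊓ Submodule.comap (Phi ℝ U F τ i) N with hM
  have hcPl : ∀ c : (V → ℕ) → U, (c = 0 ∨ ∃ i', i' + 1 = i ∧ c ∈ Pl U V i') → c ∈ Pl U V i := by
    rintro c (rfl | ⟨i', hi', hc⟩)
    · exact Submodule.zero_mem _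
    · exact Pl_mono (by omega) hc
  have hEQ : E ≤ Qs (U := U) Δ d F τ x i N := by
    intro e he
    obtain ⟨c, hc, rfl⟩ := hE e he
    refine ⟨c, ⟨hcPl c hc, ?_⟩, rfl⟩
    have h0 : Phi ℝ U F τ i c = 0 :=
      key_vanish hS hu hF hτ B hsymm hpos hFt hμ h (hcPl c hc) hc rfl
    change Phi ℝ U F τ i c ∈ N
    rw [h0]
    exact Submodule.zero_mem _
  -- the two maps on `M`
  let f : M →ₗ[ℝ] ((V → ℕ) → U) := (Phi ℝ U F τ i).domRestrict M
  let g : M →ₗ[ℝ] (({σ // σ ∈ facets Δ d τ} → U) ⧸ E) :=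
    (E.mkQ.comp (evF U Δ d τ x)).domRestrict M
  have hker : ∀ m, g m = 0 → f m = 0 := by
    intro m hm
    have h1 : evF U Δ d τ x m.1 ∈ E := (Submodule.Quotient.mk_eq_zero E).1 hm
    obtain ⟨c, hc, hce⟩ := hE _ h1
    exact key_vanish hS hu hF hτ B hsymm hpos hFt hμ h m.2.1 hc hce.symm
  have h1 := finrank_range_le' f g hker
  have hrf : LinearMap.range f = N := by
    apply le_antisymm
    · rintro _ ⟨m, rfl⟩
      exact m.2.2
    · intro n hn
      obtain ⟨b0, hb0⟩ := pd hS hu hF hτ (i := j) (j := i) (by omega) (hN hn)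
      obtain ⟨b', hb', _, hPhi, _⟩ := exists_cut b0 i
      have h2 : Phi ℝ U F τ i b' = n := by rw [hPhi F τ, hb0]
      exact ⟨⟨b', hb', by change Phi ℝ U F τ i b' ∈ N; rw [h2]; exact hn⟩, h2⟩
  have hrg : LinearMap.range g = Submodule.map E.mkQ (Qs (U := U) Δ d F τ x i N) := by
    apply le_antisymm
    · rintro _ ⟨m, rfl⟩
      exact ⟨_, ⟨m.1, m.2, rfl⟩, rfl⟩
    · rintro _ ⟨_, ⟨m, hm, rfl⟩, rfl⟩
      exact ⟨⟨m, hm⟩, rfl⟩
  rw [hrf, hrg] at h1
  -- rank-nullity for `E.mkQ` on `Qs`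
  have h2 := LinearMap.finrank_range_add_finrank_ker
    (E.mkQ.domRestrict (Qs (U := U) Δ d F τ x i N))
  rw [LinearMap.range_domRestrict] at h2
  have h3 : finrank ℝ E ≤
      finrank ℝ (LinearMap.ker (E.mkQ.domRestrict (Qs (U := U) Δ d F τ x i N))) := by
    let ψ : E →ₗ[ℝ] (LinearMap.ker (E.mkQ.domRestrict (Qs (U := U) Δ d F τ x i N))) :=
      { toFun := fun e => ⟨⟨e.1, hEQ e.2⟩, (Submodule.Quotient.mk_eq_zero E).2 e.2⟩
        map_add' := fun _ _ => rfl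
        map_smul' := fun _ _ => rfl }
    have hψ : Function.Injective ψ := by
      intro a b hab
      have := congrArg (fun z => ((z.1 : Qs (U := U) Δ d F τ x i N) :
        {σ // σ ∈ facets Δ d τ} → U)) hab
      exact Subtype.ext this
    exact LinearMap.finrank_le_finrank_of_injective hψ
  omega

theorem finrank_Qs [Module.Finite ℝ U] (hS : HomSphere ℝ Δ d) (hu : Lsop ℝ Δ u)
    {F : (V → ℕ) → ℝ} (hF : IsFund ℝ Δ u F) {τ : Finset V} (hτ : Δ τ)
    (B : LinearMap.BilinForm ℝ U) (hsymm : ∀ x y, B x y = B y x)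
    (hpos : ∀ x, x ≠ 0 → 0 < B x x)
    {t : Fin d → ℝ} {x : Finset V → V → ℝ} {Ft : (V → ℕ) → ℝ} (hFt : IsDef ℝ Δ u F τ t Ft)
    {μ : Finset V → ℝ} (hμ : IsRes (d := d) Δ F τ x Ft μ) {i j : ℕ} (h : i + j + τ.card = d)
    {N : Submodule ℝ ((V → ℕ) → U)} (hN : N ≤ Lm ℝ U Δ u τ j) :
    ∑ l ∈ range i, finrank ℝ (Lm ℝ U Δ u τ l) + finrank ℝ N ≤
      finrank ℝ (Qs (U := U) Δ d F τ x i N) := by
  induction i generalizing j N with
  | zero =>
    have h1 := step_dim hS hu hF hτ B hsymm hpos hFt hμ h hN ⊥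
      (fun e he => ⟨0, Or.inl rfl, by rw [map_zero]; exact ((Submodule.mem_bot ℝ).1 he).symm⟩)
    simpa using h1
  | succ i ih =>
    have h1 := step_dim hS hu hF hτ B hsymm hpos hFt hμ h hN
      (Submodule.map (evF U Δ d τ x) (Pl U V i)) (by
        rintro e ⟨c, hc, rfl⟩
        exact ⟨c, Or.inr ⟨i, rfl, hc⟩, rfl⟩)
    have h2 := ih (j := j + 1) (N := Lm ℝ U Δ u τ (j + 1)) (by omega) le_rfl
    have h3 : Qs (U := U) Δ d F τ x i (Lm ℝ U Δ u τ (j + 1)) =
        Submodule.map (evF U Δ d τ x) (Pl U V i) := by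
      unfold Qs
      congr 1
      refine inf_eq_left.2 fun b _ => ?_
      exact Phi_mem hS.cpx hF.mem (by omega) b
    have h4 : finrank ℝ (Lm ℝ U Δ u τ (j + 1)) = finrank ℝ (Lm ℝ U Δ u τ i) := by
      rw [finrank_LmU (U := U) τ (j + 1), finrank_LmU (U := U) τ i,
        finrank_Lm_symm hS hu hF hτ (i := j + 1) (j := i) (by omega)]
    rw [h3, h4] at h2
    rw [Finset.sum_range_succ]
    omega

end Pool.Agent.H53.CF
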