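import Pool.Agent.H53.CF.PE

/-!
# helper53 CF module PEW: exactness of the chains with coefficients `Lm`, values in `W`

From the scalar case by a basis of `W` (finite-dimensional), coordinatewise.
-/

namespace Pool.Agent.H53.CF

open Finset

variable {V : Type*} [Fintype V] [LinearOrder V]
variable {K : Type*} [Field K] {W : Type*} [AddCommGroup W] [Module K W]
variable {Δ : Finset V → Prop} {d : ℕ} {u : V → Fin d → K}

private theorem map_mem_Lm {W₁ W₂ : Type*} [AddCommGroup W₁] [Module K W₁] [AddCommGroup W₂]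
    [Module K W₂] (T : W₁ →ₗ[K] W₂) {τ : Finset V} {i : ℕ} {f : (V → ℕ) → W₁}
    (hf : f ∈ Lm K W₁ Δ u τ i) : (fun α => T (f α)) ∈ Lm K W₂ Δ u τ i := by
  refine ⟨fun α h => hf.1 α (fun h0 => h ?_), fun j β => ?_⟩
  · show T (f α) = 0
    rw [h0, map_zero]
  · show ∑ v, u v j • T (f (β + e1 v)) = 0
    have h1 := congrArg T (hf.2 j β)
    rw [map_sum, map_zero] at h1
    rw [← h1]
    exact Finset.sum_congr rfl (fun v _ => (map_smul _ _ _).symm)

private theorem map_mem_ChL {W₁ W₂ : Type*} [AddCommGroup W₁] [Module K W₁] [AddCommGroup W₂]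
    [Module K W₂] (T : W₁ →ₗ[K] W₂) {τ : Finset V} {p i : ℕ} {c : Finset V → (V → ℕ) → W₁}
    (hc : c ∈ ChL K W₁ Δ u τ p i) : (fun ρ α => T (c ρ α)) ∈ ChL K W₂ Δ u τ p i := by
  intro ρ
  refine ⟨map_mem_Lm T (hc ρ).1, fun h => (hc ρ).2 (fun h0 => h ?_)⟩
  funext α
  show T (c ρ α) = 0
  rw [h0, Pi.zero_apply, map_zero]

private theorem bdL_map {W₁ W₂ : Type*} [AddCommGroup W₁] [Module K W₁] [AddCommGroup W₂]
    [Module K W₂] (T : W₁ →ₗ[K] W₂) (c : Finset V → (V → ℕ) → W₁) :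
    bdL K W₂ (fun ρ α => T (c ρ α)) = fun ρ α => T (bdL K W₁ c ρ α) := by
  funext ρ α
  show (∑ v ∈ ρᶜ, sg v ρ • (fun α => T (c (insert v ρ) α))) α
    = T ((∑ v ∈ ρᶜ, sg v ρ • c (insert v ρ)) α)
  rw [Finset.sum_apply, Finset.sum_apply, map_sum]
  refine Finset.sum_congr rfl (fun v _ => ?_)
  rw [Pi.smul_apply, Pi.smul_apply, map_zsmul]

theorem chL_exact [Module.Finite K W] (hS : HomSphere K Δ d) (hu : Lsop K Δ u) {τ : Finset V}
    (hτ : Δ τ) {p i : ℕ} (hp : p + i + τ.card < d) {c : Finset V → (V → ℕ) → W}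
    (hc : c ∈ ChL K W Δ u τ p i) (hb : bdL K W c = 0) :
    ∃ b ∈ ChL K W Δ u τ (p + 1) i, bdL K W b = c := by
  let bs := Module.finBasis K W
  have key : ∀ k, ∃ b ∈ ChL K K Δ u τ (p + 1) i,
      bdL K K b = fun ρ α => bs.coord k (c ρ α) := by
    intro k
    refine chL_exact_scalar hS hu hτ hp (map_mem_ChL (bs.coord k) hc) ?_
    rw [bdL_map, hb]
    funext ρ α
    exact map_zero _
  choose b hb1 hb2 using key
  refine ⟨∑ k, fun ρ α => LinearMap.toSpanSingleton K W (bs k) (b k ρ α), ?_, ?_⟩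
  · exact Submodule.sum_mem _ (fun k _ => map_mem_ChL _ (hb1 k))
  · rw [map_sum]
    have h1 : ∀ k, bdL K W (fun ρ α => LinearMap.toSpanSingleton K W (bs k) (b k ρ α))
        = fun ρ α => (bs.coord k (c ρ α)) • bs k := by
      intro k
      rw [bdL_map, hb2 k]
      funext ρ α
      exact LinearMap.toSpanSingleton_apply K W (bs k) _
    simp only [h1]
    funext ρ α
    rw [Finset.sum_apply, Finset.sum_apply]
    exact bs.sum_repr (c ρ α)

end Pool.Agent.H53.CF
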