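import Pool.Agent.H53.CF.Chase
import Pool.Agent.H53.CF.PEW

/-!
# helper53 CF module ELOW: exactness of the Dirac complex strictly below the critical degree

`f ∈ Lm τ i`, `D f = 0`, `2 i + 1 + |τ| < d`. `chase` with `∂ = bdL`, `κ = DopC A`, `p₀ = 1`,
`P = i + 1`: `A p = ChL τ p (i + 1 - p)`, `B p = ChL τ p (i - p)`, `G p = ChL τ p (i + 2 - p)`.
`κ`-exactness at `A p`, `p ≥ 1`: coefficientwise from `EX (τ ∪ ρ)`, `|ρ| = p` (`ρ ≠ ∅`, disjoint
from `τ`): `2 (i + 1 - p) + |τ| + p < d`. `∂`-exactness: `chL_exact`, `p + (i - p) + |τ| = i + |τ| < d`.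
`κ κ = 0` on `ChL` since `D D = 0` on `Lm ∅ ⊇ Lm (τ ∪ ρ)`. First step: `ch0 f = ∂ z₁` (`chL_exact`
at `p = 0`), `∂ κ z₁ = 0`, `z₁ = κ g + ∂ h`, `ch0 f = ∂ κ g = κ ∂ g`; evaluate at `∅`.

Second statement (`closed_sum`), used at the critical degree `2 i + 1 + |τ| = d`: a closed
`f ∈ Lm τ i` is a sum of closed `z w ∈ Lm (insert w τ) i` over the vertices `w` of the link.
If `i = 0`: `ch0 f = ∂ z₁`, everything of degree `0` is closed. If `i > 0`:
`ch0 f = ∂ z₁`, `κ z₁ = ∂ z₂` with `z₂ ∈ ChL τ 2 (i - 1)` (exactness in position `1`, degree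
`i - 1`), `∂ κ z₂ = κ κ z₁ = 0`, so by `chase` with `p₀ = 2` (`κ`-exactness is only needed for
`p ≥ 2`: `2 (i + 1 - p) + |τ| + p < d`) `z₂ = κ g + ∂ h`; `κ z₁ = ∂ κ g = κ ∂ g`;
`z = z₁ - ∂ g ∈ ChL τ 1 i` is closed with `∂ z = ch0 f`.
-/

namespace Pool.Agent.H53.CF

open Finset

variable {V : Type*} [Fintype V] [LinearOrder V]
variable {K : Type*} [Field K] {U : Type*} [AddCommGroup U] [Module K U]
variable {Δ : Finset V → Prop} {d : ℕ} {u : V → Fin d → K}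

/-- The square of the Dirac operator vanishes on the chains. -/
private theorem kk_zero (hc : IsCpx Δ) {A : V → U →ₗ[K] U}
    (hDD : ∀ i, ∀ f ∈ Lm K U Δ u ∅ i, Dop K U A (Dop K U A f) = 0)
    {τ : Finset V} {p i : ℕ} {c : Finset V → (V → ℕ) → U} (h : c ∈ ChL K U Δ u τ p i) :
    DopC K U A (DopC K U A c) = 0 := by
  funext ρ
  exact hDD i (c ρ) (Lm_mono hc (Finset.empty_subset _) (h ρ).1)

/-- Coefficientwise exactness. -/
private theorem k_exact (hc : IsCpx Δ) {A : V → U →ₗ[K] U} {τ : Finset V}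
    (hEX : ∀ τ', Δ τ' → τ ⊂ τ' → EX Δ u A τ') {p i : ℕ} (hp : 1 ≤ p)
    (hi : 2 * i + τ.card + p < d) {z : Finset V → (V → ℕ) → U} (hz : z ∈ ChL K U Δ u τ p i)
    (hkz : DopC K U A z = 0) : ∃ g ∈ ChL K U Δ u τ p (i + 1), DopC K U A g = z := by
  classical
  have key : ∀ ρ, z ρ ≠ 0 → ∃ g ∈ Lm K U Δ u (τ ∪ ρ) (i + 1), Dop K U A g = z ρ := by
    intro ρ hρ
    obtain ⟨hcard, hdisj⟩ := (hz ρ).2 hρ
    have hface : Δ (τ ∪ ρ) := face_of_ne hc (Lm_le_Sm (hz ρ).1) hρ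
    have hne : ρ.Nonempty := by
      rw [← Finset.card_pos]
      omega
    have hss : τ ⊂ τ ∪ ρ := by
      refine ⟨Finset.subset_union_left, fun hcon => ?_⟩
      obtain ⟨x, hx⟩ := hne
      exact Finset.disjoint_left.1 hdisj hx (hcon (Finset.mem_union_right _ hx))
    have hcu : (τ ∪ ρ).card = τ.card + p := by
      rw [Finset.card_union_of_disjoint hdisj.symm, hcard]
    refine hEX _ hface hss i (by omega) (z ρ) (hz ρ).1 ?_
    exact congrFun hkz ρ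
  choose! g hg using key
  refine ⟨fun ρ => if z ρ = 0 then 0 else g ρ, fun ρ => ?_, ?_⟩
  · by_cases h0 : z ρ = 0
    · simp only [h0, if_true]
      exact ⟨Submodule.zero_mem _, fun h => absurd rfl h⟩
    · simp only [h0, if_false]
      exact ⟨(hg ρ h0).1, fun _ => (hz ρ).2 h0⟩
  · funext ρ
    change Dop K U A (if z ρ = 0 then 0 else g ρ) = z ρ
    by_cases h0 : z ρ = 0
    · simp only [h0, if_true, map_zero]
    · simp only [h0, if_false]
      exact (hg ρ h0).2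

/-- The zigzag starting at position `p₀`. -/
private theorem zigzag [Module.Finite K U] (hS : HomSphere K Δ d) (hu : Lsop K Δ u)
    {A : V → U →ₗ[K] U}
    (hDD : ∀ i, ∀ f ∈ Lm K U Δ u ∅ i, Dop K U A (Dop K U A f) = 0)
    {τ : Finset V} (hτ : Δ τ) (hEX : ∀ τ', Δ τ' → τ ⊂ τ' → EX Δ u A τ') {i : ℕ} (p₀ : ℕ)
    (hp₀ : 1 ≤ p₀) (hp₀' : p₀ ≤ i + 1) (hi : 2 * i + 2 + τ.card < d + p₀)
    (hi' : i + τ.card < d) {z : Finset V → (V → ℕ) → U}
    (hz : z ∈ ChL K U Δ u τ p₀ (i + 1 - p₀)) (hbz : bdL K U (DopC K U A z) = 0) :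
    ∃ g ∈ ChL K U Δ u τ p₀ (i + 2 - p₀), ∃ h ∈ ChL K U Δ u τ (p₀ + 1) (i + 2 - (p₀ + 1)),
      z = DopC K U A g + bdL K U h := by
  have hc := hS.cpx
  refine chase (bdL K U) (DopC K U A) (fun p => ChL K U Δ u τ p (i + 1 - p))
    (fun p => ChL K U Δ u τ p (i - p)) (fun p => ChL K U Δ u τ p (i + 2 - p)) p₀ (i + 1)
    bdL_bdL (fun x => bdL_DopC A x) ?_ ?_ ?_ ?_ ?_ ?_ p₀ le_rfl hp₀' z hz hbz
  · intro p _ _ z hz
    exact kk_zero hc hDD hz
  · intro p _ hp z hz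
    rcases Nat.lt_or_ge i p with h | h
    · have h1 : i + 1 - p = 0 := by omega
      simp only [h1] at hz
      rw [DopC_ChS_zero A (ChL_le_ChS hz)]
      exact Submodule.zero_mem _
    · have h1 : i + 1 - p = (i - p) + 1 := by omega
      simp only [h1] at hz
      exact DopC_mem_ChL hc A hz
  · intro p _ hp g hg
    have h1 : i + 2 - (p + 1) = i + 1 - p := by omega
    simp only [h1] at hg
    exact bdL_mem_ChL hc hg
  · intro p hp hpP z hz hkz
    have h1 : i + 2 - p = (i + 1 - p) + 1 := by omega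
    simp only [h1]
    exact k_exact hc hEX (by omega) (by omega) hz hkz
  · intro p _ hpP y hy hby
    have h1 : i + 1 - (p + 1) = i - p := by omega
    simp only [h1]
    exact chL_exact hS hu hτ (by omega) hy hby
  · intro z hz
    have h1 : i + 1 - (i + 1) = 0 := by omega
    simp only [h1] at hz
    exact DopC_ChS_zero A (ChL_le_ChS hz)

theorem exact_low [Module.Finite K U] (hS : HomSphere K Δ d) (hu : Lsop K Δ u)
    {A : V → U →ₗ[K] U}
    (hDD : ∀ i, ∀ f ∈ Lm K U Δ u ∅ i, Dop K U A (Dop K U A f) = 0)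
    {τ : Finset V} (hτ : Δ τ) (hEX : ∀ τ', Δ τ' → τ ⊂ τ' → EX Δ u A τ') {i : ℕ}
    (hi : 2 * i + 1 + τ.card < d) {f : (V → ℕ) → U} (hf : f ∈ Lm K U Δ u τ i)
    (hDf : Dop K U A f = 0) :
    ∃ g ∈ Lm K U Δ u τ (i + 1), Dop K U A g = f := by
  have hc := hS.cpx
  have h0 := ch0_mem_ChL hf
  obtain ⟨z, hz, hbz⟩ := chL_exact hS hu hτ (by omega) h0 (bdL_ChS_zero (ChL_le_ChS h0))
  rw [zero_add] at hz
  have hkz : bdL K U (DopC K U A z) = 0 := by
    rw [bdL_DopC, hbz, DopC_ch0, hDf]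
    funext ρ
    simp only [ch0, ite_self]
    rfl
  obtain ⟨g, hg, h, hh, hzg⟩ := zigzag hS hu hDD hτ hEX (i := i) 1 le_rfl (by omega) (by omega)
    (by omega) (z := z) (by simpa using hz) hkz
  have h1 : i + 2 - 1 = i + 1 := by omega
  rw [h1] at hg
  have hbg : bdL K U g ∈ ChL K U Δ u τ 0 (i + 1) := bdL_mem_ChL hc hg
  have h2 : ch0 f = DopC K U A (bdL K U g) := by
    rw [← hbz, hzg, map_add, bdL_bdL, add_zero, bdL_DopC]
  refine ⟨bdL K U g ∅, ?_, ?_⟩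
  · have := (hbg ∅).1
    rwa [Finset.union_empty] at this
  · have h3 := congrFun h2 ∅
    simp only [ch0, if_true] at h3
    exact h3.symm

private theorem closed_sum_aux (hc : IsCpx Δ) {A : V → U →ₗ[K] U} {τ : Finset V} {i : ℕ}
    {f : (V → ℕ) → U} {z : Finset V → (V → ℕ) → U} (hz : z ∈ ChL K U Δ u τ 1 i)
    (hkz : DopC K U A z = 0) (hbz : bdL K U z = ch0 f) :
    ∃ z : V → (V → ℕ) → U, (∀ w, z w ∈ Lm K U Δ u (insert w τ) i) ∧ (∀ w ∈ τ, z w = 0) ∧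
      (∀ w, ¬ Δ (insert w τ) → z w = 0) ∧ (∀ w, Dop K U A (z w) = 0) ∧ ∑ w, z w = f := by
  have hmem : ∀ w, z {w} ∈ Lm K U Δ u (insert w τ) i := by
    intro w
    have := (hz {w}).1
    rwa [Finset.union_comm, ← Finset.insert_eq] at this
  refine ⟨fun w => z {w}, hmem, ?_, ?_, ?_, ?_⟩
  · intro w hw
    by_contra hne
    exact Finset.disjoint_left.1 ((hz {w}).2 hne).2 (Finset.mem_singleton_self w) hw
  · intro w hw
    by_contra hne
    exact hw (face_of_ne hc (Lm_le_Sm (hmem w)) hne)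
  · intro w
    exact congrFun hkz {w}
  · have h1 := bdL_apply_empty (K := K) z
    rw [hbz] at h1
    rw [← h1]
    simp [ch0]

theorem closed_sum [Module.Finite K U] (hS : HomSphere K Δ d) (hu : Lsop K Δ u)
    {A : V → U →ₗ[K] U}
    (hDD : ∀ i, ∀ f ∈ Lm K U Δ u ∅ i, Dop K U A (Dop K U A f) = 0)
    {τ : Finset V} (hτ : Δ τ) (hEX : ∀ τ', Δ τ' → τ ⊂ τ' → EX Δ u A τ') {i : ℕ}
    (hi : 2 * i + 1 + τ.card = d) {f : (V → ℕ) → U} (hf : f ∈ Lm K U Δ u τ i)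
    (hDf : Dop K U A f = 0) :
    ∃ z : V → (V → ℕ) → U, (∀ w, z w ∈ Lm K U Δ u (insert w τ) i) ∧ (∀ w ∈ τ, z w = 0) ∧
      (∀ w, ¬ Δ (insert w τ) → z w = 0) ∧ (∀ w, Dop K U A (z w) = 0) ∧ ∑ w, z w = f := by
  have hc := hS.cpx
  have h0 := ch0_mem_ChL hf
  obtain ⟨z, hz, hbz⟩ := chL_exact hS hu hτ (by omega) h0 (bdL_ChS_zero (ChL_le_ChS h0))
  rw [zero_add] at hz
  rcases Nat.eq_zero_or_pos i with hi0 | hi0
  · subst hi0
    exact closed_sum_aux hc hz (DopC_ChS_zero A (ChL_le_ChS hz)) hbz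
  · obtain ⟨j, rfl⟩ : ∃ j, i = j + 1 := ⟨i - 1, by omega⟩
    have hkz : DopC K U A z ∈ ChL K U Δ u τ 1 j := DopC_mem_ChL hc A hz
    have hbkz : bdL K U (DopC K U A z) = 0 := by
      rw [bdL_DopC, hbz, DopC_ch0, hDf]
      funext ρ
      simp only [ch0, ite_self]
      rfl
    obtain ⟨z2, hz2, hbz2⟩ := chL_exact hS hu hτ (by omega) hkz hbkz
    have hbk2 : bdL K U (DopC K U A z2) = 0 := by
      rw [bdL_DopC, hbz2]
      exact kk_zero hc hDD hz
    have e1 : j + 1 + 1 - 2 = j := by omega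
    obtain ⟨g, hg, h, hh, hzg⟩ := zigzag hS hu hDD hτ hEX (i := j + 1) 2 (by omega) (by omega)
      (by omega) (by omega) (z := z2) (by rw [e1]; exact hz2) hbk2
    have e2 : j + 1 + 2 - 2 = j + 1 := by omega
    rw [e2] at hg
    have hbg : bdL K U g ∈ ChL K U Δ u τ 1 (j + 1) := bdL_mem_ChL hc hg
    refine closed_sum_aux hc (z := z - bdL K U g) (Submodule.sub_mem _ hz hbg) ?_ ?_
    · have h3 : DopC K U A z = DopC K U A (bdL K U g) := by
        rw [← hbz2, hzg, map_add, bdL_bdL, add_zero, bdL_DopC]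
      rw [map_sub, h3, sub_self]
    · rw [map_sub, bdL_bdL, sub_zero, hbz]

end Pool.Agent.H53.CF
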