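import Pool.Agent.H53.CF.Pair

/-!
# helper53 CF module RANK: ranks of the Dirac operator below the middle

`finrank_map`: rank-nullity and exactness below `k`, induction on `k`: the image of
`D : L_k → L_(k-1)` (for `k = 0` it is `0`) is the kernel of `D : L_(k-1) → L_(k-2)`.
`finrank_map_dual`: `i + j + |τ| = d`: the maps `D : L_(i+1) → L_i` and `D : L_j → L_(j-1)`
(`j = d - |τ| - i`) are adjoint for the perfect pairing, so they have the same rank.
(E.g.: the annihilator of `D (L_(i+1))` under the pairing of `L_i` with `L_j = {Phi F τ i b}` is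
the kernel of `D` on `L_j`, by `mem_map_of_pr` and its easy converse.)
Note `finrank (Lm U τ i) = finrank U * finrank (Lm K τ i)` (module `finrank_LmU`).
-/

namespace Pool.Agent.H53.CF

open Finset Module

variable {V : Type*} [Fintype V] [LinearOrder V]
variable {K : Type*} [Field K] {U : Type*} [AddCommGroup U] [Module K U]
variable {Δ : Finset V → Prop} {d : ℕ} {u : V → Fin d → K}

/-- coordinates of a stress with values in `U` -/
private noncomputable def coordEquiv {ι : Type*} [Fintype ι] (b : Basis ι K U) (τ : Finset V)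
    (i : ℕ) : Lm K U Δ u τ i ≃ₗ[K] (ι → Lm K K Δ u τ i) where
  toFun f := fun k => ⟨fun α => b.coord k (f.1 α), by
    obtain ⟨⟨h1, h2⟩⟩ : PLift _ := ⟨f.2⟩
    refine ⟨fun α hα => h1 α (fun h0 => hα (by simp only; rw [h0, map_zero])), fun j β => ?_⟩
    have h3 := congrArg (b.coord k) (h2 j β)
    rw [map_sum, map_zero] at h3
    rw [← h3]
    exact Finset.sum_congr rfl (fun v _ => by rw [map_smul])⟩
  map_add' f g := by
    funext k
    apply Subtype.ext
    funext α
    exact map_add (b.coord k) (f.1 α) (g.1 α)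
  map_smul' c f := by
    funext k
    apply Subtype.ext
    funext α
    exact map_smul (b.coord k) c (f.1 α)
  invFun g := ⟨fun α => ∑ k, (g k).1 α • b k, by
    refine ⟨fun α hα => ?_, fun j β => ?_⟩
    · obtain ⟨k, _, hk⟩ := Finset.exists_ne_zero_of_sum_ne_zero hα
      exact (g k).2.1 α (fun h0 => hk (by rw [h0, zero_smul]))
    · have h1 : ∀ v, u v j • ∑ k, (g k).1 (β + e1 v) • b k =
          ∑ k, (u v j • (g k).1 (β + e1 v)) • b k := by
        intro v
        rw [Finset.smul_sum]
        exact Finset.sum_congr rfl (fun k _ => by rw [smul_assoc])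
      rw [Finset.sum_congr rfl (fun v _ => h1 v), Finset.sum_comm]
      refine Finset.sum_eq_zero (fun k _ => ?_)
      rw [← Finset.sum_smul, (g k).2.2 j β, zero_smul]⟩
  left_inv f := by
    apply Subtype.ext
    funext α
    exact b.sum_repr (f.1 α)
  right_inv g := by
    funext k
    apply Subtype.ext
    funext α
    classical
    change b.coord k (∑ k, (g k).1 α • b k) = (g k).1 α
    rw [map_sum, Finset.sum_eq_single k]
    · rw [map_smul, Basis.coord_apply, Basis.repr_self, Finsupp.single_eq_same, smul_eq_mul,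
        mul_one]
    · intro l _ hl
      rw [map_smul, Basis.coord_apply, Basis.repr_self, Finsupp.single_eq_of_ne hl.symm,
        smul_eq_mul, mul_zero]
    · intro h
      exact absurd (Finset.mem_univ k) h

theorem finrank_LmU [Module.Finite K U] (τ : Finset V) (i : ℕ) :
    finrank K (Lm K U Δ u τ i) = finrank K U * finrank K (Lm K K Δ u τ i) := by
  have := finite_Lm (K := K) (W := K) (Δ := Δ) (u := u) τ i
  rw [(coordEquiv (Module.finBasis K U) τ i).finrank_eq, Module.finrank_pi_fintype,
    Finset.sum_const, Finset.card_univ, Fintype.card_fin, smul_eq_mul]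

/-- rank-nullity for the image of a submodule -/
private theorem rank_null {M N : Type*} [AddCommGroup M] [Module K M] [AddCommGroup N]
    [Module K N] (f : M →ₗ[K] N) (p q : Submodule K M) [Module.Finite K p]
    (hq : ∀ x, x ∈ q ↔ (x ∈ p ∧ f x = 0)) :
    finrank K (Submodule.map f p) + finrank K q = finrank K p := by
  have h1 := LinearMap.finrank_range_add_finrank_ker (f.domRestrict p)
  rw [LinearMap.range_domRestrict] at h1
  rw [← h1]
  congr 1
  have h2 : q = Submodule.map p.subtype (LinearMap.ker (f.domRestrict p)) := by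
    ext x
    rw [hq]
    constructor
    · rintro ⟨hx, hx0⟩
      exact ⟨⟨x, hx⟩, hx0, rfl⟩
    · rintro ⟨⟨y, hy⟩, hy0, rfl⟩
      exact ⟨hy, hy0⟩
  rw [h2]
  exact LinearEquiv.finrank_eq (Submodule.equivMapOfInjective _ p.subtype_injective _).symm

theorem finrank_map [Module.Finite K U] (hS : HomSphere K Δ d) (hu : Lsop K Δ u)
    {A : V → U →ₗ[K] U}
    (hDD : ∀ i, ∀ f ∈ Lm K U Δ u ∅ i, Dop K U A (Dop K U A f) = 0)
    {τ : Finset V} (hτ : Δ τ) (hEX : EX Δ u A τ) {k : ℕ} (hk : 2 * k + τ.card ≤ d + 1) :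
    (finrank K (Submodule.map (Dop K U A) (Lm K U Δ u τ k)) : ℤ) =
      ∑ j ∈ range k, (-1 : ℤ) ^ j * (finrank K (Lm K U Δ u τ (k - 1 - j)) : ℤ) := by
  induction k with
  | zero =>
    have h0 : Submodule.map (Dop K U A) (Lm K U Δ u τ 0) = ⊥ := by
      rw [eq_bot_iff]
      rintro _ ⟨f, hf, rfl⟩
      rw [Submodule.mem_bot]
      exact Dop_Sm_zero A (Lm_le_Sm hf)
    rw [h0]
    simp
  | succ k ih =>
    have ih' := ih (by omega)
    have := finite_Lm (K := K) (W := U) (Δ := Δ) (u := u) τ k
    have h1 := rank_null (Dop K U A) (Lm K U Δ u τ k)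
      (Submodule.map (Dop K U A) (Lm K U Δ u τ (k + 1))) (fun x => by
        constructor
        · rintro ⟨f, hf, rfl⟩
          refine ⟨Dop_mem_Lm hS.cpx A hf, ?_⟩
          exact hDD (k + 1) f (Lm_mono hS.cpx (Finset.empty_subset τ) hf)
        · rintro ⟨hx, hx0⟩
          obtain ⟨g, hg, hgx⟩ := hEX k (by omega) x hx hx0
          exact ⟨g, hg, hgx⟩)
    have h2 : (finrank K (Submodule.map (Dop K U A) (Lm K U Δ u τ (k + 1))) : ℤ) =
        (finrank K (Lm K U Δ u τ k) : ℤ) -
          (finrank K (Submodule.map (Dop K U A) (Lm K U Δ u τ k)) : ℤ) := by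
      have : (finrank K (Submodule.map (Dop K U A) (Lm K U Δ u τ k)) : ℤ) +
        (finrank K (Submodule.map (Dop K U A) (Lm K U Δ u τ (k + 1))) : ℤ) =
          (finrank K (Lm K U Δ u τ k) : ℤ) := by exact_mod_cast h1
      linarith
    rw [h2, ih', Finset.sum_range_succ']
    simp only [pow_zero, one_mul]
    have h3 : k + 1 - 1 - 0 = k := by omega
    rw [h3, add_comm, sub_eq_add_neg]
    congr 1
    rw [← Finset.sum_neg_distrib]
    refine Finset.sum_congr rfl (fun j _ => ?_)
    have h4 : k + 1 - 1 - (j + 1) = k - 1 - j := by omega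
    rw [h4, pow_succ]
    ring

/-- comparison of two linear maps by their kernels -/
private theorem finrank_range_le {P M N : Type*} [AddCommGroup P] [Module K P]
    [AddCommGroup M] [Module K M] [AddCommGroup N] [Module K N] [Module.Finite K N]
    (f : P →ₗ[K] M) (g : P →ₗ[K] N) (h : ∀ x, g x = 0 → f x = 0) :
    finrank K (LinearMap.range f) ≤ finrank K N := by
  have hle : LinearMap.ker g ≤ LinearMap.ker f := fun x hx => h x hx
  have hfin : Module.Finite K (P ⧸ LinearMap.ker g) :=
    Module.Finite.equiv g.quotKerEquivRange.symm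
  have h1 : finrank K (P ⧸ LinearMap.ker g) ≤ finrank K N := by
    rw [g.quotKerEquivRange.finrank_eq]
    exact Submodule.finrank_le _
  have h2 : finrank K (P ⧸ LinearMap.ker f) ≤ finrank K (P ⧸ LinearMap.ker g) := by
    have hsurj : Function.Surjective (Submodule.factor hle) := Submodule.factor_surjective hle
    exact LinearMap.finrank_le_finrank_of_surjective hsurj
  rw [← f.quotKerEquivRange.finrank_eq]
  exact h2.trans h1

/-- the pairing as a linear map into the dual of a submodule -/
private def prL (B : LinearMap.BilinForm K U) (i : ℕ) (M : Submodule K ((V → ℕ) → U)) :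
    ((V → ℕ) → U) →ₗ[K] (Module.Dual K M) where
  toFun b :=
    { toFun := fun f => pr K U B i f.1 b
      map_add' := fun f g => by
        unfold pr
        simp only [Submodule.coe_add, Pi.add_apply, map_add, LinearMap.add_apply,
          Finset.sum_add_distrib]
      map_smul' := fun c f => by
        unfold pr
        simp only [Submodule.coe_smul, Pi.smul_apply, map_smul, LinearMap.smul_apply,
          smul_eq_mul, Finset.mul_sum, RingHom.id_apply] }
  map_add' b b' := by
    apply LinearMap.ext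
    intro f
    change pr K U B i f.1 (b + b') = pr K U B i f.1 b + pr K U B i f.1 b'
    unfold pr
    simp only [Pi.add_apply, map_add, Finset.sum_add_distrib]
  map_smul' c b := by
    apply LinearMap.ext
    intro f
    change pr K U B i f.1 (c • b) = c • pr K U B i f.1 b
    unfold pr
    simp only [Pi.smul_apply, map_smul, smul_eq_mul, Finset.mul_sum]

private theorem rank_le_dual [Module.Finite K U] (hS : HomSphere K Δ d) (hu : Lsop K Δ u)
    {F : (V → ℕ) → K} (hF : IsFund K Δ u F)
    {B : LinearMap.BilinForm K U} {A : V → U →ₗ[K] U} (hD : IsDirac Δ u B A)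
    {τ : Finset V} (hτ : Δ τ) {i j : ℕ} (h : i + 1 + j + τ.card = d) :
    finrank K (Submodule.map (Dop K U A) (Lm K U Δ u τ (j + 1))) ≤
      finrank K (Submodule.map (Dop K U A) (Lm K U Δ u τ (i + 1))) := by
  have hfin := finite_Lm (K := K) (W := U) (Δ := Δ) (u := u) τ (i + 1)
  have hfin2 : Module.Finite K (Submodule.map (Dop K U A) (Lm K U Δ u τ (i + 1))) :=
    Module.Finite.map _ _
  have hrange : Submodule.map (Dop K U A) (Lm K U Δ u τ (j + 1)) ≤
      LinearMap.range ((Dop K U A).comp (Phi K U F τ i)) := by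
    rintro _ ⟨f, hf, rfl⟩
    obtain ⟨b, hb⟩ := pd hS hu hF hτ (i := j + 1) (j := i) (by omega) hf
    exact ⟨b, by rw [LinearMap.comp_apply, hb]⟩
  have hle : ∀ b, prL B i (Submodule.map (Dop K U A) (Lm K U Δ u τ (i + 1))) b = 0 →
      ((Dop K U A).comp (Phi K U F τ i)) b = 0 := by
    intro b hb
    rw [LinearMap.comp_apply, ← Phi_Dt]
    refine Phi_eq_zero hS hu hF B hD.symm hD.nondeg hτ (i := i + 1) (j := j) (by omega) ?_
    intro f hf
    rw [← pr_Dop B hD.adj]
    have h1 := LinearMap.congr_fun hb ⟨Dop K U A f, f, hf, rfl⟩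
    exact h1
  have h1 := finrank_range_le ((Dop K U A).comp (Phi K U F τ i))
    (prL B i (Submodule.map (Dop K U A) (Lm K U Δ u τ (i + 1)))) hle
  rw [Subspace.dual_finrank_eq] at h1
  have hfin3 : Module.Finite K (LinearMap.range ((Dop K U A).comp (Phi K U F τ i))) := by
    have hsub : LinearMap.range ((Dop K U A).comp (Phi K U F τ i)) ≤
        Submodule.map (Dop K U A) (Lm K U Δ u τ (j + 1)) := by
      rintro _ ⟨b, rfl⟩
      exact ⟨Phi K U F τ i b, Phi_mem hS.cpx hF.mem (by omega) b, rfl⟩
    have hfin4 := finite_Lm (K := K) (W := U) (Δ := Δ) (u := u) τ (j + 1)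
    have hfin5 : Module.Finite K (Submodule.map (Dop K U A) (Lm K U Δ u τ (j + 1))) :=
      Module.Finite.map _ _
    exact Submodule.finiteDimensional_of_le hsub
  exact (Submodule.finrank_mono hrange).trans h1

theorem finrank_map_dual [Module.Finite K U] (hS : HomSphere K Δ d) (hu : Lsop K Δ u)
    {F : (V → ℕ) → K} (hF : IsFund K Δ u F)
    {B : LinearMap.BilinForm K U} {A : V → U →ₗ[K] U} (hD : IsDirac Δ u B A)
    {τ : Finset V} (hτ : Δ τ) {i j : ℕ} (h : i + j + τ.card = d) :
    finrank K (Submodule.map (Dop K U A) (Lm K U Δ u τ (i + 1))) =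
      finrank K (Submodule.map (Dop K U A) (Lm K U Δ u τ j)) := by
  rcases j with _ | j
  · have h0 : Submodule.map (Dop K U A) (Lm K U Δ u τ 0) = ⊥ := by
      rw [eq_bot_iff]
      rintro _ ⟨f, hf, rfl⟩
      rw [Submodule.mem_bot]
      exact Dop_Sm_zero A (Lm_le_Sm hf)
    rw [h0, finrank_bot]
    have h1 : (finrank K (Lm K K Δ u τ (i + 1)) : ℤ) = 0 := by
      rw [finrank_eq_coeff hS hu hτ, hpoly_coeff_gt hS hu hτ (by omega)]
    have h2 : finrank K (Lm K K Δ u τ (i + 1)) = 0 := by exact_mod_cast h1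
    have h3 : finrank K (Lm K U Δ u τ (i + 1)) = 0 := by
      rw [finrank_LmU, h2, mul_zero]
    have hfin := finite_Lm (K := K) (W := U) (Δ := Δ) (u := u) τ (i + 1)
    have h4 := Submodule.finrank_map_le (Dop K U A) (Lm K U Δ u τ (i + 1))
    omega
  · apply le_antisymm
    · exact rank_le_dual hS hu hF hD hτ (i := j) (j := i) (by omega)
    · exact rank_le_dual hS hu hF hD hτ (i := i) (j := j) (by omega)

private theorem symm_le (hS : HomSphere K Δ d) (hu : Lsop K Δ u)
    {F : (V → ℕ) → K} (hF : IsFund K Δ u F) {τ : Finset V} (hτ : Δ τ) {i j : ℕ}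
    (h : i + j + τ.card = d) :
    finrank K (Lm K K Δ u τ j) ≤ finrank K (Lm K K Δ u τ i) := by
  have hfin := finite_Lm (K := K) (W := K) (Δ := Δ) (u := u) τ i
  have hB1 : ∀ x y : K, LinearMap.mul K K x y = LinearMap.mul K K y x := by
    intro x y
    rw [LinearMap.mul_apply', LinearMap.mul_apply', mul_comm]
  have hB2 : ∀ x : K, (∀ y, LinearMap.mul K K x y = 0) → x = 0 := by
    intro x hx
    have := hx 1
    rwa [LinearMap.mul_apply', mul_one] at this
  have hrange : Lm K K Δ u τ j = LinearMap.range (Phi K K F τ i) := by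
    apply le_antisymm
    · intro f hf
      exact pd hS hu hF hτ (i := j) (j := i) (by omega) hf
    · rintro _ ⟨b, rfl⟩
      exact Phi_mem hS.cpx hF.mem (by omega) b
  have hle : ∀ b, prL (LinearMap.mul K K) i (Lm K K Δ u τ i) b = 0 → Phi K K F τ i b = 0 := by
    intro b hb
    refine Phi_eq_zero hS hu hF (LinearMap.mul K K) hB1 hB2 hτ h ?_
    intro f hf
    exact LinearMap.congr_fun hb ⟨f, hf⟩
  have h1 := finrank_range_le (Phi K K F τ i)
    (prL (LinearMap.mul K K) i (Lm K K Δ u τ i)) hle
  rw [Subspace.dual_finrank_eq, ← hrange] at h1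
  exact h1

/-- Symmetry of the dimensions. -/
theorem finrank_Lm_symm (hS : HomSphere K Δ d) (hu : Lsop K Δ u)
    {F : (V → ℕ) → K} (hF : IsFund K Δ u F) {τ : Finset V} (hτ : Δ τ) {i j : ℕ}
    (h : i + j + τ.card = d) :
    finrank K (Lm K K Δ u τ i) = finrank K (Lm K K Δ u τ j) := by
  apply le_antisymm
  · exact symm_le hS hu hF hτ (i := j) (j := i) (by omega)
  · exact symm_le hS hu hF hτ (i := i) (j := j) (by omega)

end Pool.Agent.H53.CF
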