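import Pool.Agent.H53.CF.Res
import Pool.Agent.H53.CF.Rank

/-!
# helper53 CF module EVAL: the residue form on evaluations

For `b` of degree `≤ i`, `b'` of degree `≤ j`, `i + j + |τ| ≤ d`:
`∑_σ μ σ B (ev b σ) (ev b' σ) = ∑_{α, γ} Ft (α + γ) B (b α) (b' γ)`, and `Ft` vanishes in degree
`< d - |τ|`, so this is `0` if `i + j + |τ| < d`, and if `i + j + |τ| = d` only `|α| = i`,
`|γ| = j` contribute: `∑ F (α + γ + ind τ) B (b α) (b' γ) = pr B i (Phi F τ j b') b`.
-/

namespace Pool.Agent.H53.CF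

open Finset Module

variable {V : Type*} [Fintype V] [LinearOrder V]
variable {U : Type*} [AddCommGroup U] [Module ℝ U]
variable {Δ : Finset V → Prop} {d : ℕ} {u : V → Fin d → ℝ}

theorem res_form_key (B : LinearMap.BilinForm ℝ U) {F : (V → ℕ) → ℝ} {τ : Finset V}
    {x : Finset V → V → ℝ} {Ft : (V → ℕ) → ℝ}
    {μ : Finset V → ℝ} (hμ : IsRes (d := d) Δ F τ x Ft μ) (b b' : (V → ℕ) → U) :
    ∑ σ : {σ // σ ∈ facets Δ d τ}, μ σ.1 * B (evF U Δ d τ x b σ) (evF U Δ d τ x b' σ) =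
      ∑ α ∈ Fintype.piFinset (fun _ : V => range (d + 1)),
        ∑ γ ∈ Fintype.piFinset (fun _ : V => range (d + 1)), Ft (α + γ) * B (b α) (b' γ) := by
  have h1 : ∑ σ : {σ // σ ∈ facets Δ d τ}, μ σ.1 * B (evF U Δ d τ x b σ) (evF U Δ d τ x b' σ) =
      ∑ σ ∈ facets Δ d τ, μ σ * B (ev U d x b σ) (ev U d x b' σ) :=
    Finset.sum_coe_sort (facets Δ d τ) (fun σ => μ σ * B (ev U d x b σ) (ev U d x b' σ))
  rw [h1]
  have h2 : ∀ σ, μ σ * B (ev U d x b σ) (ev U d x b' σ) =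
      ∑ α ∈ Fintype.piFinset (fun _ : V => range (d + 1)),
        ∑ γ ∈ Fintype.piFinset (fun _ : V => range (d + 1)),
          (μ σ * ∏ v, x σ v ^ (α + γ) v) * B (b α) (b' γ) := by
    intro σ
    have e1 : ev U d x b σ = ∑ α ∈ Fintype.piFinset (fun _ : V => range (d + 1)),
      (∏ v, x σ v ^ α v) • b α := rfl
    have e2 : ev U d x b' σ = ∑ α ∈ Fintype.piFinset (fun _ : V => range (d + 1)),
      (∏ v, x σ v ^ α v) • b' α := rfl
    rw [e1, e2, map_sum B, LinearMap.sum_apply, Finset.mul_sum]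
    apply Finset.sum_congr rfl
    intro α _
    rw [map_sum, Finset.mul_sum]
    apply Finset.sum_congr rfl
    intro γ _
    simp only [map_smul, LinearMap.smul_apply, smul_eq_mul]
    have e3 : ∏ v, x σ v ^ (α + γ) v = (∏ v, x σ v ^ α v) * ∏ v, x σ v ^ γ v := by
      rw [← Finset.prod_mul_distrib]
      exact Finset.prod_congr rfl (fun v _ => by rw [Pi.add_apply, pow_add])
    rw [e3]
    ring
  rw [Finset.sum_congr rfl (fun σ _ => h2 σ), Finset.sum_comm]
  apply Finset.sum_congr rfl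
  intro α _
  rw [Finset.sum_comm]
  apply Finset.sum_congr rfl
  intro γ _
  rw [hμ.2 (α + γ), Finset.sum_mul]

theorem res_form_lt (B : LinearMap.BilinForm ℝ U) {F : (V → ℕ) → ℝ} {τ : Finset V}
    {t : Fin d → ℝ} {x : Finset V → V → ℝ} {Ft : (V → ℕ) → ℝ} (hFt : IsDef ℝ Δ u F τ t Ft)
    {μ : Finset V → ℝ} (hμ : IsRes (d := d) Δ F τ x Ft μ) {i j : ℕ} (h : i + j + τ.card < d)
    {b b' : (V → ℕ) → U} (hb : b ∈ Pl U V i) (hb' : b' ∈ Pl U V j) :
    ∑ σ : {σ // σ ∈ facets Δ d τ}, μ σ.1 * B (evF U Δ d τ x b σ) (evF U Δ d τ x b' σ) = 0 := by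
  rw [res_form_key B hμ]
  apply Finset.sum_eq_zero
  intro α _
  apply Finset.sum_eq_zero
  intro γ _
  by_cases h1 : b α = 0
  · rw [h1, map_zero, LinearMap.zero_apply, mul_zero]
  by_cases h2 : b' γ = 0
  · rw [h2, map_zero, mul_zero]
  have h3 := hb α h1
  have h4 := hb' γ h2
  have h5 : Ft (α + γ) = 0 := by
    by_contra h6
    have h7 := (hFt.support _ h6).2
    have h8 : ∑ v, (α + γ) v = ∑ v, α v + ∑ v, γ v := by
      simp only [Pi.add_apply, Finset.sum_add_distrib]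
    rw [h8] at h7
    omega
  rw [h5, zero_mul]

theorem res_form_eq (B : LinearMap.BilinForm ℝ U) (hB : ∀ x y, B x y = B y x)
    {F : (V → ℕ) → ℝ} {τ : Finset V}
    {t : Fin d → ℝ} {x : Finset V → V → ℝ} {Ft : (V → ℕ) → ℝ} (hFt : IsDef ℝ Δ u F τ t Ft)
    {μ : Finset V → ℝ} (hμ : IsRes (d := d) Δ F τ x Ft μ) {i j : ℕ} (h : i + j + τ.card = d)
    {b b' : (V → ℕ) → U} (hb : b ∈ Pl U V i) (hb' : b' ∈ Pl U V j) :
    ∑ σ : {σ // σ ∈ facets Δ d τ}, μ σ.1 * B (evF U Δ d τ x b σ) (evF U Δ d τ x b' σ) =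
      pr ℝ U B i (Phi ℝ U F τ j b') b := by
  rw [res_form_key B hμ]
  have hadd : ∀ α γ : V → ℕ, ∑ v, (α + γ) v = ∑ v, α v + ∑ v, γ v := by
    intro α γ
    simp only [Pi.add_apply, Finset.sum_add_distrib]
  have hzero : ∀ α γ : V → ℕ, (∑ v, α v ≠ i ∨ ∑ v, γ v ≠ j) →
      Ft (α + γ) * B (b α) (b' γ) = 0 := by
    intro α γ hne
    by_cases h1 : b α = 0
    · rw [h1, map_zero, LinearMap.zero_apply, mul_zero]
    by_cases h2 : b' γ = 0
    · rw [h2, map_zero, mul_zero]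
    have h3 := hb α h1
    have h4 := hb' γ h2
    have h5 : Ft (α + γ) = 0 := by
      by_contra h6
      have h7 := (hFt.support _ h6).2
      rw [hadd] at h7
      omega
    rw [h5, zero_mul]
  have hsub : ∀ n, n ≤ d → Finset.piAntidiag (univ : Finset V) n ⊆
      Fintype.piFinset (fun _ : V => range (d + 1)) := by
    intro n hn α hα
    rw [Finset.mem_piAntidiag] at hα
    rw [Fintype.mem_piFinset]
    intro v
    rw [Finset.mem_range]
    have : α v ≤ ∑ w, α w := Finset.single_le_sum (fun _ _ => Nat.zero_le _) (Finset.mem_univ v)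
    rw [hα.1] at this
    omega
  have hnot : ∀ n, ∀ α : V → ℕ, α ∉ Finset.piAntidiag (univ : Finset V) n → ∑ v, α v ≠ n := by
    intro n α hα h1
    exact hα (Finset.mem_piAntidiag.mpr ⟨h1, fun _ _ => Finset.mem_univ _⟩)
  rw [← Finset.sum_subset (hsub i (by omega)) (fun α _ hα => Finset.sum_eq_zero
    (fun γ _ => hzero α γ (Or.inl (hnot i α hα))))]
  unfold pr
  apply Finset.sum_congr rfl
  intro α hα
  rw [← Finset.sum_subset (hsub j (by omega)) (fun γ _ hγ =>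
    hzero α γ (Or.inr (hnot j γ hγ)))]
  have e1 : Phi ℝ U F τ j b' α = ∑ γ ∈ Finset.piAntidiag univ j, F (α + γ + ind τ) • b' γ := rfl
  rw [e1, map_sum B, LinearMap.sum_apply]
  apply Finset.sum_congr rfl
  intro γ hγ
  rw [LinearMap.map_smul, LinearMap.smul_apply, smul_eq_mul, hB (b' γ) (b α)]
  rw [hFt.lead (α + γ) (by
    rw [hadd, (Finset.mem_piAntidiag.mp hα).1, (Finset.mem_piAntidiag.mp hγ).1]
    exact h)]

/-- Changing a function outside degree `i` does not change `Phi F τ i` nor `pr B i`; every function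
can be cut off to degree `i`. -/
theorem exists_cut (b : (V → ℕ) → U) (i : ℕ) :
    ∃ b' ∈ Pl U V i, (∀ α, b' α ≠ 0 → ∑ v, α v = i) ∧ (∀ F : (V → ℕ) → ℝ, ∀ τ,
      Phi ℝ U F τ i b' = Phi ℝ U F τ i b) ∧
      ∀ (B : LinearMap.BilinForm ℝ U) f, pr ℝ U B i f b' = pr ℝ U B i f b := by
  classical
  have hval : ∀ α ∈ Finset.piAntidiag (univ : Finset V) i,
      (if ∑ v, α v = i then b α else 0) = b α := by
    intro α hα
    rw [if_pos (Finset.mem_piAntidiag.mp hα).1]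
  refine ⟨fun α => if ∑ v, α v = i then b α else 0, ?_, ?_, ?_, ?_⟩
  · intro α hα
    by_contra h1
    exact hα (if_neg (fun h2 => h1 (le_of_eq h2)))
  · intro α hα
    by_contra h1
    exact hα (if_neg h1)
  · intro F τ
    funext γ
    show ∑ α ∈ Finset.piAntidiag univ i, F (γ + α + ind τ) • (if ∑ v, α v = i then b α else 0) =
      ∑ α ∈ Finset.piAntidiag univ i, F (γ + α + ind τ) • b α
    exact Finset.sum_congr rfl (fun α hα => by rw [hval α hα])
  · intro B f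
    show ∑ α ∈ Finset.piAntidiag univ i, B (f α) (if ∑ v, α v = i then b α else 0) =
      ∑ α ∈ Finset.piAntidiag univ i, B (f α) (b α)
    exact Finset.sum_congr rfl (fun α hα => by rw [hval α hα])

end Pool.Agent.H53.CF
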