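import Pool.Agent.H53.CF.Defs3
import Pool.Agent.H53.CF.CM

/-!
# helper53 CF module GENERIC: generic vectors and coordinates

A finite union of proper subspaces of `ℝ^d` is not everything. For a facet `σ` (`d` independent
vectors) coordinates exist; a zero coordinate would put `t` in the span of a smaller face.
-/

namespace Pool.Agent.H53.CF

open Finset

variable {V : Type*} [Fintype V] [LinearOrder V]
variable {Δ : Finset V → Prop} {d : ℕ} {u : V → Fin d → ℝ}

theorem exists_generic (hu : Lsop ℝ Δ u) : ∃ t : Fin d → ℝ, GenericVec Δ u t := by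
  classical
  let S : Finset (Submodule ℝ (Fin d → ℝ)) :=
    (univ.filter (fun ρ : Finset V => Δ ρ ∧ ρ.card < d)).image
      (fun ρ : Finset V => Submodule.span ℝ (u '' (ρ : Set V)))
  have htop : (⊤ : Submodule ℝ (Fin d → ℝ)) ∉ S := by
    intro h
    obtain ⟨ρ, hρ, hρ2⟩ := Finset.mem_image.1 h
    obtain ⟨-, hρ1⟩ := Finset.mem_filter.1 hρ
    have h1 : Module.finrank ℝ (Submodule.span ℝ (u '' (ρ : Set V))) ≤ ρ.card := by
      have h2 : u '' (ρ : Set V) = ((ρ.image u : Finset (Fin d → ℝ)) : Set (Fin d → ℝ)) := by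
        rw [Finset.coe_image]
      rw [h2]
      exact (finrank_span_finset_le_card _).trans Finset.card_image_le
    rw [hρ2, finrank_top, Module.finrank_fin_fun] at h1
    omega
  have hne := Subspace.biUnion_ne_univ_of_top_notMem htop
  obtain ⟨t, ht⟩ := (Set.ne_univ_iff_exists_notMem _).1 hne
  refine ⟨t, fun ρ hρ hc hmem => ht ?_⟩
  refine Set.mem_iUnion₂.2 ⟨Submodule.span ℝ (u '' (ρ : Set V)), ?_, hmem⟩
  exact Finset.mem_image.2 ⟨ρ, Finset.mem_filter.2 ⟨Finset.mem_univ _, hρ, hc⟩, rfl⟩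

theorem exists_coords (hc : IsCpx Δ) (hu : Lsop ℝ Δ u) {t : Fin d → ℝ}
    (ht : GenericVec Δ u t) : ∃ x : Finset V → V → ℝ, IsCoords Δ u t x := by
  classical
  have key : ∀ σ : Finset V, ∃ y : V → ℝ, Δ σ → σ.card = d →
      (∀ v, v ∉ σ → y v = 0) ∧ ∑ v, y v • u v = t ∧ ∀ v ∈ σ, y v ≠ 0 := by
    intro σ
    by_cases h : Δ σ ∧ σ.card = d
    · obtain ⟨hσ, hcard⟩ := h
      have hli := hu σ hσ
      have hspan := hli.span_eq_top_of_card_eq_finrank'
        (by rw [Fintype.card_coe, hcard, Module.finrank_fin_fun])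
      have hmem : t ∈ Submodule.span ℝ (Set.range (fun v : σ => u v)) := by
        rw [hspan]; trivial
      obtain ⟨c, hcs⟩ := (Submodule.mem_span_range_iff_exists_fun ℝ).1 hmem
      let y : V → ℝ := fun v => if hv : v ∈ σ then c ⟨v, hv⟩ else 0
      have hy0 : ∀ v, v ∉ σ → y v = 0 := fun v hv => dif_neg hv
      have hsum : ∑ v, y v • u v = t := by
        rw [← hcs, ← Finset.sum_subset (Finset.subset_univ σ)
          (fun v _ hv => by rw [hy0 v hv, zero_smul]), ← Finset.sum_coe_sort σ]
        refine Finset.sum_congr rfl (fun v _ => ?_)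
        have : y v = c v := by
          show (if hv : (v : V) ∈ σ then c ⟨v, hv⟩ else 0) = c v
          rw [dif_pos v.2]
        rw [this]
      refine ⟨y, fun _ _ => ⟨hy0, hsum, ?_⟩⟩
      intro v hv hyv
      have hlt : (σ.erase v).card < d := by
        rw [Finset.card_erase_of_mem hv, hcard]
        have : 0 < σ.card := Finset.card_pos.2 ⟨v, hv⟩
        omega
      apply ht (σ.erase v) (hc.down σ _ hσ (Finset.erase_subset _ _)) hlt
      rw [← hsum]
      refine Submodule.sum_mem _ (fun w _ => ?_)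
      by_cases hw : w ∈ σ.erase v
      · exact Submodule.smul_mem _ _ (Submodule.subset_span ⟨w, hw, rfl⟩)
      · have hw0 : y w = 0 := by
          by_cases hwv : w = v
          · rw [hwv, hyv]
          · exact hy0 w (fun hwσ => hw (Finset.mem_erase.2 ⟨hwv, hwσ⟩))
        rw [hw0, zero_smul]
        exact Submodule.zero_mem _
    · exact ⟨0, fun h1 h2 => absurd ⟨h1, h2⟩ h⟩
  choose x hx using key
  exact ⟨x, fun σ hσ hcard => hx σ hσ hcard⟩

end Pool.Agent.H53.CF
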