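import Pool.Agent.H53.CF.FanLsop
import Pool.Agent.H53.CF.Generic

/-!
# helper53 CF module FANLOC: the fan property localised at a face

For a face `ρ` there is exactly one facet `σ ⊇ ρ` such that all coordinates of `t` (in the basis of
`σ`) at the vertices of `σ \ ρ` are positive.
Let `z_ε = ∑_{v ∈ ρ} u_v + ε t`. Existence: for `ε = 1/(m+1)` the representation of `z_ε` has its
support in some facet `σ_m` (`exists_facet`); some facet `σ` occurs for infinitely many `m`; the
coordinates in the basis of `σ` depend linearly (continuously) on the vector, so those of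
`z_0 = ∑_{v ∈ ρ} u_v` are limits of nonnegative numbers, hence nonnegative, so by uniqueness
they are `1` on `ρ`, `0` outside; in particular `ρ ⊆ σ`. Then the coordinates of `z_ε` are
`1 + ε x_v` on `ρ` and `ε x_v` on `σ \ ρ`, so `x_v ≥ 0`, hence `> 0` on `σ \ ρ`.
Uniqueness: for small `ε` both facets give nonnegative representations of `z_ε`, with supports
`σ` and `σ'` exactly.
-/

namespace Pool.Agent.H53.CF

open Finset

variable {V : Type*} [Fintype V] [LinearOrder V]
variable {Δ : Finset V → Prop} {d : ℕ} {u : V → Fin d → ℝ}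

/-- coordinates on a face are unique -/
theorem fanloc_eq (hu : Lsop ℝ Δ u) {σ : Finset V} (hσ : Δ σ) {a b : V → ℝ}
    (ha : ∀ v, v ∉ σ → a v = 0) (hb : ∀ v, v ∉ σ → b v = 0)
    (h : ∑ v, a v • u v = ∑ v, b v • u v) : a = b := by
  have h1 := Fintype.linearIndependent_iff.1 (hu σ hσ) (fun v => a v - b v) (by
    rw [Finset.sum_coe_sort σ (fun v => (a v - b v) • u v),
      Finset.sum_subset (Finset.subset_univ σ) (fun v _ hv => by
        rw [ha v hv, hb v hv, sub_zero, zero_smul])]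
    simp only [sub_smul, Finset.sum_sub_distrib]
    rw [h, sub_self])
  funext v
  by_cases hv : v ∈ σ
  · exact sub_eq_zero.1 (h1 ⟨v, hv⟩)
  · rw [ha v hv, hb v hv]

theorem exists_unique_facet (hS : HomSphere ℝ Δ d) (hF : CompleteFan Δ u) {t : Fin d → ℝ}
    {x : Finset V → V → ℝ} (hx : IsCoords Δ u t x) {ρ : Finset V} (hρ : Δ ρ) :
    ∃! σ : Finset V, Δ σ ∧ ρ ⊆ σ ∧ σ.card = d ∧ ∀ v ∈ σ \ ρ, 0 < x σ v := by
  classical
  have hc := hS.cpx
  have hu := lsop_of_fan hc hF
  -- the vector `z₀`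
  have hind : ∑ v, (if v ∈ ρ then (1 : ℝ) else 0) • u v = ∑ v ∈ ρ, u v := by
    rw [← Finset.sum_subset (Finset.subset_univ ρ) (fun v _ hv => by rw [if_neg hv, zero_smul])]
    exact Finset.sum_congr rfl (fun v hv => by rw [if_pos hv, one_smul])
  have hsupp : univ.filter (fun v => (if v ∈ ρ then (1 : ℝ) else 0) ≠ 0) = ρ := by
    ext v
    by_cases hv : v ∈ ρ <;> simp [hv]
  apply existsUnique_of_exists_of_unique
  · -- existence
    have h1 : ∀ m : ℕ, ∃ σ : Finset V, Δ σ ∧ σ.card = d ∧ ∃ c : V → ℝ, (∀ v, 0 ≤ c v) ∧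
        (∀ v, v ∉ σ → c v = 0) ∧ ∑ v, c v • u v = ∑ v ∈ ρ, u v + (1 / ((m : ℝ) + 1)) • t := by
      intro m
      obtain ⟨c, ⟨hc0, hcf, hcs⟩, _⟩ := hF (∑ v ∈ ρ, u v + (1 / ((m : ℝ) + 1)) • t)
      obtain ⟨σ, hσ, hσ2, hσ3⟩ := exists_facet hS hu hcf
      refine ⟨σ, hσ, hσ3, c, hc0, ?_, hcs⟩
      intro v hv
      by_contra h
      exact hv (hσ2 (Finset.mem_filter.2 ⟨Finset.mem_univ v, h⟩))
    choose f hf1 hf2 c hc1 hc2 hc3 using h1
    obtain ⟨σ, hσ⟩ := Finite.exists_infinite_fiber f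
    have hinf : (f ⁻¹' {σ}).Infinite := Set.infinite_coe_iff.1 hσ
    obtain ⟨m0, hm0⟩ := hinf.nonempty
    have hm0' : f m0 = σ := hm0
    have hσΔ : Δ σ := hm0' ▸ hf1 m0
    have hσc : σ.card = d := hm0' ▸ hf2 m0
    obtain ⟨hx1, hx2, hx3⟩ := hx σ hσΔ hσc
    set a : V → ℝ := fun v => c m0 v - (1 / ((m0 : ℝ) + 1)) * x σ v with ha
    have hrep : ∀ m, f m = σ → ∑ v, (c m v - (1 / ((m : ℝ) + 1)) * x σ v) • u v =
        ∑ v ∈ ρ, u v := by
      intro m _
      simp only [sub_smul, Finset.sum_sub_distrib, mul_smul]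
      rw [← Finset.smul_sum, hx2, hc3 m, add_sub_cancel_right]
    have hsup : ∀ m, f m = σ → ∀ v, v ∉ σ → c m v - (1 / ((m : ℝ) + 1)) * x σ v = 0 := by
      intro m hm v hv
      rw [hx1 v hv, hc2 m v (by rw [hm]; exact hv), mul_zero, sub_zero]
    have hall : ∀ m, f m = σ → ∀ v, c m v = a v + (1 / ((m : ℝ) + 1)) * x σ v := by
      intro m hm v
      have := fanloc_eq hu hσΔ (hsup m hm) (hsup m0 hm0')
        ((hrep m hm).trans (hrep m0 hm0').symm)
      have h2 := congrFun this v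
      have h3 : c m v - (1 / ((m : ℝ) + 1)) * x σ v = a v := h2
      linarith
    have ha0 : ∀ v, 0 ≤ a v := by
      intro v
      by_contra hneg
      push Not at hneg
      obtain ⟨k, hk⟩ := exists_nat_gt (|x σ v| / (- a v))
      obtain ⟨m, hm1, hm2⟩ := hinf.exists_gt k
      have hm1' : f m = σ := hm1
      have h2 := hc1 m v
      rw [hall m hm1' v] at h2
      have h3 : (0 : ℝ) < (m : ℝ) + 1 := by positivity
      have h4 : |x σ v| < (- a v) * ((m : ℝ) + 1) := by
        rw [div_lt_iff₀ (by linarith)] at hk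
        have h5 : (k : ℝ) < (m : ℝ) + 1 := by
          have : (k : ℝ) < m := by exact_mod_cast hm2
          linarith
        nlinarith
      have h6 : (1 / ((m : ℝ) + 1)) * x σ v ≤ (1 / ((m : ℝ) + 1)) * |x σ v| :=
        mul_le_mul_of_nonneg_left (le_abs_self _) (by positivity)
      have h7 : (1 / ((m : ℝ) + 1)) * |x σ v| < - a v := by
        rw [one_div, inv_mul_lt_iff₀ h3]
        linarith
      linarith
    have haf : Δ (univ.filter (fun v => a v ≠ 0)) := by
      refine hc.down σ _ hσΔ ?_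
      intro v hv
      by_contra hvσ
      exact (Finset.mem_filter.1 hv).2 (hsup m0 hm0' v hvσ)
    obtain ⟨c0, _, huniq⟩ := hF (∑ v ∈ ρ, u v)
    have e1 := huniq a ⟨ha0, haf, hrep m0 hm0'⟩
    have e2 := huniq (fun v => if v ∈ ρ then (1 : ℝ) else 0) ⟨fun v => by
      change 0 ≤ (if v ∈ ρ then (1 : ℝ) else 0)
      split_ifs <;> norm_num, by rw [hsupp]; exact hρ, hind⟩
    have e3 : a = fun v => if v ∈ ρ then (1 : ℝ) else 0 := e1.trans e2.symm
    have hρσ : ρ ⊆ σ := by
      intro v hv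
      by_contra hvσ
      have h2 := hsup m0 hm0' v hvσ
      have h3 := congrFun e3 v
      change c m0 v - (1 / ((m0 : ℝ) + 1)) * x σ v = _ at h3
      rw [h2, if_pos hv] at h3
      norm_num at h3
    refine ⟨σ, hσΔ, hρσ, hσc, ?_⟩
    intro v hv
    rw [Finset.mem_sdiff] at hv
    have h2 : a v = 0 := by rw [e3]; simp [hv.2]
    have h3 := hc1 m0 v
    rw [hall m0 hm0' v, h2, zero_add] at h3
    have h4 : 0 ≤ x σ v := nonneg_of_mul_nonneg_right h3 (by positivity)
    exact lt_of_le_of_ne h4 (Ne.symm (hx3 v hv.1))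
  · -- uniqueness
    intro σ σ' ⟨hσ, hρσ, hσc, hσp⟩ ⟨hσ', hρσ', hσc', hσp'⟩
    set ε : ℝ := 1 / (1 + ∑ v, |x σ v| + ∑ v, |x σ' v|) with hε
    have hS1 : 0 ≤ ∑ v, |x σ v| := Finset.sum_nonneg (fun v _ => abs_nonneg _)
    have hS2 : 0 ≤ ∑ v, |x σ' v| := Finset.sum_nonneg (fun v _ => abs_nonneg _)
    have hpos : 0 < 1 + ∑ v, |x σ v| + ∑ v, |x σ' v| := by linarith
    have hε0 : 0 < ε := by positivity
    have key : ∀ τ : Finset V, Δ τ → ρ ⊆ τ → τ.card = d → (∀ v ∈ τ \ ρ, 0 < x τ v) →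
        ∑ v, |x τ v| < 1 + ∑ v, |x σ v| + ∑ v, |x σ' v| →
        (∀ v, 0 ≤ (if v ∈ ρ then (1 : ℝ) else 0) + ε * x τ v) ∧
        (univ.filter (fun v => (if v ∈ ρ then (1 : ℝ) else 0) + ε * x τ v ≠ 0)) = τ ∧
        ∑ v, ((if v ∈ ρ then (1 : ℝ) else 0) + ε * x τ v) • u v = ∑ v ∈ ρ, u v + ε • t := by
      intro τ hτ hρτ hτc hτp hlt
      obtain ⟨hx1, hx2, hx3⟩ := hx τ hτ hτc
      have hposρ : ∀ v ∈ ρ, 0 < (1 : ℝ) + ε * x τ v := by
        intro v hv
        have h2 : |x τ v| ≤ ∑ v, |x τ v| :=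
          Finset.single_le_sum (f := fun v => |x τ v|) (fun v _ => abs_nonneg _)
            (Finset.mem_univ v)
        have h3 : ε * |x τ v| < 1 := by
          rw [hε, one_div, inv_mul_lt_iff₀ hpos, mul_one]
          linarith
        have h4 : - (ε * |x τ v|) ≤ ε * x τ v := by
          have := mul_le_mul_of_nonneg_left (neg_abs_le (x τ v)) hε0.le
          linarith [this]
        linarith
      have hval : ∀ v, (v ∈ τ → 0 < (if v ∈ ρ then (1 : ℝ) else 0) + ε * x τ v) ∧
          (v ∉ τ → (if v ∈ ρ then (1 : ℝ) else 0) + ε * x τ v = 0) := by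
        intro v
        constructor
        · intro hv
          by_cases hvρ : v ∈ ρ
          · rw [if_pos hvρ]; exact hposρ v hvρ
          · rw [if_neg hvρ, zero_add]
            exact mul_pos hε0 (hτp v (Finset.mem_sdiff.2 ⟨hv, hvρ⟩))
        · intro hv
          rw [if_neg (fun h => hv (hρτ h)), hx1 v hv, mul_zero, add_zero]
      refine ⟨?_, ?_, ?_⟩
      · intro v
        by_cases hv : v ∈ τ
        · exact ((hval v).1 hv).le
        · exact ((hval v).2 hv).ge
      · ext v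
        rw [Finset.mem_filter]
        constructor
        · rintro ⟨_, h⟩
          by_contra hv
          exact h ((hval v).2 hv)
        · intro hv
          exact ⟨Finset.mem_univ v, ((hval v).1 hv).ne'⟩
      · simp only [add_smul, Finset.sum_add_distrib, mul_smul]
        rw [← Finset.smul_sum, hx2, hind]
    obtain ⟨k1, k2, k3⟩ := key σ hσ hρσ hσc hσp (by linarith)
    obtain ⟨k1', k2', k3'⟩ := key σ' hσ' hρσ' hσc' hσp' (by linarith)
    obtain ⟨c0, _, huniq⟩ := hF (∑ v ∈ ρ, u v + ε • t)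
    have e1 := huniq _ ⟨k1, by rw [k2]; exact hσ, k3⟩
    have e2 := huniq _ ⟨k1', by rw [k2']; exact hσ', k3'⟩
    have e3 := e1.trans e2.symm
    rw [← k2, ← k2']
    ext v
    rw [Finset.mem_filter, Finset.mem_filter]
    have e4 : (if v ∈ ρ then (1 : ℝ) else 0) + ε * x σ v =
        (if v ∈ ρ then (1 : ℝ) else 0) + ε * x σ' v := congrFun e3 v
    rw [e4]

end Pool.Agent.H53.CF
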