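import Pool.Agent.H53.CF.HPoly
import Pool.Agent.H53.CF.Conn

/-!
# helper53 CF module FUND: the fundamental function

`finrank L_d(∅) = 1` (top coefficient of the h-polynomial), so there is `F ≠ 0` in `Lm ∅ d`.
* Some facet has `F (ind σ) ≠ 0`: take a face `ρ` maximal with `G = (fun γ => F (γ + ind ρ)) ≠ 0`
  (`ρ = ∅` works). `G ∈ Lm ρ (d - |ρ|)`. If `|ρ| < d`: all `X_w G = 0` for `w ∉ ρ` by maximality,
  so `∑_{v ∈ ρ} u v j • G (β + e_v) = 0`, so by independence `X_v G = 0` for all `v`, and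
  `G` has degree `d - |ρ| > 0`: `G = 0`, contradiction. So `|ρ| = d` and `G 0 ≠ 0`.
* Ridge step: `ρ` ridge with facets `insert a ρ`, `insert b ρ` (`ridge_two`):
  `G γ = F (γ + ind ρ)` in degree `1`: `G (e_a) u_a + G (e_b) u_b + ∑_{v ∈ ρ} G (e_v) u_v = 0`; if
  `G (e_a) = 0` then `G (e_b) = 0` by independence of `u` on `insert b ρ`. Use `facet_induction`.
-/

namespace Pool.Agent.H53.CF

open Finset

variable {V : Type*} [Fintype V] [LinearOrder V]
variable {K : Type*} [Field K] {Δ : Finset V → Prop} {d : ℕ} {u : V → Fin d → K}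

theorem sum_ind' (τ : Finset V) : ∑ v, ind τ v = τ.card := by
  simp [ind]

theorem supp_add_ind (γ : V → ℕ) (τ : Finset V) : supp (γ + ind τ) = supp γ ∪ τ := by
  ext v
  simp only [supp, ind, mem_filter, mem_univ, true_and, mem_union, Pi.add_apply]
  by_cases h : v ∈ τ
  · simp [h]
  · simp [h]

theorem supp_ind (τ : Finset V) : supp (ind τ) = τ := by
  ext w
  simp only [supp, ind, mem_filter, mem_univ, true_and]
  split_ifs with h <;> simp [h]

omit [Fintype V] in
theorem e1_add_ind {ρ : Finset V} {v : V} (hv : v ∉ ρ) : e1 v + ind ρ = ind (insert v ρ) := by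
  funext w
  simp only [Pi.add_apply, e1, ind, mem_insert]
  by_cases h : w = v
  · subst h
    simp [hv]
  · simp [h]

/-- Shifting by a face. -/
theorem shift_ind_mem (hc : IsCpx Δ) {F : (V → ℕ) → K} {i : ℕ} {τ ρ : Finset V}
    (hF : F ∈ Lm K K Δ u ρ (i + τ.card)) :
    (fun γ => F (γ + ind τ)) ∈ Lm K K Δ u (τ ∪ ρ) i := by
  obtain ⟨hF1, hF2⟩ := hF
  refine ⟨fun γ hγ => ?_, fun j β => ?_⟩
  · obtain ⟨h1, h2⟩ := hF1 (γ + ind τ) hγ
    rw [supp_add_ind, union_assoc] at h2
    refine ⟨?_, h2⟩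
    simp only [Pi.add_apply, sum_add_distrib] at h1
    rw [sum_ind'] at h1
    omega
  · have := hF2 j (β + ind τ)
    rw [← this]
    refine sum_congr rfl fun v _ => ?_
    rw [add_right_comm]

/-- The relation at a ridge: there are scalars with
`F (ind (insert a ρ)) u_a + F (ind (insert b ρ)) u_b + ∑_{v ∈ ρ} s v u_v = 0`. -/
theorem ridge_relation (hS : HomSphere K Δ d) (hu : Lsop K Δ u) {F : (V → ℕ) → K}
    (hF : F ∈ Lm K K Δ u ∅ d) {ρ : Finset V} {a b : V} (h : ρ.card + 1 = d) (hab : a ≠ b)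
    (ha : a ∉ ρ) (hb : b ∉ ρ) (hΔa : Δ (insert a ρ)) (hΔb : Δ (insert b ρ)) :
    ∃ s : V → K, F (ind (insert a ρ)) • u a + F (ind (insert b ρ)) • u b
      + ∑ v ∈ ρ, s v • u v = 0 := by
  have hΔρ : Δ ρ := hS.cpx.down _ _ hΔa (subset_insert a ρ)
  obtain ⟨a', b', hab', -, -, hall⟩ := ridge_two hS hu hΔρ h
  have hall' : ∀ v, v ∉ ρ → Δ (insert v ρ) → v = a ∨ v = b := by
    intro v hv hΔv
    have h1 := (hall v).1 ⟨hv, hΔv⟩
    have h2 := (hall a).1 ⟨ha, hΔa⟩
    have h3 := (hall b).1 ⟨hb, hΔb⟩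
    rcases h1 with rfl | rfl <;> rcases h2 with rfl | rfl <;> rcases h3 with rfl | rfl <;>
      simp_all
  have h1 : (1 : ℕ) + ρ.card = d := by omega
  have hG : (fun γ => F (γ + ind ρ)) ∈ Lm K K Δ u (ρ ∪ ∅) 1 :=
    shift_ind_mem hS.cpx (by rw [h1]; exact hF)
  refine ⟨fun v => F (e1 v + ind ρ), ?_⟩
  funext j
  have h2 := hG.2 j 0
  simp only [zero_add, smul_eq_mul] at h2
  have hzero : ∀ v, v ∉ insert a (insert b ρ) → u v j * F (e1 v + ind ρ) = 0 := by
    intro v hv
    simp only [mem_insert, not_or] at hv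
    obtain ⟨hva, hvb, hvρ⟩ := hv
    have h3 : F (e1 v + ind ρ) = 0 := by
      by_contra hne
      have h4 := (hF.1 _ hne).2
      rw [e1_add_ind hvρ, union_empty] at h4
      rw [supp_ind] at h4
      rcases hall' v hvρ h4 with h6 | h6
      · exact hva h6
      · exact hvb h6
    rw [h3, mul_zero]
  rw [← sum_subset (subset_univ (insert a (insert b ρ))) (fun v _ hv => hzero v hv),
    sum_insert (by simp [hab, ha]), sum_insert hb] at h2
  simp only [Pi.add_apply, Pi.smul_apply, smul_eq_mul, Finset.sum_apply, Pi.zero_apply]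
  rw [← e1_add_ind ha, ← e1_add_ind hb, ← h2]
  rw [mul_comm (u a j), mul_comm (u b j), add_assoc]
  congr 2
  exact sum_congr rfl fun v _ => mul_comm _ _

theorem exists_fund (hS : HomSphere K Δ d) (hu : Lsop K Δ u) :
    ∃ F : (V → ℕ) → K, IsFund K Δ u F := by
  classical
  have hΔ0 : Δ ∅ := hS.cpx.empty
  -- a nonzero stress
  obtain ⟨F, hF, hF0⟩ : ∃ F ∈ Lm K K Δ u ∅ d, F ≠ 0 := by
    have h1 := finrank_eq_coeff hS hu hΔ0 d
    rw [hpoly_coeff_top hS hu hΔ0 (i := d) (by simp)] at h1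
    have h2 : Lm K K Δ u ∅ d ≠ ⊥ := by
      intro h
      rw [h, finrank_bot] at h1
      simp at h1
    exact Submodule.exists_mem_ne_zero_of_ne_bot h2
  -- a maximal face with a nonzero shift
  have hface : ∀ ρ : Finset V, (fun γ => F (γ + ind ρ)) ≠ 0 → Δ ρ := by
    intro ρ hρ
    obtain ⟨γ, hγ⟩ := Function.ne_iff.1 hρ
    have h1 := (hF.1 _ hγ).2
    rw [supp_add_ind, union_empty] at h1
    exact hS.cpx.down _ _ h1 subset_union_right
  obtain ⟨ρ, hρ, hmax⟩ := Finset.exists_max_image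
    (univ.filter fun ρ : Finset V => (fun γ => F (γ + ind ρ)) ≠ 0) Finset.card
    ⟨∅, by
      rw [mem_filter]
      refine ⟨mem_univ _, ?_⟩
      have : (fun γ => F (γ + ind (∅ : Finset V))) = F := by
        funext γ
        have h0 : ind (∅ : Finset V) = 0 := by
          funext v
          simp [ind]
        rw [h0, add_zero]
      rw [this]
      exact hF0⟩
  rw [mem_filter] at hρ
  replace hρ := hρ.2
  have hΔρ := hface ρ hρ
  have hcard : ρ.card ≤ d := card_le hu hΔρ
  have hG : (fun γ => F (γ + ind ρ)) ∈ Lm K K Δ u (ρ ∪ ∅) (d - ρ.card) :=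
    shift_ind_mem hS.cpx (by rw [Nat.sub_add_cancel hcard]; exact hF)
  have hcd : ρ.card = d := by
    by_contra hne
    have hlt : ρ.card < d := lt_of_le_of_ne hcard hne
    -- shifts by vertices outside vanish
    have hout : ∀ w, w ∉ ρ → ∀ γ, F (γ + e1 w + ind ρ) = 0 := by
      intro w hw γ
      by_contra h0
      have h1 : (fun γ => F (γ + ind (insert w ρ))) ≠ 0 := by
        rw [Function.ne_iff]
        refine ⟨γ, ?_⟩
        rw [← e1_add_ind hw, ← add_assoc]
        exact h0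
      have h2 := hmax (insert w ρ) (by rw [mem_filter]; exact ⟨mem_univ _, h1⟩)
      rw [card_insert_of_notMem hw] at h2
      omega
    have hin : ∀ w, w ∈ ρ → ∀ γ, F (γ + e1 w + ind ρ) = 0 := by
      intro w hw γ
      have hli := hu ρ hΔρ
      rw [Fintype.linearIndependent_iff] at hli
      refine hli (fun v : ρ => F (γ + e1 (v : V) + ind ρ)) ?_ ⟨w, hw⟩
      funext j
      have h1 := hG.2 j γ
      simp only [smul_eq_mul] at h1
      rw [← sum_subset (subset_univ ρ) (fun v _ hv => by rw [hout v hv γ, mul_zero]),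
        ← Finset.sum_coe_sort ρ] at h1
      simp only [Finset.sum_apply, Pi.smul_apply, smul_eq_mul, Pi.zero_apply]
      rw [← h1]
      exact sum_congr rfl fun v _ => mul_comm _ _
    obtain ⟨γ, hγ⟩ := Function.ne_iff.1 hρ
    have h1 := (hG.1 γ hγ).1
    have h2 : ∃ v, γ v ≠ 0 := by
      by_contra hall
      push Not at hall
      rw [sum_eq_zero (fun v _ => hall v)] at h1
      omega
    obtain ⟨v, hv⟩ := h2
    have h3 : γ = (γ - e1 v) + e1 v := by
      funext w
      simp only [Pi.add_apply, Pi.sub_apply, e1]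
      by_cases hw : w = v
      · subst hw
        simp only [Pi.single_eq_same]
        omega
      · simp [Pi.single_eq_of_ne hw]
    apply hγ
    change F (γ + ind ρ) = 0
    rw [h3]
    by_cases hvρ : v ∈ ρ
    · exact hin v hvρ _
    · exact hout v hvρ _
  have hFρ : F (ind ρ) ≠ 0 := by
    obtain ⟨γ, hγ⟩ := Function.ne_iff.1 hρ
    have h1 := (hG.1 γ hγ).1
    rw [hcd, Nat.sub_self] at h1
    have h2 : γ = 0 := by
      funext v
      exact (Finset.sum_eq_zero_iff.1 h1) v (mem_univ v)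
    rw [h2] at hγ
    simpa using hγ
  refine ⟨F, hF, fun σ hσ hσd => ?_⟩
  refine facet_induction hS hu (fun σ => F (ind σ) ≠ 0) ?_ ρ σ hΔρ hcd hσ hσd hFρ
  intro ρ' a b hρ' ha hb hΔa hΔb hPa
  by_cases hab : a = b
  · rw [← hab]; exact hPa
  intro h0
  obtain ⟨s, hs⟩ := ridge_relation hS hu hF hρ' hab ha hb hΔa hΔb
  rw [h0, zero_smul, add_zero] at hs
  have hli := hu _ hΔa
  rw [Fintype.linearIndependent_iff] at hli
  have h1 := hli (fun v => if (v : V) = a then F (ind (insert a ρ')) else s v) ?_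
    ⟨a, mem_insert_self a ρ'⟩
  · simp only [if_true] at h1
    exact hPa h1
  · rw [Finset.sum_coe_sort (insert a ρ')
      (fun v => (if v = a then F (ind (insert a ρ')) else s v) • u v), sum_insert ha, if_pos rfl,
      ← hs]
    congr 1
    refine sum_congr rfl fun v hv => ?_
    have : v ≠ a := fun h => ha (h ▸ hv)
    rw [if_neg this]

end Pool.Agent.H53.CF
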