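import Pool.Agent.H53.CF.Defs3
import Pool.Agent.H53.CF.Fund

/-!
# helper53 CF module FANLSOP: first consequences of the fan property

* `lsop_of_fan`: a nontrivial relation `∑_{v ∈ τ} a_v u_v = 0` gives two representations
  `∑_{v ∈ τ} M u_v = ∑_{v ∈ τ} (M + a_v) u_v` with support `τ` for large `M`.
* `fund_pos`: at a ridge `F_a u_a + F_b u_b + ∑ s_v u_v = 0` (`ridge_relation`) with `F_a, F_b ≠ 0`.
  If `F_a > 0 > F_b`: `F_a u_a + ∑ (M + s_v) u_v = - F_b u_b + ∑ M u_v` are for large `M` two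
  different representations. So `F_a`, `F_b` have the same sign; `facet_induction`; replace `F` by
  `-F` if needed.
-/

namespace Pool.Agent.H53.CF

open Finset

variable {V : Type*} [Fintype V] [LinearOrder V]
variable {Δ : Finset V → Prop} {d : ℕ} {u : V → Fin d → ℝ}

/-- Two nonnegative representations supported on faces agree. -/
theorem fan_unique (hc : IsCpx Δ) (hF : CompleteFan Δ u) {σ σ' : Finset V} (hσ : Δ σ)
    (hσ' : Δ σ') {c c' : V → ℝ} (h0 : ∀ v, 0 ≤ c v) (h0' : ∀ v, 0 ≤ c' v)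
    (hs : ∀ v, v ∉ σ → c v = 0) (hs' : ∀ v, v ∉ σ' → c' v = 0)
    (h : ∑ v, c v • u v = ∑ v, c' v • u v) : c = c' := by
  obtain ⟨e, -, he⟩ := hF (∑ v, c' v • u v)
  have h1 := he c ⟨h0, hc.down σ _ hσ ?_, h⟩
  · have h2 := he c' ⟨h0', hc.down σ' _ hσ' ?_, rfl⟩
    · rw [h1, h2]
    · intro v hv
      rw [mem_filter] at hv
      by_contra hn
      exact hv.2 (hs' v hn)
  · intro v hv
    rw [mem_filter] at hv
    by_contra hn
    exact hv.2 (hs v hn)

theorem fan_relation (hc : IsCpx Δ) (hF : CompleteFan Δ u) {τ : Finset V} (hτ : Δ τ)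
    (a : V → ℝ) (h : ∑ v ∈ τ, a v • u v = 0) : ∀ v ∈ τ, a v = 0 := by
  set M : ℝ := ∑ v, |a v| with hM
  have hMa : ∀ v, |a v| ≤ M := fun v =>
    single_le_sum (f := fun v => |a v|) (fun w _ => abs_nonneg (a w)) (mem_univ v)
  have hM0 : 0 ≤ M := sum_nonneg fun w _ => abs_nonneg (a w)
  have key : (fun v => if v ∈ τ then M + a v else 0) = (fun v => if v ∈ τ then M else 0) := by
    refine fan_unique hc hF hτ hτ (fun v => ?_) (fun v => ?_) (fun v hv => if_neg hv)
      (fun v hv => if_neg hv) ?_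
    · split_ifs
      · have := hMa v
        have := neg_abs_le (a v)
        linarith
      · exact le_rfl
    · split_ifs
      · exact hM0
      · exact le_rfl
    · have h1 : ∀ v, (if v ∈ τ then M + a v else 0) • u v =
          (if v ∈ τ then M else 0) • u v + if v ∈ τ then a v • u v else 0 := by
        intro v
        split_ifs
        · rw [add_smul]
        · simp
      rw [sum_congr rfl fun v _ => h1 v, sum_add_distrib, sum_ite_mem, univ_inter, h, add_zero]
  intro v hv
  have := congrFun key v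
  simp only [if_pos hv] at this
  linarith

theorem lsop_of_fan (hc : IsCpx Δ) (hF : CompleteFan Δ u) : Lsop ℝ Δ u := by
  intro τ hτ
  rw [Fintype.linearIndependent_iff]
  intro g hg i
  have h1 := fan_relation hc hF hτ (fun v => if h : v ∈ τ then g ⟨v, h⟩ else 0) ?_ i i.2
  · simpa using h1
  · rw [← hg, ← Finset.sum_coe_sort τ]
    refine sum_congr rfl fun v _ => ?_
    simp

theorem ridge_same_sign (hS : HomSphere ℝ Δ d) (hF : CompleteFan Δ u) {F : (V → ℕ) → ℝ}
    (hFu : IsFund ℝ Δ u F) {ρ : Finset V} {a b : V} (h : ρ.card + 1 = d) (hab : a ≠ b)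
    (ha : a ∉ ρ) (hb : b ∉ ρ) (hΔa : Δ (insert a ρ)) (hΔb : Δ (insert b ρ))
    (hpos : 0 < F (ind (insert a ρ))) : 0 < F (ind (insert b ρ)) := by
  have hne : F (ind (insert b ρ)) ≠ 0 := by
    apply hFu.ne _ hΔb
    rw [card_insert_of_notMem hb]
    exact h
  by_contra hle
  have hneg : F (ind (insert b ρ)) < 0 := lt_of_le_of_ne (not_lt.1 hle) hne
  obtain ⟨s, hs⟩ := ridge_relation hS (lsop_of_fan hS.cpx hF) hFu.mem h hab ha hb hΔa hΔb
  set Fa := F (ind (insert a ρ)) with hFa
  set Fb := F (ind (insert b ρ)) with hFb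
  set M : ℝ := ∑ v, |s v| with hM
  have hMa : ∀ v, |s v| ≤ M := fun v =>
    single_le_sum (f := fun v => |s v|) (fun w _ => abs_nonneg (s w)) (mem_univ v)
  have hM0 : 0 ≤ M := sum_nonneg fun w _ => abs_nonneg (s w)
  have key : (fun v => (if v = a then Fa else 0) + (if v ∈ ρ then M + s v else 0)) =
      (fun v => (if v = b then -Fb else 0) + (if v ∈ ρ then M else 0)) := by
    refine fan_unique hS.cpx hF hΔa hΔb (fun v => ?_) (fun v => ?_) (fun v hv => ?_)
      (fun v hv => ?_) ?_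
    · refine add_nonneg ?_ ?_
      · split_ifs
        · exact hpos.le
        · exact le_rfl
      · split_ifs
        · have := hMa v
          have := neg_abs_le (s v)
          linarith
        · exact le_rfl
    · refine add_nonneg ?_ ?_
      · split_ifs
        · linarith
        · exact le_rfl
      · split_ifs
        · exact hM0
        · exact le_rfl
    · rw [mem_insert, not_or] at hv
      rw [if_neg hv.1, if_neg hv.2, add_zero]
    · rw [mem_insert, not_or] at hv
      rw [if_neg hv.1, if_neg hv.2, add_zero]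
    · simp only [add_smul, sum_add_distrib, ite_smul, zero_smul, sum_ite_eq', mem_univ, if_true,
        sum_ite_mem, univ_inter]
      rw [neg_smul]
      have h2 : Fa • u a = -(Fb • u b) - ∑ v ∈ ρ, s v • u v := by
        rw [← sub_eq_zero, ← hs]
        abel
      rw [h2]
      abel
  have h3 := congrFun key a
  simp only [if_true, if_neg ha, if_neg hab, add_zero] at h3
  exact hpos.ne' h3

theorem fund_pos (hS : HomSphere ℝ Δ d) (hF : CompleteFan Δ u) :
    ∃ F : (V → ℕ) → ℝ, IsFund ℝ Δ u F ∧ ∀ σ, Δ σ → σ.card = d → 0 < F (ind σ) := by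
  have hu : Lsop ℝ Δ u := lsop_of_fan hS.cpx hF
  obtain ⟨F, hFu⟩ := exists_fund hS hu
  obtain ⟨σ₀, hσ₀, -, hσ₀d⟩ := exists_facet hS hu hS.cpx.empty
  have main : ∀ F : (V → ℕ) → ℝ, IsFund ℝ Δ u F → 0 < F (ind σ₀) →
      ∀ σ, Δ σ → σ.card = d → 0 < F (ind σ) := by
    intro F hFu hpos σ hσ hσd
    refine facet_induction hS hu (fun σ => 0 < F (ind σ)) ?_ σ₀ σ hσ₀ hσ₀d hσ hσd hpos
    intro ρ a b hρ ha hb hΔa hΔb hPa
    by_cases hab : a = b
    · rw [← hab]; exact hPa
    exact ridge_same_sign hS hF hFu hρ hab ha hb hΔa hΔb hPa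
  rcases lt_or_gt_of_ne (hFu.ne σ₀ hσ₀ hσ₀d) with h | h
  · have hFu' : IsFund ℝ Δ u (-F) :=
      ⟨Submodule.neg_mem _ hFu.mem, fun σ hσ hσd => by
        rw [Pi.neg_apply]
        exact neg_ne_zero.2 (hFu.ne σ hσ hσd)⟩
    exact ⟨-F, hFu', main (-F) hFu' (by rw [Pi.neg_apply]; linarith)⟩
  · exact ⟨F, hFu, main F hFu h⟩

end Pool.Agent.H53.CF
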