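import Pool.Agent.H53.CF.Main

/-!
# helper53 CF module FINAL: the inequality in terms of `omega`
-/

namespace Pool.Agent.H53.CF

open Finset

variable {V : Type*} [Fintype V] [LinearOrder V]

open Classical in
/-- `omega Δ = ∑ (-1/2)^|σ|` over the faces `σ` of `Δ` (the empty face included). -/
noncomputable def omega (Δ : Finset V → Prop) : ℚ :=
  ∑ σ ∈ univ.filter (fun σ => Δ σ), (-1 / 2 : ℚ) ^ σ.card

theorem omega_eq {n : ℕ} {Δ : Finset V → Prop} (hcard : ∀ σ, Δ σ → σ.card ≤ 2 * n) :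
    (2 : ℚ) ^ (2 * n) * omega Δ =
      ((∑ ρ ∈ lkF Δ ∅, (-1 : ℤ) ^ ρ.card * 2 ^ (2 * n - ρ.card) : ℤ) : ℚ) := by
  classical
  unfold omega lkF
  rw [Finset.mul_sum]
  push_cast
  have h1 : (univ.filter (fun ρ : Finset V => Disjoint ρ ∅ ∧ Δ (ρ ∪ ∅)))
      = univ.filter (fun σ => Δ σ) := by
    ext ρ
    simp
  have h2 : ∀ s : Finset (Finset V), s = univ.filter (fun σ => Δ σ) →
      ∑ ρ ∈ s, (-1 : ℚ) ^ ρ.card * 2 ^ (2 * n - ρ.card)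
      = ∑ ρ ∈ univ.filter (fun σ => Δ σ), (-1 : ℚ) ^ ρ.card * 2 ^ (2 * n - ρ.card) := by
    intro s hs
    rw [hs]
  rw [h2 _ (by convert h1)]
  refine Finset.sum_congr rfl (fun σ hσ => ?_)
  have hc := hcard σ (Finset.mem_filter.1 hσ).2
  have h3 : (2 : ℚ) ^ (2 * n) = 2 ^ (2 * n - σ.card) * 2 ^ σ.card := by
    rw [← pow_add, Nat.sub_add_cancel hc]
  rw [h3, div_pow]
  field_simp

theorem main_omega {n N : ℕ} {Δ : Finset V → Prop} {u : V → Fin (2 * n) → ℝ} {y : Fin N → V → ℝ}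
    {p : V → Fin (2 * n) → ℝ} (hS : HomSphere ℝ Δ (2 * n)) (hfan : CompleteFan Δ u)
    (hW : Weights Δ u y p) : 0 ≤ (-1 : ℚ) ^ n * omega Δ := by
  have h := main hS hfan hW
  have hu : Lsop ℝ Δ u := lsop_of_fan hS.cpx hfan
  have h1 := omega_eq (n := n) (Δ := Δ) (fun σ hσ => card_le hu hσ)
  have h2 : (0 : ℚ) ≤ (((-1 : ℤ) ^ n * ∑ ρ ∈ lkF Δ ∅, (-1 : ℤ) ^ ρ.card * 2 ^ (2 * n - ρ.card) : ℤ) : ℚ) := by
    exact_mod_cast h
  rw [Int.cast_mul, ← h1] at h2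
  push_cast at h2
  have h3 : (0 : ℚ) < 2 ^ (2 * n) := by positivity
  have h4 : (-1 : ℚ) ^ n * (2 ^ (2 * n) * omega Δ) = 2 ^ (2 * n) * ((-1 : ℚ) ^ n * omega Δ) := by
    ring
  rw [h4] at h2
  exact nonneg_of_mul_nonneg_right h2 h3

end Pool.Agent.H53.CF
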