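import Pool.Agent.H53.CF.Dim

/-!
# helper53 CF module HPOLY: the h-polynomial

`H(z) = ∑_i dim L_i z^i = (1 - z)^d ∑_j cnt τ j z^j` (power series), and
`∑_j cnt τ j z^j = ∑_{ρ : Δ (ρ ∪ τ)} (z / (1 - z))^|ρ|` (sort the monomials by support `ρ`: the
monomials with support exactly `ρ` and degree `j` number `(j - 1 choose |ρ| - 1)`), so
`H = ∑_{ρ : Δ (ρ ∪ τ)} z^|ρ| (1 - z)^(d - |ρ|)`; write `ρ = ρ₁ ∪ ρ₂`, `ρ₁` in the link of `τ`,
`ρ₂ ⊆ τ`; `∑_{ρ₂ ⊆ τ} z^|ρ₂| (1 - z)^(|τ| - |ρ₂|) = 1`. All `|ρ| ≤ d` by `card_le`.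
(Any other proof of the identity is fine.)
-/

namespace Pool.Agent.H53.CF

open Finset Module Polynomial

variable {V : Type*} [Fintype V] [LinearOrder V]
variable {K : Type*} [Field K] {Δ : Finset V → Prop} {d : ℕ} {u : V → Fin d → K}

/-- The h-polynomial of the link of `τ`. -/
noncomputable def hpoly (Δ : Finset V → Prop) (d : ℕ) (τ : Finset V) : Polynomial ℤ :=
  ∑ ρ ∈ lkF Δ τ, X ^ ρ.card * (1 - X) ^ (d - τ.card - ρ.card)

/-- Coefficients of `(1 - X)^d`. -/
private theorem coeff_one_sub_pow (d q : ℕ) :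
    ((1 - X : Polynomial ℤ) ^ d).coeff q = (-1) ^ q * (d.choose q : ℤ) := by
  have h1 : (1 - X : Polynomial ℤ) = (1 + X : Polynomial ℤ).comp (C (-1) * X) := by
    simp [sub_eq_add_neg]
  have h2 : ((1 - X : Polynomial ℤ) ^ d) = ((1 + X : Polynomial ℤ) ^ d).comp (C (-1) * X) := by
    rw [h1, pow_comp]
  rw [h2, comp_C_mul_X_coeff, coeff_one_add_X_pow, mul_comm]

private theorem mem_lk {τ ρ : Finset V} : ρ ∈ lkF Δ τ ↔ Disjoint ρ τ ∧ Δ (ρ ∪ τ) := by
  classical
  simp [lkF]

open Classical in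
/-- Number of monomials of degree `n` with support exactly `ρ`. -/
private noncomputable def cs (ρ : Finset V) (n : ℕ) : ℕ :=
  ((Finset.piAntidiag (univ : Finset V) n).filter (fun α => supp α = ρ)).card

private theorem cs_eq (ρ : Finset V) (n : ℕ) :
    (cs ρ n : ℤ) = PowerSeries.coeff n
      (∏ _v ∈ ρ, ((PowerSeries.X : PowerSeries ℤ) * PowerSeries.mk 1)) := by
  classical
  rw [PowerSeries.coeff_prod]
  have h1 : ∀ l ∈ finsuppAntidiag ρ n, (∏ i ∈ ρ, PowerSeries.coeff (l i)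
      ((PowerSeries.X : PowerSeries ℤ) * PowerSeries.mk 1)) =
      if (∀ i ∈ ρ, l i ≠ 0) then 1 else 0 := by
    intro l _
    have h2 : ∀ m : ℕ, PowerSeries.coeff m ((PowerSeries.X : PowerSeries ℤ) * PowerSeries.mk 1)
        = if m ≠ 0 then 1 else 0 := by
      intro m
      cases m with
      | zero => simp
      | succ m => simp [PowerSeries.coeff_succ_X_mul]
    simp only [h2]
    split_ifs with h
    · exact Finset.prod_eq_one (fun i hi => by simp [h i hi])
    · push Not at h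
      obtain ⟨i, hi, h0⟩ := h
      exact Finset.prod_eq_zero hi (by simp [h0])
  rw [Finset.sum_congr rfl h1, Finset.sum_boole]
  norm_cast
  unfold cs
  symm
  refine Finset.card_bij (fun l _ => (l : V → ℕ)) ?_ ?_ ?_
  · intro l hl
    simp only [mem_filter, mem_finsuppAntidiag, mem_piAntidiag] at hl ⊢
    obtain ⟨⟨h1, h2⟩, h3⟩ := hl
    refine ⟨⟨?_, fun i _ => mem_univ i⟩, ?_⟩
    · rw [← h1]
      symm
      apply Finset.sum_subset (subset_univ _)
      intro x _ hx
      by_contra hne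
      exact hx (h2 (by simpa using hne))
    · ext v
      simp only [supp, mem_filter, mem_univ, true_and]
      constructor
      · intro hv
        exact h2 (by simpa using hv)
      · intro hv
        exact h3 v hv
  · intro a _ b _ hab
    exact DFunLike.coe_injective hab
  · intro α hα
    simp only [mem_filter, mem_piAntidiag] at hα
    obtain ⟨⟨h1, _⟩, h3⟩ := hα
    refine ⟨Finsupp.equivFunOnFinite.symm α, ?_, ?_⟩
    · simp only [mem_filter, mem_finsuppAntidiag]
      have hz : ∀ x, x ∉ ρ → α x = 0 := by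
        intro x hx
        by_contra hne
        apply hx
        rw [← h3]
        simp [supp, hne]
      refine ⟨⟨?_, ?_⟩, ?_⟩
      · rw [← h1]
        apply Finset.sum_subset (subset_univ _)
        intro x _ hx
        simpa using hz x hx
      · intro x hx
        by_contra hne
        have := hz x hne
        simp [this] at hx
      · intro i hi
        rw [← h3] at hi
        simpa [supp] using hi
    · rfl

open Classical in
/-- The faces of the star of `τ`. -/
private noncomputable def stF (Δ : Finset V → Prop) (τ : Finset V) : Finset (Finset V) :=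
  univ.filter (fun ρ => Δ (ρ ∪ τ))

private theorem mem_st {τ ρ : Finset V} : ρ ∈ stF Δ τ ↔ Δ (ρ ∪ τ) := by
  classical
  simp [stF]

/-- The generating function of the monomials. -/
private theorem gen_eq (Δ : Finset V → Prop) (τ : Finset V) :
    (PowerSeries.mk (fun j => (cnt Δ τ j : ℤ))) =
      ∑ ρ ∈ stF Δ τ, ((PowerSeries.X : PowerSeries ℤ) * PowerSeries.mk 1) ^ ρ.card := by
  classical
  ext n
  rw [PowerSeries.coeff_mk, map_sum]
  have h1 : ∀ ρ ∈ stF Δ τ, PowerSeries.coeff n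
      (((PowerSeries.X : PowerSeries ℤ) * PowerSeries.mk 1) ^ ρ.card) = (cs ρ n : ℤ) := by
    intro ρ _
    rw [cs_eq, Finset.prod_const]
  rw [Finset.sum_congr rfl h1]
  have h2 : cnt Δ τ n = ∑ ρ ∈ stF Δ τ, cs ρ n := by
    unfold cnt cs
    rw [Finset.card_eq_sum_card_fiberwise (f := fun α : V → ℕ => supp α) (t := stF Δ τ)]
    · refine Finset.sum_congr rfl (fun ρ hρ => ?_)
      congr 1
      ext α
      simp only [mem_filter]
      constructor
      · rintro ⟨⟨h, _⟩, h'⟩
        exact ⟨h, h'⟩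
      · rintro ⟨h, h'⟩
        exact ⟨⟨h, by rw [h']; exact mem_st.1 hρ⟩, h'⟩
    · intro α hα
      have : α ∈ (Finset.piAntidiag (univ : Finset V) n).filter (fun α => Δ (supp α ∪ τ)) := hα
      rw [mem_filter] at this
      exact mem_st.2 this.2
  rw [h2]
  push_cast
  rfl

/-- Sort the faces of the star by their intersection with `τ`. -/
private theorem star_sum (_hS : HomSphere K Δ d) (hu : Lsop K Δ u) {τ : Finset V} :
    ∑ ρ ∈ stF Δ τ, (X : Polynomial ℤ) ^ ρ.card * (1 - X) ^ (d - ρ.card) = hpoly Δ d τ := by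
  classical
  unfold hpoly
  have h0 : ∀ ρ ∈ lkF Δ τ, (X : Polynomial ℤ) ^ ρ.card * (1 - X) ^ (d - τ.card - ρ.card) =
      ∑ η ∈ τ.powerset, (X : Polynomial ℤ) ^ (ρ ∪ η).card * (1 - X) ^ (d - (ρ ∪ η).card) := by
    intro ρ hρ
    obtain ⟨hd, hΔ⟩ := mem_lk.1 hρ
    have hc := card_le hu hΔ
    rw [card_union_of_disjoint hd] at hc
    have h1 : ∀ η ∈ τ.powerset, (X : Polynomial ℤ) ^ (ρ ∪ η).card * (1 - X) ^ (d - (ρ ∪ η).card)
        = (X ^ ρ.card * (1 - X) ^ (d - τ.card - ρ.card)) *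
          (X ^ η.card * (1 - X) ^ (τ.card - η.card)) := by
      intro η hη
      have hη' := mem_powerset.1 hη
      have hle := card_le_card hη'
      rw [card_union_of_disjoint (disjoint_of_subset_right hη' hd)]
      have he : d - (ρ.card + η.card) = (d - τ.card - ρ.card) + (τ.card - η.card) := by omega
      rw [he, pow_add, pow_add]
      ring
    rw [Finset.sum_congr rfl h1, ← Finset.mul_sum, Finset.sum_pow_mul_eq_add_pow]
    simp
  rw [Finset.sum_congr rfl h0, ← Finset.sum_product']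
  symm
  refine Finset.sum_bij' (fun p _ => p.1 ∪ p.2) (fun ρ _ => (ρ \ τ, ρ ∩ τ)) ?_ ?_ ?_ ?_ ?_
  · rintro ⟨ρ, η⟩ h
    rw [mem_product, mem_lk, mem_powerset] at h
    rw [mem_st]
    obtain ⟨⟨_, h1⟩, h2⟩ := h
    dsimp only at h1 h2 ⊢
    rw [union_assoc, union_eq_right.2 h2]
    exact h1
  · intro ρ h
    rw [mem_st] at h
    rw [mem_product, mem_lk, mem_powerset]
    refine ⟨⟨disjoint_sdiff_self_left, ?_⟩, inter_subset_right⟩
    dsimp only
    rw [sdiff_union_self_eq_union]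
    exact h
  · rintro ⟨ρ, η⟩ h
    rw [mem_product, mem_lk, mem_powerset] at h
    obtain ⟨⟨h0, h1⟩, h2⟩ := h
    dsimp only at h0 h1 h2 ⊢
    ext1
    · dsimp only
      rw [union_sdiff_distrib, sdiff_eq_self_of_disjoint h0, sdiff_eq_empty_iff_subset.2 h2,
        union_empty]
    · dsimp only
      rw [union_inter_distrib_right, disjoint_iff_inter_eq_empty.1 h0, inter_eq_left.2 h2,
        empty_union]
  · intro ρ _
    dsimp only
    exact sdiff_union_inter ρ τ
  · rintro ⟨ρ, η⟩ _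
    rfl

private theorem ps_eq (hS : HomSphere K Δ d) (hu : Lsop K Δ u) (τ : Finset V) :
    ((1 - PowerSeries.X : PowerSeries ℤ)) ^ d * PowerSeries.mk (fun j => (cnt Δ τ j : ℤ)) =
      ((hpoly Δ d τ : Polynomial ℤ) : PowerSeries ℤ) := by
  classical
  rw [gen_eq, Finset.mul_sum, ← star_sum hS hu]
  rw [← Polynomial.coeToPowerSeries.ringHom_apply, map_sum]
  refine Finset.sum_congr rfl (fun ρ hρ => ?_)
  have hΔ : Δ ρ := hS.cpx.down _ _ (mem_st.1 hρ) subset_union_left
  have hc := card_le hu hΔ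
  rw [map_mul, map_pow, map_pow, map_sub, map_one, Polynomial.coeToPowerSeries.ringHom_apply,
    Polynomial.coe_X]
  have h1 : (1 - PowerSeries.X : PowerSeries ℤ) * PowerSeries.mk 1 = 1 := by
    rw [mul_comm]
    exact PowerSeries.mk_one_mul_one_sub_eq_one ℤ
  have h2 : (1 - PowerSeries.X : PowerSeries ℤ) ^ d =
      (1 - PowerSeries.X) ^ (d - ρ.card) * (1 - PowerSeries.X) ^ ρ.card := by
    rw [← pow_add]
    congr 1
    omega
  calc (1 - PowerSeries.X : PowerSeries ℤ) ^ d * (PowerSeries.X * PowerSeries.mk 1) ^ ρ.card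
      = PowerSeries.X ^ ρ.card * (1 - PowerSeries.X) ^ (d - ρ.card) *
        ((1 - PowerSeries.X : PowerSeries ℤ) * PowerSeries.mk 1) ^ ρ.card := by
        rw [h2, mul_pow, mul_pow]
        ring
    _ = PowerSeries.X ^ ρ.card * (1 - PowerSeries.X) ^ (d - ρ.card) := by
        rw [h1, one_pow, mul_one]

theorem finrank_eq_coeff (hS : HomSphere K Δ d) (hu : Lsop K Δ u) {τ : Finset V} (hτ : Δ τ)
    (i : ℕ) : (finrank K (Lm K K Δ u τ i) : ℤ) = (hpoly Δ d τ).coeff i := by
  rw [finrank_Lm hS hu hτ i, ← Polynomial.coeff_coe, ← ps_eq hS hu τ, PowerSeries.coeff_mul,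
    Finset.Nat.sum_antidiagonal_eq_sum_range_succ_mk]
  refine Finset.sum_congr rfl (fun q _ => ?_)
  have h1 : (1 - PowerSeries.X : PowerSeries ℤ) ^ d =
      (((1 - X : Polynomial ℤ) ^ d : Polynomial ℤ) : PowerSeries ℤ) := by
    simp
  rw [h1, Polynomial.coeff_coe, coeff_one_sub_pow, PowerSeries.coeff_mk]

private theorem lk_card (hu : Lsop K Δ u) {τ ρ : Finset V} (h : ρ ∈ lkF Δ τ) :
    ρ.card + τ.card ≤ d := by
  obtain ⟨hd, hΔ⟩ := mem_lk.1 h
  have hc := card_le hu hΔ
  rwa [card_union_of_disjoint hd] at hc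

/-- The degree of the h-polynomial is at most the rank `d - |τ|`. -/
theorem hpoly_coeff_gt (hS : HomSphere K Δ d) (hu : Lsop K Δ u) {τ : Finset V} (hτ : Δ τ)
    {i : ℕ} (hi : d < i + τ.card) : (hpoly Δ d τ).coeff i = 0 := by
  unfold hpoly
  rw [finsetSum_coeff]
  refine Finset.sum_eq_zero (fun ρ hρ => ?_)
  have hc := lk_card hu hρ
  rw [coeff_X_pow_mul']
  split_ifs with h
  · rw [coeff_one_sub_pow, Nat.choose_eq_zero_of_lt (by omega)]
    simp
  · rfl

/-- Top coefficient `1`, from the Euler characteristic: `∑_ρ (-1)^(r - |ρ|) = 1`. -/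
theorem hpoly_coeff_top (hS : HomSphere K Δ d) (hu : Lsop K Δ u) {τ : Finset V} (hτ : Δ τ)
    {i : ℕ} (hi : i + τ.card = d) : (hpoly Δ d τ).coeff i = 1 := by
  unfold hpoly
  rw [finsetSum_coeff]
  have h1 : ∀ ρ ∈ lkF Δ τ, ((X : Polynomial ℤ) ^ ρ.card *
      (1 - X) ^ (d - τ.card - ρ.card)).coeff i = (-1) ^ (d - τ.card) * (-1) ^ ρ.card := by
    intro ρ hρ
    have hc := lk_card hu hρ
    rw [coeff_X_pow_mul', if_pos (by omega), coeff_one_sub_pow]
    have h2 : i - ρ.card = d - τ.card - ρ.card := by omega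
    rw [h2, Nat.choose_self, Nat.cast_one, mul_one]
    have h3 : d - τ.card = (d - τ.card - ρ.card) + ρ.card := by omega
    conv_rhs => rw [h3, pow_add]
    rw [mul_assoc, ← mul_pow]
    norm_num
  rw [Finset.sum_congr rfl h1, ← Finset.mul_sum, hS.euler τ hτ, ← mul_pow]
  norm_num

theorem hpoly_eval_neg_one (hS : HomSphere K Δ d) (hu : Lsop K Δ u) {τ : Finset V} (hτ : Δ τ) :
    (hpoly Δ d τ).eval (-1) =
      ∑ ρ ∈ lkF Δ τ, (-1 : ℤ) ^ ρ.card * 2 ^ (d - τ.card - ρ.card) := by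
  unfold hpoly
  rw [eval_finsetSum]
  refine Finset.sum_congr rfl (fun ρ _ => ?_)
  simp only [eval_mul, eval_pow, eval_X, eval_sub, eval_one]
  norm_num

end Pool.Agent.H53.CF
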