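import Pool.Agent.H53.CF.Rank

/-!
# helper53 CF module INEQ: the Charney-Davis inequality from exactness below the middle

`d = 2 n`, `h_i = finrank L_i(∅)` (scalar). `R = ∑_{j<n} (-1)^j h_(n-1-j)`. The rank of
`D : L_n(U) → L_(n-1)(U)` is `dim U * R` (`finrank_map`, `k = n`), equal to the rank of
`D : L_(n+1) → L_n` (`finrank_map_dual`, `i = j = n`), whose image is contained in the kernel of
`D` on `L_n` (`D D = 0`). So `2 dim U * R ≤ dim U * h_n`. With `h_i = h_(2n-i)`: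
`(-1)^n ∑_i (-1)^i h_i = h_n - 2 R ≥ 0`, and `∑_i (-1)^i h_i = hpoly(-1) = ∑_ρ (-1)^|ρ| 2^(d-|ρ|)`.
-/

namespace Pool.Agent.H53.CF

open Finset Module

variable {V : Type*} [Fintype V] [LinearOrder V]
variable {K : Type*} [Field K] {U : Type*} [AddCommGroup U] [Module K U]
variable {Δ : Finset V → Prop} {n : ℕ} {u : V → Fin (2 * n) → K}

/-- an isotropic image: twice the rank is at most the dimension -/
private theorem two_rank_le {M : Type*} [AddCommGroup M] [Module K M]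
    (f : M →ₗ[K] M) (p q : Submodule K M) [Module.Finite K p] (hq : q ≤ p)
    (hq0 : ∀ x ∈ q, f x = 0) :
    finrank K (Submodule.map f p) + finrank K q ≤ finrank K p := by
  have h1 := LinearMap.finrank_range_add_finrank_ker (f.domRestrict p)
  rw [LinearMap.range_domRestrict] at h1
  rw [← h1]
  refine Nat.add_le_add_left ?_ _
  have h2 : q ≤ Submodule.map p.subtype (LinearMap.ker (f.domRestrict p)) := by
    intro x hx
    exact ⟨⟨x, hq hx⟩, hq0 x hx, rfl⟩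
  have h3 := Submodule.finrank_mono h2
  rwa [LinearEquiv.finrank_eq (Submodule.equivMapOfInjective _ p.subtype_injective _).symm] at h3

/-- the alternating sum of a symmetric sequence of length `2 n + 1` -/
private theorem alt_sum (n : ℕ) (h : ℕ → ℤ) (hs : ∀ i, i ≤ 2 * n → h (2 * n - i) = h i) :
    (-1 : ℤ) ^ n * ∑ i ∈ range (2 * n + 1), (-1 : ℤ) ^ i * h i =
      h n - 2 * ∑ j ∈ range n, (-1 : ℤ) ^ j * h (n - 1 - j) := by
  have e1 : ∑ i ∈ range (2 * n + 1), (-1 : ℤ) ^ i * h i =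
      ∑ i ∈ range n, (-1 : ℤ) ^ i * h i + (-1 : ℤ) ^ n * h n +
        ∑ i ∈ range n, (-1 : ℤ) ^ (n + 1 + i) * h (n + 1 + i) := by
    have : 2 * n + 1 = (n + 1) + n := by omega
    rw [this, Finset.sum_range_add, Finset.sum_range_succ]
  have e2 : ∑ i ∈ range n, (-1 : ℤ) ^ (n + 1 + i) * h (n + 1 + i) =
      ∑ i ∈ range n, (-1 : ℤ) ^ i * h i := by
    rw [← Finset.sum_range_reflect]
    refine Finset.sum_congr rfl (fun i hi => ?_)
    have hi' : i < n := Finset.mem_range.1 hi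
    have e3 : n + 1 + (n - 1 - i) = 2 * n - i := by omega
    rw [e3, hs i (by omega)]
    congr 1
    have e4 : (-1 : ℤ) ^ (2 * n - i) * (-1 : ℤ) ^ i = 1 := by
      rw [← pow_add, Nat.sub_add_cancel (by omega), pow_mul]
      norm_num
    have e5 : (-1 : ℤ) ^ i * (-1 : ℤ) ^ i = 1 := by
      rw [← mul_pow]
      norm_num
    calc (-1 : ℤ) ^ (2 * n - i) = (-1 : ℤ) ^ (2 * n - i) * ((-1 : ℤ) ^ i * (-1 : ℤ) ^ i) := by
          rw [e5, mul_one]
      _ = ((-1 : ℤ) ^ (2 * n - i) * (-1 : ℤ) ^ i) * (-1 : ℤ) ^ i := by ring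
      _ = (-1 : ℤ) ^ i := by rw [e4, one_mul]
  have e6 : ∑ i ∈ range n, (-1 : ℤ) ^ n * ((-1 : ℤ) ^ i * h i) =
      - ∑ j ∈ range n, (-1 : ℤ) ^ j * h (n - 1 - j) := by
    rw [← Finset.sum_range_reflect, ← Finset.sum_neg_distrib]
    refine Finset.sum_congr rfl (fun i hi => ?_)
    have hi' : i < n := Finset.mem_range.1 hi
    have e7 : (-1 : ℤ) ^ n * (-1 : ℤ) ^ (n - 1 - i) = - (-1 : ℤ) ^ i := by
      have e8 : (-1 : ℤ) ^ n = (-1 : ℤ) ^ (n - 1 - i) * (-1 : ℤ) ^ (i + 1) := by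
        rw [← pow_add]
        congr 1
        omega
      have e9 : (-1 : ℤ) ^ (n - 1 - i) * (-1 : ℤ) ^ (n - 1 - i) = 1 := by
        rw [← mul_pow]
        norm_num
      rw [e8]
      calc (-1 : ℤ) ^ (n - 1 - i) * (-1 : ℤ) ^ (i + 1) * (-1 : ℤ) ^ (n - 1 - i)
          = ((-1 : ℤ) ^ (n - 1 - i) * (-1 : ℤ) ^ (n - 1 - i)) * (-1 : ℤ) ^ (i + 1) := by ring
        _ = - (-1 : ℤ) ^ i := by rw [e9, pow_succ]; ring
    rw [← mul_assoc, e7]
    ring
  have e10 : (-1 : ℤ) ^ n * (-1 : ℤ) ^ n = 1 := by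
    rw [← mul_pow]
    norm_num
  rw [e1, e2]
  have e11 : (-1 : ℤ) ^ n * ∑ i ∈ range n, (-1 : ℤ) ^ i * h i =
      - ∑ j ∈ range n, (-1 : ℤ) ^ j * h (n - 1 - j) := by
    rw [Finset.mul_sum, e6]
  rw [mul_add, mul_add, e11, ← mul_assoc, e10]
  ring

theorem ineq_of_EX [Module.Finite K U] [Nontrivial U] (hS : HomSphere K Δ (2 * n))
    (hu : Lsop K Δ u)
    {B : LinearMap.BilinForm K U} {A : V → U →ₗ[K] U} (hD : IsDirac Δ u B A)
    (hEX : EX Δ u A ∅) :
    0 ≤ (-1 : ℤ) ^ n * ∑ ρ ∈ lkF Δ ∅, (-1 : ℤ) ^ ρ.card * 2 ^ (2 * n - ρ.card) := by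
  obtain ⟨F, hF⟩ := exists_fund hS hu
  have h0 : Δ ∅ := hS.cpx.empty
  have hfin := finite_Lm (K := K) (W := U) (Δ := Δ) (u := u) ∅ n
  -- the rank
  have hr1 := finrank_map hS hu hD.sq h0 hEX (k := n) (by simp)
  have hr2 := finrank_map_dual hS hu hF hD h0 (i := n) (j := n) (by simp; omega)
  have hr3 := two_rank_le (Dop K U A) (Lm K U Δ u ∅ n)
    (Submodule.map (Dop K U A) (Lm K U Δ u ∅ (n + 1)))
    (by
      rintro _ ⟨f, hf, rfl⟩
      exact Dop_mem_Lm hS.cpx A hf)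
    (by
      rintro _ ⟨f, hf, rfl⟩
      exact hD.sq (n + 1) f hf)
  rw [hr2, finrank_LmU] at hr3
  set h : ℕ → ℤ := fun i => (finrank K (Lm K K Δ u ∅ i) : ℤ) with hh
  have hr4 : (finrank K (Submodule.map (Dop K U A) (Lm K U Δ u ∅ n)) : ℤ) =
      (finrank K U : ℤ) * ∑ j ∈ range n, (-1 : ℤ) ^ j * h (n - 1 - j) := by
    rw [hr1, Finset.mul_sum]
    refine Finset.sum_congr rfl (fun j _ => ?_)
    rw [finrank_LmU, hh]
    push_cast
    ring
  have hr5 : (finrank K (Submodule.map (Dop K U A) (Lm K U Δ u ∅ n)) : ℤ) +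
      (finrank K (Submodule.map (Dop K U A) (Lm K U Δ u ∅ n)) : ℤ) ≤
      (finrank K U : ℤ) * h n := by
    change _ ≤ (finrank K U : ℤ) * (finrank K (Lm K K Δ u ∅ n) : ℤ)
    exact_mod_cast hr3
  rw [hr4] at hr5
  have hpos : (0 : ℤ) < (finrank K U : ℤ) := by
    exact_mod_cast Module.finrank_pos
  have hr6 : 0 ≤ h n - 2 * ∑ j ∈ range n, (-1 : ℤ) ^ j * h (n - 1 - j) := by
    have : 0 ≤ (finrank K U : ℤ) *
        (h n - 2 * ∑ j ∈ range n, (-1 : ℤ) ^ j * h (n - 1 - j)) := by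
      linarith
    exact nonneg_of_mul_nonneg_right this hpos
  -- the h-polynomial
  have hsymm : ∀ i, i ≤ 2 * n → h (2 * n - i) = h i := by
    intro i hi
    rw [hh]
    have := finrank_Lm_symm hS hu hF h0 (i := 2 * n - i) (j := i) (by simp; omega)
    simp only
    rw [this]
  rw [← alt_sum n h hsymm] at hr6
  have hpe : (hpoly Δ (2 * n) ∅).eval (-1) = ∑ i ∈ range (2 * n + 1), (-1 : ℤ) ^ i * h i := by
    have hdeg : (hpoly Δ (2 * n) ∅).natDegree < 2 * n + 1 := by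
      rw [Nat.lt_succ_iff, Polynomial.natDegree_le_iff_coeff_eq_zero]
      intro N hN
      exact hpoly_coeff_gt hS hu h0 (by simpa using hN)
    rw [Polynomial.eval_eq_sum_range' hdeg]
    refine Finset.sum_congr rfl (fun i _ => ?_)
    rw [hh]
    simp only
    rw [finrank_eq_coeff hS hu h0, mul_comm]
  have hfin2 := hpoly_eval_neg_one hS hu h0
  rw [hpe] at hfin2
  rw [hfin2] at hr6
  simpa using hr6

end Pool.Agent.H53.CF
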