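import Pool.Agent.H53.CF.OSReal
import Pool.Agent.H53.CF.Ineq
import Pool.Agent.H53.CF.Cliff

/-!
# helper53 CF module MAIN: assembly
-/

namespace Pool.Agent.H53.CF

open Finset

variable {V : Type*} [Fintype V] [LinearOrder V]

/-- `Weights`: classes `y i` in degree one with `∑ y i ^ 2 = 0` modulo the linear forms (the first
condition), whose span contains on the link of every face of odd rank a strictly positive class. -/
structure Weights {d N : ℕ} (Δ : Finset V → Prop) (u : V → Fin d → ℝ) (y : Fin N → V → ℝ)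
    (p : V → Fin d → ℝ) : Prop where
  sq : ∀ v w, (v = w ∨ Δ {v, w}) → ∑ i, y i v * y i w = ∑ j, (u v j * p w j + p v j * u w j)
  pos : ∀ τ, Δ τ → Odd (d - τ.card) → ∃ (c : Fin N → ℝ) (q : Fin d → ℝ),
    (∀ v ∈ τ, ∑ i, c i * y i v = ∑ j, q j * u v j) ∧
    ∀ w, w ∉ τ → Δ (insert w τ) → ∑ j, q j * u w j < ∑ i, c i * y i w

theorem main {n N : ℕ} {Δ : Finset V → Prop} {u : V → Fin (2 * n) → ℝ} {y : Fin N → V → ℝ}
    {p : V → Fin (2 * n) → ℝ} (hS : HomSphere ℝ Δ (2 * n)) (hfan : CompleteFan Δ u)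
    (hW : Weights Δ u y p) :
    0 ≤ (-1 : ℤ) ^ n * ∑ ρ ∈ lkF Δ ∅, (-1 : ℤ) ^ ρ.card * 2 ^ (2 * n - ρ.card) := by
  have hu : Lsop ℝ Δ u := lsop_of_fan hS.cpx hfan
  obtain ⟨F, hF, hFpos⟩ := fund_pos hS hfan
  have hD := isDirac_cliff (N := N) hS.cpx hW.sq
  have hcore := core hS hu hD (fun τ hτ hEX => by
    by_cases hodd : Odd (2 * n - τ.card)
    · obtain ⟨c, q, h1, h2⟩ := hW.pos τ hτ hodd
      refine os_real hS hfan hF hFpos hD (fun x hx => stdB_pos x hx) hτ hEX
        (gam c) (fun v => 2 * ∑ i, c i * y i v) (fun v x => ?_) (fun j => 2 * q j) ?_ ?_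
      · have := gam_gam (fun i => y i v) c x
        show gam (fun i => y i v) (gam c x) + gam c (gam (fun i => y i v) x) = _
        rw [this]
        congr 1
        congr 1
        exact Finset.sum_congr rfl (fun i _ => mul_comm _ _)
      · intro v hv
        have := h1 v hv
        simp only [mul_assoc, ← Finset.mul_sum, this]
      · intro w hw hΔw
        have := h2 w hw hΔw
        simp only [mul_assoc, ← Finset.mul_sum]
        linarith
    · intro k hk
      exact absurd ⟨k, by omega⟩ hodd)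
  exact ineq_of_EX hS hu hD (hcore ∅ hS.cpx.empty)

end Pool.Agent.H53.CF
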