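import Pool.Agent.H53.CF.DefEven
import Pool.Agent.H53.CF.Core

/-!
# helper53 CF module OSREAL: the odd step from definiteness

`2 k + 1 + |τ| = d`, `g ∈ Lm τ (k + 1)`, `D g = 0`. By `pd` `g = Phi F τ k b`.
`(D Γ + Γ D) g = ∑_v a_v X_v g = ∑_v (a_v - ∑_j q_j u_v j) X_v g = ∑_v l_v X_v g` (as `g` is a stress),
with `l_v = 0` on `τ`, `l_w > 0` on the link; `X_v g = 0` for other `v` (support).
So `∑_w l_w pr B k (X_w g) b = pr B k (D Γ g) b = pr B (k+1) (Γ g) (Dt b) = 0` by `pr_eq_zero`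
(`Γ g ∈ Lm τ (k+1)`, `Phi F τ (k+1) (Dt b) = D g = 0`, `k + 1 + k + |τ| = d`). And `X_w g =
Phi F (insert w τ) k b` (`Phi_insert`) is closed, so by `def_even` for `insert w τ`
`0 ≤ (-1)^k pr B k (X_w g) b`. Hence all these vanish and `X_w g ∈ D (Lm (insert w τ) (k+1))`.
-/

namespace Pool.Agent.H53.CF

open Finset Module

variable {V : Type*} [Fintype V] [LinearOrder V]
variable {U : Type*} [AddCommGroup U] [Module ℝ U]
variable {Δ : Finset V → Prop} {d : ℕ} {u : V → Fin d → ℝ}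

private theorem insert_of_ne_zero (hc : IsCpx Δ) {τ : Finset V} {i : ℕ} {g : (V → ℕ) → U}
    (hg : g ∈ Sm ℝ U Δ τ i) {β : V → ℕ} {v : V} (h : g (β + e1 v) ≠ 0) : Δ (insert v τ) := by
  refine hc.down _ _ (hg _ h).2 ?_
  intro w hw
  rw [mem_insert] at hw
  rw [mem_union]
  rcases hw with rfl | hw
  · left
    rw [supp, mem_filter]
    refine ⟨mem_univ _, ?_⟩
    simp [e1]
  · right; exact hw

theorem os_real [Module.Finite ℝ U] (hS : HomSphere ℝ Δ d) (hfan : CompleteFan Δ u)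
    {F : (V → ℕ) → ℝ} (hF : IsFund ℝ Δ u F) (hFpos : ∀ σ, Δ σ → σ.card = d → 0 < F (ind σ))
    {B : LinearMap.BilinForm ℝ U} {A : V → U →ₗ[ℝ] U} (hD : IsDirac Δ u B A)
    (hpos : ∀ x, x ≠ 0 → 0 < B x x) {τ : Finset V} (hτ : Δ τ)
    (hEX : ∀ τ', Δ τ' → τ ⊂ τ' → EX Δ u A τ')
    (Γ : U →ₗ[ℝ] U) (a : V → ℝ) (hΓ : ∀ v x, A v (Γ x) + Γ (A v x) = a v • x)
    (q : Fin d → ℝ) (hq0 : ∀ v ∈ τ, a v = ∑ j, q j * u v j)
    (hq : ∀ w, w ∉ τ → Δ (insert w τ) → ∑ j, q j * u w j < a w) :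
    OS Δ u A τ := by
  classical
  intro k hk g hg hDg w₀ hw₀ hΔw₀
  have hu : Lsop ℝ Δ u := lsop_of_fan hS.cpx hfan
  obtain ⟨b, hb⟩ := pd (W := U) hS hu hF hτ (i := k + 1) (j := k) (by omega) hg
  -- `Γ g` is a stress
  have hΓg : (fun β => Γ (g β)) ∈ Lm ℝ U Δ u τ (k + 1) := by
    refine ⟨fun α hα => ?_, fun j β => ?_⟩
    · refine hg.1 α fun h0 => hα ?_
      change Γ (g α) = 0
      rw [h0, map_zero]
    · have h1 := hg.2 j β
      have h2 := congrArg Γ h1
      rw [map_sum, map_zero] at h2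
      rw [← h2]
      exact sum_congr rfl fun v _ => (map_smul Γ _ _).symm
  set l : V → ℝ := fun v => a v - ∑ j, q j * u v j with hl
  -- `D Γ g = ∑ l_v X_v g`
  have hDΓ : ∀ β, Dop ℝ U A (fun β => Γ (g β)) β = ∑ v, l v • g (β + e1 v) := by
    intro β
    have h1 : Dop ℝ U A (fun β => Γ (g β)) β = ∑ v, A v (Γ (g (β + e1 v))) := rfl
    have h2 : ∑ v, Γ (A v (g (β + e1 v))) = 0 := by
      have h3 : Dop ℝ U A g β = 0 := by rw [hDg]; rfl
      have h4 : Dop ℝ U A g β = ∑ v, A v (g (β + e1 v)) := rfl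
      rw [← map_sum, ← h4, h3, map_zero]
    have h5 : ∑ v, (∑ j, q j * u v j) • g (β + e1 v) = 0 := by
      have h6 : ∀ v, (∑ j, q j * u v j) • g (β + e1 v) = ∑ j, q j • (u v j • g (β + e1 v)) := by
        intro v
        rw [sum_smul]
        exact sum_congr rfl fun j _ => mul_smul _ _ _
      rw [sum_congr rfl fun v _ => h6 v, sum_comm]
      refine sum_eq_zero fun j _ => ?_
      rw [← smul_sum, hg.2 j β, smul_zero]
    rw [h1]
    have h7 : ∀ v, l v • g (β + e1 v) = A v (Γ (g (β + e1 v))) + Γ (A v (g (β + e1 v)))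
        - (∑ j, q j * u v j) • g (β + e1 v) := by
      intro v
      rw [hΓ, ← sub_smul]
    rw [sum_congr rfl fun v _ => h7 v, sum_sub_distrib, sum_add_distrib, h2, h5, add_zero,
      sub_zero]
  -- the pairing of `D Γ g` with `b` vanishes
  have hzero : pr ℝ U B k (Dop ℝ U A (fun β => Γ (g β))) b = 0 := by
    rw [pr_Dop B hD.adj]
    refine pr_eq_zero hS hu hF B hD.symm hτ (i := k + 1) (j := k) (by omega) hΓg ?_
    rw [Phi_Dt, hb, hDg]
  -- expand
  set P : V → ℝ := fun v => pr ℝ U B k (fun β => g (β + e1 v)) b with hP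
  have hsum : ∑ v, l v * P v = 0 := by
    rw [← hzero]
    simp only [hP, pr, mul_sum]
    rw [sum_comm]
    refine sum_congr rfl fun α _ => ?_
    rw [hDΓ, map_sum, LinearMap.sum_apply]
    refine sum_congr rfl fun v _ => ?_
    rw [map_smul, LinearMap.smul_apply, smul_eq_mul]
  -- the link vertices
  have hlink : ∀ w, w ∉ τ → Δ (insert w τ) → 0 ≤ (-1) ^ k * P w ∧
      (P w = 0 → ∃ h ∈ Lm ℝ U Δ u (insert w τ) (k + 1), Dop ℝ U A h = fun β => g (β + e1 w)) := by
    intro w hw hΔw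
    have h1 : Phi ℝ U F (insert w τ) k b = fun β => g (β + e1 w) := by
      rw [Phi_insert hw, hb]
    have h2 : Dop ℝ U A (Phi ℝ U F (insert w τ) k b) = 0 := by
      rw [h1]
      funext β
      have h3 : Dop ℝ U A g (β + e1 w) = 0 := by rw [hDg]; rfl
      have h4 : Dop ℝ U A g (β + e1 w) = ∑ v, A v (g (β + e1 w + e1 v)) := rfl
      change ∑ v, A v (g (β + e1 v + e1 w)) = 0
      rw [← h3, h4]
      exact sum_congr rfl fun v _ => by rw [add_right_comm]
    have h5 := def_even hS hfan hF hFpos hD hpos hΔw (hEX _ hΔw (ssubset_insert hw)) (k := k)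
      (by rw [card_insert_of_notMem hw]; omega) b h2
    rw [h1] at h5
    exact h5
  -- all terms are nonnegative
  have hnonneg : ∀ v ∈ (univ : Finset V), 0 ≤ l v * ((-1) ^ k * P v) := by
    intro v _
    by_cases hvτ : v ∈ τ
    · have : l v = 0 := by rw [hl]; simp only; rw [hq0 v hvτ, sub_self]
      rw [this, zero_mul]
    by_cases hΔv : Δ (insert v τ)
    · have h1 : 0 < l v := by rw [hl]; simp only; linarith [hq v hvτ hΔv]
      exact mul_nonneg h1.le (hlink v hvτ hΔv).1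
    · have h1 : (fun β => g (β + e1 v)) = 0 := by
        funext β
        by_contra h0
        exact hΔv (insert_of_ne_zero hS.cpx hg.1 h0)
      have h2 : P v = 0 := by
        rw [hP]
        simp only
        rw [h1]
        simp [pr]
      rw [h2, mul_zero, mul_zero]
  have hsum' : ∑ v, l v * ((-1) ^ k * P v) = 0 := by
    have : ∑ v, l v * ((-1) ^ k * P v) = (-1) ^ k * ∑ v, l v * P v := by
      rw [mul_sum]
      exact sum_congr rfl fun v _ => by ring
    rw [this, hsum, mul_zero]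
  have h1 := (sum_eq_zero_iff_of_nonneg hnonneg).1 hsum' w₀ (mem_univ _)
  have h2 : 0 < l w₀ := by rw [hl]; simp only; linarith [hq w₀ hw₀ hΔw₀]
  have h3 : P w₀ = 0 := by
    rcases mul_eq_zero.1 h1 with h4 | h4
    · exact absurd h4 h2.ne'
    · rcases mul_eq_zero.1 h4 with h5 | h5
      · exact absurd h5 (pow_ne_zero _ (by norm_num))
      · exact h5
  exact (hlink w₀ hw₀ hΔw₀).2 h3

end Pool.Agent.H53.CF
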