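import Pool.Agent.H53.CF.PEW
import Pool.Agent.H53.CF.Fund

/-!
# helper53 CF module PD: Poincare duality (stresses are generated by the fundamental function)

`Phi F τ j b γ = ∑_{α of degree j} F (γ + α + ind τ) • b α`.
Scalar case, downward induction on `|τ|`. Top degree `i = d - |τ|` (`j = 0`): `Lm τ i` has
dimension `1` (`hpoly_coeff_top`) and contains `fun γ => F (γ + ind τ) ≠ 0` (nonzero at
`ind (σ \ τ)`, `σ` a facet containing `τ`). For `i < d - |τ|`: by `chL_exact` at `p = 0`
`f = ∑_{w ∉ τ} f_w`, `f_w ∈ Lm (insert w τ) i`, and by induction `f_w = Phi F (insert w τ) (j-1) b_w`,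
which is `Phi F τ j` of the polynomial `x_w b_w` (as `F (γ + α + ind (insert w τ)) =
F (γ + (α + e_w) + ind τ)`). For values in `W`: basis.
-/

namespace Pool.Agent.H53.CF

open Finset

variable {V : Type*} [Fintype V] [LinearOrder V]
variable {K : Type*} [Field K] {W : Type*} [AddCommGroup W] [Module K W]
variable {Δ : Finset V → Prop} {d : ℕ} {u : V → Fin d → K}

theorem mem_pa {j : ℕ} {α : V → ℕ} : α ∈ Finset.piAntidiag univ j ↔ ∑ v, α v = j := by
  rw [Finset.mem_piAntidiag]
  simp

theorem Phi_apply {F : (V → ℕ) → K} {τ : Finset V} {j : ℕ} (b : (V → ℕ) → W) (γ : V → ℕ) :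
    Phi K W F τ j b γ = ∑ α ∈ Finset.piAntidiag univ j, F (γ + α + ind τ) • b α := rfl

theorem Phi_mem (hc : IsCpx Δ) {F : (V → ℕ) → K} (hF : F ∈ Lm K K Δ u ∅ d) {τ : Finset V}
    {i j : ℕ} (h : i + j + τ.card = d) (b : (V → ℕ) → W) :
    Phi K W F τ j b ∈ Lm K W Δ u τ i := by
  refine ⟨fun γ hγ => ?_, fun j' β => ?_⟩
  · rw [Phi_apply] at hγ
    obtain ⟨α, hα, hne⟩ := Finset.exists_ne_zero_of_sum_ne_zero hγ
    rw [mem_pa] at hα
    have h1 : F (γ + α + ind τ) ≠ 0 := fun h0 => hne (by rw [h0, zero_smul])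
    obtain ⟨h2, h3⟩ := hF.1 _ h1
    simp only [Pi.add_apply, sum_add_distrib] at h2
    rw [hα, sum_ind'] at h2
    refine ⟨by omega, hc.down _ _ h3 ?_⟩
    rw [supp_add_ind, union_empty]
    refine union_subset_union_left ?_
    intro v hv
    simp only [supp, mem_filter, mem_univ, true_and, Pi.add_apply] at hv ⊢
    omega
  · simp only [Phi_apply, smul_sum]
    rw [sum_comm]
    refine sum_eq_zero fun α _ => ?_
    have h1 := hF.2 j' (β + α + ind τ)
    have h2 : ∑ v, u v j' • F (β + e1 v + α + ind τ) • b α =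
        (∑ v, u v j' • F (β + α + ind τ + e1 v)) • b α := by
      rw [sum_smul]
      refine sum_congr rfl fun v _ => ?_
      rw [smul_smul, smul_eq_mul]
      congr 3
      rw [add_right_comm β, add_right_comm (β + α)]
    rw [h2, h1, zero_smul]

theorem Phi_insert {F : (V → ℕ) → K} {τ : Finset V} {w : V} (hw : w ∉ τ) (j : ℕ)
    (b : (V → ℕ) → W) :
    Phi K W F (insert w τ) j b = fun γ => Phi K W F τ j b (γ + e1 w) := by
  funext γ
  rw [Phi_apply, Phi_apply]
  refine sum_congr rfl fun α _ => ?_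
  rw [← e1_add_ind hw, ← add_assoc, add_right_comm γ]

/-- multiplication of a polynomial by a variable -/
def xmul (w : V) (b : (V → ℕ) → W) : (V → ℕ) → W := fun α => if α w ≠ 0 then b (α - e1 w) else 0

theorem Phi_xmul {F : (V → ℕ) → K} {τ : Finset V} {w : V} (hw : w ∉ τ) (j : ℕ)
    (b : (V → ℕ) → W) :
    Phi K W F τ (j + 1) (xmul w b) = Phi K W F (insert w τ) j b := by
  funext γ
  rw [Phi_apply, Phi_apply]
  symm
  refine sum_bij_ne_zero (fun α _ _ => α + e1 w) ?_ ?_ ?_ ?_
  · intro α hα _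
    rw [mem_pa] at hα ⊢
    rw [sum_add_e1, hα]
  · intro α _ _ β _ _ h
    exact add_right_cancel h
  · intro α hα hne
    have h1 : α w ≠ 0 := by
      intro h0
      apply hne
      unfold xmul
      rw [if_neg (by simpa using h0), smul_zero]
    have h2 : α - e1 w + e1 w = α := by
      funext v
      simp only [Pi.add_apply, Pi.sub_apply, e1]
      by_cases hv : v = w
      · subst hv
        simp only [Pi.single_eq_same]
        omega
      · simp [Pi.single_eq_of_ne hv]
    refine ⟨α - e1 w, ?_, ?_, h2⟩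
    · rw [mem_pa] at hα ⊢
      have := sum_add_e1 (α - e1 w) w
      rw [h2, hα] at this
      omega
    · unfold xmul at hne
      rw [if_pos h1] at hne
      rw [← e1_add_ind hw, ← add_assoc, add_assoc γ, h2]
      exact hne
  · intro α _ _
    unfold xmul
    have h1 : (α + e1 w) w ≠ 0 := by simp [e1]
    rw [if_pos h1]
    have h2 : α + e1 w - e1 w = α := by
      funext v
      simp
    rw [h2, ← e1_add_ind hw, ← add_assoc, ← add_assoc]

theorem pd_scalar (hS : HomSphere K Δ d) (hu : Lsop K Δ u) {F : (V → ℕ) → K}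
    (hF : IsFund K Δ u F) {τ : Finset V} (hτ : Δ τ) {i j : ℕ} (h : i + j + τ.card = d)
    {f : (V → ℕ) → K} (hf : f ∈ Lm K K Δ u τ i) :
    ∃ b : (V → ℕ) → K, Phi K K F τ j b = f := by
  induction j generalizing τ f with
  | zero =>
    have hG : (fun γ => F (γ + ind τ)) ∈ Lm K K Δ u (τ ∪ ∅) i :=
      shift_ind_mem hS.cpx (by
        have : i + τ.card = d := by omega
        rw [this]
        exact hF.mem)
    rw [union_empty] at hG
    have hG0 : (fun γ => F (γ + ind τ)) ≠ 0 := by
      obtain ⟨σ, hσ, hτσ, hσd⟩ := exists_facet hS hu hτ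
      rw [Function.ne_iff]
      refine ⟨ind (σ \ τ), ?_⟩
      have h1 : ind (σ \ τ) + ind τ = ind σ := by
        funext v
        simp only [Pi.add_apply, ind, mem_sdiff]
        by_cases h2 : v ∈ τ
        · simp [h2, hτσ h2]
        · simp [h2]
      rw [h1]
      exact hF.ne σ hσ hσd
    have h1 : Module.finrank K (Lm K K Δ u τ i) = 1 := by
      have := finrank_eq_coeff hS hu hτ i
      rw [hpoly_coeff_top hS hu hτ (by omega)] at this
      exact_mod_cast this
    have hne : (⟨_, hG⟩ : Lm K K Δ u τ i) ≠ 0 := by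
      intro h0
      exact hG0 (congrArg Subtype.val h0)
    obtain ⟨c, hc⟩ := (finrank_eq_one_iff_of_nonzero' _ hne).1 h1 ⟨f, hf⟩
    refine ⟨fun _ => c, ?_⟩
    funext γ
    rw [Phi_apply, Finset.piAntidiag_zero, sum_singleton, add_zero]
    have h2 := congrArg Subtype.val hc
    have h3 := congrFun h2 γ
    simp only [Submodule.coe_smul, Pi.smul_apply, smul_eq_mul] at h3
    rw [smul_eq_mul, mul_comm]
    exact h3
  | succ j ih =>
    obtain ⟨b, hb, hbf⟩ := chL_exact (W := K) (p := 0) hS hu hτ (by omega)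
      (ch0_mem_ChL hf) (bdL_ChS_zero (ch0_mem_ChS hf.1))
    have h1 : f = ∑ v, b {v} := by
      rw [← bdL_apply_empty (K := K), hbf]
      simp [ch0]
    have h2 : ∀ v : V, ∃ bv : (V → ℕ) → K, Phi K K F τ (j + 1) bv = b {v} := by
      intro v
      by_cases h0 : b {v} = 0
      · exact ⟨0, by rw [map_zero, h0]⟩
      · obtain ⟨h3, h4⟩ := hb {v}
        have h5 : v ∉ τ := by
          have := (h4 h0).2
          rwa [disjoint_singleton_left] at this
        have h6 : τ ∪ {v} = insert v τ := by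
          rw [union_comm, insert_eq]
        rw [h6] at h3
        have h7 : Δ (insert v τ) := face_of_ne hS.cpx h3.1 h0
        obtain ⟨bv, hbv⟩ := ih h7 (by rw [card_insert_of_notMem h5]; omega) h3
        exact ⟨xmul v bv, by rw [Phi_xmul h5, hbv]⟩
    choose bv hbv using h2
    refine ⟨∑ v, bv v, ?_⟩
    rw [map_sum, h1]
    exact sum_congr rfl fun v _ => hbv v

theorem map_mem_Lm {W' : Type*} [AddCommGroup W'] [Module K W'] (l : W →ₗ[K] W')
    {τ : Finset V} {i : ℕ} {f : (V → ℕ) → W} (hf : f ∈ Lm K W Δ u τ i) :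
    (fun α => l (f α)) ∈ Lm K W' Δ u τ i := by
  refine ⟨fun α hα => hf.1 α (fun h0 => hα (by simp [h0])), fun j β => ?_⟩
  have h1 := congrArg l (hf.2 j β)
  rw [map_sum, map_zero] at h1
  rw [← h1]
  refine sum_congr rfl fun v _ => ?_
  rw [map_smul]

theorem pd [Module.Finite K W] (hS : HomSphere K Δ d) (hu : Lsop K Δ u) {F : (V → ℕ) → K}
    (hF : IsFund K Δ u F) {τ : Finset V} (hτ : Δ τ) {i j : ℕ} (h : i + j + τ.card = d)
    {f : (V → ℕ) → W} (hf : f ∈ Lm K W Δ u τ i) :
    ∃ b : (V → ℕ) → W, Phi K W F τ j b = f := by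
  set B := Module.finBasis K W with hB
  have h1 : ∀ k, ∃ bk : (V → ℕ) → K, Phi K K F τ j bk = fun α => B.coord k (f α) :=
    fun k => pd_scalar hS hu hF hτ h (map_mem_Lm (B.coord k) hf)
  choose bk hbk using h1
  refine ⟨fun α => ∑ k, bk k α • B k, ?_⟩
  funext γ
  rw [Phi_apply]
  simp only [smul_sum]
  rw [sum_comm]
  conv_rhs => rw [← B.sum_repr (f γ)]
  refine sum_congr rfl fun k _ => ?_
  have h2 := congrFun (hbk k) γ
  rw [Phi_apply] at h2
  simp only [smul_eq_mul, Module.Basis.coord_apply] at h2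
  rw [← h2, sum_smul]
  refine sum_congr rfl fun α _ => ?_
  rw [smul_smul]

end Pool.Agent.H53.CF
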