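import Pool.Agent.H53.CF.CM

/-!
# helper53 CF module PE: exactness of the chains with coefficients `Lm` (scalar case)

`c ∈ ChL τ p i`, `∂ c = 0`, `p + i + |τ| < d`. By `chS_exact` `c = ∂ b₀` with `b₀ ∈ ChS τ (p+1) i`.
Embed `K` in Fock space in degree `0` (`x ↦ x • δ_∅`); a scalar function `f ∈ Sm` is in `Lm` iff
`κ (f δ_∅) = 0`. Now `∂ κ b₀ = κ c = 0`. Zigzag: with `A s` = chains in position `s`
with values in `Kz (τ ∪ ρ) ∅ (s - p - 1) (i + p + 1 - s)` etc. If `i = 0`, `κ b₀ = 0`. If `i > 0`: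
`κ b₀ = ∂ z'` with `z'` in position `p + 2`, exterior degree `1`, degree `i - 1`
(`chS_exact`, position `p + 1 < d - |τ|`), `∂ κ z' = κ ∂ z' = κ κ b₀ = 0`, so by `chase` (with
`κ`-exactness of all stars in exterior degrees `≥ 1`, module CM, and positions `s < d - |τ|` because
`s ≤ p + i`; `P = p + i + 1`, degree `0`) `z' = κ g' + ∂ h'`,
`κ b₀ = ∂ z' = κ ∂ g'`, `b = b₀ - ∂ g'` has `κ b = 0`, i.e. values in `Lm`, and `∂ b = c`.
-/

namespace Pool.Agent.H53.CF

open Finset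

variable {V : Type*} [Fintype V] [LinearOrder V]
variable {K : Type*} [Field K] {Δ : Finset V → Prop} {d : ℕ} {u : V → Fin d → K}

namespace PEaux

/-- forms of degree `q` -/
def Gr (K : Type*) [Field K] (d q : ℕ) : Submodule K (Finset (Fin d) → K) where
  carrier := {ω | IsGr K q ω}
  add_mem' := by
    intro a b ha hb S h
    by_cases h0 : a S = 0
    · exact hb S (fun h1 => h (by simp [h0, h1]))
    · exact ha S h0
  zero_mem' := fun S h => absurd rfl h
  smul_mem' := by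
    intro c a ha S h
    exact ha S (fun h1 => h (by simp [h1]))

/-- chains in position `s` with values in `Kz (τ ∪ ρ) ∅ q j` -/
def Kc (K : Type*) [Field K] {d : ℕ} (Δ : Finset V → Prop) (u : V → Fin d → K) (τ : Finset V)
    (s q j : ℕ) : Submodule K (Finset V → (V → ℕ) → Finset (Fin d) → K) where
  carrier := {c | ∀ ρ, c ρ ∈ Kz K Δ u (τ ∪ ρ) ∅ q j ∧ (c ρ ≠ 0 → ρ.card = s ∧ Disjoint ρ τ)}
  add_mem' := by
    intro a b ha hb ρ
    refine ⟨Submodule.add_mem _ (ha ρ).1 (hb ρ).1, fun h => ?_⟩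
    by_cases h0 : a ρ = 0
    · exact (hb ρ).2 (fun h1 => h (by rw [Pi.add_apply, h0, h1, add_zero]))
    · exact (ha ρ).2 h0
  zero_mem' := fun ρ => ⟨Submodule.zero_mem _, fun h => absurd rfl h⟩
  smul_mem' := by
    intro c a ha ρ
    exact ⟨Submodule.smul_mem _ _ (ha ρ).1,
      fun h => (ha ρ).2 (fun h1 => h (by rw [Pi.smul_apply, h1, smul_zero]))⟩

theorem Kz_mono (hc : IsCpx Δ) {ρ ρ' : Finset V} (h : ρ ⊆ ρ') {q j : ℕ} :
    Kz K Δ u ρ' ∅ q j ≤ Kz K Δ u ρ ∅ q j := by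
  rintro f ⟨h1, h2, h3⟩
  exact ⟨Sm_mono hc h h1, h2, h3⟩

theorem mem_Kc_iff {τ : Finset V} {s q j : ℕ}
    {c : Finset V → (V → ℕ) → Finset (Fin d) → K} :
    c ∈ Kc K Δ u τ s q j ↔
      c ∈ ChS K (Finset (Fin d) → K) Δ τ s j ∧ ∀ ρ α, c ρ α ∈ Gr K d q := by
  constructor
  · intro h
    exact ⟨fun ρ => ⟨(h ρ).1.1, (h ρ).2⟩, fun ρ α => (h ρ).1.2.1 α⟩
  · rintro ⟨h1, h2⟩ ρ
    exact ⟨⟨(h1 ρ).1, fun α => h2 ρ α, fun v hv => by simp at hv⟩, (h1 ρ).2⟩

theorem bd_Gr {q : ℕ} {c : Finset V → (V → ℕ) → Finset (Fin d) → K}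
    (h : ∀ ρ α, c ρ α ∈ Gr K d q) (ρ : Finset V) (α : V → ℕ) :
    bdL K (Finset (Fin d) → K) c ρ α ∈ Gr K d q := by
  have : bdL K (Finset (Fin d) → K) c ρ α = ∑ v ∈ ρᶜ, sg v ρ • c (insert v ρ) α := by
    simp [bdL, bd, Finset.sum_apply]
  rw [this]
  exact Submodule.sum_mem _ (fun v _ => zsmul_mem (h _ _) _)

theorem bd_Kc (hc : IsCpx Δ) {τ : Finset V} {s q j : ℕ}
    {c : Finset V → (V → ℕ) → Finset (Fin d) → K} (h : c ∈ Kc K Δ u τ (s + 1) q j) :
    bdL K (Finset (Fin d) → K) c ∈ Kc K Δ u τ s q j := by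
  rw [mem_Kc_iff] at h ⊢
  exact ⟨bdL_mem_ChS hc h.1, bd_Gr h.2⟩

/-- the Koszul operator on chains -/
noncomputable def kC (K : Type*) [Field K] {d : ℕ} (u : V → Fin d → K) :
    (Finset V → (V → ℕ) → Finset (Fin d) → K) →ₗ[K]
      (Finset V → (V → ℕ) → Finset (Fin d) → K) :=
  DopC K (Finset (Fin d) → K) (fun v => eps K (u v))

theorem kC_apply (c : Finset V → (V → ℕ) → Finset (Fin d) → K) (ρ : Finset V) :
    kC K u c ρ = kap K u (c ρ) := rfl

theorem kC_kC (c : Finset V → (V → ℕ) → Finset (Fin d) → K) : kC K u (kC K u c) = 0 := by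
  funext ρ
  rw [kC_apply, kC_apply, kap_kap]
  rfl

theorem kC_Kc (hc : IsCpx Δ) {τ : Finset V} {s q j : ℕ}
    {c : Finset V → (V → ℕ) → Finset (Fin d) → K} (h : c ∈ Kc K Δ u τ s q (j + 1)) :
    kC K u c ∈ Kc K Δ u τ s (q + 1) j := by
  intro ρ
  refine ⟨?_, fun h0 => ?_⟩
  · rw [kC_apply]
    exact kap_mem_Kz hc (h ρ).1
  · apply (h ρ).2
    intro h1
    apply h0
    rw [kC_apply, h1, map_zero]

theorem kC_zero {τ : Finset V} {s q : ℕ}
    {c : Finset V → (V → ℕ) → Finset (Fin d) → K} (h : c ∈ Kc K Δ u τ s q 0) :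
    kC K u c = 0 := by
  rw [mem_Kc_iff] at h
  exact DopC_ChS_zero _ h.1

/-- embedding of the scalars in Fock space -/
def em (K : Type*) [Field K] (d : ℕ) : K →ₗ[K] (Finset (Fin d) → K) where
  toFun x := fun S => if S = ∅ then x else 0
  map_add' a b := by
    funext S
    simp only [Pi.add_apply]
    split_ifs <;> simp
  map_smul' c a := by
    funext S
    simp only [Pi.smul_apply, RingHom.id_apply]
    split_ifs <;> simp

theorem em_gr (x : K) : IsGr K 0 (em K d x) := by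
  intro S h
  by_contra hS
  apply h
  have : S ≠ ∅ := fun h1 => hS (by rw [h1, Finset.card_empty])
  simp [em, this]

theorem em_eq_of_gr {ω : Finset (Fin d) → K} (h : IsGr K 0 ω) : em K d (ω ∅) = ω := by
  funext S
  by_cases hS : S = ∅
  · subst hS
    simp [em]
  · have : ω S = 0 := by
      by_contra h1
      exact hS (Finset.card_eq_zero.mp (h S h1))
    simp [em, hS, this]

theorem eps_em (a : Fin d → K) (x : K) (j : Fin d) : eps K a (em K d x) {j} = a j * x := by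
  have h0 : ({j} : Finset (Fin d)).filter (fun w => w < j) = ∅ := by
    rw [Finset.filter_singleton, if_neg (lt_irrefl j)]
  simp [eps, em, sg, h0]

theorem em_zero_iff (x : K) : em K d x = 0 ↔ x = 0 := by
  constructor
  · intro h
    have := congrFun h ∅
    simpa [em] using this
  · rintro rfl
    exact map_zero _

theorem Lm_of_kap {ρ : Finset V} {j : ℕ} {f : (V → ℕ) → K} (hf : f ∈ Sm K K Δ ρ j)
    (h : kap K u (fun β => em K d (f β)) = 0) : f ∈ Lm K K Δ u ρ j := by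
  refine ⟨hf, fun t β => ?_⟩
  have h1 := congrFun (congrFun h β) {t}
  have h2 : kap K u (fun β => em K d (f β)) β {t} = ∑ v, u v t • f (β + e1 v) := by
    have : kap K u (fun β => em K d (f β)) β = ∑ v, eps K (u v) (em K d (f (β + e1 v))) := rfl
    rw [this, Finset.sum_apply]
    exact Finset.sum_congr rfl (fun v _ => by rw [eps_em, smul_eq_mul])
  rw [h2] at h1
  simpa using h1

theorem kap_of_Lm {ρ : Finset V} {j : ℕ} {f : (V → ℕ) → K} (hf : f ∈ Lm K K Δ u ρ j) :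
    kap K u (fun β => em K d (f β)) = 0 := by
  funext β
  have h2 : kap K u (fun β => em K d (f β)) β = ∑ v, eps K (u v) (em K d (f (β + e1 v))) := rfl
  rw [h2]
  funext S
  rw [Finset.sum_apply]
  have hterm : ∀ v, eps K (u v) (em K d (f (β + e1 v))) S =
      ∑ t ∈ S, (sg t S : K) * (if S.erase t = ∅ then u v t * f (β + e1 v) else 0) := by
    intro v
    have : eps K (u v) (em K d (f (β + e1 v))) S =
      ∑ t ∈ S, (sg t S : K) * u v t * (if S.erase t = ∅ then f (β + e1 v) else 0) := rfl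
    rw [this]
    apply Finset.sum_congr rfl
    intro t _
    split_ifs <;> ring
  simp only [hterm]
  rw [Finset.sum_comm]
  show _ = (0 : K)
  apply Finset.sum_eq_zero
  intro t _
  rw [← Finset.mul_sum]
  split_ifs with hS
  · have := hf.2 t β
    simp only [smul_eq_mul] at this
    rw [this, mul_zero]
  · rw [Finset.sum_const_zero, mul_zero]

/-- embedding of scalar chains -/
noncomputable def eC (K : Type*) [Field K] (d : ℕ) :
    (Finset V → (V → ℕ) → K) →ₗ[K] (Finset V → (V → ℕ) → Finset (Fin d) → K) where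
  toFun c := fun ρ α => em K d (c ρ α)
  map_add' a b := by
    funext ρ α
    exact map_add _ _ _
  map_smul' t a := by
    funext ρ α
    exact (em K d).map_smul _ _

theorem bd_eC (c : Finset V → (V → ℕ) → K) :
    bdL K (Finset (Fin d) → K) (eC K d c) = eC K d (bdL K K c) := by
  funext ρ α
  have h1 : bdL K (Finset (Fin d) → K) (eC K d c) ρ α =
      ∑ v ∈ ρᶜ, sg v ρ • em K d (c (insert v ρ) α) := by
    simp [bdL, bd, Finset.sum_apply, eC]
  have h2 : eC K d (bdL K K c) ρ α = em K d (∑ v ∈ ρᶜ, sg v ρ • c (insert v ρ) α) := by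
    simp [bdL, bd, Finset.sum_apply, eC]
  rw [h1, h2, map_sum]
  exact Finset.sum_congr rfl (fun v _ => (map_zsmul _ _ _).symm)

theorem eC_Kc {τ : Finset V} {s j : ℕ} {c : Finset V → (V → ℕ) → K}
    (h : c ∈ ChS K K Δ τ s j) : eC K d c ∈ Kc K Δ u τ s 0 j := by
  rw [mem_Kc_iff]
  refine ⟨fun ρ => ⟨fun α hα => (h ρ).1 α (fun h1 => hα ?_), fun h0 => (h ρ).2 (fun h1 => h0 ?_)⟩,
    fun ρ α => em_gr _⟩
  · show em K d (c ρ α) = 0
    rw [h1, map_zero]
  · funext α
    show em K d (c ρ α) = 0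
    rw [h1, Pi.zero_apply, map_zero]

end PEaux

open PEaux in
theorem chL_exact_scalar (hS : HomSphere K Δ d) (hu : Lsop K Δ u) {τ : Finset V} (hτ : Δ τ)
    {p i : ℕ} (hp : p + i + τ.card < d) {c : Finset V → (V → ℕ) → K}
    (hc : c ∈ ChL K K Δ u τ p i) (hb : bdL K K c = 0) :
    ∃ b ∈ ChL K K Δ u τ (p + 1) i, bdL K K b = c := by
  have hX := hS.cpx
  obtain ⟨b₀, hb₀, -, hbb⟩ := chS_exact hS hτ (p := p) (i := i) (by omega) ⊤
    (ChL_le_ChS hc) (fun _ _ => Submodule.mem_top) hb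
  rcases Nat.eq_zero_or_pos i with hi | hi
  · subst hi
    refine ⟨b₀, fun ρ => ⟨⟨(hb₀ ρ).1, fun j β => ?_⟩, (hb₀ ρ).2⟩, hbb⟩
    apply Finset.sum_eq_zero
    intro v _
    have : b₀ ρ (β + e1 v) = 0 := by
      by_contra h1
      have h2 := ((hb₀ ρ).1 _ h1).1
      rw [sum_add_e1] at h2
      omega
    rw [this, smul_zero]
  obtain ⟨i', rfl⟩ : ∃ i', i = i' + 1 := ⟨i - 1, by omega⟩
  -- the element `y`
  set F := Finset (Fin d) → K with hF
  have hec : kC K u (eC K d c) = 0 := by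
    funext ρ
    rw [kC_apply]
    exact kap_of_Lm (hc ρ).1
  set y := kC K u (eC K d b₀) with hy
  have hyK : y ∈ Kc K Δ u τ (p + 1) 1 i' := kC_Kc hX (eC_Kc hb₀)
  have hyb : bdL K F y = 0 := by
    rw [hy]
    have : bdL K F (kC K u (eC K d b₀)) = kC K u (bdL K F (eC K d b₀)) := bdL_DopC _ _
    rw [this, bd_eC, hbb, hec]
  have hyK' := (mem_Kc_iff.mp hyK)
  obtain ⟨z', hz'1, hz'2, hz'y⟩ := chS_exact hS hτ (p := p + 1) (i := i') (by omega) (Gr K d 1)
    hyK'.1 hyK'.2 hyb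
  have hz'K : z' ∈ Kc K Δ u τ (p + 2) 1 i' := mem_Kc_iff.mpr ⟨hz'1, hz'2⟩
  have hch := chase (K := K) (bdL K F) (kC K u)
    (fun s => Kc K Δ u τ s (s - p - 1) (i' + p + 2 - s))
    (fun s => Kc K Δ u τ s (s - p) (i' + p + 1 - s))
    (fun s => Kc K Δ u τ s (s - p - 2) (i' + p + 3 - s)) (p + 2) (i' + p + 2)
    (fun x => bdL_bdL x) (fun x => bdL_DopC _ _) (fun s _ _ z _ => kC_kC z)
    (by
      intro s hs1 hs2 z hz
      rcases Nat.lt_or_ge s (i' + p + 2) with h1 | h1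
      · have e1 : i' + p + 2 - s = (i' + p + 1 - s) + 1 := by omega
        have e2 : s - p = (s - p - 1) + 1 := by omega
        simp only [e1] at hz
        have h3 : kC K u z ∈ Kc K Δ u τ s (s - p - 1 + 1) (i' + p + 1 - s) := kC_Kc hX hz
        rw [← e2] at h3
        exact h3
      · have e1 : i' + p + 2 - s = 0 := by omega
        simp only [e1] at hz
        rw [kC_zero hz]
        exact Submodule.zero_mem _)
    (by
      intro s hs1 hs2 g hg
      have e1 : i' + p + 3 - (s + 1) = i' + p + 2 - s := by omega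
      have e2 : s + 1 - p - 2 = s - p - 1 := by omega
      simp only [e1, e2] at hg
      exact bd_Kc hX hg)
    (by
      intro s hs1 hs2 z hz hkz
      have hex : ∀ ρ, ∃ g ∈ Kz K Δ u (τ ∪ ρ) ∅ (s - p - 1 - 1) (i' + p + 2 - s + 1),
          kap K u g = z ρ ∧ (z ρ = 0 → g = 0) := by
        intro ρ
        by_cases h0 : z ρ = 0
        · exact ⟨0, Submodule.zero_mem _, by rw [map_zero, h0], fun _ => rfl⟩
        · have hface : Δ (τ ∪ ρ) := face_of_ne hX (hz ρ).1.1 h0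
          have hkz' : kap K u (z ρ) = 0 := by
            rw [← kC_apply, hkz]
            rfl
          obtain ⟨g, hg, hgz⟩ := kozEx hS hu hface (Finset.empty_subset _) (s - p - 1)
            (i' + p + 2 - s) (z ρ) (by rw [Finset.card_empty]; omega) (hz ρ).1 hkz'
          exact ⟨g, hg, hgz, fun h1 => absurd h1 h0⟩
      choose g hg hgz hg0 using hex
      refine ⟨g, fun ρ => ⟨?_, fun h1 => (hz ρ).2 (fun h2 => h1 (hg0 ρ h2))⟩, ?_⟩
      · have e1 : i' + p + 3 - s = i' + p + 2 - s + 1 := by omega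
        have e2 : s - p - 2 = s - p - 1 - 1 := by omega
        rw [e1, e2]
        exact hg ρ
      · funext ρ
        rw [kC_apply]
        exact hgz ρ)
    (by
      intro s hs1 hs2 w hw hwb
      have hw' := mem_Kc_iff.mp hw
      obtain ⟨z, hz1, hz2, hz3⟩ := chS_exact hS hτ (p := s) (i := i' + p + 1 - s) (by omega)
        (Gr K d (s - p)) hw'.1 hw'.2 hwb
      refine ⟨z, ?_, hz3⟩
      have e1 : i' + p + 2 - (s + 1) = i' + p + 1 - s := by omega
      have e2 : s + 1 - p - 1 = s - p := by omega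
      simp only [e1, e2]
      exact mem_Kc_iff.mpr ⟨hz1, hz2⟩)
    (by
      intro z hz
      have e1 : i' + p + 2 - (i' + p + 2) = 0 := by omega
      simp only [e1] at hz
      exact kC_zero hz)
    (p + 2) le_rfl (by omega) z'
    (by
      have e1 : i' + p + 2 - (p + 2) = i' := by omega
      have e2 : p + 2 - p - 1 = 1 := by omega
      simp only [e1, e2]
      exact hz'K)
    (by
      have : bdL K F (kC K u z') = kC K u (bdL K F z') := bdL_DopC _ _
      rw [this, hz'y, hy, kC_kC])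
  obtain ⟨g, hg, h', hh', hzgh⟩ := hch
  have e1 : i' + p + 3 - (p + 2) = i' + 1 := by omega
  have e2 : p + 2 - p - 2 = 0 := by omega
  simp only [e1, e2] at hg
  have hyg : y = kC K u (bdL K F g) := by
    have h1 : bdL K F (kC K u g) = kC K u (bdL K F g) := bdL_DopC _ _
    rw [← hz'y, hzgh, map_add, h1, bdL_bdL, add_zero]
  -- scalar version of `g`
  set gs : Finset V → (V → ℕ) → K := fun ρ α => g ρ α ∅ with hgs
  have hgsC : eC K d gs = g := by
    funext ρ α
    exact em_eq_of_gr ((hg ρ).1.2.1 α)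
  have hgsS : gs ∈ ChS K K Δ τ (p + 2) (i' + 1) := by
    intro ρ
    refine ⟨fun α hα => (hg ρ).1.1 α (fun h1 => hα ?_), fun h0 => (hg ρ).2 (fun h1 => h0 ?_)⟩
    · show g ρ α ∅ = 0
      rw [h1]
      rfl
    · funext α
      show g ρ α ∅ = 0
      rw [h1]
      rfl
  refine ⟨b₀ - bdL K K gs, fun ρ => ?_, ?_⟩
  · have hmem : b₀ - bdL K K gs ∈ ChS K K Δ τ (p + 1) (i' + 1) :=
      Submodule.sub_mem _ hb₀ (bdL_mem_ChS hX hgsS)
    refine ⟨Lm_of_kap (hmem ρ).1 ?_, (hmem ρ).2⟩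
    have h1 : kC K u (eC K d (b₀ - bdL K K gs)) = 0 := by
      rw [map_sub, ← bd_eC, hgsC, map_sub, ← hyg, ← hy, sub_self]
    have h2 := congrFun h1 ρ
    rw [kC_apply] at h2
    exact h2
  · rw [map_sub, bdL_bdL, sub_zero, hbb]

end Pool.Agent.H53.CF
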