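import Pool.Agent.H53.CF.Defs3
import Pool.Agent.H53.CF.Fund
import Pool.Agent.H53.CF.PE

/-!
# helper53 CF module VT: existence of the deformed fundamental function

Construct `f_n ∈ Sm τ n` for `n ≥ r = d - |τ|`, `f_r = fun γ => F (γ + ind τ)` (a stress), with
`∑_v u_v j f_(n+1) (β + e_v) = t_j f_n β`. In Fock space (embedding `K` in degree `0`):
`κ f_(n+1) = eps t f_n`. Solvable by `kozEx` (`ρ = τ`, `η = ∅`, `q = 1`) since
`κ (eps t f_n) = - eps t (κ f_n) = - eps t (eps t f_(n-1)) = 0` (for `n = r`: `κ f_r = 0`), and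
`eps t f_n ∈ Kz τ ∅ 1 n`. Dependent choice, then `Ft α = f_(|α|) α` for `|α| ≥ r`, `0` below.
-/

namespace Pool.Agent.H53.CF

open Finset

variable {V : Type*} [Fintype V] [LinearOrder V]
variable {K : Type*} [Field K] {Δ : Finset V → Prop} {d : ℕ} {u : V → Fin d → K}

/-- one step of the recursion -/
private theorem vt_step (hS : HomSphere K Δ d) (hu : Lsop K Δ u) {τ : Finset V} (hτ : Δ τ)
    (t : Fin d → K) {m : ℕ} {f : (V → ℕ) → K} (hf : f ∈ Sm K K Δ τ m)
    (hk : ∀ β, eps K t (kap K u (fun γ => PEaux.em K d (f γ)) β) = 0) :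
    ∃ f' ∈ Sm K K Δ τ (m + 1), kap K u (fun γ => PEaux.em K d (f' γ)) =
      fun β => eps K t (PEaux.em K d (f β)) := by
  have hmem : (fun β => eps K t (PEaux.em K d (f β))) ∈ Kz K Δ u τ ∅ 1 m := by
    refine ⟨?_, fun α => ?_, fun v hv => absurd hv (by simp)⟩
    · intro α hα
      refine hf α (fun h0 => hα ?_)
      change eps K t (PEaux.em K d (f α)) = 0
      rw [h0, map_zero, map_zero]
    · exact eps_gr t (PEaux.em_gr (f α))
  have hz : kap K u (fun β => eps K t (PEaux.em K d (f β))) = 0 := by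
    funext β
    change ∑ v, eps K (u v) (eps K t (PEaux.em K d (f (β + e1 v)))) = 0
    have h1 : ∀ v, eps K (u v) (eps K t (PEaux.em K d (f (β + e1 v)))) =
        - eps K t (eps K (u v) (PEaux.em K d (f (β + e1 v)))) := fun v => eps_eps _ _ _
    simp only [h1, Finset.sum_neg_distrib, ← map_sum]
    have h2 := hk β
    change eps K t (∑ v, eps K (u v) (PEaux.em K d (f (β + e1 v)))) = 0 at h2
    rw [h2, neg_zero]
  obtain ⟨g, hg, hgk⟩ := kozEx hS hu hτ (Finset.empty_subset τ) 1 m _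
    (by rw [Finset.card_empty]; exact Nat.one_pos) hmem hz
  have hem : (fun γ => PEaux.em K d (g γ ∅)) = g := by
    funext γ
    exact PEaux.em_eq_of_gr (hg.2.1 γ)
  refine ⟨fun γ => g γ ∅, ?_, ?_⟩
  · intro α hα
    exact hg.1 α (fun h0 => hα (by simp only [h0]; rfl))
  · rw [hem, hgk]

theorem exists_def (hS : HomSphere K Δ d) (hu : Lsop K Δ u) {F : (V → ℕ) → K}
    (hF : F ∈ Lm K K Δ u ∅ d) {τ : Finset V} (hτ : Δ τ) (t : Fin d → K) :
    ∃ Ft : (V → ℕ) → K, IsDef K Δ u F τ t Ft := by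
  classical
  have hcard : τ.card ≤ d := card_le hu hτ
  obtain ⟨r, hr⟩ : ∃ r, r + τ.card = d := ⟨d - τ.card, by omega⟩
  let P : ℕ → ((V → ℕ) → K) → Prop := fun n f => f ∈ Sm K K Δ τ (r + n) ∧
    ∀ β, eps K t (kap K u (fun γ => PEaux.em K d (f γ)) β) = 0
  have h0mem : (fun γ => F (γ + ind τ)) ∈ Lm K K Δ u τ r := by
    have h := shift_ind_mem (u := u) (i := r) (τ := τ) (ρ := ∅) hS.cpx (F := F)
      (by rw [hr]; exact hF)
    rwa [Finset.union_empty] at h
  have h0 : P 0 (fun γ => F (γ + ind τ)) := by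
    refine ⟨h0mem.1, fun β => ?_⟩
    rw [PEaux.kap_of_Lm h0mem]
    exact map_zero _
  have step : ∀ n (x : {f // P n f}), ∃ y : {f // P (n + 1) f},
      kap K u (fun γ => PEaux.em K d (y.1 γ)) = fun β => eps K t (PEaux.em K d (x.1 β)) := by
    rintro n ⟨f, hf1, hf2⟩
    obtain ⟨f', hf', hk⟩ := vt_step hS hu hτ t hf1 hf2
    refine ⟨⟨f', hf', fun β => ?_⟩, hk⟩
    rw [hk]
    exact eps_sq _ _
  choose nxt hnxt using step
  let seq : ∀ n, {f // P n f} := fun n =>
    Nat.rec (motive := fun n => {f // P n f}) ⟨_, h0⟩ nxt n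
  have hseq : ∀ n, kap K u (fun γ => PEaux.em K d ((seq (n + 1)).1 γ)) =
      fun β => eps K t (PEaux.em K d ((seq n).1 β)) := fun n => hnxt n (seq n)
  have hseq0 : (seq 0).1 = fun γ => F (γ + ind τ) := rfl
  have hrec : ∀ n (j : Fin d) (β : V → ℕ), ∑ v, u v j * (seq (n + 1)).1 (β + e1 v) =
      t j * (seq n).1 β := by
    intro n j β
    have h := congrFun (congrFun (hseq n) β) {j}
    rw [PEaux.eps_em] at h
    have h2 : kap K u (fun γ => PEaux.em K d ((seq (n + 1)).1 γ)) β {j} =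
        ∑ v, u v j * (seq (n + 1)).1 (β + e1 v) := by
      have h3 : kap K u (fun γ => PEaux.em K d ((seq (n + 1)).1 γ)) β =
        ∑ v, eps K (u v) (PEaux.em K d ((seq (n + 1)).1 (β + e1 v))) := rfl
      rw [h3, Finset.sum_apply]
      exact Finset.sum_congr rfl (fun v _ => by rw [PEaux.eps_em])
    rw [← h2, h]
  let Ft : (V → ℕ) → K := fun α =>
    if d ≤ ∑ v, α v + τ.card then (seq (∑ v, α v + τ.card - d)).1 α else 0
  have hFt1 : ∀ (α : V → ℕ) (n : ℕ), ∑ v, α v = r + n → Ft α = (seq n).1 α := by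
    intro α n hn
    change (if d ≤ ∑ v, α v + τ.card then (seq (∑ v, α v + τ.card - d)).1 α else 0) = _
    rw [if_pos (by omega)]
    have : ∑ v, α v + τ.card - d = n := by omega
    rw [this]
  have hFt0 : ∀ α : V → ℕ, ∑ v, α v < r → Ft α = 0 := by
    intro α hα
    change (if d ≤ ∑ v, α v + τ.card then (seq (∑ v, α v + τ.card - d)).1 α else 0) = _
    rw [if_neg (by omega)]
  refine ⟨Ft, ?_, ?_, ?_⟩
  · intro α hα
    have hge : r ≤ ∑ v, α v := by
      by_contra hlt
      exact hα (hFt0 α (by omega))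
    obtain ⟨n, hn⟩ := Nat.exists_eq_add_of_le hge
    rw [hFt1 α n hn] at hα
    exact ⟨((seq n).2.1 α hα).2, by omega⟩
  · intro α hα
    rw [hFt1 α 0 (by omega), hseq0]
  · intro j β
    rcases lt_trichotomy (∑ v, β v + 1) r with h | h | h
    · rw [hFt0 β (by omega), mul_zero]
      refine Finset.sum_eq_zero (fun v _ => ?_)
      rw [hFt0 (β + e1 v) (by rw [sum_add_e1]; omega), mul_zero]
    · rw [hFt0 β (by omega), mul_zero]
      have h3 := h0mem.2 j β
      rw [← h3]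
      refine Finset.sum_congr rfl (fun v _ => ?_)
      rw [hFt1 (β + e1 v) 0 (by rw [sum_add_e1]; omega), hseq0, smul_eq_mul]
    · have hge : r ≤ ∑ v, β v := by omega
      obtain ⟨n, hn⟩ := Nat.exists_eq_add_of_le hge
      rw [hFt1 β n hn, ← hrec n j β]
      refine Finset.sum_congr rfl (fun v _ => ?_)
      rw [hFt1 (β + e1 v) (n + 1) (by rw [sum_add_e1]; omega)]

end Pool.Agent.H53.CF
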