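import Pool.Agent.H53.CF.Generic
import Pool.Agent.H53.CF.Vt

/-!
# helper53 CF module RES: the residue formula

For a facet `σ ⊇ τ` put `G γ = Ft (γ + ind (σ \ τ))`. It is supported on monomials in the
vertices of `σ`, and `∑_{v ∈ σ} u_v j G (β + e_v) = t_j G β`, so `G (β + e_v) = x σ v * G β`
(basis), `G β = G 0 * ∏ x σ v ^ β v` and `G 0 = F (ind σ)` (`lead`, as `|σ \ τ| + |τ| = d`).
Put `μ σ = F (ind σ) / ∏_{v ∈ σ \ τ} x σ v` and `E = Ft - ∑ μ σ * ∏ x σ v ^ α v`. `E` satisfies the
recursion `recur`, is supported on the star of `τ` (monomials not supported in `σ` give `0`), and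
`E (· + ind (σ \ τ)) = 0` for all facets `σ ⊇ τ` (other facets `σ'` give `0` since `x σ' v = 0`
for some `v ∈ σ \ τ`). If `E ≠ 0` take a face `ρ ⊇ τ` maximal with
`H = E (· + ind (ρ \ τ)) ≠ 0`. `|ρ| < d`, and `H (· + e_w) = 0` for `w ∉ ρ` (it is supported in the star of
`insert w ρ`), so `∑_{v ∈ ρ} H (β + e_v) u_v = H β t`, and `H β ≠ 0` for some `β`
contradicts genericity of `t`.
-/

namespace Pool.Agent.H53.CF

open Finset

variable {V : Type*} [Fintype V] [LinearOrder V]
variable {Δ : Finset V → Prop} {d : ℕ} {u : V → Fin d → ℝ}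

private theorem res_card_le (hu : Lsop ℝ Δ u) {σ : Finset V} (hσ : Δ σ) : σ.card ≤ d := by
  have h := (hu σ hσ).fintype_card_le_finrank
  simpa using h

private theorem res_mem_supp {α : V → ℕ} {v : V} : v ∈ supp α ↔ α v ≠ 0 := by
  simp [supp]

private theorem res_ind_apply (σ : Finset V) (v : V) : ind σ v = if v ∈ σ then 1 else 0 := rfl

private theorem res_sum_ind (σ : Finset V) : ∑ v, ind σ v = σ.card := by
  simp [ind]

private theorem res_e1_apply (v w : V) : e1 v w = if w = v then 1 else 0 := by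
  unfold e1
  rw [Pi.single_apply]

/-- monomials at coordinates -/
private noncomputable def mon (y : V → ℝ) (α : V → ℕ) : ℝ := ∏ v, y v ^ α v

private theorem mon_add_e1 (y : V → ℝ) (α : V → ℕ) (v : V) :
    mon y (α + e1 v) = y v * mon y α := by
  unfold mon
  have : ∀ w, y w ^ (α + e1 v) w = (if w = v then y v else 1) * y w ^ α w := by
    intro w
    rw [Pi.add_apply, res_e1_apply, pow_add]
    by_cases h : w = v
    · subst h; simp; ring
    · simp [h]
  simp only [this, Finset.prod_mul_distrib, Finset.prod_ite_eq', Finset.mem_univ, if_true]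

private theorem mon_zero (y : V → ℝ) : mon y 0 = 1 := by simp [mon]

private theorem mon_eq_zero {y : V → ℝ} {α : V → ℕ} {v : V} (hv : α v ≠ 0) (hy : y v = 0) :
    mon y α = 0 := by
  unfold mon
  exact Finset.prod_eq_zero (Finset.mem_univ v) (by rw [hy, zero_pow hv])

private theorem mon_add_ind (y : V → ℝ) (α : V → ℕ) (ρ : Finset V) :
    mon y (α + ind ρ) = mon y α * ∏ v ∈ ρ, y v := by
  unfold mon
  have : ∀ w, y w ^ (α + ind ρ) w = y w ^ α w * (if w ∈ ρ then y w else 1) := by
    intro w
    rw [Pi.add_apply, res_ind_apply, pow_add]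
    by_cases h : w ∈ ρ <;> simp [h]
  simp only [this, Finset.prod_mul_distrib]
  congr 1
  rw [Finset.prod_ite_mem, Finset.univ_inter]

/-- a multiplicative function on multi-indices is a monomial -/
private theorem eq_mon {G : (V → ℕ) → ℝ} {y : V → ℝ} (h : ∀ β v, G (β + e1 v) = y v * G β)
    (β : V → ℕ) : G β = G 0 * mon y β := by
  have key : ∀ n, ∀ β : V → ℕ, ∑ v, β v = n → G β = G 0 * mon y β := by
    intro n
    induction n with
    | zero =>
      intro β hβ
      have h0 : β = 0 := by
        funext v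
        have := (Finset.sum_eq_zero_iff.1 hβ) v (Finset.mem_univ v)
        simpa using this
      rw [h0, mon_zero, mul_one]
    | succ n ih =>
      intro β hβ
      obtain ⟨v, hv⟩ : ∃ v, β v ≠ 0 := by
        by_contra hcon
        push Not at hcon
        simp [hcon] at hβ
      set β' : V → ℕ := β - e1 v with hβ'
      have hβe : β = β' + e1 v := by
        funext w
        rw [hβ', Pi.add_apply, Pi.sub_apply, res_e1_apply]
        by_cases hw : w = v
        · subst hw; simp; omega
        · simp [hw]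
      have hsum : ∑ w, β' w = n := by
        have h1 : ∑ w, β w = ∑ w, β' w + 1 := by
          conv_lhs => rw [hβe]
          simp only [Pi.add_apply, Finset.sum_add_distrib, res_e1_apply]
          simp
        omega
      rw [hβe, h, mon_add_e1, ih β' hsum]; ring
  exact key _ β rfl

theorem exists_res (hS : HomSphere ℝ Δ d) (hu : Lsop ℝ Δ u) {F : (V → ℕ) → ℝ}
    (hF : F ∈ Lm ℝ ℝ Δ u ∅ d) {τ : Finset V} (hτ : Δ τ) {t : Fin d → ℝ}
    (ht : GenericVec Δ u t) {x : Finset V → V → ℝ} (hx : IsCoords Δ u t x)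
    {Ft : (V → ℕ) → ℝ} (hFt : IsDef ℝ Δ u F τ t Ft) :
    ∃ μ : Finset V → ℝ, IsRes (d := d) Δ F τ x Ft μ := by
  classical
  have hfac : ∀ σ, σ ∈ facets Δ d τ ↔ Δ σ ∧ τ ⊆ σ ∧ σ.card = d := by
    intro σ; simp [facets]
  have hprod : ∀ σ ∈ facets Δ d τ, ∏ v ∈ σ \ τ, x σ v ≠ 0 := by
    intro σ hσ
    obtain ⟨h1, h2, h3⟩ := (hfac σ).1 hσ
    refine Finset.prod_ne_zero_iff.2 (fun v hv => (hx σ h1 h3).2.2 v (Finset.mem_sdiff.1 hv).1)
  set μ : Finset V → ℝ := fun σ => F (ind σ) / ∏ v ∈ σ \ τ, x σ v with hμ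
  have hμ1 : ∀ σ ∈ facets Δ d τ, μ σ * ∏ v ∈ σ \ τ, x σ v = F (ind σ) := by
    intro σ hσ
    exact div_mul_cancel₀ _ (hprod σ hσ)
  refine ⟨μ, hμ1, ?_⟩
  set E : (V → ℕ) → ℝ := fun α => Ft α - ∑ σ ∈ facets Δ d τ, μ σ * mon (x σ) α with hE
  have hErec : ∀ (j : Fin d) (β : V → ℕ), ∑ v, u v j * E (β + e1 v) = t j * E β := by
    intro j β
    have h1 : ∀ σ ∈ facets Δ d τ, ∑ v, u v j * mon (x σ) (β + e1 v) = t j * mon (x σ) β := by
      intro σ hσ
      obtain ⟨h1, h2, h3⟩ := (hfac σ).1 hσ
      have h4 := congrFun (hx σ h1 h3).2.1 j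
      simp only [Finset.sum_apply, Pi.smul_apply, smul_eq_mul] at h4
      rw [← h4, Finset.sum_mul]
      refine Finset.sum_congr rfl (fun v _ => ?_)
      rw [mon_add_e1]; ring
    simp only [hE, mul_sub, Finset.sum_sub_distrib]
    rw [hFt.recur, Finset.mul_sum]
    congr 1
    calc ∑ v, u v j * ∑ σ ∈ facets Δ d τ, μ σ * mon (x σ) (β + e1 v)
        = ∑ v, ∑ σ ∈ facets Δ d τ, μ σ * (u v j * mon (x σ) (β + e1 v)) := by
          refine Finset.sum_congr rfl (fun v _ => ?_)
          rw [Finset.mul_sum]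
          exact Finset.sum_congr rfl (fun σ _ => by ring)
      _ = ∑ σ ∈ facets Δ d τ, μ σ * ∑ v, u v j * mon (x σ) (β + e1 v) := by
          rw [Finset.sum_comm]
          exact Finset.sum_congr rfl (fun σ _ => by rw [Finset.mul_sum])
      _ = ∑ σ ∈ facets Δ d τ, t j * (μ σ * mon (x σ) β) := by
          refine Finset.sum_congr rfl (fun σ hσ => ?_)
          rw [h1 σ hσ]; ring
  have hEsupp : ∀ α, E α ≠ 0 → Δ (supp α ∪ τ) := by
    intro α hα
    by_cases h0 : Ft α = 0
    · have h1 : ∑ σ ∈ facets Δ d τ, μ σ * mon (x σ) α ≠ 0 := by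
        intro h2
        apply hα
        simp only [hE, h0, h2, sub_zero]
      obtain ⟨σ, hσ, h2⟩ := Finset.exists_ne_zero_of_sum_ne_zero h1
      obtain ⟨h3, h4, h5⟩ := (hfac σ).1 hσ
      apply hS.cpx.down σ _ h3
      apply Finset.union_subset _ h4
      intro v hv
      by_contra hvσ
      apply h2
      rw [mon_eq_zero (res_mem_supp.1 hv) ((hx σ h3 h5).1 v hvσ), mul_zero]
    · exact (hFt.support α h0).1
  -- E vanishes on the facets
  have hEfac : ∀ σ ∈ facets Δ d τ, ∀ γ, E (γ + ind (σ \ τ)) = 0 := by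
    intro σ hσ γ
    obtain ⟨hσ1, hσ2, hσ3⟩ := (hfac σ).1 hσ
    set G : (V → ℕ) → ℝ := fun γ => Ft (γ + ind (σ \ τ)) with hG
    have hGs : ∀ γ, ∀ v, v ∉ σ → γ v ≠ 0 → G γ = 0 := by
      intro γ v hv hγ
      by_contra hcon
      have h1 := (hFt.support _ hcon).1
      have h2 : insert v σ ⊆ supp (γ + ind (σ \ τ)) ∪ τ := by
        intro w hw
        rw [Finset.mem_union]
        rcases Finset.mem_insert.1 hw with rfl | hw
        · left; rw [res_mem_supp, Pi.add_apply]; omega
        · by_cases hwτ : w ∈ τ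
          · exact Or.inr hwτ
          · left
            rw [res_mem_supp, Pi.add_apply, res_ind_apply, if_pos (Finset.mem_sdiff.2 ⟨hw, hwτ⟩)]
            omega
      have h3 := res_card_le hu (hS.cpx.down _ _ h1 h2)
      rw [Finset.card_insert_of_notMem hv, hσ3] at h3
      omega
    have hGrec : ∀ β v, G (β + e1 v) = x σ v * G β := by
      intro β v
      by_cases hv : v ∈ σ
      · -- linear independence
        have hli := hu σ hσ1
        rw [Fintype.linearIndependent_iff] at hli
        have h1 : ∑ w : σ, (G (β + e1 (w : V)) - x σ w * G β) • u (w : V) = 0 := by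
          funext j
          have h2 := hFt.recur j (β + ind (σ \ τ))
          have h3 := congrFun (hx σ hσ1 hσ3).2.1 j
          simp only [Finset.sum_apply, Pi.smul_apply, smul_eq_mul, Pi.zero_apply] at h3 ⊢
          have h4 : ∑ w : σ, (G (β + e1 (w : V)) - x σ w * G β) * u (w : V) j =
              ∑ w ∈ σ, (G (β + e1 w) - x σ w * G β) * u w j :=
            Finset.sum_coe_sort σ (fun w => (G (β + e1 w) - x σ w * G β) * u w j)
          rw [h4]
          have h5 : ∑ w ∈ σ, (G (β + e1 w) - x σ w * G β) * u w j =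
              ∑ w, (G (β + e1 w) - x σ w * G β) * u w j := by
            apply Finset.sum_subset (Finset.subset_univ σ)
            intro w _ hw
            rw [hGs (β + e1 w) w hw (by rw [Pi.add_apply, res_e1_apply]; simp),
              (hx σ hσ1 hσ3).1 w hw]
            ring
          rw [h5]
          have h6 : ∀ w, G (β + e1 w) = Ft (β + ind (σ \ τ) + e1 w) := by
            intro w
            show Ft _ = Ft _
            congr 1
            funext z
            simp only [Pi.add_apply]; omega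
          simp only [sub_mul, Finset.sum_sub_distrib]
          have h7 : ∑ w, G (β + e1 w) * u w j = t j * G β := by
            rw [← h2]
            exact Finset.sum_congr rfl (fun w _ => by rw [h6]; ring)
          have h8 : ∑ w, x σ w * G β * u w j = t j * G β := by
            rw [← h3, Finset.sum_mul]
            exact Finset.sum_congr rfl (fun w _ => by ring)
          rw [h7, h8, sub_self]
        have h9 := hli (fun w : σ => G (β + e1 (w : V)) - x σ w * G β) h1 ⟨v, hv⟩
        simpa [sub_eq_zero] using h9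
      · rw [hGs (β + e1 v) v hv (by rw [Pi.add_apply, res_e1_apply]; simp),
          (hx σ hσ1 hσ3).1 v hv, zero_mul]
    have hG0 : G 0 = F (ind σ) := by
      show Ft (0 + ind (σ \ τ)) = _
      rw [zero_add, hFt.lead]
      · congr 1
        funext v
        rw [Pi.add_apply, res_ind_apply, res_ind_apply, res_ind_apply]
        by_cases h1 : v ∈ τ
        · simp [h1, hσ2 h1]
        · by_cases h2 : v ∈ σ <;> simp [h1, h2]
      · rw [res_sum_ind]
        rw [Finset.card_sdiff_add_card_eq_card hσ2, hσ3]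
    have hGγ : Ft (γ + ind (σ \ τ)) = F (ind σ) * mon (x σ) γ := by
      rw [← hG0]; exact eq_mon hGrec γ
    have hsum : ∑ σ' ∈ facets Δ d τ, μ σ' * mon (x σ') (γ + ind (σ \ τ)) =
        F (ind σ) * mon (x σ) γ := by
      rw [Finset.sum_eq_single σ]
      · rw [mon_add_ind, ← hμ1 σ hσ]; ring
      · intro σ' hσ' hne
        obtain ⟨h1, h2, h3⟩ := (hfac σ').1 hσ'
        obtain ⟨v, hv1, hv2⟩ : ∃ v ∈ σ, v ∉ σ' := by
          by_contra hcon
          push Not at hcon
          exact hne (Finset.eq_of_subset_of_card_le hcon (by rw [h3, hσ3])).symm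
        rw [mon_eq_zero (v := v) _ ((hx σ' h1 h3).1 v hv2), mul_zero]
        rw [Pi.add_apply, res_ind_apply, if_pos (Finset.mem_sdiff.2 ⟨hv1, fun h => hv2 (h2 h)⟩)]
        omega
      · intro h; exact absurd hσ h
    show Ft (γ + ind (σ \ τ)) - _ = 0
    rw [hGγ, hsum, sub_self]
  -- E vanishes
  have hE0 : ∀ α, E α = 0 := by
    by_contra hcon
    push Not at hcon
    obtain ⟨α0, hα0⟩ := hcon
    set P : Finset (Finset V) :=
      univ.filter (fun ρ => Δ ρ ∧ τ ⊆ ρ ∧ ∃ β, E (β + ind (ρ \ τ)) ≠ 0) with hP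
    have hPτ : τ ∈ P := by
      rw [hP, Finset.mem_filter]
      refine ⟨Finset.mem_univ _, hτ, subset_rfl, α0, ?_⟩
      have : α0 + ind (τ \ τ) = α0 := by
        funext v; simp [ind]
      rw [this]; exact hα0
    obtain ⟨ρ, hρ, hmax⟩ := Finset.exists_max_image P Finset.card ⟨τ, hPτ⟩
    rw [hP, Finset.mem_filter] at hρ
    obtain ⟨-, hρ1, hρ2, β, hβ⟩ := hρ
    have hρd : ρ.card < d := by
      rcases lt_or_eq_of_le (res_card_le hu hρ1) with h | h
      · exact h
      · exact absurd (hEfac ρ ((hfac ρ).2 ⟨hρ1, hρ2, h⟩) β) hβ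
    have hout : ∀ w, w ∉ ρ → E (β + ind (ρ \ τ) + e1 w) = 0 := by
      intro w hw
      by_contra h1
      have h2 := hEsupp _ h1
      have h3 : insert w ρ ⊆ supp (β + ind (ρ \ τ) + e1 w) ∪ τ := by
        intro z hz
        rw [Finset.mem_union]
        rcases Finset.mem_insert.1 hz with rfl | hz
        · left; rw [res_mem_supp, Pi.add_apply, res_e1_apply]; simp
        · by_cases hzτ : z ∈ τ
          · exact Or.inr hzτ
          · left
            rw [res_mem_supp, Pi.add_apply, Pi.add_apply, res_ind_apply,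
              if_pos (Finset.mem_sdiff.2 ⟨hz, hzτ⟩)]
            omega
      have h4 : Δ (insert w ρ) := hS.cpx.down _ _ h2 h3
      have hwτ : w ∉ τ := fun h => hw (hρ2 h)
      have h5 : insert w ρ ∈ P := by
        rw [hP, Finset.mem_filter]
        refine ⟨Finset.mem_univ _, h4, hρ2.trans (Finset.subset_insert _ _), β, ?_⟩
        have h6 : β + ind (insert w ρ \ τ) = β + ind (ρ \ τ) + e1 w := by
          funext z
          rw [Pi.add_apply, Pi.add_apply, Pi.add_apply, res_ind_apply, res_ind_apply,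
            res_e1_apply]
          by_cases hz : z = w
          · subst hz; simp [hwτ, hw]
          · simp [hz]
        rw [h6]; exact h1
      have h7 := hmax _ h5
      rw [Finset.card_insert_of_notMem hw] at h7
      omega
    apply ht ρ hρ1 hρd
    have h8 : t = ∑ v ∈ ρ, (E (β + ind (ρ \ τ) + e1 v) / E (β + ind (ρ \ τ))) • u v := by
      funext j
      have h9 := hErec j (β + ind (ρ \ τ))
      have h10 : ∑ v, u v j * E (β + ind (ρ \ τ) + e1 v) =
          ∑ v ∈ ρ, u v j * E (β + ind (ρ \ τ) + e1 v) := by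
        symm
        apply Finset.sum_subset (Finset.subset_univ ρ)
        intro w _ hw
        rw [hout w hw, mul_zero]
      rw [h10] at h9
      simp only [Finset.sum_apply, Pi.smul_apply, smul_eq_mul]
      have h11 : t j = (∑ v ∈ ρ, u v j * E (β + ind (ρ \ τ) + e1 v)) / E (β + ind (ρ \ τ)) := by
        rw [h9, mul_div_assoc, div_self hβ, mul_one]
      rw [h11, Finset.sum_div]
      exact Finset.sum_congr rfl (fun v _ => by ring)
    rw [h8]
    refine Submodule.sum_mem _ (fun v hv => Submodule.smul_mem _ _ (Submodule.subset_span ?_))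
    exact ⟨v, by exact_mod_cast hv, rfl⟩
  intro α
  have h := hE0 α
  simp only [hE, sub_eq_zero] at h
  rw [h]
  rfl

end Pool.Agent.H53.CF
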