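import Pool.Agent.H53.CF.Basic

/-!
# helper53 CF module TOP OPERATOR: right inverse of `θ = X_v + ∑_{w ≠ v} m w X_w` on the star of `v`

`(T f) α = ∑_{s < α v} (-1)^s (b^s f) (α - (s+1) e_v)`, `b = ∑_{w ≠ v} m w X_w`. Telescoping gives
`(X_v + b) T f = f`. `T` commutes with `X_w` for `w ≠ v` and with linear maps on the values.
If `v ∈ ρ` and `f ∈ Sm ρ i` then `T f ∈ Sm ρ (i + 1)` (each term `(b^s f) (α - (s+1) e_v)` nonzero
implies `Δ (supp (α - (s+1) e_v) ∪ ρ)`, and `v ∈ ρ`, so `Δ (supp α ∪ ρ)`; degrees add up).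
-/

namespace Pool.Agent.H53.CF

open Finset

variable {V : Type*} [Fintype V] [LinearOrder V]
variable {K : Type*} [Field K] {W : Type*} [AddCommGroup W] [Module K W]

/-- the operator `b = ∑_{w ≠ v} m w X_w` -/
def bT (v : V) (m : V → K) : ((V → ℕ) → W) →ₗ[K] ((V → ℕ) → W) :=
  Dop K W (fun w => if w = v then 0 else m w • LinearMap.id)

theorem bT_apply (v : V) (m : V → K) (f : (V → ℕ) → W) (β : V → ℕ) :
    bT v m f β = ∑ w ∈ univ.erase v, m w • f (β + e1 w) := by
  change ∑ w, (if w = v then (0 : W →ₗ[K] W) else m w • LinearMap.id) (f (β + e1 w)) = _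
  rw [← Finset.add_sum_erase univ _ (mem_univ v), if_pos rfl, LinearMap.zero_apply, zero_add]
  refine Finset.sum_congr rfl (fun w hw => ?_)
  rw [mem_erase] at hw
  rw [if_neg hw.1, LinearMap.smul_apply, LinearMap.id_apply]

theorem bT_pow_apply (v : V) (m : V → K) (s : ℕ) (f : (V → ℕ) → W) (β : V → ℕ) :
    ((bT v m : Module.End K ((V → ℕ) → W)) ^ (s + 1)) f β =
      ∑ w ∈ univ.erase v, m w • ((bT v m : Module.End K ((V → ℕ) → W)) ^ s) f (β + e1 w) := by
  rw [pow_succ', Module.End.mul_apply, bT_apply]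

theorem bT_pow_shift (v : V) (m : V → K) (s : ℕ) (f : (V → ℕ) → W) (w : V) (β : V → ℕ) :
    ((bT v m : Module.End K ((V → ℕ) → W)) ^ s) f (β + e1 w) =
      ((bT v m : Module.End K ((V → ℕ) → W)) ^ s) (fun β => f (β + e1 w)) β := by
  induction s generalizing β with
  | zero => simp
  | succ s ih =>
    rw [bT_pow_apply, bT_pow_apply]
    refine Finset.sum_congr rfl (fun x _ => ?_)
    rw [← ih, add_right_comm]

theorem bT_pow_map (v : V) (m : V → K) (s : ℕ) (B : W →ₗ[K] W) (f : (V → ℕ) → W)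
    (β : V → ℕ) :
    B (((bT v m : Module.End K ((V → ℕ) → W)) ^ s) f β) =
      ((bT v m : Module.End K ((V → ℕ) → W)) ^ s) (fun β => B (f β)) β := by
  induction s generalizing β with
  | zero => simp
  | succ s ih =>
    rw [bT_pow_apply, bT_pow_apply, map_sum]
    refine Finset.sum_congr rfl (fun x _ => ?_)
    rw [map_smul, ih]

theorem bT_pow_supp (v : V) (m : V → K) {Δ : Finset V → Prop} (hc : IsCpx Δ) {ρ : Finset V}
    {i : ℕ} {f : (V → ℕ) → W} (hf : f ∈ Sm K W Δ ρ i) (s : ℕ) (γ : V → ℕ)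
    (h : ((bT v m : Module.End K ((V → ℕ) → W)) ^ s) f γ ≠ 0) :
    ∑ x, γ x + s = i ∧ Δ (supp γ ∪ ρ) := by
  induction s generalizing γ with
  | zero =>
    have := hf γ (by simpa using h)
    exact ⟨by omega, this.2⟩
  | succ s ih =>
    rw [bT_pow_apply] at h
    obtain ⟨w, _, hw⟩ := Finset.exists_ne_zero_of_sum_ne_zero h
    have h1 : ((bT v m : Module.End K ((V → ℕ) → W)) ^ s) f (γ + e1 w) ≠ 0 := by
      intro h0
      rw [h0, smul_zero] at hw
      exact hw rfl
    obtain ⟨h2, h3⟩ := ih _ h1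
    have h4 : ∑ x, (γ + e1 w) x = ∑ x, γ x + 1 := by
      simp only [Pi.add_apply, Finset.sum_add_distrib]
      congr 1
      rw [Finset.sum_eq_single w]
      · simp [e1]
      · intro x _ hx; simp [e1, Pi.single_apply, hx]
      · intro hx; exact absurd (mem_univ w) hx
    refine ⟨by omega, hc.down _ _ h3 ?_⟩
    intro x hx
    rw [mem_union] at hx ⊢
    rcases hx with hx | hx
    · left
      unfold supp at hx ⊢
      rw [mem_filter] at hx ⊢
      refine ⟨mem_univ _, ?_⟩
      rw [Pi.add_apply]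
      omega
    · right; exact hx

/-- the right inverse -/
def TT (v : V) (m : V → K) : ((V → ℕ) → W) →ₗ[K] ((V → ℕ) → W) where
  toFun f := fun α => ∑ s ∈ range (α v), (-1 : K) ^ s •
    ((bT v m : Module.End K ((V → ℕ) → W)) ^ s) f (α - (s + 1) • e1 v)
  map_add' f g := by
    funext α
    simp only [Pi.add_apply, map_add, smul_add, Finset.sum_add_distrib]
  map_smul' c f := by
    funext α
    simp only [Pi.smul_apply, map_smul, RingHom.id_apply, Finset.smul_sum]
    exact Finset.sum_congr rfl (fun s _ => smul_comm _ _ _)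

theorem TT_apply (v : V) (m : V → K) (f : (V → ℕ) → W) (α : V → ℕ) :
    TT v m f α = ∑ s ∈ range (α v), (-1 : K) ^ s •
      ((bT v m : Module.End K ((V → ℕ) → W)) ^ s) f (α - (s + 1) • e1 v) := rfl

theorem sub_shift_T {v w : V} (hw : w ≠ v) (β : V → ℕ) (n : ℕ) :
    β + e1 w - n • e1 v = (β - n • e1 v) + e1 w := by
  funext x
  simp only [Pi.add_apply, Pi.sub_apply, Pi.smul_apply, e1, Pi.single_apply, smul_eq_mul]
  by_cases hx : x = v
  · subst hx
    rw [if_neg (fun h => hw h.symm)]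
    simp
  · rw [if_neg hx]; simp

theorem sub_self_T {v : V} (β : V → ℕ) (n : ℕ) :
    β + e1 v - (n + 1) • e1 v = β - n • e1 v := by
  funext x
  simp only [Pi.add_apply, Pi.sub_apply, Pi.smul_apply, e1, Pi.single_apply, smul_eq_mul]
  split_ifs <;> omega

theorem TT_right (v : V) (m : V → K) (hm : m v = 1) (f : (V → ℕ) → W) (β : V → ℕ) :
    ∑ w, m w • TT v m f (β + e1 w) = f β := by
  rw [← Finset.add_sum_erase univ _ (mem_univ v), hm, one_smul]
  have h1 : TT v m f (β + e1 v) = ∑ s ∈ range (β v + 1), (-1 : K) ^ s •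
      ((bT v m : Module.End K ((V → ℕ) → W)) ^ s) f (β - s • e1 v) := by
    rw [TT_apply]
    have : (β + e1 v) v = β v + 1 := by simp [e1]
    rw [this]
    refine Finset.sum_congr rfl (fun s _ => ?_)
    rw [sub_self_T]
  have h2 : ∑ w ∈ univ.erase v, m w • TT v m f (β + e1 w) =
      ∑ s ∈ range (β v), (-1 : K) ^ s •
        ((bT v m : Module.End K ((V → ℕ) → W)) ^ (s + 1)) f (β - (s + 1) • e1 v) := by
    have h3 : ∀ w ∈ univ.erase v, m w • TT v m f (β + e1 w) =
        ∑ s ∈ range (β v), (-1 : K) ^ s • (m w •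
          ((bT v m : Module.End K ((V → ℕ) → W)) ^ s) f (β - (s + 1) • e1 v + e1 w)) := by
      intro w hw
      rw [mem_erase] at hw
      have h4 : (β + e1 w) v = β v := by
        simp [e1, Pi.single_apply, hw.1.symm]
      rw [TT_apply, h4, Finset.smul_sum]
      refine Finset.sum_congr rfl (fun s _ => ?_)
      rw [sub_shift_T hw.1, smul_comm]
    rw [Finset.sum_congr rfl h3, Finset.sum_comm]
    refine Finset.sum_congr rfl (fun s _ => ?_)
    rw [bT_pow_apply, Finset.smul_sum]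
  rw [h1, h2, Finset.sum_range_succ']
  have h5 : ∑ s ∈ range (β v), (-1 : K) ^ (s + 1) •
      ((bT v m : Module.End K ((V → ℕ) → W)) ^ (s + 1)) f (β - (s + 1) • e1 v) =
      - ∑ s ∈ range (β v), (-1 : K) ^ s •
        ((bT v m : Module.End K ((V → ℕ) → W)) ^ (s + 1)) f (β - (s + 1) • e1 v) := by
    rw [← Finset.sum_neg_distrib]
    refine Finset.sum_congr rfl (fun s _ => ?_)
    rw [pow_succ, mul_neg_one, neg_smul]
  rw [h5]
  simp

theorem exists_T (v : V) (m : V → K) (hm : m v = 1) :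
    ∃ T : ((V → ℕ) → W) →ₗ[K] ((V → ℕ) → W),
      (∀ f β, ∑ w, m w • T f (β + e1 w) = f β) ∧
      (∀ w, w ≠ v → ∀ f, (fun β => T f (β + e1 w)) = T (fun β => f (β + e1 w))) ∧
      (∀ (B : W →ₗ[K] W) f, (fun β => B (T f β)) = T (fun β => B (f β))) ∧
      (∀ (Δ : Finset V → Prop), IsCpx Δ → ∀ ρ, v ∈ ρ → ∀ i, ∀ f ∈ Sm K W Δ ρ i,
        T f ∈ Sm K W Δ ρ (i + 1)) := by
  refine ⟨TT v m, TT_right v m hm, ?_, ?_, ?_⟩
  · intro w hw f
    funext β
    have h4 : (β + e1 w) v = β v := by
      simp [e1, Pi.single_apply, hw.symm]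
    rw [TT_apply, TT_apply, h4]
    refine Finset.sum_congr rfl (fun s _ => ?_)
    rw [sub_shift_T hw, bT_pow_shift]
  · intro B f
    funext β
    rw [TT_apply, TT_apply, map_sum]
    refine Finset.sum_congr rfl (fun s _ => ?_)
    rw [map_smul, bT_pow_map]
  · intro Δ hc ρ hv i f hf α hα
    rw [TT_apply] at hα
    obtain ⟨s, hs, hne⟩ := Finset.exists_ne_zero_of_sum_ne_zero hα
    rw [mem_range] at hs
    have h1 : ((bT v m : Module.End K ((V → ℕ) → W)) ^ s) f (α - (s + 1) • e1 v) ≠ 0 := by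
      intro h0
      rw [h0, smul_zero] at hne
      exact hne rfl
    obtain ⟨h2, h3⟩ := bT_pow_supp v m hc hf s _ h1
    have h4 : ∑ x, α x = ∑ x, (α - (s + 1) • e1 v) x + (s + 1) := by
      rw [← Finset.add_sum_erase univ _ (mem_univ v),
        ← Finset.add_sum_erase univ (fun x => (α - (s + 1) • e1 v) x) (mem_univ v)]
      have h5 : (α - (s + 1) • e1 v) v = α v - (s + 1) := by
        simp [e1]
      have h6 : ∑ x ∈ univ.erase v, (α - (s + 1) • e1 v) x = ∑ x ∈ univ.erase v, α x := by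
        refine Finset.sum_congr rfl (fun x hx => ?_)
        rw [mem_erase] at hx
        simp [e1, Pi.single_apply, hx.1]
      rw [h5, h6]
      omega
    refine ⟨by omega, hc.down _ _ h3 ?_⟩
    intro x hx
    rw [mem_union] at hx ⊢
    rcases hx with hx | hx
    · by_cases hxv : x = v
      · right; rw [hxv]; exact hv
      · left
        unfold supp at hx ⊢
        rw [mem_filter] at hx ⊢
        refine ⟨mem_univ _, ?_⟩
        have : (α - (s + 1) • e1 v) x = α x := by
          simp [e1, Pi.single_apply, hxv]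
        rw [this]
        exact hx.2
    · right; exact hx

end Pool.Agent.H53.CF
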